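import Pool.Agent.W_MP_9f10ef_co.PCut

/-!
# MP_9f10ef_co : bad 2-cuts
-/

namespace W_MP_9f10ef_co

open Classical

universe u

variable {V : Type u} {G : SimpleGraph V}

/-- A *bad 2-cut*: two disjoint nonadjacent connected sets `X1`, `X2` such that `G - X1 - X2` has
three distinct components `Y1`, `Y2`, `Y3`, with `Y1` touching `X1` and `X2`, `Y2` touching `X1`
and `Y3` touching `X2`. -/
def BadCut (G : SimpleGraph V) (X1 X2 : Set V) : Prop :=
  Cut G X1 X2 ∧ ∃ Y1 Y2 Y3, IsComp G (X1 ∪ X2)ᶜ Y1 ∧ IsComp G (X1 ∪ X2)ᶜ Y2 ∧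
    IsComp G (X1 ∪ X2)ᶜ Y3 ∧ Y1 ≠ Y2 ∧ Y1 ≠ Y3 ∧ Y2 ≠ Y3 ∧
    Touch G X1 Y1 ∧ Touch G X2 Y1 ∧ Touch G X1 Y2 ∧ Touch G X2 Y3

theorem BadCut.symm {X1 X2 : Set V} (h : BadCut G X1 X2) : BadCut G X2 X1 := by
  obtain ⟨hC, Y1, Y2, Y3, h1, h2, h3, h12, h13, h23, t1, t2, t3, t4⟩ := h
  rw [Set.union_comm] at h1 h2 h3
  exact ⟨hC.symm, Y1, Y3, Y2, h1, h3, h2, h13, h12, h23.symm, t2, t1, t4, t3⟩

/-- A component of `X \ A` touches `A`. -/
theorem comp_touch {X A D : Set V} (hX : Conn G X) (hAX : A ⊆ X) (hA : A.Nonempty)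
    (hD : IsComp G (X \ A) D) : Touch G A D := by
  have hDX : D ⊆ X := hD.1.trans Set.sdiff_subset
  obtain ⟨a, ha⟩ := hA
  obtain ⟨d, hd, x, hx, hdx⟩ := (conn_iff.1 hX).2 D hDX hD.nonempty
    ⟨a, hAX ha, fun h => (hD.1 h).2 ha⟩
  by_cases hxA : x ∈ A
  · exact ⟨x, hxA, d, hd, hdx.symm⟩
  · exact absurd (hD.mem_of_adj hd ⟨hx.1, hxA⟩ hdx) hx.2

/-- Removing a component of `X \ A` from `X` leaves a connected set. -/
theorem conn_sdiff_comp [Finite V] {X A M : Set V} (hX : Conn G X) (hA : Conn G A) (hAX : A ⊆ X)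
    (hM : IsComp G (X \ A) M) : Conn G (X \ M) := by
  have h := hA.iUnion_of_touch (ι := {D : Set V // IsComp G (X \ A) D ∧ D ≠ M})
    (B := fun D => D.1) (fun D => D.2.1.conn)
    (fun D => Or.inr (comp_touch hX hAX hA.nonempty D.2.1))
  have heq : X \ M = A ∪ ⋃ D : {D : Set V // IsComp G (X \ A) D ∧ D ≠ M}, D.1 := by
    ext x
    simp only [Set.mem_sdiff, Set.mem_union, Set.mem_iUnion]
    constructor
    · rintro ⟨hx, hxM⟩
      by_cases hxA : x ∈ A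
      · exact Or.inl hxA
      · obtain ⟨D, hD, hxD⟩ := exists_comp_mem (G := G) (X := X \ A) ⟨hx, hxA⟩
        exact Or.inr ⟨⟨D, hD, fun h => hxM (h ▸ hxD)⟩, hxD⟩
    · rintro (hx | ⟨⟨D, hD, hne⟩, hx⟩)
      · exact ⟨hAX hx, fun h => (hM.1 h).2 hx⟩
      · refine ⟨(hD.1 hx).1, fun h => hne (hD.eq_of_mem hM hx h)⟩
  rw [heq]; exact h

theorem exists_extreme [Finite V] {X T : Set V} (hX : Conn G X) (hTX : T ⊆ X) (hne : T.Nonempty)
    (hnc : ∀ v ∈ T, ¬ Conn G (X \ {v})) (hsing : ∀ v ∈ T, X ≠ {v}) :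
    ∃ m ∈ T, ∃ M, IsComp G (X \ {m}) M ∧ (∀ v ∈ M, v ∉ T) ∧ Conn G (X \ M) ∧ Touch G {m} M ∧
      (∃ v ∈ M, Conn G (X \ {v})) ∧ (∃ v ∈ X \ M, Conn G (X \ {v})) := by
  have hfin : {p : V × Set V | p.1 ∈ T ∧ IsComp G (X \ {p.1}) p.2}.Finite := Set.toFinite _
  have hnon : {p : V × Set V | p.1 ∈ T ∧ IsComp G (X \ {p.1}) p.2}.Nonempty := by
    obtain ⟨m, hm⟩ := hne
    have : (X \ {m}).Nonempty := by
      by_contra h
      rw [Set.not_nonempty_iff_eq_empty, Set.sdiff_eq_empty] at h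
      exact hsing m hm (le_antisymm h (by simpa using hTX hm))
    obtain ⟨x, hx⟩ := this
    obtain ⟨M, hM, _⟩ := exists_comp_mem (G := G) hx
    exact ⟨(m, M), hm, hM⟩
  obtain ⟨⟨m, M⟩, ⟨hm, hM⟩, hmin⟩ :=
    Set.exists_min_image _ (fun p : V × Set V => p.2.ncard) hfin hnon
  simp only at hm hM hmin
  have hsubm : ({m} : Set V) ⊆ X := by simpa using hTX hm
  have hXM : Conn G (X \ M) := conn_sdiff_comp hX (conn_singleton m) hsubm hM
  have hMX : M ⊆ X := hM.1.trans Set.sdiff_subset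
  refine ⟨m, hm, M, hM, ?_, hXM, comp_touch hX hsubm ⟨m, rfl⟩ hM, ?_, ?_⟩
  · intro m' hm' hT
    have hsub : X \ M ⊆ X \ {m'} := by
      intro x hx
      refine ⟨hx.1, ?_⟩
      rintro rfl
      exact hx.2 hm'
    obtain ⟨K, hK, hKs⟩ := exists_comp hXM hsub
    have hKne : ¬ X \ {m'} ⊆ K := by
      intro h
      apply hnc m' hT
      rw [← le_antisymm hK.1 h]
      exact hK.conn
    obtain ⟨u, hu, huK⟩ := Set.not_subset.1 hKne
    obtain ⟨M', hM', huM'⟩ := exists_comp_mem (G := G) hu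
    have hM'K : Disjoint M' K := by
      rcases hM'.eq_or_disjoint hK with h | h
      · exact absurd (h ▸ huM') huK
      · exact h
    have hM'M : M' ⊆ M := by
      intro x hx
      by_contra hxM
      exact Set.disjoint_left.1 hM'K hx (hKs ⟨(hM'.1 hx).1, hxM⟩)
    have hlt : M'.ncard < M.ncard := by
      apply Set.ncard_lt_ncard _ (Set.toFinite _)
      refine ⟨hM'M, fun h => ?_⟩
      exact (hM'.1 (h hm')).2 rfl
    have := hmin (m', M') ⟨hT, hM'⟩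
    simp only at this
    omega
  · obtain ⟨v, hv, hvn, hvc⟩ := exists_noncut_avoid hX hXM Set.sdiff_subset (by
      intro h
      obtain ⟨x, hx⟩ := hM.nonempty
      have : x ∈ X \ M := by rw [h]; exact hMX hx
      exact this.2 hx)
    refine ⟨v, ?_, hvc⟩
    by_contra h
    exact hvn ⟨hv, h⟩
  · -- another component
    have : ¬ X \ {m} ⊆ M := by
      intro h
      apply hnc m hm
      rw [← le_antisymm hM.1 h]
      exact hM.conn
    obtain ⟨u, hu, huM⟩ := Set.not_subset.1 this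
    obtain ⟨M', hM', huM'⟩ := exists_comp_mem (G := G) hu
    have hMM' : Disjoint M' M := by
      rcases hM'.eq_or_disjoint hM with h | h
      · exact absurd (h ▸ huM') huM
      · exact h
    have hXM' : Conn G (X \ M') := conn_sdiff_comp hX (conn_singleton m) hsubm hM'
    obtain ⟨v, hv, hvn, hvc⟩ := exists_noncut_avoid hX hXM' Set.sdiff_subset (by
      intro h
      have : u ∈ X \ M' := by rw [h]; exact hu.1
      exact this.2 huM')
    have hvM' : v ∈ M' := by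
      by_contra h
      exact hvn ⟨hv, h⟩
    exact ⟨v, ⟨hv, Set.disjoint_left.1 hMM' hvM'⟩, hvc⟩

/-- every connected set of two distinct points etc.: end vertices exist. -/
theorem exists_end [Finite V] {C : Set V} (hC : Conn G C) :
    ∃ c ∈ C, C = {c} ∨ Conn G (C \ {c}) := by
  obtain ⟨c0, hc0⟩ := hC.nonempty
  by_cases h : C = {c0}
  · exact ⟨c0, hc0, Or.inl h⟩
  · obtain ⟨v, hv, _, hv'⟩ := exists_noncut_ne hC hc0 h
    exact ⟨v, hv, Or.inr hv'⟩

/-- `v` touches the set `Y`. -/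
def VT (G : SimpleGraph V) (v : V) (Y : Set V) : Prop := ∃ y ∈ Y, G.Adj v y

theorem touch_iff_vt {X Y : Set V} : Touch G X Y ↔ ∃ v ∈ X, VT G v Y := Iff.rfl

/-- In a minimal bad cut with all components full, an end vertex of `X1` misses at most one
component. -/
theorem end_touch [Finite V] {X1 X2 : Set V} (hC : Cut G X1 X2)
    (hfull : ∀ Y, IsComp G (X1 ∪ X2)ᶜ Y → Touch G X1 Y ∧ Touch G X2 Y)
    (hmin : ∀ X1', X1' ⊆ X1 → X1' ≠ X1 → ¬ BadCut G X1' X2)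
    {v : V} (hv : v ∈ X1) (hend : X1 = {v} ∨ Conn G (X1 \ {v})) {Y Y' : Set V}
    (hY : IsComp G (X1 ∪ X2)ᶜ Y) (hY' : IsComp G (X1 ∪ X2)ᶜ Y') (hne : Y ≠ Y') :
    VT G v Y ∨ VT G v Y' := by
  by_contra hno
  push Not at hno
  obtain ⟨h1, h2⟩ := hno
  rcases hend with hend | hend
  · obtain ⟨x, hx, hxY⟩ := (hfull Y hY).1
    rw [hend] at hx
    have hx : x = v := hx
    subst hx
    exact h1 hxY
  · refine hmin (X1 \ {v}) Set.sdiff_subset ?_ ?_
    · intro h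
      have : v ∈ X1 \ {v} := by rw [h]; exact hv
      exact this.2 rfl
    have hcut : Cut G (X1 \ {v}) X2 := ⟨hend, hC.conn2, hC.disj.mono_left Set.sdiff_subset,
      fun h => hC.nt (h.mono Set.sdiff_subset subset_rfl)⟩
    -- components after removal
    have hrem : ∀ Z, IsComp G (X1 ∪ X2)ᶜ Z → ¬ VT G v Z → IsComp G ((X1 \ {v}) ∪ X2)ᶜ Z := by
      intro Z hZ hvZ
      rw [Set.union_comm] at hZ ⊢
      apply hZ.of_remove
      intro y hy h
      exact hvZ ⟨y, hy, h⟩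
    have hvE : v ∈ ((X1 \ {v}) ∪ X2)ᶜ := by
      rintro (h | h)
      · exact h.2 rfl
      · exact Set.disjoint_left.1 hC.disj hv h
    obtain ⟨E, hE, hvE'⟩ := exists_comp_mem (G := G) hvE
    have hEt : Touch G (X1 \ {v}) E := by
      have := (conn_iff.1 hC.conn1).2 {v} (by simpa using hv) ⟨v, rfl⟩ hend.nonempty
      exact this.symm.mono subset_rfl (by simpa using hvE')
    have hEne : ∀ Z, IsComp G (X1 ∪ X2)ᶜ Z → Z ≠ E := by
      rintro Z hZ rfl
      exact hZ.1 hvE' (Or.inl hv)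
    have ht : ∀ Z, IsComp G (X1 ∪ X2)ᶜ Z → ¬ VT G v Z → Touch G (X1 \ {v}) Z := by
      intro Z hZ hvZ
      obtain ⟨x, hx, hxZ⟩ := (hfull Z hZ).1
      refine ⟨x, ⟨hx, ?_⟩, hxZ⟩
      rintro rfl
      exact hvZ hxZ
    exact ⟨hcut, Y, E, Y', hrem Y hY h1, hE, hrem Y' hY' h2, hEne Y hY, hne, (hEne Y' hY').symm,
      ht Y hY h1, (hfull Y hY).2, hEt, (hfull Y' hY').2⟩

end W_MP_9f10ef_co
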