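import Pool.Agent.W_MP_9f10ef_co.Defs

/-!
# MP_9f10ef_co : Theorem A, the pendant case

If `X1`, `X2` are disjoint nonadjacent connected sets such that `G - X1 - X2` has a component `P`
touching `X1` but not `X2`, and two distinct components touching `X2`, then `G ∉ 𝒢^cs`.
-/

namespace W_MP_9f10ef_co

open Classical

universe u

variable {V : Type u} {G : SimpleGraph V}

/-- In a connected set `C` with a proper connected subset `A` there is a vertex outside `A` whose
removal leaves `C` connected. -/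
theorem exists_noncut_avoid [Finite V] {C A : Set V} (hC : Conn G C) (hA : Conn G A) (hAC : A ⊆ C)
    (hne : A ≠ C) : ∃ v ∈ C, v ∉ A ∧ Conn G (C \ {v}) := by
  have hfin : {D : Set V | A ⊆ D ∧ D ⊆ C ∧ D ≠ C ∧ Conn G D}.Finite := Set.toFinite _
  obtain ⟨B, hB⟩ := hfin.exists_maximal ⟨A, subset_rfl, hAC, hne, hA⟩
  obtain ⟨hAB, hBC, hBne, hBconn⟩ := hB.prop
  have hnon : (C \ B).Nonempty := by
    rw [Set.nonempty_iff_ne_empty]
    intro h0
    exact hBne (le_antisymm hBC (Set.sdiff_eq_empty.1 h0))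
  obtain ⟨b, hb, v, hv, hbv⟩ := (conn_iff.1 hC).2 B hBC hBconn.nonempty hnon
  refine ⟨v, hv.1, fun h => hv.2 (hAB h), ?_⟩
  have hins : Conn G (insert v B) := hBconn.insert ⟨b, hb, hbv⟩
  have heq : insert v B = C := by
    by_contra hne'
    have := hB.le_of_ge ⟨hAB.trans (Set.subset_insert _ _),
      Set.insert_subset hv.1 hBC, hne', hins⟩ (Set.subset_insert _ _)
    exact hv.2 (this (Set.mem_insert _ _))
  have : C \ {v} = B := by
    rw [← heq]
    ext x
    simp only [Set.mem_sdiff, Set.mem_insert_iff, Set.mem_singleton_iff]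
    constructor
    · rintro ⟨h | h, h'⟩
      · exact absurd h h'
      · exact h
    · intro h
      refine ⟨Or.inr h, ?_⟩
      rintro rfl
      exact hv.2 h
  rw [this]; exact hBconn

theorem exists_noncut_ne [Finite V] {C : Set V} (hC : Conn G C) {c : V} (hc : c ∈ C)
    (hne : C ≠ {c}) : ∃ v ∈ C, v ≠ c ∧ Conn G (C \ {v}) := by
  obtain ⟨v, hv, hv', h⟩ := exists_noncut_avoid hC (conn_singleton c) (by simpa using hc)
    (fun h => hne h.symm)
  exact ⟨v, hv, by simpa using hv', h⟩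

/-- two disjoint nonadjacent connected sets -/
structure Cut (G : SimpleGraph V) (X1 X2 : Set V) : Prop where
  conn1 : Conn G X1
  conn2 : Conn G X2
  disj : Disjoint X1 X2
  nt : ¬ Touch G X1 X2

theorem Cut.symm {X1 X2 : Set V} (h : Cut G X1 X2) : Cut G X2 X1 :=
  ⟨h.conn2, h.conn1, h.disj.symm, fun ht => h.nt ht.symm⟩

/-- a pendant cut -/
def PCut (G : SimpleGraph V) (X1 X2 : Set V) : Prop :=
  Cut G X1 X2 ∧ ∃ P, IsComp G (X1 ∪ X2)ᶜ P ∧ Touch G X1 P ∧ ¬ Touch G X2 P ∧
    ∃ Y Y', IsComp G (X1 ∪ X2)ᶜ Y ∧ IsComp G (X1 ∪ X2)ᶜ Y' ∧ Y ≠ Y' ∧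
      Touch G X2 Y ∧ Touch G X2 Y'

/-- A component of `G - X1 - X2` not touched by `c ∈ X2` is a component of
`G - X1 - (X2 \ c)`. -/
theorem IsComp.of_remove {X1 X2 Y : Set V} {c : V} (hY : IsComp G (X1 ∪ X2)ᶜ Y)
    (hc : ∀ y ∈ Y, ¬ G.Adj c y) : IsComp G (X1 ∪ (X2 \ {c}))ᶜ Y := by
  refine isComp_of_closed hY.conn ?_ ?_
  · refine hY.1.trans ?_
    apply Set.compl_subset_compl.2
    exact Set.union_subset_union_right _ Set.sdiff_subset
  · intro y hy v hv hyv
    by_cases hvc : v = c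
    · subst hvc; exact absurd hyv.symm (hc y hy)
    · refine hY.mem_of_adj hy ?_ hyv
      intro hv'
      apply hv
      rcases hv' with h | h
      · exact Or.inl h
      · exact Or.inr ⟨h, hvc⟩

/-- the configuration used for the weights -/
structure PConfig (G : SimpleGraph V) where
  (X1 X2 P Y2 Y3 : Set V)
  (r1 y1 c y2 y3 : V)
  cut : Cut G X1 X2
  hP : IsComp G (X1 ∪ X2)ᶜ P
  hP2 : ¬ Touch G X2 P
  hY2 : IsComp G (X1 ∪ X2)ᶜ Y2
  hY3 : IsComp G (X1 ∪ X2)ᶜ Y3
  hne : Y2 ≠ Y3
  hr1 : r1 ∈ X1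
  hy1 : y1 ∈ P
  hc : c ∈ X2
  hy2 : y2 ∈ Y2
  hy3 : y3 ∈ Y3
  a1 : G.Adj r1 y1
  a2 : G.Adj c y2
  a3 : G.Adj c y3

theorem exists_pconfig [Finite V] : ∀ (n : ℕ) (X1 X2 : Set V), X2.ncard = n → PCut G X1 X2 →
    Nonempty (PConfig G) := by
  intro n
  induction n using Nat.strong_induction_on with
  | _ n ih =>
  intro X1 X2 hn hcut
  obtain ⟨hC, P, hP, hP1, hP2, Y, Y', hY, hY', hne, hYt, hYt'⟩ := hcut
  -- choose c
  have hcex : ∃ c ∈ X2, X2 = {c} ∨ Conn G (X2 \ {c}) := by
    obtain ⟨c0, hc0⟩ := hC.conn2.nonempty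
    by_cases h : X2 = {c0}
    · exact ⟨c0, hc0, Or.inl h⟩
    · obtain ⟨v, hv, _, hv'⟩ := exists_noncut_ne hC.conn2 hc0 h
      exact ⟨v, hv, Or.inr hv'⟩
  obtain ⟨c, hc, hc'⟩ := hcex
  obtain ⟨r1, hr1, y1, hy1, a1⟩ := hP1
  by_cases htwo : ∃ Z Z', IsComp G (X1 ∪ X2)ᶜ Z ∧ IsComp G (X1 ∪ X2)ᶜ Z' ∧ Z ≠ Z' ∧
      (∃ z ∈ Z, G.Adj c z) ∧ (∃ z ∈ Z', G.Adj c z)
  · obtain ⟨Z, Z', hZ, hZ', hZZ, ⟨z, hz, hcz⟩, z', hz', hcz'⟩ := htwo
    exact ⟨⟨X1, X2, P, Z, Z', r1, y1, c, z, z', hC, hP, hP2, hZ, hZ', hZZ, hr1, hy1, hc, hz, hz',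
      a1, hcz, hcz'⟩⟩
  · -- a component touching X2 but not c
    rcases hc' with hsing | hconn
    · exfalso
      apply htwo
      refine ⟨Y, Y', hY, hY', hne, ?_, ?_⟩
      · obtain ⟨x, hx, y, hy, hxy⟩ := hYt
        rw [hsing] at hx
        have hx : x = c := hx
        subst hx
        exact ⟨y, hy, hxy⟩
      · obtain ⟨x, hx, y, hy, hxy⟩ := hYt'
        rw [hsing] at hx
        have hx : x = c := hx
        subst hx
        exact ⟨y, hy, hxy⟩
    · have hZex : ∃ Z, IsComp G (X1 ∪ X2)ᶜ Z ∧ Touch G X2 Z ∧ ∀ z ∈ Z, ¬ G.Adj c z := by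
        by_cases h1 : ∃ z ∈ Y, G.Adj c z
        · refine ⟨Y', hY', hYt', ?_⟩
          intro z hz hcz
          exact htwo ⟨Y, Y', hY, hY', hne, h1, z, hz, hcz⟩
        · push Not at h1
          exact ⟨Y, hY, hYt, h1⟩
      obtain ⟨Z, hZ, hZt, hZc⟩ := hZex
      have hX2' : Cut G X1 (X2 \ {c}) :=
        ⟨hC.conn1, hconn, hC.disj.mono_right Set.sdiff_subset,
          fun h => hC.nt (h.mono subset_rfl Set.sdiff_subset)⟩
      have hlt : (X2 \ {c}).ncard < n := by
        rw [← hn]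
        exact Set.ncard_sdiff_singleton_lt_of_mem hc
      -- touching of P, Z with the smaller set
      have hPc : ∀ y ∈ P, ¬ G.Adj c y := fun y hy h => hP2 ⟨c, hc, y, hy, h⟩
      have hZ' := hZ.of_remove hZc
      have hcE : c ∈ (X1 ∪ (X2 \ {c}))ᶜ := by
        intro h
        rcases h with h | h
        · exact Set.disjoint_left.1 hC.disj h hc
        · exact h.2 rfl
      obtain ⟨E, hE, hcE'⟩ := exists_comp_mem (G := G) hcE
      -- c is adjacent to X2 \ {c}
      have hcadj : Touch G (X2 \ {c}) E := by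
        have := (conn_iff.1 hC.conn2).2 {c} (by simpa using hc) ⟨c, rfl⟩ hconn.nonempty
        exact this.symm.mono subset_rfl (by simpa using hcE')
      refine ih _ hlt X1 (X2 \ {c}) rfl ⟨hX2', P, hP.of_remove hPc, ⟨r1, hr1, y1, hy1, a1⟩,
        fun h => hP2 (h.mono Set.sdiff_subset subset_rfl), E, Z, hE, hZ', ?_, hcadj, ?_⟩
      · rintro rfl
        have : c ∈ (X1 ∪ X2)ᶜ := hZ.1 hcE'
        exact this (Or.inr hc)
      · obtain ⟨x, hx, z, hz, hxz⟩ := hZt
        refine ⟨x, ⟨hx, ?_⟩, z, hz, hxz⟩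
        rintro rfl
        exact hZc z hz hxz

/-! ### the weights -/

section weights

variable [Fintype V]

theorem wt_add (f g : V → ℝ) (X : Set V) : wt (fun v => f v + g v) X = wt f X + wt g X := by
  unfold wt
  rw [← Finset.sum_add_distrib]
  refine Finset.sum_congr rfl fun v _ => ?_
  by_cases h : v ∈ X <;> simp [h]

theorem wt_single (a : V) (r : ℝ) (X : Set V) :
    wt (fun v => if v = a then r else 0) X = if a ∈ X then r else 0 := by
  unfold wt
  have : ∀ v, X.indicator (fun v => if v = a then r else 0) v =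
      if v = a then (if a ∈ X then r else 0) else 0 := by
    intro v
    by_cases hva : v = a
    · subst hva
      by_cases h : v ∈ X <;> simp [h]
    · by_cases h : v ∈ X <;> simp [h, hva]
  simp only [this]
  simp

/-- the uniform small weight on a set `R` -/
theorem wt_const_on (e : ℝ) (R X : Set V) [∀ v, Decidable (v ∈ R)] :
    wt (fun v => if v ∈ R then e else 0) X = e * (R ∩ X).ncard := by
  unfold wt
  have : ∀ v, X.indicator (fun v => if v ∈ R then e else 0) v =
      if v ∈ R ∩ X then e else 0 := by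
    intro v
    by_cases h1 : v ∈ X <;> by_cases h2 : v ∈ R <;> simp [h1, h2]
  simp only [this]
  rw [Finset.sum_ite, Finset.sum_const_zero, add_zero, Finset.sum_const, nsmul_eq_mul, mul_comm]
  congr 2
  rw [Set.ncard_eq_toFinset_card']
  congr 1
  ext v
  simp

end weights

/-- Components of `X1 ∪ X2` are `X1` and `X2`. -/
theorem Cut.comp_eq {X1 X2 C : Set V} (h : Cut G X1 X2) (hC : IsComp G (X1 ∪ X2) C) :
    C = X1 ∨ C = X2 := by
  have h1 : IsComp G (X1 ∪ X2) X1 := by
    refine isComp_of_closed h.conn1 Set.subset_union_left ?_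
    intro c hc v hv hcv
    rcases hv with hv | hv
    · exact hv
    · exact absurd ⟨c, hc, v, hv, hcv⟩ h.nt
  have h2 : IsComp G (X1 ∪ X2) X2 := by
    refine isComp_of_closed h.conn2 Set.subset_union_right ?_
    intro c hc v hv hcv
    rcases hv with hv | hv
    · exact absurd ⟨v, hv, c, hc, hcv.symm⟩ h.nt
    · exact hv
  obtain ⟨x, hx⟩ := hC.nonempty
  rcases hC.1 hx with hx' | hx'
  · exact Or.inl (hC.eq_of_mem h1 hx hx')
  · exact Or.inr (hC.eq_of_mem h2 hx hx')

theorem PConfig.not_inGcs [Fintype V] (F : PConfig G) : ¬ InGcs G := by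
  intro hGcs
  have hG : G.Connected := hGcs.1
  revert hGcs
  obtain ⟨X1, X2, P, Y2, Y3, r1, y1, c, y2, y3, hC, hP, hP2, hY2, hY3, hne, hr1, hy1, hc, hy2,
    hy3, a1, a2, a3⟩ := F
  -- basic non-membership
  have hdisj := Set.disjoint_left.1 hC.disj
  have hPX : ∀ v ∈ P, v ∉ X1 ∧ v ∉ X2 := fun v hv =>
    ⟨fun h => hP.1 hv (Or.inl h), fun h => hP.1 hv (Or.inr h)⟩
  have hY2X : ∀ v ∈ Y2, v ∉ X1 ∧ v ∉ X2 := fun v hv =>
    ⟨fun h => hY2.1 hv (Or.inl h), fun h => hY2.1 hv (Or.inr h)⟩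
  have hY3X : ∀ v ∈ Y3, v ∉ X1 ∧ v ∉ X2 := fun v hv =>
    ⟨fun h => hY3.1 hv (Or.inl h), fun h => hY3.1 hv (Or.inr h)⟩
  have hPY2 : P ≠ Y2 := by
    rintro rfl; exact hP2 ⟨c, hc, y2, hy2, a2⟩
  have hPY3 : P ≠ Y3 := by
    rintro rfl; exact hP2 ⟨c, hc, y3, hy3, a3⟩
  have hy2P : y2 ∉ P := fun h => hPY2 (hP.eq_of_mem hY2 h hy2)
  have hy3P : y3 ∉ P := fun h => hPY3 (hP.eq_of_mem hY3 h hy3)
  have hy3Y2 : y3 ∉ Y2 := fun h => hne (hY2.eq_of_mem hY3 h hy3)
  have hy2Y3 : y2 ∉ Y3 := fun h => hne (hY2.eq_of_mem hY3 hy2 h)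
  have hy23 : y2 ≠ y3 := by rintro rfl; exact hy3Y2 hy2
  -- the set R of the remaining vertices outside X1, X2, P
  set R : Set V := ((X1 ∪ X2)ᶜ \ P) \ {y2, y3} with hR
  set N : ℝ := (Fintype.card V : ℝ) with hN
  have hN0 : 0 < N := by
    have : 0 < Fintype.card V := Fintype.card_pos_iff.2 ⟨r1⟩
    simpa [hN] using this
  set e : ℝ := 1 / (4 * N) with he
  have he0 : 0 < e := by positivity
  have hsmall : ∀ X : Set V, 0 ≤ e * (R ∩ X).ncard ∧ e * (R ∩ X).ncard ≤ 1 / 4 := by
    intro X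
    refine ⟨by positivity, ?_⟩
    have h1 : ((R ∩ X).ncard : ℝ) ≤ N := by
      have : (R ∩ X).ncard ≤ Fintype.card V := by
        rw [← Nat.card_eq_fintype_card]; exact Set.ncard_le_card _
      rw [hN]; exact_mod_cast this
    calc e * (R ∩ X).ncard ≤ e * N := by gcongr
      _ = 1 / 4 := by rw [he]; field_simp
  set w : V → ℝ := fun v => (if v = r1 then 8 else 0) + ((if v = y1 then 8 else 0) +
    ((if v = c then 9 else 0) + ((if v = y2 then 6 else 0) + ((if v = y3 then 6 else 0) +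
      (if v ∈ R then e else 0))))) with hw
  have hwt : ∀ X : Set V, wt w X = (if r1 ∈ X then 8 else 0) + ((if y1 ∈ X then 8 else 0) +
    ((if c ∈ X then 9 else 0) + ((if y2 ∈ X then 6 else 0) + ((if y3 ∈ X then 6 else 0) +
      e * (R ∩ X).ncard)))) := by
    intro X
    rw [hw, wt_add, wt_add, wt_add, wt_add, wt_add, wt_single, wt_single, wt_single, wt_single,
      wt_single, wt_const_on]
  have hw0 : ∀ v, 0 ≤ w v := by
    intro v
    rw [hw]
    simp only
    split_ifs <;> positivity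
  -- weights of the blocks
  have hRX1 : R ∩ X1 = ∅ := by
    ext v; simp only [Set.mem_inter_iff, Set.mem_empty_iff_false, iff_false, not_and]
    intro hv hv'; exact hv.1.1 (Or.inl hv')
  have hRX2 : R ∩ X2 = ∅ := by
    ext v; simp only [Set.mem_inter_iff, Set.mem_empty_iff_false, iff_false, not_and]
    intro hv hv'; exact hv.1.1 (Or.inr hv')
  have hcX1 : c ∉ X1 := fun h => hdisj h hc
  have hwX1 : wt w X1 = 8 := by
    rw [hwt, hRX1]
    simp [hr1, (hPX y1 hy1).1, hcX1, (hY2X y2 hy2).1, (hY3X y3 hy3).1]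
  have hwX2 : wt w X2 = 9 := by
    rw [hwt, hRX2]
    simp [hc, (hPX y1 hy1).2, hdisj hr1, (hY2X y2 hy2).2, (hY3X y3 hy3).2]
  have hSafe : IsSafe G w (X1 ∪ X2) := by
    refine ⟨hC.conn1.nonempty.inl, ?_⟩
    intro C D hCc hD ht
    -- D avoids X1, X2
    have hDX : ∀ v ∈ D, v ∉ X1 ∧ v ∉ X2 := fun v hv =>
      ⟨fun h => hD.1 hv (Or.inl h), fun h => hD.1 hv (Or.inr h)⟩
    have hr1D : r1 ∉ D := fun h => (hDX r1 h).1 hr1
    have hcD : c ∉ D := fun h => (hDX c h).2 hc
    have h23 : ¬ (y2 ∈ D ∧ y3 ∈ D) := by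
      rintro ⟨h2, h3⟩
      exact hne ((hY2.eq_of_mem hD hy2 h2).trans (hD.eq_of_mem hY3 h3 hy3))
    have hsD := hsmall D
    by_cases hy1D : y1 ∈ D
    · -- D = P
      have hDP : D = P := hD.eq_of_mem hP hy1D hy1
      have hRP : R ∩ D = ∅ := by
        rw [hDP]
        ext v; simp only [Set.mem_inter_iff, Set.mem_empty_iff_false, iff_false, not_and]
        intro hv hv'; exact hv.1.2 hv'
      have hwD : wt w D = 8 := by
        rw [hwt, hRP, hDP]
        have hr1P : r1 ∉ P := hDP ▸ hr1D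
        have hcP : c ∉ P := hDP ▸ hcD
        simp [hr1P, hcP, hy1, hy2P, hy3P]
      rcases hC.comp_eq hCc with rfl | rfl
      · rw [hwD, hwX1]
      · rw [hwD, hwX2]; norm_num
    · have hwD : wt w D ≤ 8 := by
        rw [hwt]
        simp only [if_neg hr1D, if_neg hcD, if_neg hy1D]
        by_cases h2 : y2 ∈ D
        · have h3 : y3 ∉ D := fun h => h23 ⟨h2, h⟩
          simp only [if_pos h2, if_neg h3]
          linarith [hsD.2]
        · simp only [if_neg h2]
          split_ifs <;> linarith [hsD.2]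
      rcases hC.comp_eq hCc with rfl | rfl
      · rw [hwX1]; exact hwD
      · rw [hwX2]; linarith
  have hwS : wt w (X1 ∪ X2) = 17 := by
    rw [wt_union hC.disj, hwX1, hwX2]; norm_num
  refine W_MP_9f10ef_co.not_inGcs w hw0 hSafe ?_
  intro T hT
  rw [hwS]
  by_contra hle
  push Not at hle
  have hsT := hsmall T
  have hTw := hwt T
  -- connected sets avoiding T
  have havoid : ∀ D : Set V, Conn G D → Disjoint D T → wt w D ≤ wt w T := fun D hD hDT =>
    hT.wt_le hG hw0 hD hDT
  -- pairs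
  have hpair : ∀ a b : V, G.Adj a b → Conn G {a, b} := by
    intro a b hab
    have := (conn_singleton (G := G) b).insert (v := a) ⟨b, rfl, hab.symm⟩
    exact this
  have hdis2 : ∀ a b : V, a ∉ T → b ∉ T → Disjoint ({a, b} : Set V) T := by
    intro a b ha hb
    rw [Set.disjoint_left]
    rintro x (rfl | rfl)
    · exact ha
    · exact hb
  have hcy2 : c ≠ y2 := a2.ne
  have hcy3 : c ≠ y3 := a3.ne
  have hr1y1 : r1 ≠ y1 := a1.ne
  have hr1c : r1 ≠ c := by rintro rfl; exact hdisj hr1 hc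
  have hr1y2 : r1 ≠ y2 := by rintro rfl; exact (hY2X _ hy2).1 hr1
  have hr1y3 : r1 ≠ y3 := by rintro rfl; exact (hY3X _ hy3).1 hr1
  have hy1c : y1 ≠ c := by rintro rfl; exact (hPX _ hy1).2 hc
  have hy1y2 : y1 ≠ y2 := by rintro rfl; exact hy2P hy1
  have hy1y3 : y1 ≠ y3 := by rintro rfl; exact hy3P hy1
  -- the pair r1,y1
  have hP1 : r1 ∉ T → y1 ∉ T → 16 ≤ wt w T := by
    intro h1 h2
    refine le_trans ?_ (havoid _ (hpair _ _ a1) (hdis2 _ _ h1 h2))
    rw [hwt]
    have := hsmall {r1, y1}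
    simp only [Set.mem_insert_iff, Set.mem_singleton_iff, true_or, or_true, if_true]
    have h3 : ∀ p : Prop, [Decidable p] → (0:ℝ) ≤ if p then 9 else 0 := by
      intro p _; split_ifs <;> norm_num
    have h4 : ∀ p : Prop, [Decidable p] → (0:ℝ) ≤ if p then 6 else 0 := by
      intro p _; split_ifs <;> norm_num
    linarith [h3 (c = r1 ∨ c = y1), h4 (y2 = r1 ∨ y2 = y1), h4 (y3 = r1 ∨ y3 = y1), this.1]
  have hP2' : c ∉ T → y2 ∉ T → 15 ≤ wt w T := by
    intro h1 h2
    refine le_trans ?_ (havoid _ (hpair _ _ a2) (hdis2 _ _ h1 h2))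
    rw [hwt]
    have := hsmall {c, y2}
    simp only [Set.mem_insert_iff, Set.mem_singleton_iff, true_or, or_true, if_true]
    have h3 : ∀ p : Prop, [Decidable p] → (0:ℝ) ≤ if p then 8 else 0 := by
      intro p _; split_ifs <;> norm_num
    have h4 : ∀ p : Prop, [Decidable p] → (0:ℝ) ≤ if p then 6 else 0 := by
      intro p _; split_ifs <;> norm_num
    linarith [h3 (r1 = c ∨ r1 = y2), h3 (y1 = c ∨ y1 = y2), h4 (y3 = c ∨ y3 = y2), this.1]
  have hP3' : c ∉ T → y3 ∉ T → 15 ≤ wt w T := by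
    intro h1 h2
    refine le_trans ?_ (havoid _ (hpair _ _ a3) (hdis2 _ _ h1 h2))
    rw [hwt]
    have := hsmall {c, y3}
    simp only [Set.mem_insert_iff, Set.mem_singleton_iff, true_or, or_true, if_true]
    have h3 : ∀ p : Prop, [Decidable p] → (0:ℝ) ≤ if p then 8 else 0 := by
      intro p _; split_ifs <;> norm_num
    have h4 : ∀ p : Prop, [Decidable p] → (0:ℝ) ≤ if p then 6 else 0 := by
      intro p _; split_ifs <;> norm_num
    linarith [h3 (r1 = c ∨ r1 = y3), h3 (y1 = c ∨ y1 = y3), h4 (y2 = c ∨ y2 = y3), this.1]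
  have hP4' : c ∉ T → y2 ∉ T → y3 ∉ T → 21 ≤ wt w T := by
    intro h1 h2 h3
    have hconn : Conn G {y3, c, y2} := by
      have := (hpair c y2 a2).insert (v := y3) ⟨c, by simp, a3⟩
      exact this
    have hdis : Disjoint ({y3, c, y2} : Set V) T := by
      rw [Set.disjoint_left]
      rintro x (rfl | rfl | rfl)
      · exact h3
      · exact h1
      · exact h2
    refine le_trans ?_ (havoid _ hconn hdis)
    rw [hwt]
    have := hsmall {y3, c, y2}
    simp only [Set.mem_insert_iff, Set.mem_singleton_iff, true_or, or_true, if_true]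
    have h3 : ∀ p : Prop, [Decidable p] → (0:ℝ) ≤ if p then 8 else 0 := by
      intro p _; split_ifs <;> norm_num
    linarith [h3 (r1 = y3 ∨ r1 = c ∨ r1 = y2), h3 (y1 = y3 ∨ y1 = c ∨ y1 = y2), this.1]
  by_cases hcT : c ∈ T
  · by_cases h1 : r1 ∈ T ∨ y1 ∈ T
    · -- weight exactly 17, T avoids all positive vertices elsewhere
      have hy2T : y2 ∉ T := by
        intro h
        rw [hTw] at hle
        rcases h1 with h1 | h1 <;> simp only [if_pos h1, if_pos hcT, if_pos h] at hle <;>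
          split_ifs at hle <;> linarith [hsT.1]
      have hy3T : y3 ∉ T := by
        intro h
        rw [hTw] at hle
        rcases h1 with h1 | h1 <;> simp only [if_pos h1, if_pos hcT, if_pos h] at hle <;>
          split_ifs at hle <;> linarith [hsT.1]
      have hRT : R ∩ T = ∅ := by
        by_contra hne0
        have hpos : 0 < (R ∩ T).ncard := by
          rw [Set.ncard_pos]
          exact Set.nonempty_iff_ne_empty.2 hne0
        have hpos' : 0 < e * (R ∩ T).ncard := by
          have : (0 : ℝ) < (R ∩ T).ncard := by exact_mod_cast hpos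
          positivity
        rw [hTw] at hle
        rcases h1 with h1 | h1 <;> simp only [if_pos h1, if_pos hcT] at hle <;>
          split_ifs at hle <;> linarith
      have hTsub : T ⊆ (X1 ∪ P) ∪ X2 := by
        intro v hv
        by_contra hv'
        have h1' : v ∉ X1 := fun h => hv' (Or.inl (Or.inl h))
        have h2' : v ∉ P := fun h => hv' (Or.inl (Or.inr h))
        have h3' : v ∉ X2 := fun h => hv' (Or.inr h)
        have : v ∈ R ∩ T := by
          refine ⟨⟨⟨?_, h2'⟩, ?_⟩, hv⟩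
          · rintro (h | h)
            · exact h1' h
            · exact h3' h
          · rintro (rfl | rfl)
            · exact hy2T hv
            · exact hy3T hv
        rw [hRT] at this
        exact this
      -- T is connected, meets X2 and X1 ∪ P, contradiction
      have hne1 : (T ∩ X2).Nonempty := ⟨c, hcT, hc⟩
      have hne2 : (T \ (T ∩ X2)).Nonempty := by
        rcases h1 with h1 | h1
        · exact ⟨r1, h1, fun h => hdisj hr1 h.2⟩
        · exact ⟨y1, h1, fun h => (hPX y1 hy1).2 h.2⟩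
      obtain ⟨a, ha, b, hb, hab⟩ := (conn_iff.1 hT.2).2 (T ∩ X2) Set.inter_subset_left hne1 hne2
      have hb' : b ∈ X1 ∪ P := by
        rcases hTsub hb.1 with h | h
        · exact h
        · exact absurd ⟨hb.1, h⟩ hb.2
      rcases hb' with hb' | hb'
      · exact hC.nt ⟨b, hb', a, ha.2, hab.symm⟩
      · exact hP2 ⟨a, ha.2, b, hb', hab⟩
    · push Not at h1
      have h16 := hP1 h1.1 h1.2
      rw [hTw] at h16 hle
      simp only [if_neg h1.1, if_neg h1.2, if_pos hcT] at h16 hle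
      split_ifs at h16 hle <;> linarith [hsT.2, hsT.1]
  · have hh : ¬ (y2 ∉ T ∧ y3 ∉ T) := by
      rintro ⟨h2, h3⟩
      linarith [hP4' hcT h2 h3]
    by_cases h1 : r1 ∈ T
    · by_cases h2 : y1 ∈ T
      · rw [hTw] at hle
        simp only [if_pos h1, if_pos h2, if_neg hcT] at hle
        apply hh
        constructor
        · intro h
          simp only [if_pos h] at hle
          split_ifs at hle <;> linarith [hsT.1]
        · intro h
          simp only [if_pos h] at hle
          split_ifs at hle <;> linarith [hsT.1]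
      · by_cases h3 : y2 ∈ T
        · by_cases h4 : y3 ∈ T
          · rw [hTw] at hle
            simp only [if_pos h1, if_neg h2, if_neg hcT, if_pos h3, if_pos h4] at hle
            linarith [hsT.1]
          · have := hP3' hcT h4
            rw [hTw] at this
            simp only [if_pos h1, if_neg h2, if_neg hcT, if_pos h3, if_neg h4] at this
            linarith [hsT.2]
        · have := hP2' hcT h3
          rw [hTw] at this
          simp only [if_pos h1, if_neg h2, if_neg hcT, if_neg h3] at this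
          split_ifs at this <;> linarith [hsT.2]
    · by_cases h2 : y1 ∈ T
      · by_cases h3 : y2 ∈ T
        · by_cases h4 : y3 ∈ T
          · rw [hTw] at hle
            simp only [if_neg h1, if_pos h2, if_neg hcT, if_pos h3, if_pos h4] at hle
            linarith [hsT.1]
          · have := hP3' hcT h4
            rw [hTw] at this
            simp only [if_neg h1, if_pos h2, if_neg hcT, if_pos h3, if_neg h4] at this
            linarith [hsT.2]
        · have := hP2' hcT h3
          rw [hTw] at this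
          simp only [if_neg h1, if_pos h2, if_neg hcT, if_neg h3] at this
          split_ifs at this <;> linarith [hsT.2]
      · have h16 := hP1 h1 h2
        rw [hTw] at h16
        simp only [if_neg h1, if_neg h2, if_neg hcT] at h16
        split_ifs at h16 <;> linarith [hsT.2]

/-- Theorem A, pendant case. -/
theorem PCut.not_inGcs [Fintype V] {X1 X2 : Set V} (h : PCut G X1 X2) : ¬ InGcs G := by
  obtain ⟨F⟩ := exists_pconfig _ X1 X2 rfl h
  exact F.not_inGcs

end W_MP_9f10ef_co
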