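import Pool.Agent.W_MP_9f10ef_co.EDefs
import Pool.Agent.W_MP_9f10ef_co.PCut

/-!
# From the five class form of a bad 2-cut to pendant cuts and full cuts
-/

namespace W_MP_9f10ef_co

open Classical

universe u

variable {V : Type u} {G : SimpleGraph V}

/-- If a class `D` (closed outside `A ∪ B`) touches `B`, some component of `G - A - B` inside `D`
touches `B`. -/
theorem exists_comp_in_class [Finite V] {A B D : Set V} (hD : ∀ d ∈ D, ∀ v, G.Adj d v → v ∈ A ∪ B ∪ D)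
    (hdisj : Disjoint (A ∪ B) D) {Z : Set V} (hZ : Touch G D Z) :
    ∃ Y, IsComp G (A ∪ B)ᶜ Y ∧ Y ⊆ D ∧ Touch G Z Y := by
  obtain ⟨d, hd, z, hz, hdz⟩ := hZ
  have hdc : d ∈ (A ∪ B)ᶜ := fun h => Set.disjoint_left.1 hdisj h hd
  obtain ⟨Y, hY, hdY⟩ := exists_comp_mem (G := G) hdc
  refine ⟨Y, hY, ?_, z, hz, d, hdY, hdz.symm⟩
  intro y hy
  by_contra hyD
  have := (conn_iff.1 hY.conn).2 (Y ∩ D) Set.inter_subset_left ⟨d, hdY, hd⟩ ⟨y, hy, fun h => hyD h.2⟩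
  obtain ⟨p, hp, q, hq, hpq⟩ := this
  have h1 := hD p hp.2 q hpq
  rcases h1 with h1 | h1
  · exact hY.1 hq.1 h1
  · exact hq.2 ⟨hq.1, h1⟩

/-- Bad5 gives a pendant cut or a full cut with at least three components. -/
theorem Bad5.cases [Finite V] (hG : G.Connected) (h : Bad5 G) :
    (∃ X1 X2, PCut G X1 X2) ∨
    ∃ X1 X2, Cut G X1 X2 ∧ (∀ Y, IsComp G (X1 ∪ X2)ᶜ Y → Touch G X1 Y ∧ Touch G X2 Y) ∧
      ∃ Y1 Y2 Y3, IsComp G (X1 ∪ X2)ᶜ Y1 ∧ IsComp G (X1 ∪ X2)ᶜ Y2 ∧ IsComp G (X1 ∪ X2)ᶜ Y3 ∧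
        Y1 ≠ Y2 ∧ Y1 ≠ Y3 ∧ Y2 ≠ Y3 := by
  obtain ⟨A, B, D2, D3, hA, hB, hAB, hABD, h23, hnt, hN2, hN3, hT2, hT3, hT1A, hT1B⟩ := h
  have hcut : Cut G A B := ⟨hA, hB, hAB, hnt⟩
  have hN2' := hN2
  have hN3' := hN3
  have hd2 : Disjoint (A ∪ B) D2 := hABD.mono_right Set.subset_union_left
  have hd3 : Disjoint (A ∪ B) D3 := hABD.mono_right Set.subset_union_right
  have hd1 : Disjoint (A ∪ B) (A ∪ B ∪ D2 ∪ D3)ᶜ :=
    Set.disjoint_left.2 fun v hv hv' => hv' (Or.inl (Or.inl hv))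
  have hN1 : ∀ d ∈ (A ∪ B ∪ D2 ∪ D3)ᶜ, ∀ v, G.Adj d v → v ∈ A ∪ B ∪ (A ∪ B ∪ D2 ∪ D3)ᶜ := by
    intro d hd v hdv
    by_contra hv
    have hv2 : v ∈ D2 ∨ v ∈ D3 := by
      simp only [Set.mem_union, Set.mem_compl_iff, not_or] at hv ⊢
      tauto
    rcases hv2 with h | h
    · rcases hN2 v h d hdv.symm with h' | h'
      · exact hd (Or.inl (Or.inl h'))
      · exact hd (Or.inl (Or.inr h'))
    · rcases hN3 v h d hdv.symm with h' | h'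
      · exact hd (Or.inl (Or.inl h'))
      · exact hd (Or.inr h')
  obtain ⟨R2, hR2, hR2s, hR2t⟩ := exists_comp_in_class hN2 hd2 hT2
  obtain ⟨R3, hR3, hR3s, hR3t⟩ := exists_comp_in_class hN3 hd3 hT3
  obtain ⟨R1, hR1, hR1s, hR1t⟩ := exists_comp_in_class hN1 hd1 hT1A
  obtain ⟨R1', hR1', hR1s', hR1t'⟩ := exists_comp_in_class hN1 hd1 hT1B
  have hne : ∀ {P Q R S : Set V}, IsComp G (A ∪ B)ᶜ P → P ⊆ R → Q ⊆ S → Disjoint R S → P ≠ Q := by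
    intro P Q R S hP hPR hQS hRS hPQ
    obtain ⟨x, hx⟩ := hP.nonempty
    exact Set.disjoint_left.1 hRS (hPR hx) (hQS (hPQ ▸ hx))
  have h12 : Disjoint (A ∪ B ∪ D2 ∪ D3)ᶜ D2 :=
    Set.disjoint_left.2 fun v hv hv' => hv (Or.inl (Or.inr hv'))
  have h13 : Disjoint (A ∪ B ∪ D2 ∪ D3)ᶜ D3 :=
    Set.disjoint_left.2 fun v hv hv' => hv (Or.inr hv')
  by_cases hfull : ∀ Y, IsComp G (A ∪ B)ᶜ Y → Touch G A Y ∧ Touch G B Y
  · right
    exact ⟨A, B, hcut, hfull, R1, R2, R3, hR1, hR2, hR3, hne hR1 hR1s hR2s h12,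
      hne hR1 hR1s hR3s h13, hne hR2 hR2s hR3s h23⟩
  · left
    push Not at hfull
    obtain ⟨Y, hY, hYf⟩ := hfull
    by_cases hYA : Touch G A Y
    · exact ⟨A, B, hcut, Y, hY, hYA, hYf hYA, R3, R1', hR3, hR1',
        (hne hR1' hR1s' hR3s h13).symm, hR3t, hR1t'⟩
    · by_cases hYB : Touch G B Y
      · refine ⟨B, A, hcut.symm, Y, ?_, hYB, hYA, R2, R1, ?_, ?_, (hne hR1 hR1s hR2s h12).symm, hR2t, hR1t⟩
        · rw [Set.union_comm]; exact hY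
        · rw [Set.union_comm]; exact hR2
        · rw [Set.union_comm]; exact hR1
      · exfalso
        obtain ⟨u, hu, v, hv, huv⟩ := hY.touch_of_connected hG (hA.nonempty.mono Set.subset_union_left)
        rcases hu with hu | hu
        · exact hYA ⟨u, hu, v, hv, huv⟩
        · exact hYB ⟨u, hu, v, hv, huv⟩

end W_MP_9f10ef_co
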