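import Pool.Agent.W_MP_9f10ef_co.EDefs

/-!
# MP_9f10ef_co, part (EF): counting lemma for graphs with a dominating edge
-/

namespace W_MP_9f10ef_co

open Classical

universe u

namespace ECount

/-- the vertices `z` of `X \ x` with `N(z) ≠ {y}`, `N(z) ⊆ U + y` -/
def cnt {V : Type u} (H : SimpleGraph V) (X : Set V) (x y : V) (U : Set V) : Set V :=
  {z | z ∈ X ∧ z ≠ x ∧ H.neighborSet z ≠ {y} ∧ H.neighborSet z ⊆ insert y U}

/-- good sets -/
def Good {V : Type u} (H : SimpleGraph V) (X : Set V) (x y x₁ : V) (U : Set V) : Prop :=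
  U ⊆ H.neighborSet x₁ \ {y} ∧
  (∀ u ∈ U, ∃ z ∈ X, z ≠ x ∧ H.Adj z u ∧ H.neighborSet z ⊆ insert y U) ∧
  (cnt H X x y U).ncard = U.ncard

section

variable {V : Type u} [Fintype V] {H : SimpleGraph V} {X : Set V} {x y : V}

/-- the `K`-model of the step -/
theorem model (hK : KFree H) (hb : Bip H X)
    (hx : x ∈ X) (hy : y ∉ X) (hxf : ∀ v ∉ X, H.Adj x v) (hyf : ∀ v ∈ X, H.Adj y v)
    {U M Z : Set V} (hUX : Disjoint U X) (hyU : y ∉ U) (hMX : Disjoint M X) (hyM : y ∉ M)
    (hUM : Disjoint U M)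
    (hU : ∀ u ∈ U, ∃ z ∈ X, z ≠ x ∧ H.Adj z u ∧ H.neighborSet z ⊆ insert y U)
    (hZ : Z = {z | z ∈ X ∧ z ≠ x ∧ H.neighborSet z ⊆ insert y (U ∪ M) ∧
      ¬ H.neighborSet z ⊆ insert y U})
    (hZM : ∀ z ∈ Z, ∀ m ∈ M, H.Adj z m)
    (hZne : Z.Nonempty) (hMne : M.Nonempty) : Z.ncard = M.ncard := by
  have hXX : ∀ a ∈ X, ∀ b ∈ X, ¬ H.Adj a b := fun a ha b hb' hab => (hb a b hab).1 ha hb'
  have hYY : ∀ a ∉ X, ∀ b ∉ X, ¬ H.Adj a b := fun a ha b hb' hab => ha ((hb a b hab).2 hb')
  set R : Set V := {v | v = y ∨ v ∈ U ∨ (v ∈ X ∧ v ≠ x ∧ H.neighborSet v ⊆ insert y U)} with hR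
  have hZX : ∀ z ∈ Z, z ∈ X := by
    intro z hz; rw [hZ] at hz; exact hz.1
  have hMX' : ∀ m ∈ M, m ∉ X := fun m hm hmX => Set.disjoint_left.1 hMX hm hmX
  have hUX' : ∀ m ∈ U, m ∉ X := fun m hm hmX => Set.disjoint_left.1 hUX hm hmX
  have hRZ : ∀ v ∈ R, v ∉ Z := by
    intro v hv hvZ
    rw [hZ] at hvZ
    rcases hv with hv | hv | hv
    · exact hy (hv ▸ hvZ.1)
    · exact hUX' v hv hvZ.1
    · exact hvZ.2.2.2 hv.2.2
  have hRM : ∀ v ∈ R, v ∉ M := by
    intro v hv hvM
    rcases hv with hv | hv | hv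
    · exact hyM (hv ▸ hvM)
    · exact Set.disjoint_left.1 hUM hv hvM
    · exact hMX' v hvM hv.1
  set f : V → Option Z ⊕ Option M := fun v =>
    if h : v ∈ Z then Sum.inl (some ⟨v, h⟩) else
    if h : v ∈ M then Sum.inr (some ⟨v, h⟩) else
    if v ∈ R then Sum.inr none else Sum.inl none with hf
  have fZ : ∀ z : Z, f ⁻¹' {Sum.inl (some z)} = {z.1} := by
    intro z
    ext v
    simp only [hf, Set.mem_preimage, Set.mem_singleton_iff]
    constructor
    · intro h
      split_ifs at h with h1 h2 h3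
      · have : (⟨v, h1⟩ : Z) = z := by simpa using h
        rw [← this]
      · simp at h
    · rintro rfl
      rw [dif_pos z.2]
  have fM : ∀ m : M, f ⁻¹' {Sum.inr (some m)} = {m.1} := by
    intro m
    ext v
    simp only [hf, Set.mem_preimage, Set.mem_singleton_iff]
    constructor
    · intro h
      split_ifs at h with h1 h2 h3
      · have : (⟨v, h2⟩ : M) = m := by simpa using h
        rw [← this]
      · simp at h
    · rintro rfl
      rw [dif_neg (fun h => hMX' _ m.2 (hZX _ h)), dif_pos m.2]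
  have fR : f ⁻¹' {Sum.inr none} = R := by
    ext v
    simp only [hf, Set.mem_preimage, Set.mem_singleton_iff]
    constructor
    · intro h
      split_ifs at h with h1 h2 h3
      · simp at h
      · exact h3
    · intro h
      rw [dif_neg (hRZ v h), dif_neg (hRM v h), if_pos h]
  set L : Set V := {v | v ∉ Z ∧ v ∉ M ∧ v ∉ R} with hL
  have fL : f ⁻¹' {Sum.inl none} = L := by
    ext v
    simp only [hf, Set.mem_preimage, Set.mem_singleton_iff]
    constructor
    · intro h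
      split_ifs at h with h1 h2 h3
      · simp at h
      · exact ⟨h1, h2, h3⟩
    · intro h
      rw [dif_neg h.1, dif_neg h.2.1, if_neg h.2.2]
  have hxL : x ∈ L := by
    refine ⟨?_, ?_, ?_⟩
    · intro h; rw [hZ] at h; exact h.2.1 rfl
    · intro h; exact hMX' _ h hx
    · rintro (h | h | h)
      · exact hy (h ▸ hx)
      · exact hUX' _ h hx
      · exact h.2.1 rfl
  have hyR : y ∈ R := Or.inl rfl
  -- connectivity of L
  have connL : Conn H L := by
    have h1 : ∀ v : {v : V // v ∈ L}, ∃ C : Set V, Conn H C ∧ C ⊆ L ∧ v.1 ∈ C ∧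
        (({x} : Set V) ∩ C).Nonempty := by
      rintro ⟨v, hv⟩
      by_cases hvx : v = x
      · subst hvx
        exact ⟨{v}, conn_singleton v, by simpa using hxL, rfl, ⟨v, rfl, rfl⟩⟩
      by_cases hvX : v ∈ X
      · -- v has a neighbour outside insert y (U ∪ M)
        have : ¬ H.neighborSet v ⊆ insert y (U ∪ M) := by
          intro hsub
          by_cases h : H.neighborSet v ⊆ insert y U
          · exact hv.2.2 (Or.inr (Or.inr ⟨hvX, hvx, h⟩))
          · exact hv.1 (by rw [hZ]; exact ⟨hvX, hvx, hsub, h⟩)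
        obtain ⟨t, ht, ht'⟩ := Set.not_subset.1 this
        have htX : t ∉ X := (hb v t ht).1 hvX
        have htL : t ∈ L := by
          refine ⟨fun h => htX (hZX _ h), fun h => ht' (Or.inr (Or.inr h)), ?_⟩
          rintro (h | h | h)
          · exact ht' (Or.inl h)
          · exact ht' (Or.inr (Or.inl h))
          · exact htX h.1
        refine ⟨insert v (insert t {x}), ?_, ?_, ?_, ?_⟩
        · refine Conn.insert ?_ ⟨t, Or.inl rfl, ?_⟩
          · exact Conn.insert (conn_singleton x) ⟨x, rfl, hxf t htX⟩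
          · exact (ht : H.Adj v t).symm
        · intro s hs
          rcases hs with rfl | rfl | hs
          · exact hv
          · exact htL
          · rw [Set.mem_singleton_iff.1 hs]; exact hxL
        · exact Or.inl rfl
        · exact ⟨x, rfl, Or.inr (Or.inr rfl)⟩
      · refine ⟨insert v {x}, ?_, ?_, Or.inl rfl, ⟨x, rfl, Or.inr rfl⟩⟩
        · exact Conn.insert (conn_singleton x) ⟨x, rfl, hxf v hvX⟩
        · intro s hs
          rcases hs with rfl | hs
          · exact hv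
          · rw [Set.mem_singleton_iff.1 hs]; exact hxL
    choose C hC1 hC2 hC3 hC4 using h1
    have := Conn.iUnion_of_touch (G := H) (conn_singleton x) hC1 (fun i => Or.inl (hC4 i))
    have heq : ({x} ∪ ⋃ i, C i : Set V) = L := by
      apply Set.Subset.antisymm
      · rintro v (hv | hv)
        · rw [Set.mem_singleton_iff.1 hv]; exact hxL
        · obtain ⟨i, hi⟩ := Set.mem_iUnion.1 hv
          exact hC2 i hi
      · intro v hv
        exact Or.inr (Set.mem_iUnion.2 ⟨⟨v, hv⟩, hC3 ⟨v, hv⟩⟩)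
    rw [heq] at this
    exact this
  have connR : Conn H R := by
    have h1 : ∀ v : {v : V // v ∈ R}, ∃ C : Set V, Conn H C ∧ C ⊆ R ∧ v.1 ∈ C ∧
        (({y} : Set V) ∩ C).Nonempty := by
      rintro ⟨v, hv⟩
      by_cases hvy : v = y
      · subst hvy
        exact ⟨{v}, conn_singleton v, by simpa using hyR, rfl, ⟨v, rfl, rfl⟩⟩
      rcases hv with h | hvU | hvX
      · exact absurd h hvy
      · obtain ⟨z, hzX, hzx, hzv, hzN⟩ := hU v hvU
        have hzR : z ∈ R := Or.inr (Or.inr ⟨hzX, hzx, hzN⟩)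
        refine ⟨insert v (insert z {y}), ?_, ?_, ?_, ?_⟩
        · refine Conn.insert ?_ ⟨z, Or.inl rfl, hzv⟩
          exact Conn.insert (conn_singleton y) ⟨y, rfl, hyf z hzX⟩
        · intro s hs
          rcases hs with rfl | rfl | hs
          · exact Or.inr (Or.inl hvU)
          · exact hzR
          · rw [Set.mem_singleton_iff.1 hs]; exact hyR
        · exact Or.inl rfl
        · exact ⟨y, rfl, Or.inr (Or.inr rfl)⟩
      · refine ⟨insert v {y}, ?_, ?_, Or.inl rfl, ⟨y, rfl, Or.inr rfl⟩⟩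
        · exact Conn.insert (conn_singleton y) ⟨y, rfl, hyf v hvX.1⟩
        · intro s hs
          rcases hs with rfl | hs
          · exact Or.inr (Or.inr hvX)
          · rw [Set.mem_singleton_iff.1 hs]; exact hyR
    choose C hC1 hC2 hC3 hC4 using h1
    have := Conn.iUnion_of_touch (G := H) (conn_singleton y) hC1 (fun i => Or.inl (hC4 i))
    have heq : ({y} ∪ ⋃ i, C i : Set V) = R := by
      apply Set.Subset.antisymm
      · rintro v (hv | hv)
        · rw [Set.mem_singleton_iff.1 hv]; exact hyR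
        · obtain ⟨i, hi⟩ := Set.mem_iUnion.1 hv
          exact hC2 i hi
      · intro v hv
        exact Or.inr (Set.mem_iUnion.2 ⟨⟨v, hv⟩, hC3 ⟨v, hv⟩⟩)
    rw [heq] at this
    exact this
  -- no touch L, z
  have ntL : ∀ z ∈ Z, ∀ l ∈ L, ¬ H.Adj z l := by
    intro z hz l hl hzl
    have hz' := hz
    rw [hZ] at hz'
    rcases hz'.2.2.1 hzl with h | h | h
    · exact hl.2.2 (Or.inl h)
    · exact hl.2.2 (Or.inr (Or.inl h))
    · exact hl.2.1 h
  have ntR : ∀ m ∈ M, ∀ r ∈ R, ¬ H.Adj m r := by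
    intro m hm r hr hmr
    rcases hr with h | h | h
    · exact hYY m (hMX' m hm) r (h ▸ hy) hmr
    · exact hYY m (hMX' m hm) r (hUX' r h) hmr
    · rcases h.2.2 hmr.symm with h' | h'
      · exact hyM (h' ▸ hm)
      · exact Set.disjoint_left.1 hUM h' hm
  have hcard := hK.card f ?_ ?_ ?_ ?_ ?_ ?_
  · rw [Fintype.card_option, Fintype.card_option] at hcard
    rw [← Nat.card_coe_set_eq, ← Nat.card_coe_set_eq, Nat.card_eq_fintype_card,
      Nat.card_eq_fintype_card]
    omega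
  · rintro ((_ | z) | (_ | m))
    · rw [fL]; exact connL
    · rw [fZ]; exact conn_singleton _
    · rw [fR]; exact connR
    · rw [fM]; exact conn_singleton _
  · rintro (_ | z) (_ | z') hne
    · exact absurd rfl hne
    · rw [fL, fZ]
      rintro ⟨l, hl, s, hs, hls⟩
      rw [Set.mem_singleton_iff.1 hs] at hls
      exact ntL z'.1 z'.2 l hl hls.symm
    · rw [fL, fZ]
      rintro ⟨s, hs, l, hl, hls⟩
      rw [Set.mem_singleton_iff.1 hs] at hls
      exact ntL z.1 z.2 l hl hls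
    · rw [fZ, fZ]
      rintro ⟨s, hs, l, hl, hls⟩
      rw [Set.mem_singleton_iff.1 hs, Set.mem_singleton_iff.1 hl] at hls
      exact hXX _ (hZX _ z.2) _ (hZX _ z'.2) hls
  · rintro (_ | z) (_ | z') hne
    · exact absurd rfl hne
    · rw [fR, fM]
      rintro ⟨l, hl, s, hs, hls⟩
      rw [Set.mem_singleton_iff.1 hs] at hls
      exact ntR z'.1 z'.2 l hl hls.symm
    · rw [fR, fM]
      rintro ⟨s, hs, l, hl, hls⟩
      rw [Set.mem_singleton_iff.1 hs] at hls
      exact ntR z.1 z.2 l hl hls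
    · rw [fM, fM]
      rintro ⟨s, hs, l, hl, hls⟩
      rw [Set.mem_singleton_iff.1 hs, Set.mem_singleton_iff.1 hl] at hls
      exact hYY _ (hMX' _ z.2) _ (hMX' _ z'.2) hls
  · rintro (_ | z) (_ | m)
    · rw [fL, fR]; exact ⟨x, hxL, y, hyR, hxf y hy⟩
    · rw [fL, fM]; exact ⟨x, hxL, m.1, rfl, hxf _ (hMX' _ m.2)⟩
    · rw [fZ, fR]; exact ⟨z.1, rfl, y, hyR, (hyf _ (hZX _ z.2)).symm⟩
    · rw [fZ, fM]; exact ⟨z.1, rfl, m.1, rfl, hZM _ z.2 _ m.2⟩
  · rw [Fintype.card_option]
    have : Nonempty Z := hZne.to_subtype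
    have := Fintype.card_pos (α := Z)
    omega
  · rw [Fintype.card_option]
    have : Nonempty M := hMne.to_subtype
    have := Fintype.card_pos (α := M)
    omega

theorem step (hK : KFree H) (hb : Bip H X)
    (hx : x ∈ X) (hy : y ∉ X) (hxf : ∀ v ∉ X, H.Adj x v) (hyf : ∀ v ∈ X, H.Adj y v)
    {x₁ : V} (hx₁ : x₁ ∈ X) (hne : x₁ ≠ x) {U : Set V} (hU : Good H X x y x₁ U)
    (hUne : U ≠ H.neighborSet x₁ \ {y}) : ∃ U', Good H X x y x₁ U' ∧ U.ncard < U'.ncard := by
  obtain ⟨hU1, hU2, hU3⟩ := hU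
  set P : Set V := {z | z ∈ X ∧ z ≠ x ∧ H.neighborSet z ⊆ H.neighborSet x₁ ∧
    ¬ H.neighborSet z ⊆ insert y U} with hP
  have hPne : P.Nonempty := by
    refine ⟨x₁, hx₁, hne, subset_rfl, ?_⟩
    intro h
    apply hUne
    apply Set.Subset.antisymm hU1
    intro v hv
    rcases h hv.1 with h' | h'
    · exact absurd h' hv.2
    · exact h'
  obtain ⟨z, hzP, hzmin⟩ := Set.exists_min_image P (fun z => (H.neighborSet z ∪ U).ncard)
    (Set.toFinite P) hPne
  set M : Set V := (H.neighborSet z \ {y}) \ U with hM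
  have hNX : ∀ v ∈ X, ∀ t ∈ H.neighborSet v, t ∉ X := fun v hv t ht => (hb v t ht).1 hv
  have hUX : Disjoint U X := Set.disjoint_left.2 fun u hu => hNX x₁ hx₁ u (hU1 hu).1
  have hyU : y ∉ U := fun h => (hU1 h).2 rfl
  have hMX : Disjoint M X := Set.disjoint_left.2 fun u hu => hNX z hzP.1 u hu.1.1
  have hyM : y ∉ M := fun h => h.1.2 rfl
  have hUM : Disjoint U M := Set.disjoint_left.2 fun u hu hu' => hu'.2 hu
  have hyN : ∀ v ∈ X, y ∈ H.neighborSet v := fun v hv => (hyf v hv).symm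
  set Z : Set V := {z | z ∈ X ∧ z ≠ x ∧ H.neighborSet z ⊆ insert y (U ∪ M) ∧
      ¬ H.neighborSet z ⊆ insert y U} with hZ
  have hUMz : insert y (U ∪ M) = H.neighborSet z ∪ U := by
    ext v
    simp only [hM, Set.mem_insert_iff, Set.mem_union, Set.mem_sdiff, Set.mem_singleton_iff]
    constructor
    · rintro (h | h | h)
      · exact Or.inl (h ▸ hyN z hzP.1)
      · exact Or.inr h
      · exact Or.inl h.1.1
    · rintro (h | h)
      · by_cases h1 : v = y
        · exact Or.inl h1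
        · by_cases h2 : v ∈ U
          · exact Or.inr (Or.inl h2)
          · exact Or.inr (Or.inr ⟨⟨h, h1⟩, h2⟩)
      · exact Or.inr (Or.inl h)
  have hzZ : z ∈ Z := by
    refine ⟨hzP.1, hzP.2.1, ?_, hzP.2.2.2⟩
    rw [hUMz]; exact Set.subset_union_left
  have hZM : ∀ z' ∈ Z, ∀ m ∈ M, H.Adj z' m := by
    intro z' hz' m hm
    have hsub : H.neighborSet z' ∪ U ⊆ H.neighborSet z ∪ U := by
      apply Set.union_subset _ Set.subset_union_right
      rw [← hUMz]; exact hz'.2.2.1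
    have hz'P : z' ∈ P := by
      refine ⟨hz'.1, hz'.2.1, ?_, hz'.2.2.2⟩
      intro t ht
      rcases hsub (Or.inl ht) with h | h
      · exact hzP.2.2.1 h
      · exact (hU1 h).1
    have heq := Set.eq_of_subset_of_ncard_le hsub (hzmin z' hz'P) (Set.toFinite _)
    have : m ∈ H.neighborSet z' ∪ U := by
      rw [heq]; exact Or.inl hm.1.1
    rcases this with h | h
    · exact h
    · exact absurd h hm.2
  have hMne : M.Nonempty := by
    obtain ⟨t, ht, ht'⟩ := Set.not_subset.1 hzP.2.2.2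
    exact ⟨t, ⟨ht, fun h => ht' (Or.inl h)⟩, fun h => ht' (Or.inr h)⟩
  have hcard := model hK hb hx hy hxf hyf hUX hyU hMX hyM hUM hU2 hZ hZM ⟨z, hzZ⟩ hMne
  refine ⟨U ∪ M, ⟨?_, ?_, ?_⟩, ?_⟩
  · apply Set.union_subset hU1
    intro t ht
    exact ⟨hzP.2.2.1 ht.1.1, ht.1.2⟩
  · rintro u (hu | hu)
    · obtain ⟨z', h1, h2, h3, h4⟩ := hU2 u hu
      exact ⟨z', h1, h2, h3, h4.trans (Set.insert_subset_insert Set.subset_union_left)⟩
    · exact ⟨z, hzZ.1, hzZ.2.1, hu.1.1, hzZ.2.2.1⟩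
  · have : cnt H X x y (U ∪ M) = cnt H X x y U ∪ Z := by
      ext v
      simp only [cnt, hZ, Set.mem_union, Set.mem_ofPred_eq]
      constructor
      · rintro ⟨h1, h2, h3, h4⟩
        by_cases h5 : H.neighborSet v ⊆ insert y U
        · exact Or.inl ⟨h1, h2, h3, h5⟩
        · exact Or.inr ⟨h1, h2, h4, h5⟩
      · rintro (⟨h1, h2, h3, h4⟩ | ⟨h1, h2, h3, h4⟩)
        · exact ⟨h1, h2, h3, h4.trans (Set.insert_subset_insert Set.subset_union_left)⟩
        · refine ⟨h1, h2, ?_, h3⟩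
          intro h
          apply h4
          rw [h]
          intro t ht
          exact Or.inl ht
    rw [this, Set.ncard_union_eq ?_ (Set.toFinite _) (Set.toFinite _),
      Set.ncard_union_eq hUM (Set.toFinite _) (Set.toFinite _), hU3, hcard]
    refine Set.disjoint_left.2 fun v hv hv' => hv'.2.2.2 hv.2.2.2
  · rw [Set.ncard_union_eq hUM (Set.toFinite _) (Set.toFinite _)]
    have := (Set.ncard_pos (Set.toFinite M)).2 hMne
    omega

end

end ECount

open ECount in
/-- (EF) counting lemma for graphs with a dominating edge -/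
theorem card_sub_of_dominating {V : Type u} [Fintype V] {H : SimpleGraph V} (hH : H.Connected)
    (hK : KFree H) {X : Set V} (hb : Bip H X)
    {x y : V} (hx : x ∈ X) (hy : y ∉ X) (hxf : ∀ v ∉ X, H.Adj x v) (hyf : ∀ v ∈ X, H.Adj y v)
    {x₁ : V} (hx₁ : x₁ ∈ X) (hne : x₁ ≠ x) (hN : H.neighborSet x₁ ≠ {y}) :
    {z | z ∈ X ∧ z ≠ x ∧ H.neighborSet z ≠ {y} ∧ H.neighborSet z ⊆ H.neighborSet x₁}.ncard + 1
      = (H.neighborSet x₁).ncard := by
  have hyN : ∀ v ∈ X, y ∈ H.neighborSet v := fun v hv => (hyf v hv).symm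
  have h0 : Good H X x y x₁ ∅ := by
    refine ⟨Set.empty_subset _, by simp, ?_⟩
    rw [Set.ncard_empty, Set.ncard_eq_zero (Set.toFinite _)]
    rw [Set.eq_empty_iff_forall_notMem]
    rintro v ⟨h1, h2, h3, h4⟩
    apply h3
    apply Set.Subset.antisymm
    · simpa using h4
    · intro t ht
      rw [Set.mem_singleton_iff.1 ht]
      exact hyN v h1
  obtain ⟨U, hU, hmax⟩ := Set.exists_max_image {U | Good H X x y x₁ U} (fun U => U.ncard)
    (Set.toFinite _) ⟨∅, h0⟩
  have hUeq : U = H.neighborSet x₁ \ {y} := by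
    by_contra hUne
    obtain ⟨U', hU', hlt⟩ := step hK hb hx hy hxf hyf hx₁ hne hU hUne
    have := hmax U' hU'
    omega
  have h3 := hU.2.2
  have hins : insert y U = H.neighborSet x₁ := by
    rw [hUeq, Set.insert_sdiff_singleton, Set.insert_eq_of_mem (hyN x₁ hx₁)]
  unfold cnt at h3
  rw [hins] at h3
  rw [h3, ← hins, Set.ncard_insert_of_notMem (fun h => (hU.1 h).2 rfl) (Set.toFinite _)]

end W_MP_9f10ef_co
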