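import Pool.Agent.W_MP_9f10ef_co.ECount

/-!
# MP_9f10ef_co, part (E3): bipartite graphs with a dominating edge
-/

namespace W_MP_9f10ef_co

open Classical

universe u

namespace Dom

variable {V : Type u} [Fintype V] {H : SimpleGraph V}

theorem wt_le_card {w : V → ℝ} {S : Set V} {β : ℝ} (h : ∀ v ∈ S, w v ≤ β) :
    wt w S ≤ S.ncard * β := by
  rw [wt_eq_sum, Set.ncard_eq_toFinset_card']
  have := Finset.sum_le_card_nsmul S.toFinset w β (by simpa using h)
  simpa using this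

theorem card_le_wt {w : V → ℝ} {S : Set V} {β : ℝ} (h : ∀ v ∈ S, β ≤ w v) :
    S.ncard * β ≤ wt w S := by
  rw [wt_eq_sum, Set.ncard_eq_toFinset_card']
  have := Finset.card_nsmul_le_sum S.toFinset w β (by simpa using h)
  simpa using this

theorem wt_sdiff {w : V → ℝ} {S : Set V} {v : V} (h : v ∈ S) :
    wt w S = w v + wt w (S \ {v}) := by
  rw [← wt_insert (by simp), Set.insert_sdiff_singleton, Set.insert_eq_of_mem h]

omit [Fintype V] in
theorem conn_star {y : V} {S : Set V} (hS : ∀ v ∈ S, H.Adj y v) : Conn H (insert y S) := by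
  have := (conn_singleton (G := H) y).iUnion_of_touch (B := fun i : S => {i.1})
    (fun i => conn_singleton _) (fun i => Or.inr ⟨y, rfl, i.1, rfl, hS _ i.2⟩)
  convert this using 1
  ext v; simp

omit [Fintype V] in
theorem conn_indep {D : Set V} (hD : Conn H D) (h : ∀ u ∈ D, ∀ v ∈ D, ¬ H.Adj u v) :
    ∃ v, D = {v} := by
  obtain ⟨v, hv⟩ := hD.nonempty
  refine ⟨v, ?_⟩
  by_contra hne
  have h1 : (D \ {v}).Nonempty := by
    by_contra h0
    rw [Set.not_nonempty_iff_eq_empty, Set.sdiff_eq_empty] at h0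
    exact hne (le_antisymm h0 (by simpa using hv))
  obtain ⟨a, ha, b, hb, hab⟩ := (conn_iff.1 hD).2 {v} (by simpa using hv) ⟨v, rfl⟩ h1
  rw [Set.mem_singleton_iff] at ha
  subst ha
  exact h a hv b hb.1 hab

/-- inequality (1) -/
theorem ineq {X : Set V} (hb : Bip H X) {x y : V} (hx : x ∈ X) (hy : y ∉ X)
    (hxf : ∀ v ∉ X, H.Adj x v) (hyf : ∀ v ∈ X, H.Adj y v)
    {w : V → ℝ} (hw : ∀ v, 0 ≤ w v) (hs : ∀ x ∈ X, ∀ y ∉ X, H.Adj x y → w y ≤ w x)
    (hno : ∀ T, IsConnSafe H w T → wt w X < wt w T) {x' : V} (hx' : x' ∈ X)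
    (hne : (X \ {x'}).Nonempty) :
    wt w (X \ {x'}) + w y < w x' + wt w (H.neighborSet x' \ {y}) := by
  by_contra hcon
  push Not at hcon
  have hyT : y ∉ X \ {x'} := fun h => hy h.1
  have hwT : wt w (insert y (X \ {x'})) = w y + wt w (X \ {x'}) := wt_insert hyT
  have hyx' : w y ≤ w x' := hs x' hx' y hy (hyf x' hx').symm
  have hle : wt w (insert y (X \ {x'})) ≤ wt w X := by
    rw [hwT, wt_sdiff hx']; linarith
  refine absurd hle (not_le.2 (hno _ (isConnSafe_of (conn_star fun v hv => hyf v hv.1) ?_)))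
  intro D hD
  have hDsub : ∀ v ∈ D, v = x' ∨ (v ∉ X ∧ v ≠ y) := by
    intro v hv
    have := hD.subset hv
    simp only [Set.mem_compl_iff, Set.mem_insert_iff, Set.mem_sdiff, Set.mem_singleton_iff,
      not_or, not_and, not_not] at this
    by_cases hvX : v ∈ X
    · exact Or.inl (this.2 hvX)
    · exact Or.inr ⟨hvX, this.1⟩
  by_cases hxD : x' ∈ D
  · have hDsub' : D ⊆ insert x' (H.neighborSet x' \ {y}) := by
      have hcomp : IsComp H (insert y (X \ {x'}))ᶜ (insert x' (H.neighborSet x' \ {y})) := by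
        refine isComp_of_closed (conn_star fun v hv => hv.1) ?_ ?_
        · intro v hv
          simp only [Set.mem_compl_iff, Set.mem_insert_iff, Set.mem_sdiff, Set.mem_singleton_iff,
            not_or, not_and, not_not] at hv ⊢
          rcases hv with rfl | ⟨hv1, hv2⟩
          · exact ⟨fun h => hy (h ▸ hx'), fun _ => rfl⟩
          · refine ⟨hv2, fun hvX => ?_⟩
            exact absurd hvX ((hb x' v hv1).1 hx')
        · intro c hc v hv hcv
          simp only [Set.mem_compl_iff, Set.mem_insert_iff, Set.mem_sdiff, Set.mem_singleton_iff,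
            not_or, not_and, not_not] at hc hv ⊢
          rcases hc with rfl | ⟨hc1, hc2⟩
          · exact Or.inr ⟨hcv, hv.1⟩
          · have h1 : c ∉ X := (hb x' c hc1).1 hx'
            have h2 : v ∈ X := by
              by_contra h2
              exact h1 ((hb c v hcv).2 h2)
            exact Or.inl (hv.2 h2)
      rw [hD.eq_of_mem hcomp hxD (Set.mem_insert _ _)]
    have hx'N : x' ∉ H.neighborSet x' \ {y} := fun h => H.irrefl h.1
    calc wt w D ≤ wt w (insert x' (H.neighborSet x' \ {y})) := wt_mono hw hDsub'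
      _ = w x' + wt w (H.neighborSet x' \ {y}) := wt_insert hx'N
      _ ≤ wt w (X \ {x'}) + w y := hcon
      _ = wt w (insert y (X \ {x'})) := by rw [hwT]; ring
  · have hDY : ∀ v ∈ D, v ∉ X ∧ v ≠ y := by
      intro v hv
      rcases hDsub v hv with rfl | h
      · exact absurd hv hxD
      · exact h
    obtain ⟨v, rfl⟩ := conn_indep hD.conn (fun u hu v hv huv => (hDY u hu).1
      ((hb u v huv).2 (hDY v hv).1))
    have hv := hDY v rfl
    have hxx' : x ≠ x' := by
      rintro rfl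
      apply hxD
      refine hD.mem_of_adj (c := v) rfl ?_ (hxf v hv.1).symm
      simp only [Set.mem_compl_iff, Set.mem_insert_iff, Set.mem_sdiff, Set.mem_singleton_iff,
            not_or, not_and, not_not]
      exact ⟨fun h => hy (h ▸ hx), fun _ => trivial⟩
    rw [wt_singleton]
    exact (hs x hx v hv.1 (hxf v hv.1)).trans
      (le_wt_of_mem hw (Set.mem_insert_of_mem _ ⟨hx, hxx'⟩))

/-- the case `|X \ x| ≥ 2` -/
theorem case_ge_two (hH : H.Connected) (hK : KFree H) {X : Set V} (hb : Bip H X) {x y : V}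
    (hx : x ∈ X) (hy : y ∉ X)
    (hxf : ∀ v ∉ X, H.Adj x v) (hyf : ∀ v ∈ X, H.Adj y v)
    {w : V → ℝ} (hw : ∀ v, 0 ≤ w v) (hs : ∀ x ∈ X, ∀ y ∉ X, H.Adj x y → w y ≤ w x)
    (hmax : ∀ z ∉ X, (∀ v ∈ X, H.Adj z v) → w z ≤ w y)
    (hno : ∀ T, IsConnSafe H w T → wt w X < wt w T) (hk : 2 ≤ (X \ {x}).ncard) : False := by
  have hfin : (X \ {x}).Finite := Set.toFinite _
  have hne : (X \ {x}).Nonempty := by
    rw [← Set.ncard_pos hfin]; omega
  set k : ℕ := (X \ {x}).ncard with hkdef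
  obtain ⟨x₁, hx₁, hmin₁⟩ := Set.exists_min_image (X \ {x}) w hfin hne
  have hx₁X : x₁ ∈ X := hx₁.1
  have hx₁x : x₁ ≠ x := hx₁.2
  -- nonemptiness of X \ x' for all x'
  have hneX : ∀ x' ∈ X, (X \ {x'}).Nonempty := by
    intro x' _
    by_cases h : x' = x
    · rw [h]; exact hne
    · exact ⟨x, hx, fun h' => h h'.symm⟩
  have h1 := fun {x'} (h : x' ∈ X) => ineq hb hx hy hxf hyf hw hs hno h (hneX x' h)
  have hyN : ∀ z ∈ X, y ∈ H.neighborSet z := fun z hz => (hyf z hz).symm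
  have hNX : ∀ z ∈ X, ∀ v ∈ H.neighborSet z, v ∉ X := fun z hz v hv => (hb z v hv).1 hz
  have hcardN : ∀ z ∈ X, (H.neighborSet z).ncard = (H.neighborSet z \ {y}).ncard + 1 := by
    intro z hz
    rw [Set.ncard_sdiff_singleton_add_one (hyN z hz)]
  -- weights
  have hwge : ∀ z ∈ X, ∀ v ∈ H.neighborSet z, w v ≤ w z := fun z hz v hv => hs z hz v (hNX z hz v hv) hv
  have hwx : ∀ v ∉ X, w v ≤ w x := fun v hv => hs x hx v hv (hxf v hv)
  set N₀ : Set V := H.neighborSet x₁ \ {y} with hN₀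
  have h11 := h1 hx₁X
  rw [← hN₀] at h11
  -- N₀ is nonempty
  have hX1 : wt w (X \ {x₁}) = w x + wt w ((X \ {x₁}) \ {x}) :=
    wt_sdiff ⟨hx, fun h => hx₁x h.symm⟩
  have hcard1 : ((X \ {x₁}) \ {x}).ncard + 1 = k := by
    have h2 : (X \ {x₁}) \ {x} = (X \ {x}) \ {x₁} := by
      ext v; simp only [Set.mem_sdiff, Set.mem_singleton_iff]; tauto
    rw [h2, Set.ncard_sdiff_singleton_add_one hx₁]
  have hge1 : (((X \ {x₁}) \ {x}).ncard : ℝ) * w x₁ ≤ wt w ((X \ {x₁}) \ {x}) :=
    card_le_wt fun v hv => hmin₁ v ⟨hv.1.1, hv.2⟩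
  have hcard1' : (((X \ {x₁}) \ {x}).ncard : ℝ) = (k : ℝ) - 1 := by
    have : (((X \ {x₁}) \ {x}).ncard : ℝ) + 1 = k := by exact_mod_cast hcard1
    linarith
  rw [hcard1'] at hge1
  have hkR : (2 : ℝ) ≤ k := by exact_mod_cast hk
  have hα0 := hw x₁
  have hN₀ne : N₀.Nonempty := by
    by_contra h0
    rw [Set.not_nonempty_iff_eq_empty] at h0
    rw [h0, wt_empty] at h11
    nlinarith [hw x, hw y]
  obtain ⟨y₁, hy₁, hmax₁⟩ := Set.exists_max_image N₀ w (Set.toFinite _) hN₀ne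
  have hy₁X : y₁ ∉ X := hNX x₁ hx₁X y₁ hy₁.1
  set β := w y₁ with hβ
  have hβ0 : 0 ≤ β := hw y₁
  have hβα : β ≤ w x₁ := hwge x₁ hx₁X y₁ hy₁.1
  have hβx : β ≤ w x := hwx y₁ hy₁X
  have hwN₀ : wt w N₀ ≤ N₀.ncard * β := wt_le_card hmax₁
  -- |N₀| ≥ k
  have hkβ : ((k : ℝ) - 1) * β + w y < N₀.ncard * β := by
    have h3 : ((k : ℝ) - 2) * β ≤ ((k : ℝ) - 2) * w x₁ :=
      mul_le_mul_of_nonneg_left hβα (by linarith)
    rw [hX1] at h11
    nlinarith
  have hN₀k : k ≤ N₀.ncard := by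
    by_contra hlt
    push Not at hlt
    have h4 : (N₀.ncard : ℝ) ≤ (k : ℝ) - 1 := by
      have : N₀.ncard + 1 ≤ k := hlt
      have : (N₀.ncard : ℝ) + 1 ≤ k := by exact_mod_cast this
      linarith
    have h5 := mul_le_mul_of_nonneg_right h4 hβ0
    have := hw y
    linarith
  -- EF for x₁
  have hNne₁ : H.neighborSet x₁ ≠ {y} := by
    intro h
    rw [hN₀, h, Set.sdiff_self] at hN₀ne
    exact Set.not_nonempty_empty hN₀ne
  have hEF₁ := card_sub_of_dominating hH hK hb hx hy hxf hyf hx₁X hx₁x hNne₁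
  rw [hcardN x₁ hx₁X, ← hN₀] at hEF₁
  set Z₁ : Set V := {z | z ∈ X ∧ z ≠ x ∧ H.neighborSet z ≠ {y} ∧ H.neighborSet z ⊆ H.neighborSet x₁}
    with hZ₁
  have hZ₁sub : Z₁ ⊆ X \ {x} := fun z hz => ⟨hz.1, hz.2.1⟩
  have hZ₁eq : Z₁ = X \ {x} := by
    apply Set.eq_of_subset_of_ncard_le hZ₁sub _ hfin
    omega
  have hN₀card : N₀.ncard = k := by
    have h6 : Z₁.ncard = k := by rw [hZ₁eq]
    omega
  have hall : ∀ z ∈ X, z ≠ x → H.neighborSet z ≠ {y} ∧ H.neighborSet z ⊆ H.neighborSet x₁ := by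
    intro z hz hzx
    have : z ∈ Z₁ := by rw [hZ₁eq]; exact ⟨hz, hzx⟩
    exact this.2.2
  -- β > w y, so y₁ is not full
  rw [hN₀card] at hkβ hwN₀
  have hβy : w y < β := by nlinarith
  have hy₁nf : ∃ z ∈ X, ¬ H.Adj y₁ z := by
    by_contra hcon
    push Not at hcon
    exact absurd (hmax y₁ hy₁X hcon) (not_le.2 hβy)
  -- minimal neighbourhood
  obtain ⟨x₂', hx₂', hmin₂'⟩ := Set.exists_min_image (X \ {x}) (fun z => (H.neighborSet z).ncard) hfin hne
  set T : Set V := {z | z ∈ X ∧ z ≠ x ∧ H.neighborSet z = H.neighborSet x₂'} with hT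
  obtain ⟨x₂, hx₂T, hmin₂⟩ := Set.exists_min_image T w (Set.toFinite _) ⟨x₂', hx₂'.1, hx₂'.2, rfl⟩
  have hx₂X : x₂ ∈ X := hx₂T.1
  have hx₂x : x₂ ≠ x := hx₂T.2.1
  have hN₂ : H.neighborSet x₂ = H.neighborSet x₂' := hx₂T.2.2
  rw [← hN₂] at hT
  have hmin₂N : ∀ z ∈ X, z ≠ x → (H.neighborSet x₂).ncard ≤ (H.neighborSet z).ncard := by
    intro z hz hzx
    rw [hN₂]; exact hmin₂' z ⟨hz, hzx⟩
  set M : Set V := H.neighborSet x₂ \ {y} with hM
  have hEF₂ := card_sub_of_dominating hH hK hb hx hy hxf hyf hx₂X hx₂x (hall x₂ hx₂X hx₂x).1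
  rw [hcardN x₂ hx₂X, ← hM] at hEF₂
  have hZ₂ : {z | z ∈ X ∧ z ≠ x ∧ H.neighborSet z ≠ {y} ∧ H.neighborSet z ⊆ H.neighborSet x₂} = T := by
    rw [hT]
    ext z
    simp only [Set.mem_ofPred_eq]
    constructor
    · rintro ⟨hz, hzx, _, hzN⟩
      exact ⟨hz, hzx, Set.eq_of_subset_of_ncard_le hzN (hmin₂N z hz hzx) (Set.toFinite _)⟩
    · rintro ⟨hz, hzx, hzN⟩
      exact ⟨hz, hzx, (hall z hz hzx).1, hzN.le⟩
  rw [hZ₂] at hEF₂
  have hTM : T.ncard = M.ncard := by omega
  have hM1 : 1 ≤ M.ncard := by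
    rw [← hTM]
    exact (Set.ncard_pos (Set.toFinite _)).2 ⟨x₂, hx₂T⟩
  -- M ≠ N₀
  have hMN : H.neighborSet x₂ ≠ H.neighborSet x₁ := by
    intro heq
    obtain ⟨z, hz, hzy⟩ := hy₁nf
    by_cases hzx : z = x
    · rw [hzx] at hzy; exact hzy (hxf y₁ hy₁X).symm
    · have h7 : H.neighborSet z = H.neighborSet x₁ := by
        apply Set.eq_of_subset_of_ncard_le (hall z hz hzx).2 _ (Set.toFinite _)
        rw [← heq]; exact hmin₂N z hz hzx
      have h8 : y₁ ∈ H.neighborSet z := by rw [h7]; exact hy₁.1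
      exact hzy (H.adj_symm h8)
  have hx₁T : x₁ ∉ T := by
    rw [hT]; intro h; exact hMN h.2.2.symm
  have hx₁₂ : x₁ ≠ x₂ := fun h => hx₁T (h ▸ hx₂T)
  have hMN₀ : M ⊆ N₀ := Set.sdiff_subset_sdiff_left (hall x₂ hx₂X hx₂x).2
  have h12 := h1 hx₂X
  rw [← hM] at h12
  by_cases hM2 : 2 ≤ M.ncard
  · -- |M| ≥ 2
    obtain ⟨m, hm, hmaxm⟩ := Set.exists_max_image M w (Set.toFinite _)
      ((Set.ncard_pos (Set.toFinite _)).1 hM1)
    have hwM : wt w M ≤ M.ncard * w m := wt_le_card hmaxm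
    have hmX : m ∉ X := hNX x₂ hx₂X m hm.1
    obtain ⟨x₃, hx₃T, hx₃₂⟩ : ∃ x₃ ∈ T, x₃ ≠ x₂ := by
      have : 1 < T.ncard := by omega
      exact Set.exists_ne_of_one_lt_ncard this x₂
    -- the set R = (T \ {x₂, x₃}) ∪ {x, x₁}
    set R : Set V := insert x (insert x₁ ((T \ {x₂}) \ {x₃})) with hR
    have hR1 : x₁ ∉ (T \ {x₂}) \ {x₃} := fun h => hx₁T h.1.1
    have hxT : x ∉ T := fun h => h.2.1 rfl
    have hR2 : x ∉ insert x₁ ((T \ {x₂}) \ {x₃}) := by
      rintro (h | h)
      · exact hx₁x h.symm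
      · exact hxT h.1.1
    have hRcard : R.ncard = M.ncard := by
      rw [hR, Set.ncard_insert_of_notMem hR2, Set.ncard_insert_of_notMem hR1]
      have h9 := Set.ncard_sdiff_singleton_add_one (s := T) hx₂T
      have h10 := Set.ncard_sdiff_singleton_add_one (s := T \ {x₂}) (a := x₃) ⟨hx₃T, hx₃₂⟩
      omega
    have hRw : ∀ v ∈ R, w m ≤ w v := by
      rintro v (rfl | rfl | hv)
      · exact hwx m hmX
      · exact hwge _ hx₁X m (hMN₀ hm).1
      · have hvT : v ∈ T := hv.1.1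
        rw [hT] at hvT
        exact hwge v hvT.1 m (by rw [hvT.2.2]; exact hm.1)
    have hRwt := card_le_wt hRw
    rw [hRcard] at hRwt
    have hRsub : R ⊆ (X \ {x₂}) \ {x₃} := by
      rintro v (rfl | rfl | hv)
      · exact ⟨⟨hx, fun h => hx₂x h.symm⟩, fun h => hx₃T.2.1 h.symm⟩
      · exact ⟨⟨hx₁X, hx₁₂⟩, fun h => hx₁T (h ▸ hx₃T)⟩
      · exact ⟨⟨hv.1.1.1, hv.1.2⟩, hv.2⟩
    have h13 := wt_mono hw hRsub
    have h14 : wt w (X \ {x₂}) = w x₃ + wt w ((X \ {x₂}) \ {x₃}) := wt_sdiff ⟨hx₃T.1, hx₃₂⟩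
    have h15 := hmin₂ x₃ hx₃T
    have := hw y
    linarith
  · -- |M| = 1
    have hM1' : M.ncard = 1 := by omega
    obtain ⟨m, hm⟩ := Set.ncard_eq_one.1 hM1'
    have hmN₀ : m ∈ N₀ := hMN₀ (by rw [hm]; rfl)
    rw [hm, wt_singleton] at h12
    have hwm : w m ≤ β := hmax₁ m hmN₀
    -- combine
    have h16 : wt w (X \ {x₂}) = w x₁ + wt w ((X \ {x₂}) \ {x₁}) := wt_sdiff ⟨hx₁X, hx₁₂⟩
    have h17 : wt w (X \ {x₁}) = w x₂ + wt w ((X \ {x₁}) \ {x₂}) :=
      wt_sdiff ⟨hx₂X, fun h => hx₁₂ h.symm⟩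
    have h18 : (X \ {x₁}) \ {x₂} = (X \ {x₂}) \ {x₁} := by
      ext v; simp only [Set.mem_sdiff, Set.mem_singleton_iff]; tauto
    rw [h17] at h11
    rw [h16] at h12
    rw [h18] at h11
    have h19 : ((X \ {x₂}) \ {x₁}).ncard + 1 = k := by
      have h20 := Set.ncard_sdiff_singleton_add_one (s := X \ {x₂}) (a := x₁) ⟨hx₁X, hx₁₂⟩
      have h21 := Set.ncard_sdiff_singleton_add_one (s := X) hx₂X
      have h22 := Set.ncard_sdiff_singleton_add_one (s := X) hx
      omega
    have h19' : (((X \ {x₂}) \ {x₁}).ncard : ℝ) = (k : ℝ) - 1 := by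
      have : (((X \ {x₂}) \ {x₁}).ncard : ℝ) + 1 = k := by exact_mod_cast h19
      linarith
    have h23 : (((X \ {x₂}) \ {x₁}).ncard : ℝ) * β ≤ wt w ((X \ {x₂}) \ {x₁}) := by
      apply card_le_wt
      intro v hv
      by_cases hvx : v = x
      · rw [hvx]; exact hβx
      · exact hβα.trans (hmin₁ v ⟨hv.1.1, hvx⟩)
    rw [h19'] at h23
    have h24 : 2 * (((k : ℝ) - 1) * β) + 2 * w y < wt w N₀ + w m := by linarith
    by_cases hk3 : 3 ≤ k
    · have hk3R : (3 : ℝ) ≤ k := by exact_mod_cast hk3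
      have := hw y
      nlinarith
    · have hk2 : k = 2 := by omega
      have hk2R : (k : ℝ) = 2 := by exact_mod_cast hk2
      -- X = {x, x₁, x₂}
      have hXeq : ∀ v ∈ X, v = x ∨ v = x₁ ∨ v = x₂ := by
        intro v hv
        by_contra hcon
        push Not at hcon
        have h25 : ({x₁, x₂, v} : Set V) ⊆ X \ {x} := by
          rintro u (rfl | rfl | rfl)
          · exact ⟨hx₁X, hx₁x⟩
          · exact ⟨hx₂X, hx₂x⟩
          · exact ⟨hv, hcon.1⟩
        have h26 := Set.ncard_le_ncard h25 hfin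
        rw [Set.ncard_eq_three.2 ⟨x₁, x₂, v, hx₁₂, hcon.2.1.symm, hcon.2.2.symm, rfl⟩] at h26
        omega
      have hmX : m ∉ X := hNX x₁ hx₁X m hmN₀.1
      have hmx₂ : H.Adj x₂ m := by
        have : m ∈ M := by rw [hm]; rfl
        exact this.1
      have hmfull : ∀ v ∈ X, H.Adj m v := by
        intro v hv
        rcases hXeq v hv with rfl | rfl | rfl
        · exact (hxf m hmX).symm
        · exact H.adj_symm hmN₀.1
        · exact hmx₂.symm
      have hmy := hmax m hmX hmfull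
      have hmy₁ : m ≠ y₁ := by
        rintro rfl
        obtain ⟨z, hz, hzm⟩ := hy₁nf
        exact hzm (hmfull z hz)
      have hN₀eq : wt w N₀ = w m + w y₁ := by
        have h27 : N₀ = {m, y₁} := by
          refine (Set.eq_of_subset_of_ncard_le ?_ ?_ (Set.toFinite _)).symm
          · rintro u (rfl | rfl)
            · exact hmN₀
            · exact hy₁
          · rw [hN₀card, hk2, Set.ncard_pair hmy₁]
        rw [h27, wt_insert (by simpa using hmy₁), wt_singleton]
      rw [hN₀eq, hk2R] at h24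
      have := hw y
      nlinarith

/-- the case `|X \ x| = 1` -/
theorem case_one (hH : H.Connected) (hK : KFree H) (hB : ¬ Bad5 H) {X : Set V} (hb : Bip H X)
    {x y : V} (hx : x ∈ X) (hy : y ∉ X)
    (hxf : ∀ v ∉ X, H.Adj x v) (hyf : ∀ v ∈ X, H.Adj y v)
    {w : V → ℝ} (hw : ∀ v, 0 ≤ w v) (hs : ∀ x ∈ X, ∀ y ∉ X, H.Adj x y → w y ≤ w x)
    (hmax : ∀ z ∉ X, (∀ v ∈ X, H.Adj z v) → w z ≤ w y)
    (hk : (X \ {x}).ncard = 1) : ∃ T, IsConnSafe H w T ∧ wt w T ≤ wt w X := by
  obtain ⟨x₁, hx₁⟩ := Set.ncard_eq_one.1 hk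
  have hx₁' : x₁ ∈ X \ {x} := by rw [hx₁]; rfl
  have hx₁X : x₁ ∈ X := hx₁'.1
  have hx₁x : x₁ ≠ x := hx₁'.2
  have hXmem : ∀ v ∈ X, v = x ∨ v = x₁ := by
    intro v hv
    by_cases h : v = x
    · exact Or.inl h
    · right
      have : v ∈ X \ {x} := ⟨hv, h⟩
      rw [hx₁] at this
      exact this
  have hwX : wt w X = w x + w x₁ := by
    rw [wt_sdiff hx, hx₁, wt_singleton]
  have hNX : ∀ z ∈ X, ∀ v ∈ H.neighborSet z, v ∉ X := fun z hz v hv => (hb z v hv).1 hz
  have hwx : ∀ v ∉ X, w v ≤ w x := fun v hv => hs x hx v hv (hxf v hv)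
  have hwyx₁ : w y ≤ w x₁ := hs x₁ hx₁X y hy (hyf x₁ hx₁X).symm
  by_cases hN : H.neighborSet x₁ = {y}
  · -- `x₁` is a leaf at `y`
    by_cases hbig : w x₁ ≤ w x + wt w Xᶜ
    · -- minimal `Y'`
      have hfam : ({Y' : Set V | Y' ⊆ Xᶜ \ {y} ∧ w x₁ ≤ w x + (w y + wt w Y')} : Set (Set V)).Nonempty := by
        refine ⟨Xᶜ \ {y}, subset_rfl, ?_⟩
        rwa [← wt_sdiff (S := Xᶜ) hy]
      obtain ⟨Y', hY'⟩ := (Set.toFinite _ : ({Y' : Set V | Y' ⊆ Xᶜ \ {y} ∧
        w x₁ ≤ w x + (w y + wt w Y')} : Set (Set V)).Finite).exists_minimal hfam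
      obtain ⟨hY'sub, hY'w⟩ := hY'.prop
      have hyY' : y ∉ Y' := fun h => (hY'sub h).2 rfl
      have hxY : x ∉ insert y Y' := by
        rintro (h | h)
        · exact hy (h ▸ hx)
        · exact (hY'sub h).1 hx
      have hwT : wt w (insert x (insert y Y')) = w x + (w y + wt w Y') := by
        rw [wt_insert hxY, wt_insert hyY']
      refine ⟨insert x (insert y Y'), isConnSafe_of (conn_star ?_) ?_, ?_⟩
      · rintro v (rfl | hv)
        · exact hxf _ hy
        · exact hxf v (hY'sub hv).1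
      · intro D hD
        have hDsub : ∀ v ∈ D, v = x₁ ∨ (v ∉ X ∧ v ≠ y) := by
          intro v hv
          have h1 := hD.subset hv
          simp only [Set.mem_compl_iff, Set.mem_insert_iff, not_or] at h1
          by_cases hvX : v ∈ X
          · rcases hXmem v hvX with h | h
            · exact absurd h h1.1
            · exact Or.inl h
          · exact Or.inr ⟨hvX, h1.2.1⟩
        obtain ⟨v, rfl⟩ := conn_indep hD.conn (by
          intro u hu v hv huv
          rcases hDsub u hu with rfl | hu'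
          · have h2 : v ∈ H.neighborSet u := huv
            rw [hN] at h2
            rcases hDsub v hv with rfl | hv'
            · exact H.irrefl huv
            · exact hv'.2 h2
          · rcases hDsub v hv with rfl | hv'
            · have h2 : u ∈ H.neighborSet v := huv.symm
              rw [hN] at h2
              exact hu'.2 h2
            · exact hu'.1 ((hb u v huv).2 hv'.1))
        rw [wt_singleton]
        rcases hDsub v rfl with rfl | hv
        · rw [hwT]; exact hY'w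
        · exact (hwx v hv.1).trans (le_wt_of_mem hw (Set.mem_insert _ _))
      · rw [hwT, hwX]
        by_cases hne : Y'.Nonempty
        · obtain ⟨v, hv⟩ := hne
          have h3 : ¬ (w x₁ ≤ w x + (w y + wt w (Y' \ {v}))) := by
            intro h4
            have h5 := hY'.le_of_le (y := Y' \ {v}) ⟨Set.sdiff_subset.trans hY'sub, h4⟩
              Set.sdiff_subset
            exact (h5 hv).2 rfl
          have h6 := wt_sdiff (w := w) hv
          have h7 := hwx v (hY'sub hv).1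
          linarith
        · rw [Set.not_nonempty_iff_eq_empty] at hne
          rw [hne, wt_empty]
          linarith
    · push Not at hbig
      have hx₁y : x₁ ∉ ({y} : Set V) := fun h => hy (h ▸ hx₁X)
      refine ⟨insert x₁ {y}, isConnSafe_of (conn_star ?_) ?_, ?_⟩
      · rintro v rfl
        exact (hyf x₁ hx₁X).symm
      · intro D hD
        have hDsub : D ⊆ insert x Xᶜ := by
          intro v hv
          have h1 := hD.subset hv
          simp only [Set.mem_compl_iff, Set.mem_insert_iff, Set.mem_singleton_iff, not_or] at h1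
          by_cases hvX : v ∈ X
          · rcases hXmem v hvX with h | h
            · exact Or.inl h
            · exact absurd h h1.1
          · exact Or.inr hvX
        have h8 := wt_mono hw hDsub
        rw [wt_insert (by simpa using hx)] at h8
        rw [wt_insert hx₁y, wt_singleton]
        have := hw y
        linarith
      · rw [wt_insert hx₁y, wt_singleton, hwX]
        have := hwx y hy
        linarith
  · -- `N(x₁) = {y, y₁}`
    have hEF := card_sub_of_dominating hH hK hb hx hy hxf hyf hx₁X hx₁x hN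
    have hle : {z | z ∈ X ∧ z ≠ x ∧ H.neighborSet z ≠ {y} ∧
        H.neighborSet z ⊆ H.neighborSet x₁}.ncard ≤ 1 := by
      rw [← hk]
      exact Set.ncard_le_ncard (fun z hz => ⟨hz.1, hz.2.1⟩) (Set.toFinite _)
    have hyN : y ∈ H.neighborSet x₁ := (hyf x₁ hx₁X).symm
    obtain ⟨y₁, hy₁N, hy₁y⟩ : ∃ y₁ ∈ H.neighborSet x₁, y₁ ≠ y := by
      by_contra hcon
      push Not at hcon
      exact hN (Set.eq_singleton_iff_unique_mem.2 ⟨hyN, hcon⟩)
    have hN2 : H.neighborSet x₁ = {y, y₁} := by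
      refine (Set.eq_of_subset_of_ncard_le ?_ ?_ (Set.toFinite _)).symm
      · rintro u (rfl | rfl)
        · exact hyN
        · exact hy₁N
      · rw [Set.ncard_pair hy₁y.symm]; omega
    have hy₁X : y₁ ∉ X := hNX x₁ hx₁X y₁ hy₁N
    have hxx₁ : ¬ H.Adj x x₁ := fun h => (hb x x₁ h).1 hx hx₁X
    -- no other vertex
    have hYeq : ∀ v ∉ X, v = y ∨ v = y₁ := by
      by_contra hcon
      push Not at hcon
      obtain ⟨y', hy'X, hy'y, hy'y₁⟩ := hcon
      apply hB
      refine ⟨{x}, {x₁}, {y'}, {y₁}, conn_singleton x, conn_singleton x₁, ?_, ?_, ?_, ?_, ?_, ?_,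
        ?_, ?_, ?_, ?_⟩
      · simpa using hx₁x.symm
      · rw [Set.disjoint_left]
        rintro v (rfl | rfl) (h | h)
        · exact hy'X (h ▸ hx)
        · exact hy₁X (h ▸ hx)
        · exact hy'X (h ▸ hx₁X)
        · exact hy₁X (h ▸ hx₁X)
      · simpa using hy'y₁
      · rintro ⟨a, rfl, b, rfl, hab⟩
        exact hxx₁ hab
      · rintro d rfl v hv
        have hvX : v ∈ X := by
          by_contra h
          exact hy'X ((hb d v hv).2 h)
        rcases hXmem v hvX with rfl | rfl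
        · exact Or.inl (Or.inl rfl)
        · exact Or.inl (Or.inr rfl)
      · rintro d rfl v hv
        have hvX : v ∈ X := by
          by_contra h
          exact hy₁X ((hb d v hv).2 h)
        rcases hXmem v hvX with rfl | rfl
        · exact Or.inl (Or.inl rfl)
        · exact Or.inl (Or.inr rfl)
      · exact ⟨y', rfl, x, rfl, (hxf y' hy'X).symm⟩
      · exact ⟨y₁, rfl, x₁, rfl, H.adj_symm hy₁N⟩
      · refine ⟨y, ?_, x, rfl, hyf x hx⟩
        rintro (((h | h) | h) | h)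
        · exact hy (h ▸ hx)
        · exact hy (h ▸ hx₁X)
        · exact hy'y h.symm
        · exact hy₁y h.symm
      · refine ⟨y, ?_, x₁, rfl, hyf x₁ hx₁X⟩
        rintro (((h | h) | h) | h)
        · exact hy (h ▸ hx)
        · exact hy (h ▸ hx₁X)
        · exact hy'y h.symm
        · exact hy₁y h.symm
    have hy₁full : ∀ v ∈ X, H.Adj y₁ v := by
      intro v hv
      rcases hXmem v hv with rfl | rfl
      · exact (hxf y₁ hy₁X).symm
      · exact H.adj_symm hy₁N
    have hwy₁ := hmax y₁ hy₁X hy₁full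
    have key : ∀ a b : V, a ∈ X → b ∈ X → (∀ v ∈ X, v = a ∨ v = b) → w b ≤ w a →
        wt w X = w a + w b → ∃ T, IsConnSafe H w T ∧ wt w T ≤ wt w X := by
      intro a b ha hb' hab hwab hwX'
      have hay : a ∉ ({y} : Set V) := fun h => hy (h ▸ ha)
      refine ⟨insert a {y}, isConnSafe_of (conn_star ?_) ?_, ?_⟩
      · rintro v rfl
        exact (hyf a ha).symm
      · intro D hD
        have hDsub : D ⊆ insert b {y₁} := by
          intro v hv
          have h1 := hD.subset hv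
          simp only [Set.mem_compl_iff, Set.mem_insert_iff, Set.mem_singleton_iff, not_or] at h1
          by_cases hvX : v ∈ X
          · rcases hab v hvX with h | h
            · exact absurd h h1.1
            · exact Or.inl h
          · rcases hYeq v hvX with h | h
            · exact absurd h h1.2
            · exact Or.inr h
        have h8 := wt_mono hw hDsub
        have hby₁ : b ∉ ({y₁} : Set V) := fun h => hy₁X (h ▸ hb')
        rw [wt_insert hby₁, wt_singleton] at h8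
        rw [wt_insert hay, wt_singleton]
        linarith
      · rw [wt_insert hay, wt_singleton, hwX']
        have := hs b hb' y hy (hyf b hb').symm
        linarith
    rcases le_total (w x₁) (w x) with h | h
    · exact key x x₁ hx hx₁X hXmem h hwX
    · exact key x₁ x hx₁X hx (fun v hv => (hXmem v hv).symm) h (by rw [hwX]; ring)

end Dom

variable {V : Type u} [Fintype V] {H : SimpleGraph V}

/-- (E3) dominating edge -/
theorem exists_connSafe_of_dominating (hH : H.Connected) (hK : KFree H) (hB : ¬ Bad5 H)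
    {X : Set V} (hb : Bip H X)
    {x y : V} (hx : x ∈ X) (hy : y ∉ X) (hxf : ∀ v ∉ X, H.Adj x v) (hyf : ∀ v ∈ X, H.Adj y v)
    {w : V → ℝ} (hw : ∀ v, 0 ≤ w v) (hs : ∀ x ∈ X, ∀ y ∉ X, H.Adj x y → w y ≤ w x) :
    ∃ T, IsConnSafe H w T ∧ wt w T ≤ wt w X := by
  -- replace `y` by the heaviest full vertex
  obtain ⟨y', ⟨hy', hy'f⟩, hmax⟩ := Set.exists_max_image {z | z ∉ X ∧ ∀ v ∈ X, H.Adj z v} w
    (Set.toFinite _) ⟨y, hy, hyf⟩
  have hmax' : ∀ z ∉ X, (∀ v ∈ X, H.Adj z v) → w z ≤ w y' := fun z hz hzf => hmax z ⟨hz, hzf⟩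
  rcases Nat.lt_or_ge 1 (X \ {x}).ncard with hk | hk
  · by_contra hcon
    push Not at hcon
    exact Dom.case_ge_two hH hK hb hx hy' hxf hy'f hw hs hmax' hcon hk
  · rcases Nat.eq_or_lt_of_le hk with hk | hk
    · exact Dom.case_one hH hK hB hb hx hy' hxf hy'f hw hs hmax' hk
    · -- `X = {x}`
      have h0 : X \ {x} = ∅ := by
        rw [← Set.ncard_eq_zero (Set.toFinite _)]; omega
      have hXx : X = {x} := by
        rw [Set.sdiff_eq_empty] at h0
        exact le_antisymm h0 (by simpa using hx)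
      refine ⟨X, isConnSafe_of ?_ ?_, le_rfl⟩
      · rw [hXx]; exact conn_singleton x
      · intro D hD
        have hDX : ∀ v ∈ D, v ∉ X := fun v hv => hD.subset hv
        obtain ⟨v, rfl⟩ := Dom.conn_indep hD.conn
          (fun u hu v hv huv => hDX u hu ((hb u v huv).2 (hDX v hv)))
        rw [wt_singleton]
        have hv := hDX v rfl
        exact (hs x hx v hv (hxf v hv)).trans (le_wt_of_mem hw hx)

end W_MP_9f10ef_co
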