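import Pool.Agent.W_MP_9f10ef_co.EDefs

/-!
# MP_9f10ef_co, part (E): contraction of the components of `G[S]` and `G - S`
-/

namespace W_MP_9f10ef_co

open Classical

universe u v

namespace EQuot

variable {V : Type u} {V' : Type v}

/-- `H` arises from `G` by contracting the (connected) fibres of `p`. -/
structure IsContr (G : SimpleGraph V) (H : SimpleGraph V') (p : V → V') : Prop where
  fib : ∀ b, Conn G (p ⁻¹' {b})
  adj : ∀ a b, H.Adj a b ↔ a ≠ b ∧ Touch G (p ⁻¹' {a}) (p ⁻¹' {b})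

variable {G : SimpleGraph V} {H : SimpleGraph V'} {p : V → V'}

theorem IsContr.adj_of_adj (h : IsContr G H p) {u v : V} (huv : G.Adj u v) (hne : p u ≠ p v) :
    H.Adj (p u) (p v) :=
  (h.adj _ _).2 ⟨hne, u, rfl, v, rfl, huv⟩

theorem IsContr.surj (h : IsContr G H p) (b : V') : ∃ v, p v = b := (h.fib b).nonempty

theorem IsContr.touch_iff (h : IsContr G H p) {A B : Set V'} (hAB : Disjoint A B) :
    Touch H A B ↔ Touch G (p ⁻¹' A) (p ⁻¹' B) := by
  constructor
  · rintro ⟨a, ha, b, hb, hab⟩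
    obtain ⟨_, u, hu, v, hv, huv⟩ := (h.adj a b).1 hab
    have hu' : p u = a := hu
    have hv' : p v = b := hv
    refine ⟨u, ?_, v, ?_, huv⟩
    · show p u ∈ A
      rw [hu']; exact ha
    · show p v ∈ B
      rw [hv']; exact hb
  · rintro ⟨u, hu, v, hv, huv⟩
    have hu : p u ∈ A := hu
    have hv : p v ∈ B := hv
    refine ⟨p u, hu, p v, hv, h.adj_of_adj huv ?_⟩
    intro he
    rw [he] at hu
    exact Set.disjoint_left.1 hAB hu hv

theorem IsContr.conn_iff (h : IsContr G H p) {s : Set V'} : Conn H s ↔ Conn G (p ⁻¹' s) := by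
  constructor
  · intro hs
    rw [W_MP_9f10ef_co.conn_iff] at hs ⊢
    obtain ⟨⟨b, hb⟩, hs⟩ := hs
    obtain ⟨v, hv⟩ := h.surj b
    refine ⟨⟨v, by show p v ∈ s; rw [hv]; exact hb⟩, ?_⟩
    intro E hE hEne hEc
    by_cases hun : ∀ u v, p u = p v → u ∈ E → v ∈ E
    · -- `E` is a union of fibres
      have hEp : E = p ⁻¹' (p '' E) := by
        ext x
        constructor
        · intro hx; exact ⟨x, hx, rfl⟩
        · rintro ⟨y, hy, hyx⟩
          exact hun y x hyx hy
      have hsub : p '' E ⊆ s := by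
        rintro _ ⟨x, hx, rfl⟩
        exact hE hx
      have hne1 : (p '' E).Nonempty := hEne.image p
      have hne2 : (s \ (p '' E)).Nonempty := by
        obtain ⟨x, hx, hx'⟩ := hEc
        refine ⟨p x, hx, ?_⟩
        rintro ⟨y, hy, hyx⟩
        exact hx' (hun y x hyx hy)
      have ht := hs _ hsub hne1 hne2
      rw [h.touch_iff Set.disjoint_sdiff_right, Set.preimage_sdiff, ← hEp] at ht
      exact ht
    · push Not at hun
      obtain ⟨u, v, huv, hu, hv⟩ := hun
      have hfib : p ⁻¹' {p u} ⊆ p ⁻¹' s := by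
        intro x hx
        have hx : p x = p u := hx
        show p x ∈ s
        rw [hx]
        exact hE hu
      have ht := ((W_MP_9f10ef_co.conn_iff).1 (h.fib (p u))).2 (p ⁻¹' {p u} ∩ E)
        Set.inter_subset_left ⟨u, rfl, hu⟩ ⟨v, huv.symm, fun hv' => hv hv'.2⟩
      refine ht.mono Set.inter_subset_right ?_
      intro x hx
      exact ⟨hfib hx.1, fun hxE => hx.2 ⟨hx.1, hxE⟩⟩
  · intro hs
    rw [W_MP_9f10ef_co.conn_iff] at hs ⊢
    obtain ⟨⟨v, hv⟩, hs⟩ := hs
    refine ⟨⟨p v, hv⟩, ?_⟩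
    rintro A hA ⟨a, ha⟩ ⟨b, hb, hb'⟩
    obtain ⟨u, hu⟩ := h.surj a
    obtain ⟨v, hv⟩ := h.surj b
    have ht := hs (p ⁻¹' A) (Set.preimage_mono hA) ⟨u, by show p u ∈ A; rw [hu]; exact ha⟩
      ⟨v, by show p v ∈ s; rw [hv]; exact hb, by
        intro hv'
        have hv' : p v ∈ A := hv'
        rw [hv] at hv'
        exact hb' hv'⟩
    rw [← Set.preimage_sdiff, ← h.touch_iff Set.disjoint_sdiff_right] at ht
    exact ht

theorem IsContr.connected (h : IsContr G H p) (hG : G.Connected) : H.Connected := by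
  have h1 : Conn H (Set.univ : Set V') := by
    rw [h.conn_iff, Set.preimage_univ]
    exact conn_univ hG
  exact (SimpleGraph.Iso.connected_iff (SimpleGraph.induceUnivIso H)).1 h1

theorem IsContr.bad5 (h : IsContr G H p) (hb : Bad5 H) : Bad5 G := by
  obtain ⟨A, B, D2, D3, hA, hB, hAB, hABD, hD, hnt, h2, h3, t2, t3, t1A, t1B⟩ := hb
  have hD2A : Disjoint D2 A := (hABD.mono Set.subset_union_left Set.subset_union_left).symm
  have hD3B : Disjoint D3 B := (hABD.mono Set.subset_union_right Set.subset_union_right).symm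
  have hcl : ∀ {D C : Set V'}, D ⊆ C → (∀ d ∈ D, ∀ v, H.Adj d v → v ∈ C) →
      ∀ d ∈ p ⁻¹' D, ∀ v, G.Adj d v → v ∈ p ⁻¹' C := by
    intro D C hDC hDCadj d hd v hdv
    have hd : p d ∈ D := hd
    show p v ∈ C
    by_cases he : p d = p v
    · rw [← he]; exact hDC hd
    · exact hDCadj (p d) hd (p v) (h.adj_of_adj hdv he)
  refine ⟨p ⁻¹' A, p ⁻¹' B, p ⁻¹' D2, p ⁻¹' D3, h.conn_iff.1 hA, h.conn_iff.1 hB,
    hAB.preimage p, ?_, hD.preimage p, ?_, ?_, ?_, ?_, ?_, ?_, ?_⟩
  · rw [← Set.preimage_union, ← Set.preimage_union]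
    exact hABD.preimage p
  · rw [← h.touch_iff hAB]
    exact hnt
  · have := hcl (D := D2) (C := A ∪ B ∪ D2) Set.subset_union_right h2
    simpa only [Set.preimage_union] using this
  · have := hcl (D := D3) (C := A ∪ B ∪ D3) Set.subset_union_right h3
    simpa only [Set.preimage_union] using this
  · exact (h.touch_iff hD2A).1 t2
  · exact (h.touch_iff hD3B).1 t3
  · have hd : Disjoint (A ∪ B ∪ D2 ∪ D3)ᶜ A := by
      rw [Set.disjoint_left]
      intro x hx hxA
      exact hx (Or.inl (Or.inl (Or.inl hxA)))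
    have := (h.touch_iff hd).1 t1A
    simpa only [Set.preimage_union, Set.preimage_compl] using this
  · have hd : Disjoint (A ∪ B ∪ D2 ∪ D3)ᶜ B := by
      rw [Set.disjoint_left]
      intro x hx hxB
      exact hx (Or.inl (Or.inl (Or.inr hxB)))
    have := (h.touch_iff hd).1 t1B
    simpa only [Set.preimage_union, Set.preimage_compl] using this

theorem IsContr.kfree (h : IsContr G H p) (hK : KFree G) : KFree H := by
  rintro m n hm hmn ⟨f, hf1, hf2⟩
  refine hK m n hm hmn ⟨fun v => f (p v), ?_, ?_⟩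
  · intro b
    have h1 : Conn H (f ⁻¹' {b}) := hf1 b
    rw [h.conn_iff] at h1
    exact h1
  · intro a b hab
    rw [hf2 a b hab]
    constructor
    · rintro ⟨u, v, hu, hv, huv⟩
      obtain ⟨_, u', hu', v', hv', huv'⟩ := (h.adj u v).1 huv
      have hu' : p u' = u := hu'
      have hv' : p v' = v := hv'
      exact ⟨u', v', by show f (p u') = a; rw [hu', hu], by show f (p v') = b; rw [hv', hv], huv'⟩
    · rintro ⟨u, v, hu, hv, huv⟩
      refine ⟨p u, p v, hu, hv, h.adj_of_adj huv ?_⟩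
      intro he
      apply hab
      rw [← hu, ← hv]
      show f (p u) = f (p v)
      rw [he]

variable [Fintype V] [Fintype V']

theorem wt_preimage (w : V → ℝ) (p : V → V') (T : Set V') :
    wt w (p ⁻¹' T) = wt (fun b => wt w (p ⁻¹' {b})) T := by
  unfold wt
  have h1 : ∀ b, T.indicator (fun b => ∑ v, (p ⁻¹' {b}).indicator w v) b =
      ∑ v, if p v = b ∧ b ∈ T then w v else 0 := by
    intro b
    by_cases hb : b ∈ T
    · rw [Set.indicator_of_mem hb]
      refine Finset.sum_congr rfl fun v _ => ?_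
      by_cases hv : p v = b
      · rw [Set.indicator_of_mem (by exact hv), if_pos ⟨hv, hb⟩]
      · rw [Set.indicator_of_notMem (by exact hv), if_neg fun h => hv h.1]
    · rw [Set.indicator_of_notMem hb]
      symm
      exact Finset.sum_eq_zero fun v _ => if_neg fun h => hb h.2
  rw [Finset.sum_congr rfl fun b _ => h1 b, Finset.sum_comm]
  refine Finset.sum_congr rfl fun v _ => ?_
  rw [Finset.sum_eq_single (p v)]
  · by_cases hv : p v ∈ T
    · rw [Set.indicator_of_mem (by exact hv), if_pos ⟨rfl, hv⟩]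
    · rw [Set.indicator_of_notMem (by exact hv), if_neg fun h => hv h.2]
  · intro b _ hb
    exact if_neg fun h => hb h.1.symm
  · intro h
    exact absurd (Finset.mem_univ _) h

theorem IsContr.safe (h : IsContr G H p) (hG : G.Connected) {w : V → ℝ} (hw : ∀ v, 0 ≤ w v)
    {T : Set V'} (hT : IsConnSafe H (fun b => wt w (p ⁻¹' {b})) T) :
    IsConnSafe G w (p ⁻¹' T) := by
  refine isConnSafe_of (h.conn_iff.1 hT.2) ?_
  intro D hD
  rw [← Set.preimage_compl] at hD
  have hun : ∀ u v, p u = p v → u ∈ D → v ∈ D := by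
    intro u v huv hu
    have hsub : p ⁻¹' {p u} ⊆ p ⁻¹' Tᶜ := by
      intro x hx
      have hx : p x = p u := hx
      show p x ∈ Tᶜ
      rw [hx]
      exact hD.1 hu
    exact hD.subset_of_inter (h.fib (p u)) hsub ⟨u, hu, rfl⟩ huv.symm
  have hDp : D = p ⁻¹' (p '' D) := by
    ext x
    constructor
    · intro hx; exact ⟨x, hx, rfl⟩
    · rintro ⟨y, hy, hyx⟩
      exact hun y x hyx hy
  have hconn : Conn H (p '' D) := by
    rw [h.conn_iff, ← hDp]
    exact hD.conn
  have hdisj : Disjoint (p '' D) T := by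
    rw [Set.disjoint_left]
    rintro _ ⟨x, hx, rfl⟩
    exact hD.1 hx
  have h1 := hT.wt_le (h.connected hG) (fun b => wt_nonneg hw _) hconn hdisj
  rw [← wt_preimage, ← wt_preimage, ← hDp] at h1
  exact h1

end EQuot

open EQuot

/-- (EQ) quotient of `(G, w, S)` -/
theorem exists_quotient {V : Type u} [Fintype V] {G : SimpleGraph V} (hG : G.Connected) {w : V → ℝ} (hw : ∀ v, 0 ≤ w v)
    {S : Set V} (hS : IsSafe G w S) :
    ∃ (V' : Type u) (_ : Fintype V') (H : SimpleGraph V') (w' : V' → ℝ) (X : Set V'),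
      H.Connected ∧ (∀ v, 0 ≤ w' v) ∧ X.Nonempty ∧ Bip H X ∧
      (∀ x ∈ X, ∀ y ∉ X, H.Adj x y → w' y ≤ w' x) ∧ wt w' X = wt w S ∧
      (∀ T, IsConnSafe H w' T → ∃ T', IsConnSafe G w T' ∧ wt w T' = wt w' T) ∧
      (Bad5 H → Bad5 G) ∧ (KFree G → KFree H) := by
  let V' : Type u := {C : Set V // IsComp G S C ∨ IsComp G Sᶜ C}
  have hfin : Fintype V' := Fintype.ofFinite V'
  have hexc : ∀ v : V, ∃ C : V', v ∈ C.1 := by
    intro v
    by_cases hv : v ∈ S
    · obtain ⟨D, hD, hvD⟩ := exists_comp_mem (G := G) hv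
      exact ⟨⟨D, Or.inl hD⟩, hvD⟩
    · obtain ⟨D, hD, hvD⟩ := exists_comp_mem (G := G) (X := Sᶜ) hv
      exact ⟨⟨D, Or.inr hD⟩, hvD⟩
  choose p hp using hexc
  have hnot : ∀ C D : Set V, IsComp G S C → IsComp G Sᶜ D → ∀ v, v ∈ C → v ∉ D := by
    intro C D hC hD v hvC hvD
    exact hD.1 hvD (hC.1 hvC)
  have huniq : ∀ (v : V) (C : V'), v ∈ C.1 → p v = C := by
    intro v C hvC
    refine Subtype.ext ?_
    rcases (p v).2 with h1 | h1 <;> rcases C.2 with h2 | h2
    · exact h1.eq_of_mem h2 (hp v) hvC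
    · exact absurd hvC (hnot _ _ h1 h2 v (hp v))
    · exact absurd (hp v) (hnot _ _ h2 h1 v hvC)
    · exact h1.eq_of_mem h2 (hp v) hvC
  have hfib : ∀ C : V', p ⁻¹' {C} = C.1 := by
    intro C
    ext v
    constructor
    · intro hv
      have hv : p v = C := hv
      rw [← hv]
      exact hp v
    · intro hv
      exact huniq v C hv
  let H : SimpleGraph V' :=
    { Adj := fun C D => C ≠ D ∧ Touch G C.1 D.1
      symm := ⟨fun C D h => ⟨h.1.symm, h.2.symm⟩⟩
      loopless := ⟨fun C h => h.1 rfl⟩ }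
  have hcontr : IsContr G H p := by
    refine ⟨?_, ?_⟩
    · intro C
      rw [hfib C]
      rcases C.2 with h | h
      · exact h.conn
      · exact h.conn
    · intro C D
      rw [hfib C, hfib D]
  let X : Set V' := {C | IsComp G S C.1}
  have hXc : ∀ C : V', C ∉ X → IsComp G Sᶜ C.1 := by
    intro C hC
    rcases C.2 with h | h
    · exact absurd h hC
    · exact h
  have hXc' : ∀ C : V', IsComp G Sᶜ C.1 → C ∉ X := by
    intro C hC hX
    obtain ⟨v, hv⟩ := hC.nonempty
    exact hnot _ _ hX hC v hv hv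
  have hw' : (fun C : V' => wt w C.1) = fun C : V' => wt w (p ⁻¹' {C}) := by
    funext C
    rw [hfib C]
  refine ⟨V', hfin, H, fun C => wt w C.1, X, hcontr.connected hG, fun C => wt_nonneg hw _, ?_,
    ?_, ?_, ?_, ?_, hcontr.bad5, hcontr.kfree⟩
  · obtain ⟨v, hv⟩ := hS.1
    obtain ⟨D, hD, hvD⟩ := exists_comp_mem (G := G) hv
    exact ⟨⟨D, Or.inl hD⟩, hD⟩
  · rintro C D ⟨hne, ht⟩
    have hne' : C.1 ≠ D.1 := fun h => hne (Subtype.ext h)
    constructor
    · intro hC hD
      have h1 : IsComp G S C.1 := hC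
      have h2 : IsComp G S D.1 := hD
      exact h1.not_touch h2 hne' ht
    · intro hD
      by_contra hC
      exact (hXc C hC).not_touch (hXc D hD) hne' ht
  · rintro C hC D hD ⟨_, ht⟩
    exact hS.2 C.1 D.1 hC (hXc D hD) ht
  · rw [hw', ← wt_preimage]
    congr 1
    ext v
    constructor
    · intro hv
      have hv : IsComp G S (p v).1 := hv
      exact hv.1 (hp v)
    · intro hv
      show IsComp G S (p v).1
      rcases (p v).2 with h | h
      · exact h
      · exact absurd hv (h.1 (hp v))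
  · intro T hT
    rw [hw'] at hT ⊢
    exact ⟨p ⁻¹' T, hcontr.safe hG hw hT, wt_preimage w p T⟩

end W_MP_9f10ef_co
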