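import Pool.Agent.W_MP_9f10ef_co.EDefs

/-!
# MP_9f10ef_co, part (E1): structure of bipartite graphs without bad 2-cut and without
`K_{m,n}` contraction (`2 ≤ m < n`): there is a dominating edge or all degrees are two.
-/

namespace W_MP_9f10ef_co

open Classical

universe u v

variable {V : Type u} {H : SimpleGraph V}

namespace EStruct

/-- element form of the five class partition -/
theorem bad_mk (A B D2 D3 : Set V) (hA : Conn H A) (hB : Conn H B)
    (hAB : ∀ v ∈ A, v ∉ B) (hA2 : ∀ v ∈ A, v ∉ D2) (hA3 : ∀ v ∈ A, v ∉ D3)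
    (hB2 : ∀ v ∈ B, v ∉ D2) (hB3 : ∀ v ∈ B, v ∉ D3) (h23 : ∀ v ∈ D2, v ∉ D3)
    (hnt : ∀ a ∈ A, ∀ b ∈ B, ¬ H.Adj a b)
    (h2 : ∀ d ∈ D2, ∀ v, H.Adj d v → v ∈ A ∨ v ∈ B ∨ v ∈ D2)
    (h3 : ∀ d ∈ D3, ∀ v, H.Adj d v → v ∈ A ∨ v ∈ B ∨ v ∈ D3)
    (t2 : ∃ d ∈ D2, ∃ a ∈ A, H.Adj d a) (t3 : ∃ d ∈ D3, ∃ b ∈ B, H.Adj d b)
    (tA : ∃ p, p ∉ A ∧ p ∉ B ∧ p ∉ D2 ∧ p ∉ D3 ∧ ∃ a ∈ A, H.Adj p a)
    (tB : ∃ p, p ∉ A ∧ p ∉ B ∧ p ∉ D2 ∧ p ∉ D3 ∧ ∃ b ∈ B, H.Adj p b) : Bad5 H := by
  refine ⟨A, B, D2, D3, hA, hB, Set.disjoint_left.2 hAB, ?_, Set.disjoint_left.2 h23, ?_, ?_, ?_,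
    ?_, ?_, ?_, ?_⟩
  · rw [Set.disjoint_left]
    rintro v (hv | hv) (h | h)
    · exact hA2 v hv h
    · exact hA3 v hv h
    · exact hB2 v hv h
    · exact hB3 v hv h
  · rintro ⟨a, ha, b, hb, hab⟩
    exact hnt a ha b hb hab
  · intro d hd v hdv
    rcases h2 d hd v hdv with h | h | h
    · exact Or.inl (Or.inl h)
    · exact Or.inl (Or.inr h)
    · exact Or.inr h
  · intro d hd v hdv
    rcases h3 d hd v hdv with h | h | h
    · exact Or.inl (Or.inl h)
    · exact Or.inl (Or.inr h)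
    · exact Or.inr h
  · obtain ⟨d, hd, a, ha, h⟩ := t2
    exact ⟨d, hd, a, ha, h⟩
  · obtain ⟨d, hd, a, ha, h⟩ := t3
    exact ⟨d, hd, a, ha, h⟩
  · obtain ⟨p, h1, h2, h3, h4, a, ha, h⟩ := tA
    refine ⟨p, ?_, a, ha, h⟩
    rintro (((h | h) | h) | h)
    exacts [h1 h, h2 h, h3 h, h4 h]
  · obtain ⟨p, h1, h2, h3, h4, a, ha, h⟩ := tB
    refine ⟨p, ?_, a, ha, h⟩
    rintro (((h | h) | h) | h)
    exacts [h1 h, h2 h, h3 h, h4 h]

/-- family form of `KFree.card` -/
theorem card_fam (hK : KFree H) {α β : Type v} [Fintype α] [Fintype β]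
    (A : α → Set V) (B : β → Set V)
    (cover : ∀ v, (∃ a, v ∈ A a) ∨ (∃ b, v ∈ B b))
    (dA : ∀ a a' v, v ∈ A a → v ∈ A a' → a = a') (dB : ∀ b b' v, v ∈ B b → v ∈ B b' → b = b')
    (dAB : ∀ a b v, v ∈ A a → v ∉ B b)
    (cA : ∀ a, Conn H (A a)) (cB : ∀ b, Conn H (B b))
    (nA : ∀ a a', a ≠ a' → ∀ u ∈ A a, ∀ v ∈ A a', ¬ H.Adj u v)
    (nB : ∀ b b', b ≠ b' → ∀ u ∈ B b, ∀ v ∈ B b', ¬ H.Adj u v)
    (t : ∀ a b, ∃ u ∈ A a, ∃ v ∈ B b, H.Adj u v)
    (ha : 2 ≤ Fintype.card α) (hb : 2 ≤ Fintype.card β) : Fintype.card α = Fintype.card β := by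
  have hex : ∀ v, ∃ i : α ⊕ β, v ∈ Sum.elim A B i := by
    intro v
    rcases cover v with ⟨a, h⟩ | ⟨b, h⟩
    · exact ⟨Sum.inl a, h⟩
    · exact ⟨Sum.inr b, h⟩
  choose f hf using hex
  have huniq : ∀ (i j : α ⊕ β) (v : V), v ∈ Sum.elim A B i → v ∈ Sum.elim A B j → i = j := by
    rintro (a | a) (b | b) v hi hj
    · rw [dA a b v hi hj]
    · exact absurd hj (dAB a b v hi)
    · exact absurd hi (dAB b a v hj)
    · rw [dB a b v hi hj]
  have hfib : ∀ i : α ⊕ β, f ⁻¹' {i} = Sum.elim A B i := by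
    intro i
    ext v
    constructor
    · intro h
      have h' : f v = i := h
      rw [← h']; exact hf v
    · intro h
      exact huniq _ _ v (hf v) h
  refine hK.card f ?_ ?_ ?_ ?_ ha hb
  · intro i
    rw [hfib i]
    rcases i with a | b
    · exact cA a
    · exact cB b
  · intro a a' hne
    rw [hfib, hfib]
    rintro ⟨u, hu, v, hv, huv⟩
    exact nA a a' hne u hu v hv huv
  · intro a a' hne
    rw [hfib, hfib]
    rintro ⟨u, hu, v, hv, huv⟩
    exact nB a a' hne u hu v hv huv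
  · intro a b
    rw [hfib, hfib]
    exact t a b

/-- a set connected to a connected set vertex by vertex -/
theorem conn_union_of_adj {A S : Set V} (hA : Conn H A) (h : ∀ s ∈ S, ∃ a ∈ A, H.Adj a s) :
    Conn H (A ∪ S) := by
  have := hA.iUnion_of_touch (B := fun s : S => ({s.1} : Set V)) (fun s => conn_singleton s.1)
    (fun s => Or.inr (by
      obtain ⟨a, ha, has⟩ := h s.1 s.2
      exact ⟨a, ha, s.1, rfl, has⟩))
  have heq : (⋃ s : S, ({s.1} : Set V)) = S := by
    ext x; simp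
  rwa [heq] at this

theorem conn_star {v : V} {S : Set V} (h : ∀ s ∈ S, H.Adj v s) : Conn H ({v} ∪ S) :=
  conn_union_of_adj (conn_singleton v) (fun s hs => ⟨v, rfl, h s hs⟩)

/-- a nonempty complete bipartite pair of sets is connected -/
theorem conn_biclique {S T : Set V} (hS : S.Nonempty) (hT : T.Nonempty)
    (h : ∀ s ∈ S, ∀ t ∈ T, H.Adj s t) : Conn H (S ∪ T) := by
  obtain ⟨s, hs⟩ := hS
  obtain ⟨t, ht⟩ := hT
  have h1 : Conn H ({s} ∪ T) := conn_star (fun t ht => h s hs t ht)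
  have h2 : Conn H (({s} ∪ T) ∪ S) :=
    conn_union_of_adj h1 (fun s' hs' => ⟨t, Or.inr ht, (h s' hs' t ht).symm⟩)
  have heq : ({s} ∪ T) ∪ S = S ∪ T := by
    ext x
    simp only [Set.mem_union, Set.mem_singleton_iff]
    constructor
    · rintro ((rfl | h) | h)
      exacts [Or.inl hs, Or.inr h, Or.inl h]
    · rintro (h | h)
      exacts [Or.inr h, Or.inl (Or.inr h)]
  rwa [heq] at h2

/-- removing a dominated vertex keeps connectedness -/
theorem conn_diff_dom {C : Set V} (hC : Conn H C) {y y' : V} (hy : y ∈ C) (hne : y ≠ y')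
    (hdom : ∀ v ∈ C, H.Adj y' v → H.Adj y v) : Conn H (C \ {y'}) := by
  by_cases hy' : y' ∈ C
  swap
  · rwa [Set.sdiff_singleton_eq_self hy']
  rw [conn_iff] at hC ⊢
  refine ⟨⟨y, hy, hne⟩, ?_⟩
  intro E hE hEne hEc
  have hEC : E ⊆ C := hE.trans Set.sdiff_subset
  have hy'E : y' ∉ E := fun h => (hE h).2 rfl
  by_cases hyE : y ∈ E
  · -- apply to E ∪ {y'}
    obtain ⟨e, he, f, hf, hef⟩ := hC.2 (insert y' E) (Set.insert_subset hy' hEC)
      (Set.insert_nonempty _ _) (by
        obtain ⟨g, hg, hg'⟩ := hEc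
        refine ⟨g, hg.1, ?_⟩
        rintro (h | h)
        · exact hg.2 h
        · exact hg' h)
    have hf' : f ∈ (C \ {y'}) \ E := by
      refine ⟨⟨hf.1, ?_⟩, fun h => hf.2 (Or.inr h)⟩
      intro h
      exact hf.2 (Or.inl h)
    rcases he with rfl | he
    · exact ⟨y, hyE, f, hf', hdom f hf.1 hef⟩
    · exact ⟨e, he, f, hf', hef⟩
  · obtain ⟨e, he, f, hf, hef⟩ := hC.2 E hEC hEne ⟨y, hy, hyE⟩
    by_cases hfy : f = y'
    · subst hfy
      exact ⟨e, he, y, ⟨⟨hy, hne⟩, hyE⟩, (hdom e (hEC he) hef.symm).symm⟩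
    · exact ⟨e, he, f, ⟨⟨hf.1, hfy⟩, hf.2⟩, hef⟩

theorem diff_conn_aux (hB : ¬ Bad5 H) {A C D2 E1 E2 : Set V} (hA : Conn H A)
    (hC : IsComp H Aᶜ C) (hAD : ∀ v ∈ A, v ∉ D2) (hCD : ∀ v ∈ C, v ∉ D2)
    (hN : ∀ d ∈ D2, ∀ v, H.Adj d v → v ∈ A ∨ v ∈ D2) (ht : ∃ d ∈ D2, ∃ a ∈ A, H.Adj d a)
    {c : V} (hc : c ∈ C) (hcA : ∀ a ∈ A, ¬ H.Adj c a)
    (hE1 : E1 ⊆ C \ {c}) (hE2 : E2 ⊆ C \ {c}) (hE : ∀ v ∈ C, v = c ∨ v ∈ E1 ∨ v ∈ E2)
    (hd : ∀ v ∈ E1, v ∉ E2) (hnt : ∀ a ∈ E1, ∀ b ∈ E2, ¬ H.Adj a b)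
    (h1 : ∃ e ∈ E1, H.Adj e c) (h2 : ∃ e ∈ E2, H.Adj e c) (h1A : ∃ e ∈ E1, ∃ a ∈ A, H.Adj e a) :
    False := by
  apply hB
  have hCA : ∀ v ∈ C, v ∉ A := fun v hv => hC.1 hv
  refine bad_mk A {c} D2 E2 hA (conn_singleton c) ?_ hAD ?_ ?_ ?_ ?_ ?_ ?_ ?_ ht ?_ ?_ ?_
  · rintro v hv rfl; exact hCA _ hc hv
  · intro v hv hv2; exact hCA v (hE2 hv2).1 hv
  · rintro v rfl hv; exact hCD _ hc hv
  · rintro v rfl hv; exact (hE2 hv).2 rfl
  · intro v hv hv2; exact hCD v (hE2 hv2).1 hv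
  · rintro a ha b rfl h; exact hcA a ha h.symm
  · intro d hd v hv
    rcases hN d hd v hv with h | h
    · exact Or.inl h
    · exact Or.inr (Or.inr h)
  · intro d hd v hv
    by_cases hvA : v ∈ A
    · exact Or.inl hvA
    · have hvC : v ∈ C := hC.mem_of_adj (hE2 hd).1 hvA hv
      rcases hE v hvC with h | h | h
      · exact Or.inr (Or.inl h)
      · exact absurd hv.symm (hnt v h d hd)
      · exact Or.inr (Or.inr h)
  · obtain ⟨e, he, h⟩ := h2
    exact ⟨e, he, c, rfl, h⟩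
  · obtain ⟨e, he, a, ha, h⟩ := h1A
    exact ⟨e, hCA e (hE1 he).1, (hE1 he).2, hCD e (hE1 he).1, hd e he, a, ha, h⟩
  · obtain ⟨e, he, h⟩ := h1
    exact ⟨e, hCA e (hE1 he).1, (hE1 he).2, hCD e (hE1 he).1, hd e he, c, rfl, h⟩

/-- (S1) -/
theorem diff_conn (hH : H.Connected) (hB : ¬ Bad5 H) {A C D2 : Set V} (hA : Conn H A)
    (hC : IsComp H Aᶜ C) (hAD : ∀ v ∈ A, v ∉ D2) (hCD : ∀ v ∈ C, v ∉ D2)
    (hN : ∀ d ∈ D2, ∀ v, H.Adj d v → v ∈ A ∨ v ∈ D2) (ht : ∃ d ∈ D2, ∃ a ∈ A, H.Adj d a)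
    {c : V} (hc : c ∈ C) (hcA : ∀ a ∈ A, ¬ H.Adj c a) : Conn H (C \ {c}) := by
  obtain ⟨a, ha, d, hd, had⟩ := hC.touch_of_connected hH hA.nonempty
  have hdc : d ≠ c := by
    rintro rfl; exact hcA a ha had.symm
  rw [conn_iff]
  refine ⟨⟨d, hd, hdc⟩, ?_⟩
  intro E hE hEne hEc
  by_contra hnt
  have hCc := conn_iff.1 hC.conn
  have hnt' : ∀ a ∈ E, ∀ b ∈ (C \ {c}) \ E, ¬ H.Adj a b := by
    intro a ha b hb hab
    exact hnt ⟨a, ha, b, hb, hab⟩
  have k1 : ∃ e ∈ E, H.Adj e c := by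
    obtain ⟨e, he, f, hf, hef⟩ := hCc.2 E (hE.trans Set.sdiff_subset) hEne
      ⟨c, hc, fun h => (hE h).2 rfl⟩
    by_cases hfc : f = c
    · subst hfc; exact ⟨e, he, hef⟩
    · exact absurd hef (hnt' e he f ⟨⟨hf.1, hfc⟩, hf.2⟩)
  have k2 : ∃ e ∈ (C \ {c}) \ E, H.Adj e c := by
    obtain ⟨e, he, f, hf, hef⟩ := hCc.2 ((C \ {c}) \ E) (fun v hv => hv.1.1) hEc
      ⟨c, hc, fun h => h.1.2 rfl⟩
    by_cases hfc : f = c
    · subst hfc; exact ⟨e, he, hef⟩
    · have hfE : f ∈ E := by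
        by_contra hfE
        exact hf.2 ⟨⟨hf.1, hfc⟩, hfE⟩
      exact absurd hef.symm (hnt' f hfE e he)
  by_cases hdE : d ∈ E
  · refine diff_conn_aux hB hA hC hAD hCD hN ht hc hcA (E1 := E) (E2 := (C \ {c}) \ E) hE
      Set.sdiff_subset ?_ ?_ hnt' k1 k2 ⟨d, hdE, a, ha, had.symm⟩
    · intro v hv
      by_cases h1 : v = c
      · exact Or.inl h1
      · by_cases h2 : v ∈ E
        · exact Or.inr (Or.inl h2)
        · exact Or.inr (Or.inr ⟨⟨hv, h1⟩, h2⟩)
    · intro v hv h; exact h.2 hv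
  · refine diff_conn_aux hB hA hC hAD hCD hN ht hc hcA (E1 := (C \ {c}) \ E) (E2 := E)
      Set.sdiff_subset hE ?_ ?_ (fun a ha b hb h => hnt' b hb a ha h.symm) k2 k1
      ⟨d, ⟨⟨hd, hdc⟩, hdE⟩, a, ha, had.symm⟩
    · intro v hv
      by_cases h1 : v = c
      · exact Or.inl h1
      · by_cases h2 : v ∈ E
        · exact Or.inr (Or.inr h2)
        · exact Or.inr (Or.inl ⟨⟨hv, h1⟩, h2⟩)
    · intro v hv h; exact hv.2 h

/-! ### bipartite part -/

section bip

variable {X : Set V}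

theorem exists_adj (hH : H.Connected) {v u : V} (h : u ≠ v) : ∃ x, H.Adj v x := by
  obtain ⟨a, ha, b, _, hab⟩ := touch_compl hH (A := {v}) ⟨v, rfl⟩ ⟨u, h⟩
  have : a = v := ha
  subst this
  exact ⟨b, hab⟩

/-- the closed neighbourhood -/
def cn (H : SimpleGraph V) (z : V) : Set V := {z} ∪ H.neighborSet z

theorem conn_cn (z : V) : Conn H (cn H z) := conn_star (fun _ h => h)

/-- the rest component -/
def far (H : SimpleGraph V) (z : V) : Set V :=
  {v | v ≠ z ∧ ¬ H.Adj z v ∧ ¬ H.neighborSet v ⊆ H.neighborSet z}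

theorem not_mem_of_adj {X : Set V} (hb : Bip H X) {u v : V} (hu : u ∈ X) (h : H.Adj u v) :
    v ∉ X := (hb u v h).1 hu

theorem mem_of_adj {X : Set V} (hb : Bip H X) {u v : V} (hu : u ∉ X) (h : H.Adj u v) :
    v ∈ X := by
  by_contra hv
  exact hu ((hb u v h).2 hv)

variable [Finite V]

/-- (S2a) a vertex with a leaf neighbour is full -/
theorem full_of_leaf (hH : H.Connected) (hB : ¬ Bad5 H) (hb : Bip H X) {z u : V} (hz : z ∈ X)
    (hu : ∀ v, H.Adj u v ↔ v = z) : ∀ c, c ∉ X → H.Adj z c := by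
  intro c hc
  by_contra hzc
  have huz : H.Adj u z := (hu z).2 rfl
  have huX : u ∉ X := fun h => not_mem_of_adj hb h huz hz
  have hcz : c ≠ z := by rintro rfl; exact hc hz
  have hcu : c ≠ u := by rintro rfl; exact hzc huz.symm
  have hcn : c ∈ (cn H z)ᶜ := by
    rintro (h | h)
    · exact hcz h
    · exact hzc h
  obtain ⟨C, hC, hcC⟩ := exists_comp_mem (G := H) hcn
  have hCz : ∀ v ∈ C, v ≠ z ∧ ¬ H.Adj z v := by
    intro v hv
    have := hC.1 hv
    exact ⟨fun h => this (Or.inl h), fun h => this (Or.inr h)⟩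
  have huC : u ∉ C := fun h => (hCz u h).2 huz.symm
  -- A = N[z] \ u
  set A : Set V := {z} ∪ (H.neighborSet z \ {u}) with hAdef
  have hA : Conn H A := conn_star (fun s hs => hs.1)
  have hCA : IsComp H Aᶜ C := by
    refine isComp_of_closed hC.conn ?_ ?_
    · intro v hv
      rintro (h | h)
      · exact (hCz v hv).1 h
      · exact (hCz v hv).2 h.1
    · intro v hv x hx hvx
      by_cases hxu : x = u
      · subst hxu
        exact absurd ((hu v).1 hvx.symm) (hCz v hv).1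
      · refine hC.mem_of_adj hv ?_ hvx
        rintro (h | h)
        · exact hx (Or.inl h)
        · exact hx (Or.inr ⟨h, hxu⟩)
  have hconn : Conn H (C \ {c}) := by
    refine diff_conn hH hB hA hCA (D2 := {u}) ?_ ?_ ?_ ?_ hcC ?_
    · rintro v (h | h) hvu
      · have h : v = z := h
        have hvu : v = u := hvu
        subst h; subst hvu
        exact huX hz
      · exact h.2 hvu
    · rintro v hv rfl; exact huC hv
    · rintro d rfl v hv
      exact Or.inl (Or.inl ((hu v).1 hv))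
    · exact ⟨u, rfl, z, Or.inl rfl, huz⟩
    · rintro a (h | h) hca
      · have h : a = z := h
        subst h; exact hzc hca.symm
      · exact not_mem_of_adj hb hz h.1 (mem_of_adj hb hc hca)
  apply hB
  obtain ⟨a, ha, d, hd, had⟩ := hCA.touch_of_connected hH hA.nonempty
  have haz : a ≠ z := by rintro rfl; exact (hCz d hd).2 had
  have haN : H.Adj z a ∧ a ≠ u := by
    rcases ha with h | h
    · exact absurd h haz
    · exact ⟨h.1, h.2⟩
  have haX : a ∉ X := not_mem_of_adj hb hz haN.1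
  have haC : a ∉ C := fun h => (hCz a h).2 haN.1
  have hac : a ≠ c := by rintro rfl; exact hzc haN.1
  have hdc : d ≠ c := by
    rintro rfl; exact hc (mem_of_adj hb haX had)
  refine bad_mk {z} (C \ {c}) {u} {c} (conn_singleton z) hconn ?_ ?_ ?_ ?_ ?_ ?_ ?_ ?_ ?_ ?_ ?_ ?_ ?_
  · rintro v rfl h; exact (hCz _ h.1).1 rfl
  · rintro v rfl h
    have h : v = u := h
    subst h; exact huX hz
  · rintro v rfl h
    exact hcz h.symm
  · rintro v hv rfl; exact huC hv.1
  · rintro v hv h; exact hv.2 h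
  · rintro v rfl h
    exact hcu h.symm
  · rintro a rfl b hb' hab
    exact (hCz b hb'.1).2 hab
  · rintro d rfl v hv
    exact Or.inl ((hu v).1 hv)
  · rintro d rfl v hv
    have hvX : v ∈ X := mem_of_adj hb hc hv
    refine Or.inr (Or.inl ⟨hC.mem_of_adj hcC ?_ hv, ?_⟩)
    · rintro (h | h)
      · have h : v = z := h
        subst h; exact hzc hv.symm
      · exact not_mem_of_adj hb hz h hvX
    · rintro rfl; exact hc hvX
  · exact ⟨u, rfl, z, rfl, huz⟩
  · obtain ⟨x, hx⟩ := exists_adj hH (v := c) hcz.symm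
    have hxX : x ∈ X := mem_of_adj hb hc hx
    refine ⟨c, rfl, x, ⟨hC.mem_of_adj hcC ?_ hx, ?_⟩, hx⟩
    · rintro (h | h)
      · have h : x = z := h
        subst h; exact hzc hx.symm
      · exact not_mem_of_adj hb hz h hxX
    · rintro rfl; exact hc hxX
  · exact ⟨a, haz, fun h => haC h.1, haN.2, hac, z, rfl, haN.1.symm⟩
  · exact ⟨a, haz, fun h => haC h.1, haN.2, hac, d, ⟨hd, hdc⟩, had⟩

/-- (S2b) -/
theorem comp_unique (hH : H.Connected) (hB : ¬ Bad5 H) (hb : Bip H X) {z v1 v2 : V} (hz : z ∈ X)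
    (h1 : v1 ∉ X) (h1z : ¬ H.Adj z v1) (h2 : v2 ∉ X) (h2z : ¬ H.Adj z v2) {C : Set V}
    (hC : IsComp H (cn H z)ᶜ C) (h1C : v1 ∈ C) : v2 ∈ C := by
  by_contra h2C
  have h2n : v2 ∈ (cn H z)ᶜ := by
    rintro (h | h)
    · have h : v2 = z := h
      subst h; exact h2 hz
    · exact h2z h
  obtain ⟨C', hC', h2C'⟩ := exists_comp_mem (G := H) h2n
  have hCC' : ∀ v ∈ C, v ∉ C' := by
    intro v hv hv'
    exact h2C (by rw [hC.eq_of_mem hC' hv hv']; exact h2C')
  have hCz : ∀ {C v}, IsComp H (cn H z)ᶜ C → v ∈ C → v ≠ z ∧ ¬ H.Adj z v := by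
    intro C v hC hv
    have := hC.1 hv
    exact ⟨fun h => this (Or.inl h), fun h => this (Or.inr h)⟩
  have hgen : ∀ {C C' : Set V} {v : V}, IsComp H (cn H z)ᶜ C → IsComp H (cn H z)ᶜ C' →
      (∀ v ∈ C, v ∉ C') → v ∈ C → v ∉ X → Conn H (C \ {v}) := by
    intro C C' v hC hC' hd hv hvX
    refine diff_conn hH hB (conn_cn z) hC (D2 := C') ?_ hd ?_ ?_ hv ?_
    · intro x hx hx'; exact hC'.1 hx' hx
    · intro d hd' x hx
      by_cases hxn : x ∈ cn H z
      · exact Or.inl hxn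
      · exact Or.inr (hC'.mem_of_adj hd' hxn hx)
    · obtain ⟨a, ha, d, hd', had⟩ := hC'.touch_of_connected hH (conn_cn z).nonempty
      exact ⟨d, hd', a, ha, had.symm⟩
    · rintro a (h | h) hva
      · have h : a = z := h
        subst h; exact (hCz hC hv).2 hva.symm
      · exact not_mem_of_adj hb hz h (mem_of_adj hb hvX hva)
  have hc1 := hgen hC hC' hCC' h1C h1
  have hc2 := hgen hC' hC (fun v hv hv' => hCC' v hv' hv) h2C' h2
  have hnb : ∀ {C v}, IsComp H (cn H z)ᶜ C → v ∈ C → v ∉ X → ∀ x, H.Adj v x → x ∈ C \ {v} := by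
    intro C v hC hv hvX x hx
    have hxX : x ∈ X := mem_of_adj hb hvX hx
    refine ⟨hC.mem_of_adj hv ?_ hx, ?_⟩
    · rintro (h | h)
      · have h : x = z := h
        subst h; exact (hCz hC hv).2 hx.symm
      · exact not_mem_of_adj hb hz h hxX
    · rintro rfl; exact hvX hxX
  have htch : ∀ {C v}, IsComp H (cn H z)ᶜ C → v ∉ X → ∃ p, H.Adj z p ∧
      ∃ d ∈ C \ {v}, H.Adj p d := by
    intro C v hC hvX
    obtain ⟨a, ha, d, hd, had⟩ := hC.touch_of_connected hH (conn_cn z).nonempty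
    have haz : H.Adj z a := by
      rcases ha with h | h
      · have h : a = z := h
        subst h; exact absurd had (hCz hC hd).2
      · exact h
    refine ⟨a, haz, d, ⟨hd, ?_⟩, had⟩
    rintro rfl
    exact hvX (mem_of_adj hb (not_mem_of_adj hb hz haz) had)
  have hzN : ∀ {C p}, IsComp H (cn H z)ᶜ C → H.Adj z p → p ∉ C := by
    intro C p hC hp h
    exact (hCz hC h).2 hp
  apply hB
  refine bad_mk (C \ {v1}) (C' \ {v2}) {v1} {v2} hc1 hc2 ?_ ?_ ?_ ?_ ?_ ?_ ?_ ?_ ?_ ?_ ?_ ?_ ?_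
  · intro v hv hv'; exact hCC' v hv.1 hv'.1
  · intro v hv h; exact hv.2 h
  · rintro v hv rfl; exact hCC' _ hv.1 h2C'
  · rintro v hv rfl; exact hCC' _ h1C hv.1
  · intro v hv h; exact hv.2 h
  · rintro v rfl h
    have h : v = v2 := h
    subst h; exact h2C h1C
  · intro a ha b hb' hab
    exact hCC' b (hC.mem_of_adj ha.1 (hC'.1 hb'.1) hab) hb'.1
  · rintro d rfl v hv
    exact Or.inl (hnb hC h1C h1 v hv)
  · rintro d rfl v hv
    exact Or.inr (Or.inl (hnb hC' h2C' h2 v hv))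
  · obtain ⟨x, hx⟩ := exists_adj hH (v := v1) (u := z) (hCz hC h1C).1.symm
    exact ⟨v1, rfl, x, hnb hC h1C h1 x hx, hx⟩
  · obtain ⟨x, hx⟩ := exists_adj hH (v := v2) (u := z) (hCz hC' h2C').1.symm
    exact ⟨v2, rfl, x, hnb hC' h2C' h2 x hx, hx⟩
  · obtain ⟨p, hzp, d, hd, hpd⟩ := htch hC h1
    refine ⟨p, fun h => hzN hC hzp h.1, fun h => hzN hC' hzp h.1, ?_, ?_, d, hd, hpd⟩
    · rintro rfl; exact h1z hzp
    · rintro rfl; exact h2z hzp
  · obtain ⟨p, hzp, d, hd, hpd⟩ := htch hC' h2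
    refine ⟨p, fun h => hzN hC hzp h.1, fun h => hzN hC' hzp h.1, ?_, ?_, d, hd, hpd⟩
    · rintro rfl; exact h1z hzp
    · rintro rfl; exact h2z hzp

/-- the set `far H z` is connected for a non-full vertex `z` -/
theorem conn_far (hH : H.Connected) (hB : ¬ Bad5 H) (hb : Bip H X) {z : V} (hz : z ∈ X)
    (hnf : ∃ v, v ∉ X ∧ ¬ H.Adj z v) : Conn H (far H z) := by
  obtain ⟨v0, hv0, hzv0⟩ := hnf
  have hv0n : v0 ∈ (cn H z)ᶜ := by
    rintro (h | h)
    · have h : v0 = z := h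
      subst h; exact hv0 hz
    · exact hzv0 h
  obtain ⟨C, hC, h0⟩ := exists_comp_mem (G := H) hv0n
  have hCz : ∀ v ∈ C, v ≠ z ∧ ¬ H.Adj z v := by
    intro v hv
    have := hC.1 hv
    exact ⟨fun h => this (Or.inl h), fun h => this (Or.inr h)⟩
  suffices h : far H z = C by rw [h]; exact hC.conn
  ext v
  constructor
  · rintro ⟨hvz, hzv, hsub⟩
    have hvn : v ∈ (cn H z)ᶜ := by
      rintro (h | h)
      · exact hvz h
      · exact hzv h
    by_cases hvX : v ∈ X
    · obtain ⟨u, hu, huz⟩ := Set.not_subset.1 hsub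
      have huX : u ∉ X := not_mem_of_adj hb hvX hu
      have huC : u ∈ C := comp_unique hH hB hb hz hv0 hzv0 huX huz hC h0
      exact hC.mem_of_adj huC hvn (SimpleGraph.Adj.symm hu)
    · exact comp_unique hH hB hb hz hv0 hzv0 hvX hzv hC h0
  · intro hv
    refine ⟨(hCz v hv).1, (hCz v hv).2, ?_⟩
    intro hsub
    by_cases hvv : v = v0
    · subst hvv
      obtain ⟨x, hx⟩ := exists_adj hH (v := v) (u := z) (hCz v hv).1.symm
      exact not_mem_of_adj hb hz (hsub hx) (mem_of_adj hb hv0 hx)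
    · obtain ⟨e, he, f, hf, hef⟩ := (conn_iff.1 hC.conn).2 {v} (by simpa using hv) ⟨v, rfl⟩
        ⟨v0, h0, fun h => hvv h.symm⟩
      have he : e = v := he
      subst he
      exact (hCz f hf.1).2 (hsub hef)

/-- no leaf at a non-full vertex -/
theorem exists_other (hH : H.Connected) (hB : ¬ Bad5 H) (hb : Bip H X) {z : V} (hz : z ∈ X)
    (hnf : ∃ v, v ∉ X ∧ ¬ H.Adj z v) {u : V} (hu : H.Adj z u) : ∃ x, H.Adj u x ∧ x ≠ z := by
  by_contra hno
  push Not at hno
  obtain ⟨v, hv, hzv⟩ := hnf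
  exact hzv (full_of_leaf hH hB hb hz (u := u)
    (fun x => ⟨fun h => hno x h, fun h => by rw [h]; exact hu.symm⟩) v hv)

/-- (P1) -/
theorem le_two (hH : H.Connected) (hB : ¬ Bad5 H) (hb : Bip H X) {z : V} (hz : z ∈ X)
    (hnf : ∃ v, v ∉ X ∧ ¬ H.Adj z v)
    (hsub : ∀ z', z' ≠ z → ¬ H.neighborSet z' ⊆ H.neighborSet z)
    {a b c : V} (hab : a ≠ b) (hac : a ≠ c) (hbc : b ≠ c) (ha : H.Adj z a) (hb' : H.Adj z b)
    (hc : H.Adj z c) : False := by
  have hF := conn_far hH hB hb hz hnf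
  have hnb : ∀ u, H.Adj z u → ∀ x, H.Adj u x → x = z ∨ x ∈ far H z := by
    intro u hu x hx
    by_cases hxz : x = z
    · exact Or.inl hxz
    · have hxX : x ∈ X := mem_of_adj hb (not_mem_of_adj hb hz hu) hx
      exact Or.inr ⟨hxz, fun h => not_mem_of_adj hb hz h hxX, hsub x hxz⟩
  have hot : ∀ u, H.Adj z u → ∃ x ∈ far H z, H.Adj u x := by
    intro u hu
    obtain ⟨x, hx, hxz⟩ := exists_other hH hB hb hz hnf hu
    rcases hnb u hu x hx with h | h
    · exact absurd h hxz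
    · exact ⟨x, h, hx⟩
  have hnF : ∀ u, H.Adj z u → u ∉ far H z := fun u hu h => h.2.1 hu
  apply hB
  refine bad_mk {z} (far H z) {a} {b} (conn_singleton z) hF ?_ ?_ ?_ ?_ ?_ ?_ ?_ ?_ ?_ ?_ ?_ ?_ ?_
  · rintro v rfl h; exact h.1 rfl
  · rintro v rfl h; exact ha.ne h
  · rintro v rfl h; exact hb'.ne h
  · rintro v hv rfl; exact hnF _ ha hv
  · rintro v hv rfl; exact hnF _ hb' hv
  · rintro v rfl h; exact hab h
  · rintro v rfl x hx h; exact hnF _ h hx
  · rintro d rfl v hv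
    rcases hnb _ ha v hv with h | h
    exacts [Or.inl h, Or.inr (Or.inl h)]
  · rintro d rfl v hv
    rcases hnb _ hb' v hv with h | h
    exacts [Or.inl h, Or.inr (Or.inl h)]
  · exact ⟨a, rfl, z, rfl, ha.symm⟩
  · obtain ⟨x, hx, h⟩ := hot b hb'
    exact ⟨b, rfl, x, hx, h⟩
  · exact ⟨c, hc.ne', hnF c hc, hac.symm, hbc.symm, z, rfl, hc.symm⟩
  · obtain ⟨x, hx, h⟩ := hot c hc
    exact ⟨c, hc.ne', hnF c hc, hac.symm, hbc.symm, x, hx, h⟩

/-- (P2) -/
theorem poor_of_poor (hH : H.Connected) (hB : ¬ Bad5 H) (hb : Bip H X) {z : V} (hz : z ∈ X)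
    (hsub : ∀ z', z' ≠ z → ¬ H.neighborSet z' ⊆ H.neighborSet z)
    {a b : V} (hab : a ≠ b) (hN : ∀ v, H.Adj z v ↔ v = a ∨ v = b) {y : V} (hy : y ∉ X)
    (hzy : ¬ H.Adj z y) : ∀ y', y' ≠ y → ¬ H.neighborSet y' ⊆ H.neighborSet y := by
  intro y' hy'y hy'
  have hnf : ∃ v, v ∉ X ∧ ¬ H.Adj z v := ⟨y, hy, hzy⟩
  have hF := conn_far hH hB hb hz hnf
  obtain ⟨x, hx⟩ := exists_adj hH (v := y') (u := y) hy'y.symm
  have hyx : H.Adj y x := hy' hx
  have hxX : x ∈ X := mem_of_adj hb hy hyx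
  have hy'X : y' ∉ X := fun h => not_mem_of_adj hb h hx hxX
  have hzy' : ¬ H.Adj z y' := fun h => hzy (SimpleGraph.Adj.symm (hy' h.symm))
  have ha : H.Adj z a := (hN a).2 (Or.inl rfl)
  have hb' : H.Adj z b := (hN b).2 (Or.inr rfl)
  have hfar : ∀ v, v ∈ X → v ≠ z → v ∈ far H z := fun v hv hvz =>
    ⟨hvz, fun h => not_mem_of_adj hb hz h hv, hsub v hvz⟩
  have hfarY : ∀ v, v ∉ X → ¬ H.Adj z v → v ∈ far H z := by
    intro v hv hzv
    refine ⟨by rintro rfl; exact hv hz, hzv, ?_⟩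
    intro hs
    obtain ⟨t, ht⟩ := exists_adj hH (v := v) (u := z) (by rintro rfl; exact hv hz)
    exact not_mem_of_adj hb hz (hs ht) (mem_of_adj hb hv ht)
  have hyF : y ∈ far H z := hfarY y hy hzy
  have hBc : Conn H (far H z \ {y'}) := conn_diff_dom hF hyF hy'y.symm (fun v _ h => hy' h)
  have hmem : ∀ v, v ∈ X → v ≠ z → v ∈ far H z \ {y'} := fun v hv hvz =>
    ⟨hfar v hv hvz, by rintro rfl; exact hy'X hv⟩
  have hay' : a ≠ y' := by rintro rfl; exact hzy' ha
  have hby' : b ≠ y' := by rintro rfl; exact hzy' hb'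
  have hnb : ∀ u, H.Adj z u → ∀ x, H.Adj u x → x = z ∨ x ∈ far H z \ {y'} := by
    intro u hu x hx
    by_cases hxz : x = z
    · exact Or.inl hxz
    · exact Or.inr (hmem x (mem_of_adj hb (not_mem_of_adj hb hz hu) hx) hxz)
  have hnF : ∀ u, H.Adj z u → u ∉ far H z \ {y'} := fun u hu h => h.1.2.1 hu
  apply hB
  refine bad_mk {z} (far H z \ {y'}) {a} {y'} (conn_singleton z) hBc ?_ ?_ ?_ ?_ ?_ ?_ ?_ ?_ ?_ ?_
    ?_ ?_ ?_
  · rintro v rfl h; exact h.1.1 rfl
  · rintro v rfl h; exact ha.ne h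
  · rintro v rfl h
    have h : v = y' := h
    subst h; exact hy'X hz
  · rintro v hv rfl; exact hnF _ ha hv
  · rintro v hv h; exact hv.2 h
  · rintro v rfl h; exact hay' h
  · rintro v rfl x hx h; exact hnF _ h hx
  · rintro d rfl v hv
    rcases hnb _ ha v hv with h | h
    exacts [Or.inl h, Or.inr (Or.inl h)]
  · rintro d rfl v hv
    refine Or.inr (Or.inl (hmem v (mem_of_adj hb hy'X hv) ?_))
    rintro rfl; exact hzy' hv.symm
  · exact ⟨a, rfl, z, rfl, ha.symm⟩
  · refine ⟨y', rfl, x, hmem x hxX ?_, hx⟩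
    rintro rfl; exact hzy hyx.symm
  · exact ⟨b, hb'.ne', hnF b hb', hab.symm, hby', z, rfl, hb'.symm⟩
  · obtain ⟨t, ht, htz⟩ := exists_other hH hB hb hz hnf hb'
    rcases hnb b hb' t ht with h | h
    · exact absurd h htz
    · exact ⟨b, hb'.ne', hnF b hb', hab.symm, hby', t, h, ht⟩

omit [Finite V] in
theorem isComp_far {z : V} (hF : Conn H (far H z)) : IsComp H (cn H z)ᶜ (far H z) := by
  refine isComp_of_closed hF ?_ ?_
  · rintro v hv (h | h)
    · exact hv.1 h
    · exact hv.2.1 h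
  · intro f hf v hv hfv
    refine ⟨fun h => hv (Or.inl h), fun h => hv (Or.inr h), ?_⟩
    intro hs
    exact hf.2.1 (hs hfv.symm)

/-- a non-full vertex without dominated vertex and with two neighbours has exactly two -/
theorem poor_two (hH : H.Connected) (hB : ¬ Bad5 H) (hb : Bip H X) {z : V} (hz : z ∈ X)
    (hnf : ∃ v, v ∉ X ∧ ¬ H.Adj z v)
    (hsub : ∀ z', z' ≠ z → ¬ H.neighborSet z' ⊆ H.neighborSet z)
    {a b : V} (hab : a ≠ b) (ha : H.Adj z a) (hb' : H.Adj z b) :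
    ∀ v, H.Adj z v ↔ v = a ∨ v = b := by
  intro v
  constructor
  · intro hv
    by_contra hno
    push Not at hno
    exact le_two hH hB hb hz hnf hsub hab hno.1.symm hno.2.symm ha hb' hv
  · rintro (rfl | rfl)
    exacts [ha, hb']

/-- inclusion minimal neighbourhood in `X` -/
def IncMin (H : SimpleGraph V) (X : Set V) (c : V) : Prop :=
  c ∈ X ∧ ∀ x ∈ X, H.neighborSet x ⊆ H.neighborSet c → H.neighborSet x = H.neighborSet c

theorem exists_incMin {x : V} (hx : x ∈ X) :
    ∃ c, IncMin H X c ∧ H.neighborSet c ⊆ H.neighborSet x := by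
  have hfin : {S : Set V | ∃ c ∈ X, H.neighborSet c = S ∧ S ⊆ H.neighborSet x}.Finite :=
    Set.toFinite _
  obtain ⟨S, hS⟩ := hfin.exists_minimal ⟨_, x, hx, rfl, subset_rfl⟩
  obtain ⟨c, hc, rfl, hcx⟩ := hS.prop
  refine ⟨c, ⟨hc, fun x' hx' hsub => ?_⟩, hcx⟩
  exact le_antisymm hsub (hS.le_of_le ⟨x', hx', rfl, hsub.trans hcx⟩ hsub)

/-! The standing assumption: no vertex outside `X` is full. -/

variable (hH : H.Connected) (hB : ¬ Bad5 H) (hb : Bip H X) (hY : Xᶜ.Nonempty)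
  (hnf : ∀ y ∉ X, ∃ x ∈ X, ¬ H.Adj y x)

include hH hB hb hY hnf

theorem two_nbrs {x : V} (hx : x ∈ X) : ∃ a b, a ≠ b ∧ H.Adj x a ∧ H.Adj x b := by
  obtain ⟨y, hy⟩ := hY
  obtain ⟨a, ha⟩ := exists_adj hH (v := x) (u := y) (by rintro rfl; exact hy hx)
  by_contra hno
  push Not at hno
  have haX : a ∉ X := not_mem_of_adj hb hx ha
  have hfull := full_of_leaf hH hB hb.compl (z := a) (u := x) haX (fun v => by
    constructor
    · intro hv
      by_contra hne
      exact hno v a hne hv ha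
    · rintro rfl; exact ha)
  obtain ⟨x', hx', hax'⟩ := hnf a haX
  exact hax' (hfull x' (by simpa using hx'))

omit hH hB [Finite V] in
theorem incMin_nonfull {c : V} (hc : IncMin H X c) : ∃ v, v ∉ X ∧ ¬ H.Adj c v := by
  by_contra hno
  push Not at hno
  obtain ⟨y, hy⟩ := hY
  obtain ⟨x, hx, hyx⟩ := hnf y hy
  have := hc.2 x hx (fun v hv => hno v (not_mem_of_adj hb hx hv))
  have hyc : y ∈ H.neighborSet c := hno y hy
  rw [← this] at hyc
  exact hyx (SimpleGraph.Adj.symm hyc)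

omit hB hY hnf [Finite V] in
theorem mem_X_of_sub {c x : V} (hc : c ∈ X) (hne : x ≠ c)
    (hs : H.neighborSet x ⊆ H.neighborSet c) : x ∈ X := by
  obtain ⟨t, ht⟩ := exists_adj hH (v := x) (u := c) hne.symm
  exact mem_of_adj hb (not_mem_of_adj hb hc (hs ht)) (SimpleGraph.Adj.symm ht)

omit hB hY hnf [Finite V] in
theorem mem_far_Y {c y : V} (hc : c ∈ X) (hy : y ∉ X) : y ∈ far H c ↔ ¬ H.Adj c y := by
  constructor
  · exact fun h => h.2.1
  · intro h
    refine ⟨by rintro rfl; exact hy hc, h, ?_⟩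
    intro hs
    exact hy (mem_X_of_sub hH hb hc (by rintro rfl; exact hy hc) hs)

omit hH hB hY hnf [Finite V] in
theorem mem_far_X {c x : V} (hc : IncMin H X c) (hx : x ∈ X) :
    x ∈ far H c ↔ H.neighborSet x ≠ H.neighborSet c := by
  constructor
  · intro h heq
    exact h.2.2 heq.subset
  · intro h
    refine ⟨by rintro rfl; exact h rfl, fun h' => not_mem_of_adj hb hc.1 h' hx, ?_⟩
    intro hs
    exact h (hc.2 x hx hs)

omit hB hY hnf [Finite V] in
theorem same_mem_X {c x : V} (hc : c ∈ X) (h : H.neighborSet x = H.neighborSet c) : x ∈ X := by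
  by_cases hxc : x = c
  · rw [hxc]; exact hc
  · exact mem_X_of_sub hH hb hc hxc h.subset

/-- `M₀ = ∅` -/
theorem nbr_far {c m : V} (hc : IncMin H X c) (hm : H.Adj c m) :
    ∃ x ∈ X, H.Adj m x ∧ H.neighborSet x ≠ H.neighborSet c := by
  by_contra hno
  push Not at hno
  have hnfc := incMin_nonfull hb hY hnf hc
  have hcX := hc.1
  have hmX : m ∉ X := not_mem_of_adj hb hcX hm
  have hM : ∀ x, H.Adj m x → H.neighborSet x = H.neighborSet c := fun x hx =>
    hno x (mem_of_adj hb hmX hx) hx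
  have hM' : ∀ x, H.neighborSet x = H.neighborSet c → H.Adj m x := by
    intro x hx
    have : m ∈ H.neighborSet x := by rw [hx]; exact hm
    exact SimpleGraph.Adj.symm this
  have hF := conn_far hH hB hb hcX hnfc
  -- there is a twin
  obtain ⟨t, hmt, htc⟩ := exists_other hH hB hb hcX hnfc hm
  have htN := hM t hmt
  have htX : t ∈ X := mem_of_adj hb hmX hmt
  have hfarN : ∀ x, H.neighborSet x = H.neighborSet c → x ∉ far H c := by
    intro x hx h; exact h.2.2 hx.subset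
  by_cases h2 : ∃ m', m' ≠ m ∧ H.Adj c m' ∧ ∀ x, H.Adj m' x → H.neighborSet x = H.neighborSet c
  · -- BAD#2
    obtain ⟨m', hm'm, hcm', hm'N⟩ := h2
    obtain ⟨v, hv, hcv⟩ := hnfc
    have hvF : v ∈ far H c := (mem_far_Y hH hb hcX hv).2 hcv
    have hBc : Conn H (far H c \ {v}) := by
      refine diff_conn hH hB (conn_cn c) (isComp_far hF) (D2 := {t}) ?_ ?_ ?_ ?_ hvF ?_
      · rintro x (h | h) hxt
        · have h : x = c := h
          have hxt : x = t := hxt
          exact htc (by rw [← hxt, h])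
        · have hxt : x = t := hxt
          subst hxt
          exact not_mem_of_adj hb hcX h htX
      · rintro x hx rfl; exact hfarN _ htN hx
      · rintro d rfl x hx
        left; right
        have : x ∈ H.neighborSet d := hx
        rwa [htN] at this
      · exact ⟨t, rfl, m, Or.inr hm, hmt.symm⟩
      · rintro a (h | h) hva
        · have h : a = c := h
          subst h; exact hcv hva.symm
        · exact not_mem_of_adj hb hcX h (mem_of_adj hb hv hva)
    set A : Set V := {x | H.neighborSet x = H.neighborSet c} ∪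
      {n | H.Adj c n ∧ n ≠ m ∧ ∀ x, H.Adj n x → H.neighborSet x = H.neighborSet c} with hAdef
    have hA : Conn H A := by
      refine conn_biclique ⟨c, rfl⟩ ⟨m', hcm', hm'm, hm'N⟩ ?_
      intro x hx n hn
      have : n ∈ H.neighborSet x := by
        rw [show H.neighborSet x = H.neighborSet c from hx]; exact hn.1
      exact this
    obtain ⟨a, ha, d, hd, had⟩ := (isComp_far hF).touch_of_connected hH (conn_cn c).nonempty
    have hca : H.Adj c a := by
      rcases ha with h | h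
      · have h : a = c := h
        subst h; exact absurd had hd.2.1
      · exact h
    have haX : a ∉ X := not_mem_of_adj hb hcX hca
    have hdX : d ∈ X := mem_of_adj hb haX had
    have hdv : d ≠ v := by rintro rfl; exact hv hdX
    have haA : a ∉ A := by
      rintro (h | h)
      · exact haX (same_mem_X hH hb hcX h)
      · exact hfarN d (h.2.2 d had) hd
    have haF : a ∉ far H c := fun h => h.2.1 hca
    have ham : a ≠ m := by
      rintro rfl; exact hfarN d (hM d had) hd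
    have hav : a ≠ v := by rintro rfl; exact hcv hca
    apply hB
    refine bad_mk A (far H c \ {v}) {m} {v} hA hBc ?_ ?_ ?_ ?_ ?_ ?_ ?_ ?_ ?_ ?_ ?_ ?_ ?_
    · rintro x (h | h) hx
      · exact hfarN x h hx.1
      · exact hx.1.2.1 h.1
    · rintro x (h | h) hx
      · have hx : x = m := hx
        subst hx; exact hmX (same_mem_X hH hb hcX h)
      · exact h.2.1 hx
    · rintro x (h | h) hx
      · have hx : x = v := hx
        subst hx; exact hv (same_mem_X hH hb hcX h)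
      · have hx : x = v := hx
        subst hx; exact hcv h.1
    · rintro x hx rfl; exact hx.1.2.1 hm
    · rintro x hx h; exact hx.2 h
    · rintro x rfl h
      have h : x = v := h
      subst h; exact hcv hm
    · rintro x (h | h) y hy hxy
      · have : y ∈ H.neighborSet x := hxy
        rw [show H.neighborSet x = H.neighborSet c from h] at this
        exact hy.1.2.1 this
      · exact hfarN y (h.2.2 y hxy) hy.1
    · rintro d rfl x hx
      exact Or.inl (Or.inl (hM x hx))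
    · rintro d rfl x hx
      have hxX : x ∈ X := mem_of_adj hb hv hx
      refine Or.inr (Or.inl ⟨(mem_far_X hb hc hxX).2 ?_, ?_⟩)
      · intro h
        have : d ∈ H.neighborSet x := hx.symm
        rw [h] at this
        exact hcv this
      · rintro rfl; exact hv hxX
    · exact ⟨m, rfl, c, Or.inl rfl, hm.symm⟩
    · obtain ⟨x, hx⟩ := exists_adj hH (v := v) (u := c) (by rintro rfl; exact hv hcX)
      have hxX : x ∈ X := mem_of_adj hb hv hx
      refine ⟨v, rfl, x, ⟨(mem_far_X hb hc hxX).2 ?_, ?_⟩, hx⟩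
      · intro h
        have : v ∈ H.neighborSet x := hx.symm
        rw [h] at this
        exact hcv this
      · rintro rfl; exact hv hxX
    · exact ⟨a, haA, fun h => haF h.1, ham, hav, c, Or.inl rfl, hca.symm⟩
    · exact ⟨a, haA, fun h => haF h.1, ham, hav, d, ⟨hd, hdv⟩, had⟩
  · push Not at h2
    -- every other m' has a neighbour in far
    have hother : ∀ n, n ≠ m → H.Adj c n → ∃ x ∈ far H c, H.Adj x n := by
      intro n hn hcn
      obtain ⟨x, hx, hxN⟩ := h2 n hn hcn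
      have hxX : x ∈ X := mem_of_adj hb (not_mem_of_adj hb hcX hcn) hx
      exact ⟨x, (mem_far_X hb hc hxX).2 hxN, hx.symm⟩
    obtain ⟨n, hnm, hcn⟩ : ∃ n, n ≠ m ∧ H.Adj c n := by
      obtain ⟨a, b, hab, ha, hb'⟩ := two_nbrs hH hB hb hY hnf hcX
      by_cases ham : a = m
      · exact ⟨b, by rw [← ham]; exact hab.symm, hb'⟩
      · exact ⟨a, ham, ha⟩
    have hnX : n ∉ X := not_mem_of_adj hb hcX hcn
    by_cases h3 : ∃ s, s ≠ c ∧ s ≠ t ∧ H.neighborSet s = H.neighborSet c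
    · obtain ⟨s, hsc, hst, hsN⟩ := h3
      set B : Set V := far H c ∪ {n | H.Adj c n ∧ n ≠ m} with hBdef
      have hBc : Conn H B := conn_union_of_adj hF (fun n hn => hother n hn.2 hn.1)
      have hsX : s ∈ X := same_mem_X hH hb hcX hsN
      have hTB : ∀ x, x ∈ X → H.neighborSet x = H.neighborSet c → x ∉ B := by
        rintro x hx hxN (h | h)
        · exact hfarN x hxN h
        · exact not_mem_of_adj hb hcX h.1 hx
      have hTm : ∀ x, x ∈ X → x ≠ m := by rintro x hx rfl; exact hmX hx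
      have hadj : ∀ x, H.neighborSet x = H.neighborSet c → ∀ v, H.Adj x v → v = m ∨ v ∈ B := by
        intro x hx v hv
        have : v ∈ H.neighborSet x := hv
        rw [hx] at this
        by_cases hvm : v = m
        · exact Or.inl hvm
        · exact Or.inr (Or.inr ⟨this, hvm⟩)
      have hadjn : ∀ x, H.neighborSet x = H.neighborSet c → H.Adj x n := by
        intro x hx
        have : n ∈ H.neighborSet x := by rw [hx]; exact hcn
        exact this
      apply hB
      refine bad_mk {m} B {c} {t} (conn_singleton m) hBc ?_ ?_ ?_ ?_ ?_ ?_ ?_ ?_ ?_ ?_ ?_ ?_ ?_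
      · rintro x rfl (h | h)
        · exact h.2.1 hm
        · exact h.2 rfl
      · rintro x rfl h; exact hTm c hcX (Eq.symm h)
      · rintro x rfl h; exact hTm t htX (Eq.symm h)
      · rintro x hx rfl; exact hTB _ hcX rfl hx
      · rintro x hx rfl; exact hTB _ htX htN hx
      · rintro x rfl h; exact htc (Eq.symm h)
      · rintro x rfl y (h | h) hy
        · exact hfarN y (hM y hy) h
        · exact not_mem_of_adj hb hcX h.1 (mem_of_adj hb hmX hy)
      · rintro d rfl v hv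
        rcases hadj _ rfl v hv with h | h
        exacts [Or.inl h, Or.inr (Or.inl h)]
      · rintro d rfl v hv
        rcases hadj _ htN v hv with h | h
        exacts [Or.inl h, Or.inr (Or.inl h)]
      · exact ⟨c, rfl, m, rfl, hm⟩
      · exact ⟨t, rfl, n, Or.inr ⟨hcn, hnm⟩, hadjn t htN⟩
      · exact ⟨s, hTm s hsX, hTB s hsX hsN, hsc, hst, m, rfl, (hM' s hsN).symm⟩
      · exact ⟨s, hTm s hsX, hTB s hsX hsN, hsc, hst, n, Or.inr ⟨hcn, hnm⟩, hadjn s hsN⟩
    · push Not at h3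
      -- m is poor with neighbours c, t
      have hmN : ∀ v, H.Adj m v ↔ v = c ∨ v = t := by
        intro v
        constructor
        · intro hv
          by_contra hno'
          push Not at hno'
          exact h3 v hno'.1 hno'.2 (hM v hv)
        · rintro (rfl | rfl)
          exacts [hm.symm, hmt]
      have hmsub : ∀ y', y' ≠ m → ¬ H.neighborSet y' ⊆ H.neighborSet m := by
        intro y' hy' hs
        obtain ⟨x, hx⟩ := exists_adj hH (v := y') (u := m) hy'.symm
        have hxN := hM x (hs hx)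
        have hcy' : H.Adj c y' := by
          have : y' ∈ H.neighborSet x := hx.symm
          rw [hxN] at this
          exact this
        obtain ⟨x', hx', hx'N⟩ := h2 y' hy' hcy'
        exact hx'N (hM x' (hs hx'))
      obtain ⟨x, hx, hnx⟩ := hnf n hnX
      apply hnx
      by_cases hxN : H.neighborSet x = H.neighborSet c
      · have : n ∈ H.neighborSet x := by rw [hxN]; exact hcn
        exact SimpleGraph.Adj.symm this
      · exfalso
        have hmx : ¬ H.Adj m x := fun h => hxN (hM x h)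
        have hxsub := poor_of_poor hH hB hb.compl (z := m) hmX hmsub htc.symm hmN (y := x)
          (by simpa using hx) hmx
        obtain ⟨a, b, hab, ha, hb'⟩ := two_nbrs hH hB hb hY hnf hx
        have hxnf : ∃ v, v ∉ X ∧ ¬ H.Adj x v := ⟨n, hnX, fun h => hnx h.symm⟩
        have hx2 := poor_two hH hB hb hx hxnf hxsub hab ha hb'
        have hnsub := poor_of_poor hH hB hb hx hxsub hab hx2 hnX (fun h => hnx h.symm)
        apply hnsub m hnm.symm
        intro v hv
        rcases (hmN v).1 hv with rfl | rfl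
        · exact hcn.symm
        · have : n ∈ H.neighborSet v := by rw [htN]; exact hcn
          exact SimpleGraph.Adj.symm this

variable (hK : KFree H)

include hK

/-- (KP) for a minimal class -/
theorem card_class {c : V} (hc : IncMin H X c) :
    (H.neighborSet c).ncard = {x | H.neighborSet x = H.neighborSet c}.ncard + 1 := by
  have := Fintype.ofFinite V
  have hcX := hc.1
  have hnfc := incMin_nonfull hb hY hnf hc
  have hF := conn_far hH hB hb hcX hnfc
  obtain ⟨a, b, hab, ha, hb'⟩ := two_nbrs hH hB hb hY hnf hcX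
  have h1 : 2 ≤ Fintype.card (Option {x // H.neighborSet x = H.neighborSet c}) := by
    rw [Fintype.card_option]
    have : 0 < Fintype.card {x // H.neighborSet x = H.neighborSet c} :=
      Fintype.card_pos_iff.2 ⟨⟨c, rfl⟩⟩
    omega
  have h2 : 2 ≤ Fintype.card {m // H.Adj c m} := by
    have : 1 < Fintype.card {m // H.Adj c m} := by
      rw [Fintype.one_lt_card_iff]
      exact ⟨⟨a, ha⟩, ⟨b, hb'⟩, fun h => hab (congrArg Subtype.val h)⟩
    omega
  have key := card_fam hK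
    (fun o : Option {x // H.neighborSet x = H.neighborSet c} =>
      match o with
      | none => far H c
      | some t => ({t.1} : Set V))
    (fun m : {m // H.Adj c m} => ({m.1} : Set V)) ?_ ?_ ?_ ?_ ?_ ?_ ?_ ?_ ?_ h1 h2
  · rw [Fintype.card_option] at key
    rw [← Nat.card_coe_set_eq, ← Nat.card_coe_set_eq, Nat.card_eq_fintype_card,
      Nat.card_eq_fintype_card]
    have e1 : Fintype.card ↑(H.neighborSet c) = Fintype.card {m // H.Adj c m} :=
      Fintype.card_congr (Equiv.refl _)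
    have e2 : Fintype.card ↑{x | H.neighborSet x = H.neighborSet c} =
        Fintype.card {x // H.neighborSet x = H.neighborSet c} :=
      Fintype.card_congr (Equiv.refl _)
    rw [e1, e2, key]
  · intro v
    by_cases hvX : v ∈ X
    · by_cases hvN : H.neighborSet v = H.neighborSet c
      · exact Or.inl ⟨some ⟨v, hvN⟩, rfl⟩
      · exact Or.inl ⟨none, (mem_far_X hb hc hvX).2 hvN⟩
    · by_cases hcv : H.Adj c v
      · exact Or.inr ⟨⟨v, hcv⟩, rfl⟩
      · exact Or.inl ⟨none, (mem_far_Y hH hb hcX hvX).2 hcv⟩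
  · rintro (_ | a) (_ | a') v hv hv'
    · rfl
    · have hv' : v = a'.1 := hv'
      subst hv'
      exact absurd a'.2.subset hv.2.2
    · have hv : v = a.1 := hv
      subst hv
      exact absurd a.2.subset hv'.2.2
    · have hv : v = a.1 := hv
      have hv' : v = a'.1 := hv'
      congr 1
      exact Subtype.ext (hv.symm.trans hv')
  · intro b b' v hv hv'
    have hv : v = b.1 := hv
    have hv' : v = b'.1 := hv'
    exact Subtype.ext (hv.symm.trans hv')
  · rintro (_ | a) b v hv hv'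
    · have hv' : v = b.1 := hv'
      subst hv'
      exact hv.2.1 b.2
    · have hv : v = a.1 := hv
      have hv' : v = b.1 := hv'
      have h3 : a.1 ∈ X := same_mem_X hH hb hcX a.2
      have h4 : b.1 ∉ X := not_mem_of_adj hb hcX b.2
      rw [← hv] at h3
      rw [← hv'] at h4
      exact h4 h3
  · rintro (_ | a)
    · exact hF
    · exact conn_singleton _
  · intro b; exact conn_singleton _
  · rintro (_ | a) (_ | a') hne u hu v hv huv
    · exact hne rfl
    · have hv : v = a'.1 := hv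
      subst hv
      have : u ∈ H.neighborSet a'.1 := huv.symm
      rw [a'.2] at this
      exact hu.2.1 this
    · have hu : u = a.1 := hu
      subst hu
      have : v ∈ H.neighborSet a.1 := huv
      rw [a.2] at this
      exact hv.2.1 this
    · have hu : u = a.1 := hu
      have hv : v = a'.1 := hv
      have h3 : a.1 ∈ X := same_mem_X hH hb hcX a.2
      have h4 : a'.1 ∈ X := same_mem_X hH hb hcX a'.2
      rw [← hu] at h3; rw [← hv] at h4
      exact not_mem_of_adj hb h3 huv h4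
  · intro b b' _ u hu v hv huv
    have hu : u = b.1 := hu
    have hv : v = b'.1 := hv
    have h3 : b.1 ∉ X := not_mem_of_adj hb hcX b.2
    have h4 : b'.1 ∉ X := not_mem_of_adj hb hcX b'.2
    rw [← hu] at h3; rw [← hv] at h4
    exact h4 (mem_of_adj hb h3 huv)
  · rintro (_ | a) b
    · obtain ⟨x, hx, hbx, hxN⟩ := nbr_far hH hB hb hY hnf hc b.2
      exact ⟨x, (mem_far_X hb hc hx).2 hxN, b.1, rfl, hbx.symm⟩
    · refine ⟨a.1, rfl, b.1, rfl, ?_⟩
      have : b.1 ∈ H.neighborSet a.1 := by rw [a.2]; exact b.2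
      exact this

/-- GLUER lemma -/
theorem gluer {c : V} (hc : IncMin H X c) {G : Set V} (hG : Conn H G) (hGF : G ⊆ far H c)
    {m1 m2 m3 : V} (h12 : m1 ≠ m2) (hm1 : H.Adj c m1) (hm2 : H.Adj c m2) (hm3 : H.Adj c m3)
    (a1 : ∃ d ∈ G, H.Adj m1 d) (a2 : ∃ d ∈ G, H.Adj m2 d) (a3 : ∀ d ∈ G, ¬ H.Adj m3 d) :
    False := by
  have := Fintype.ofFinite V
  have hcX := hc.1
  have hnfc := incMin_nonfull hb hY hnf hc
  have hF := conn_far hH hB hb hcX hnfc
  have hcard := card_class hH hB hb hY hnf hK hc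
  -- maximal G'
  have hfin : {D : Set V | G ⊆ D ∧ D ⊆ far H c ∧ Conn H D ∧
      ∃ m, H.Adj c m ∧ ∀ d ∈ D, ¬ H.Adj m d}.Finite := Set.toFinite _
  obtain ⟨D, hD⟩ := hfin.exists_maximal ⟨G, subset_rfl, hGF, hG, m3, hm3, a3⟩
  obtain ⟨hGD, hDF, hDc, m0, hm0, hm0D⟩ := hD.prop
  set W : Set V := far H c \ D with hW
  -- the components of W
  have hWX : ∀ {E}, IsComp H W E → (∃ e ∈ E, ∃ d ∈ D, H.Adj e d) := by
    intro E hE
    obtain ⟨e, he⟩ := hE.nonempty
    obtain ⟨d, hd⟩ := hDc.nonempty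
    obtain ⟨e, he, f, hf, hef⟩ := (conn_iff.1 hF).2 E (fun v hv => (hE.1 hv).1) hE.nonempty
      ⟨d, hDF hd, fun h => (hE.1 h).2 hd⟩
    by_cases hfD : f ∈ D
    · exact ⟨e, he, f, hfD, hef⟩
    · exact absurd (hE.mem_of_adj he ⟨hf.1, hfD⟩ hef) hf.2
  have hmax : ∀ {E}, IsComp H W E → ∀ m, H.Adj c m → (∀ d ∈ D, ¬ H.Adj m d) →
      ∃ e ∈ E, H.Adj m e := by
    intro E hE m hm hmD
    by_contra hno
    push Not at hno
    obtain ⟨e, he, d, hd, hed⟩ := hWX hE
    have hDE : Conn H (D ∪ E) := hDc.union_touch hE.conn ⟨d, hd, e, he, hed.symm⟩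
    have := hD.le_of_ge ⟨hGD.trans Set.subset_union_left,
      Set.union_subset hDF (fun v hv => (hE.1 hv).1), hDE, m, hm, ?_⟩ Set.subset_union_left
    · exact (hE.1 he).2 (this (Or.inr he))
    · rintro x (hx | hx)
      · exact hmD x hx
      · exact hno x hx
  obtain ⟨d1, hd1, hmd1⟩ := a1
  obtain ⟨d2, hd2, hmd2⟩ := a2
  -- index types
  set P : Type u := {m // H.Adj c m ∧ ∀ d ∈ D, ¬ H.Adj m d} with hP
  set T : Type u := {x // H.neighborSet x = H.neighborSet c} with hT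
  set E : Type u := {E : Set V // IsComp H W E} with hEt
  obtain ⟨x0, hx0X, hm0x0, hx0N⟩ := nbr_far hH hB hb hY hnf hc hm0
  have hx0W : x0 ∈ W := ⟨(mem_far_X hb hc hx0X).2 hx0N, fun h => hm0D x0 h hm0x0⟩
  obtain ⟨E0, hE0, hx0E0⟩ := exists_comp_mem (G := H) hx0W
  have h1 : 2 ≤ Fintype.card (Option P) := by
    rw [Fintype.card_option]
    have : 0 < Fintype.card P := Fintype.card_pos_iff.2 ⟨⟨m0, hm0, hm0D⟩⟩
    omega
  have hTc : 0 < Fintype.card T := Fintype.card_pos_iff.2 ⟨⟨c, rfl⟩⟩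
  have hEc : 0 < Fintype.card E := Fintype.card_pos_iff.2 ⟨⟨E0, hE0⟩⟩
  have h2 : 2 ≤ Fintype.card (T ⊕ E) := by
    rw [Fintype.card_sum]
    omega
  have hmX : ∀ {m}, H.Adj c m → m ∉ X := fun h => not_mem_of_adj hb hcX h
  have hTX : ∀ t : T, t.1 ∈ X := fun t => same_mem_X hH hb hcX t.2
  have hTfar : ∀ t : T, t.1 ∉ far H c := fun t h => h.2.2 t.2.subset
  have hmfar : ∀ {m}, H.Adj c m → m ∉ far H c := fun h h' => h'.2.1 h
  have hTN : ∀ (t : T) (v : V), H.Adj t.1 v ↔ H.Adj c v := by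
    intro t v
    have := t.2
    constructor
    · intro h
      have h' : v ∈ H.neighborSet t.1 := h
      rw [this] at h'; exact h'
    · intro h
      have h' : v ∈ H.neighborSet c := h
      rw [← this] at h'; exact h'
  have key := card_fam hK
    (fun o : Option P =>
      match o with
      | none => D ∪ {m | H.Adj c m ∧ ∃ d ∈ D, H.Adj d m}
      | some m => ({m.1} : Set V))
    (fun o : T ⊕ E =>
      match o with
      | Sum.inl t => ({t.1} : Set V)
      | Sum.inr E => E.1) ?_ ?_ ?_ ?_ ?_ ?_ ?_ ?_ ?_ h1 h2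
  · rw [Fintype.card_option, Fintype.card_sum] at key
    -- |P| + 2 ≤ |N(c)|
    have hPle : Fintype.card P + 2 ≤ (H.neighborSet c).ncard := by
      have hsub : {m | H.Adj c m ∧ ∀ d ∈ D, ¬ H.Adj m d} ⊆ H.neighborSet c \ {m1, m2} := by
        rintro m ⟨hm, hmD⟩
        refine ⟨hm, ?_⟩
        rintro (h | h)
        · have h : m = m1 := h
          subst h; exact hmD d1 (hGD hd1) hmd1
        · have h : m = m2 := h
          subst h; exact hmD d2 (hGD hd2) hmd2
      have hle := Set.ncard_le_ncard hsub (Set.toFinite _)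
      have hd : (H.neighborSet c \ {m1, m2}).ncard + ({m1, m2} : Set V).ncard =
          (H.neighborSet c).ncard := by
        apply Set.ncard_sdiff_add_ncard_of_subset
        · rintro x (rfl | h)
          · exact hm1
          · have h : x = m2 := h
            subst h; exact hm2
        · exact Set.toFinite _
      rw [Set.ncard_pair h12] at hd
      have hPc : Fintype.card P = {m | H.Adj c m ∧ ∀ d ∈ D, ¬ H.Adj m d}.ncard := by
        rw [← Nat.card_coe_set_eq, Nat.card_eq_fintype_card]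
        exact Fintype.card_congr (Equiv.refl _)
      omega
    have hTeq : Fintype.card T = {x | H.neighborSet x = H.neighborSet c}.ncard := by
      rw [← Nat.card_coe_set_eq, Nat.card_eq_fintype_card]
      exact Fintype.card_congr (Equiv.refl _)
    omega
  · -- cover
    intro v
    by_cases hvX : v ∈ X
    · by_cases hvN : H.neighborSet v = H.neighborSet c
      · exact Or.inr ⟨Sum.inl ⟨v, hvN⟩, rfl⟩
      · have hvF : v ∈ far H c := (mem_far_X hb hc hvX).2 hvN
        by_cases hvD : v ∈ D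
        · exact Or.inl ⟨none, Or.inl hvD⟩
        · obtain ⟨E1, hE1, hv⟩ := exists_comp_mem (G := H) (show v ∈ W from ⟨hvF, hvD⟩)
          exact Or.inr ⟨Sum.inr ⟨E1, hE1⟩, hv⟩
    · by_cases hcv : H.Adj c v
      · by_cases hvD : ∃ d ∈ D, H.Adj d v
        · exact Or.inl ⟨none, Or.inr ⟨hcv, hvD⟩⟩
        · push Not at hvD
          exact Or.inl ⟨some ⟨v, hcv, fun d hd h => hvD d hd h.symm⟩, rfl⟩
      · have hvF : v ∈ far H c := (mem_far_Y hH hb hcX hvX).2 hcv
        by_cases hvD : v ∈ D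
        · exact Or.inl ⟨none, Or.inl hvD⟩
        · obtain ⟨E1, hE1, hv⟩ := exists_comp_mem (G := H) (show v ∈ W from ⟨hvF, hvD⟩)
          exact Or.inr ⟨Sum.inr ⟨E1, hE1⟩, hv⟩
  · rintro (_ | a) (_ | a') v hv hv'
    · rfl
    · have hv' : v = a'.1 := hv'
      subst hv'
      rcases hv with h | ⟨_, d, hd, h⟩
      · exact absurd (hDF h) (hmfar a'.2.1)
      · exact absurd h.symm (a'.2.2 d hd)
    · have hv : v = a.1 := hv
      subst hv
      rcases hv' with h | ⟨_, d, hd, h⟩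
      · exact absurd (hDF h) (hmfar a.2.1)
      · exact absurd h.symm (a.2.2 d hd)
    · have hv : v = a.1 := hv
      have hv' : v = a'.1 := hv'
      congr 1
      exact Subtype.ext (hv.symm.trans hv')
  · rintro (a | a) (a' | a') v hv hv'
    · have hv : v = a.1 := hv
      have hv' : v = a'.1 := hv'
      congr 1
      exact Subtype.ext (hv.symm.trans hv')
    · have hv : v = a.1 := hv
      have hv' : v ∈ a'.1 := hv'
      subst hv
      exact absurd (a'.2.1 hv').1 (hTfar a)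
    · have hv : v ∈ a.1 := hv
      have hv' : v = a'.1 := hv'
      subst hv'
      exact absurd (a.2.1 hv).1 (hTfar a')
    · have hv : v ∈ a.1 := hv
      have hv' : v ∈ a'.1 := hv'
      congr 1
      exact Subtype.ext (a.2.eq_of_mem a'.2 hv hv')
  · rintro (_ | a) (b | b) v hv hv'
    · have hv' : v = b.1 := hv'
      subst hv'
      rcases hv with h | h
      · exact hTfar b (hDF h)
      · exact hmX h.1 (hTX b)
    · have hv' : v ∈ b.1 := hv'
      rcases hv with h | h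
      · exact (b.2.1 hv').2 h
      · exact hmfar h.1 (b.2.1 hv').1
    · have hv : v = a.1 := hv
      have hv' : v = b.1 := hv'
      have h3 := hmX a.2.1
      have h4 := hTX b
      rw [← hv] at h3; rw [← hv'] at h4
      exact h3 h4
    · have hv : v = a.1 := hv
      have hv' : v ∈ b.1 := hv'
      subst hv
      exact hmfar a.2.1 (b.2.1 hv').1
  · rintro (_ | a)
    · exact conn_union_of_adj hDc (fun m hm => hm.2)
    · exact conn_singleton _
  · rintro (b | b)
    · exact conn_singleton _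
    · exact b.2.conn
  · -- nA
    have hnone : ∀ (a : P) u, u ∈ D ∪ {m | H.Adj c m ∧ ∃ d ∈ D, H.Adj d m} →
        ¬ H.Adj a.1 u := by
      rintro a u (hu | hu) h
      · exact a.2.2 u hu h
      · exact hmX hu.1 (mem_of_adj hb (hmX a.2.1) h)
    rintro (_ | a) (_ | a') hne u hu v hv huv
    · exact hne rfl
    · have hv : v = a'.1 := hv
      subst hv
      exact hnone a' u hu huv.symm
    · have hu : u = a.1 := hu
      subst hu
      exact hnone a v hv huv
    · have hu : u = a.1 := hu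
      have hv : v = a'.1 := hv
      have h3 := hmX a.2.1
      have h4 := hmX a'.2.1
      rw [← hu] at h3; rw [← hv] at h4
      exact h4 (mem_of_adj hb h3 huv)
  · -- nB
    rintro (a | a) (a' | a') hne u hu v hv huv
    · have hu : u = a.1 := hu
      have hv : v = a'.1 := hv
      have h3 := hTX a
      have h4 := hTX a'
      rw [← hu] at h3; rw [← hv] at h4
      exact not_mem_of_adj hb h3 huv h4
    · have hu : u = a.1 := hu
      have hv : v ∈ a'.1 := hv
      subst hu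
      exact (a'.2.1 hv).1.2.1 ((hTN a v).1 huv)
    · have hu : u ∈ a.1 := hu
      have hv : v = a'.1 := hv
      subst hv
      exact (a.2.1 hu).1.2.1 ((hTN a' u).1 huv.symm)
    · have hu : u ∈ a.1 := hu
      have hv : v ∈ a'.1 := hv
      exact a.2.not_touch a'.2 (fun h => hne (by rw [Subtype.ext h])) ⟨u, hu, v, hv, huv⟩
  · rintro (_ | a) (b | b)
    · refine ⟨m1, Or.inr ⟨hm1, d1, hGD hd1, hmd1.symm⟩, b.1, rfl, ?_⟩
      exact ((hTN b m1).2 hm1).symm
    · obtain ⟨e, he, d, hd, hed⟩ := hWX b.2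
      exact ⟨d, Or.inl hd, e, he, hed.symm⟩
    · exact ⟨a.1, rfl, b.1, rfl, ((hTN b a.1).2 a.2.1).symm⟩
    · obtain ⟨e, he, h⟩ := hmax b.2 a.1 a.2.1 a.2.2
      exact ⟨a.1, rfl, e, he, h⟩

omit hK in
/-- two minimal classes with twins intersect -/
theorem inter_of_twins {c c' t t' : V} (hc : IncMin H X c) (hc' : IncMin H X c')
    (htc : t ≠ c) (ht : H.neighborSet t = H.neighborSet c)
    (htc' : t' ≠ c') (ht' : H.neighborSet t' = H.neighborSet c') :
    ∃ m, H.Adj c m ∧ H.Adj c' m := by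
  by_contra hno
  push Not at hno
  have hmX : ∀ {m}, H.Adj c m → m ∉ X := fun h => not_mem_of_adj hb hc.1 h
  have hmX' : ∀ {m}, H.Adj c' m → m ∉ X := fun h => not_mem_of_adj hb hc'.1 h
  have hN : ∀ {x v}, H.neighborSet x = H.neighborSet c → (H.Adj x v ↔ H.Adj c v) := by
    intro x v h
    show v ∈ H.neighborSet x ↔ v ∈ H.neighborSet c
    rw [h]
  have hN' : ∀ {x v}, H.neighborSet x = H.neighborSet c' → (H.Adj x v ↔ H.Adj c' v) := by
    intro x v h
    show v ∈ H.neighborSet x ↔ v ∈ H.neighborSet c'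
    rw [h]
  obtain ⟨a, b, hab, ha, hb'⟩ := two_nbrs hH hB hb hY hnf hc.1
  obtain ⟨a', b'', hab', ha', hb''⟩ := two_nbrs hH hB hb hY hnf hc'.1
  set A : Set V := {x | x ≠ c ∧ H.neighborSet x = H.neighborSet c} ∪ H.neighborSet c with hA
  set B : Set V := {x | x ≠ c' ∧ H.neighborSet x = H.neighborSet c'} ∪ H.neighborSet c' with hBd
  have hAc : Conn H A := conn_biclique ⟨t, htc, ht⟩ ⟨a, ha⟩ (fun x hx n hn => (hN hx.2).2 hn)
  have hBc : Conn H B := conn_biclique ⟨t', htc', ht'⟩ ⟨a', ha'⟩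
    (fun x hx n hn => (hN' hx.2).2 hn)
  have hTT : ∀ x, H.neighborSet x = H.neighborSet c → H.neighborSet x ≠ H.neighborSet c' := by
    intro x hx hx'
    have : a ∈ H.neighborSet c' := by rw [← hx', hx]; exact ha
    exact hno a ha this
  have hcA : c ∉ A := by
    rintro (h | h)
    · exact h.1 rfl
    · exact hmX h hc.1
  have hcB' : c' ∉ B := by
    rintro (h | h)
    · exact h.1 rfl
    · exact hmX' h hc'.1
  have hcB : c ∉ B := by
    rintro (h | h)
    · exact hTT c rfl h.2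
    · exact hmX' h hc.1
  have hcA' : c' ∉ A := by
    rintro (h | h)
    · exact hTT c' h.2 rfl
    · exact hmX h hc'.1
  have hcc : c ≠ c' := by
    rintro rfl; exact hTT c rfl rfl
  have hntAB : ∀ u ∈ A, ∀ v ∈ B, ¬ H.Adj u v := by
    rintro u (hu | hu) v (hv | hv) huv
    · exact hmX ((hN hu.2).1 huv) (same_mem_X hH hb hc'.1 hv.2)
    · exact hno v ((hN hu.2).1 huv) hv
    · exact hno u hu ((hN' hv.2).1 huv.symm)
    · exact hmX' hv (mem_of_adj hb (hmX hu) huv)
  have hdAB : ∀ v ∈ A, v ∉ B := by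
    rintro u (hu | hu) (hv | hv)
    · exact hTT u hu.2 hv.2
    · exact hmX' hv (same_mem_X hH hb hc.1 hu.2)
    · exact hmX hu (same_mem_X hH hb hc'.1 hv.2)
    · exact hno u hu hv
  have hcNA : ∀ v, H.Adj c v → v ∈ A := fun v hv => Or.inr hv
  have hcNB : ∀ v, H.Adj c' v → v ∈ B := fun v hv => Or.inr hv
  have tA : ∃ p, p ∉ A ∧ p ∉ B ∧ p ∉ ({c} : Set V) ∧ p ∉ ({c'} : Set V) ∧ ∃ a ∈ A, H.Adj p a := by
    obtain ⟨u, hu, v, hv, huv⟩ := touch_compl hH (A := A ∪ {c}) ⟨c, Or.inr rfl⟩ ⟨c', by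
      rintro (h | h)
      · exact hcA' h
      · exact hcc (Eq.symm h)⟩
    have huA : u ∈ A := by
      rcases hu with hu | hu
      · exact hu
      · have hu : u = c := hu
        subst hu
        exact absurd (Or.inl (hcNA v huv)) hv
    refine ⟨v, fun h => hv (Or.inl h), fun h => hntAB u huA v h huv, fun h => hv (Or.inr h), ?_,
      u, huA, huv.symm⟩
    intro h
    have h : v = c' := h
    subst h
    exact hdAB u huA (hcNB u huv.symm)
  have tB : ∃ p, p ∉ A ∧ p ∉ B ∧ p ∉ ({c} : Set V) ∧ p ∉ ({c'} : Set V) ∧ ∃ a ∈ B, H.Adj p a := by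
    obtain ⟨u, hu, v, hv, huv⟩ := touch_compl hH (A := B ∪ {c'}) ⟨c', Or.inr rfl⟩ ⟨c, by
      rintro (h | h)
      · exact hcB h
      · exact hcc h⟩
    have huB : u ∈ B := by
      rcases hu with hu | hu
      · exact hu
      · have hu : u = c' := hu
        subst hu
        exact absurd (Or.inl (hcNB v huv)) hv
    refine ⟨v, fun h => hntAB v h u huB huv.symm, fun h => hv (Or.inl h), ?_,
      fun h => hv (Or.inr h), u, huB, huv.symm⟩
    intro h
    have h : v = c := h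
    subst h
    exact hdAB u (hcNA u huv.symm) huB
  apply hB
  refine bad_mk A B {c} {c'} hAc hBc hdAB ?_ ?_ ?_ ?_ ?_ hntAB ?_ ?_ ?_ ?_ tA tB
  · rintro x hx rfl; exact hcA hx
  · rintro x hx rfl; exact hcA' hx
  · rintro x hx rfl; exact hcB hx
  · rintro x hx rfl; exact hcB' hx
  · rintro x rfl h; exact hcc h
  · rintro d rfl v hv; exact Or.inl (hcNA v hv)
  · rintro d rfl v hv; exact Or.inr (Or.inl (hcNB v hv))
  · exact ⟨c, rfl, a, Or.inr ha, ha⟩
  · exact ⟨c', rfl, a', Or.inr ha', ha'⟩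

/-- (d): some minimal class is a single vertex -/
theorem exists_single (hX : X.Nonempty) :
    ∃ c, IncMin H X c ∧ ∀ t, H.neighborSet t = H.neighborSet c → t = c := by
  by_contra hno
  push Not at hno
  have hint : ∀ x ∈ X, ∀ x' ∈ X, ∃ m, H.Adj x m ∧ H.Adj x' m := by
    intro x hx x' hx'
    obtain ⟨c, hc, hcx⟩ := exists_incMin (H := H) hx
    obtain ⟨c', hc', hcx'⟩ := exists_incMin (H := H) hx'
    obtain ⟨t, ht, htc⟩ := hno c hc
    obtain ⟨t', ht', htc'⟩ := hno c' hc'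
    obtain ⟨m, h1, h2⟩ := inter_of_twins hH hB hb hY hnf hc hc' htc ht htc' ht'
    exact ⟨m, hcx h1, hcx' h2⟩
  obtain ⟨x, hx⟩ := hX
  obtain ⟨c, hc, -⟩ := exists_incMin (H := H) hx
  obtain ⟨t, ht, htc⟩ := hno c hc
  have hcX := hc.1
  have hmX : ∀ {m}, H.Adj c m → m ∉ X := fun h => not_mem_of_adj hb hcX h
  have hN : ∀ {x v}, H.neighborSet x = H.neighborSet c → (H.Adj x v ↔ H.Adj c v) := by
    intro x v h
    show v ∈ H.neighborSet x ↔ v ∈ H.neighborSet c
    rw [h]
  have hglue := @gluer V H X _ hH hB hb hY hnf hK c hc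
  by_cases hall : ∀ x ∈ X, H.neighborSet c ⊆ H.neighborSet x
  · obtain ⟨a, b, hab, ha, hb'⟩ := two_nbrs hH hB hb hY hnf hcX
    obtain ⟨x, hx, hax⟩ := hnf a (hmX ha)
    exact hax (SimpleGraph.Adj.symm (hall x hx ha))
  · push Not at hall
    obtain ⟨x0, hx0, hsub⟩ := hall
    obtain ⟨m3, hm3, hm3x⟩ := Set.not_subset.1 hsub
    have hx0F : x0 ∈ far H c := (mem_far_X hb hc hx0).2 (fun h => hm3x (by rw [h]; exact hm3))
    obtain ⟨p, hp, hx0p⟩ := hint c hcX x0 hx0
    have honly : ∀ q, H.Adj c q → H.Adj x0 q → q = p := by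
      intro q hq hx0q
      by_contra hne
      exact hglue (conn_singleton x0) (by simpa using hx0F) (Ne.symm hne) hp hq hm3
        ⟨x0, rfl, hx0p.symm⟩ ⟨x0, rfl, hx0q.symm⟩ (by
          rintro d rfl h; exact hm3x h.symm)
    obtain ⟨x1, hx1, hpx1⟩ := hnf p (hmX hp)
    have hx1F : x1 ∈ far H c := (mem_far_X hb hc hx1).2 (fun h => hpx1 ((hN h).2 hp).symm)
    obtain ⟨p', hp', hx1p'⟩ := hint c hcX x1 hx1
    have hpp' : p ≠ p' := by rintro rfl; exact hpx1 hx1p'.symm
    have honly' : ∀ q, H.Adj c q → H.Adj x1 q → q = p' := by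
      intro q hq hx1q
      by_contra hne
      exact hglue (conn_singleton x1) (by simpa using hx1F) (Ne.symm hne) hp' hq hp
        ⟨x1, rfl, hx1p'.symm⟩ ⟨x1, rfl, hx1q.symm⟩ (by
          rintro d rfl h; exact hpx1 h)
    obtain ⟨q, hq0, hq1⟩ := hint x0 hx0 x1 hx1
    have hqX : q ∉ X := not_mem_of_adj hb hx0 hq0
    have hcq : ¬ H.Adj c q := by
      intro h
      exact hpp' ((honly q h hq0).symm.trans (honly' q h hq1))
    have hqF : q ∈ far H c := (mem_far_Y hH hb hcX hqX).2 hcq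
    -- third element of M
    have hcard := card_class hH hB hb hY hnf hK hc
    have h3 : 3 ≤ (H.neighborSet c).ncard := by
      have h2 : 2 ≤ {x | H.neighborSet x = H.neighborSet c}.ncard := by
        rw [← Set.ncard_pair htc]
        apply Set.ncard_le_ncard _ (Set.toFinite _)
        rintro x (rfl | h)
        · exact ht
        · have h : x = c := h
          rw [h]; rfl
      omega
    obtain ⟨m, hm, hmp, hmp'⟩ : ∃ m, H.Adj c m ∧ m ≠ p ∧ m ≠ p' := by
      by_contra hno'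
      push Not at hno'
      have : H.neighborSet c ⊆ {p, p'} := by
        intro m hm
        by_cases h : m = p
        · exact Or.inl h
        · exact Or.inr (hno' m hm h)
      have := Set.ncard_le_ncard this (Set.toFinite _)
      rw [Set.ncard_pair hpp'] at this
      omega
    have hG : Conn H ({x0} ∪ {q} ∪ {x1} : Set V) := by
      refine ((conn_singleton x0).union_touch (conn_singleton q) ⟨x0, rfl, q, rfl, hq0⟩).union_touch
        (conn_singleton x1) ⟨q, Or.inr rfl, x1, rfl, hq1.symm⟩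
    refine hglue hG ?_ hpp' hp hp' hm ⟨x0, Or.inl (Or.inl rfl), hx0p.symm⟩
      ⟨x1, Or.inr rfl, hx1p'.symm⟩ ?_
    · rintro v ((h | h) | h)
      · have h : v = x0 := h
        rw [h]; exact hx0F
      · have h : v = q := h
        rw [h]; exact hqF
      · have h : v = x1 := h
        rw [h]; exact hx1F
    · rintro v ((h | h) | h) hv
      · have h : v = x0 := h
        subst h; exact hmp (honly m hm hv.symm)
      · have h : v = q := h
        subst h; exact hqX (mem_of_adj hb (hmX hm) hv)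
      · have h : v = x1 := h
        subst h; exact hmp' (honly' m hm hv.symm)

end bip

section final

variable [Finite V] {X : Set V}

/-- rich / poor -/
def Rich (H : SimpleGraph V) (z : V) : Prop := ∃ z', z' ≠ z ∧ H.neighborSet z' ⊆ H.neighborSet z

omit [Finite V] in
theorem not_rich {z : V} : ¬ Rich H z ↔ ∀ z', z' ≠ z → ¬ H.neighborSet z' ⊆ H.neighborSet z := by
  unfold Rich
  push Not
  rfl

/-- `x ∈ X` poor and not adjacent to `v`: then `v` is poor -/
theorem rich_of_rich (hH : H.Connected) (hB : ¬ Bad5 H) (hb : Bip H X) {x v : V} (hx : x ∈ X)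
    (hv : v ∉ X) (hxv : ¬ H.Adj x v) (h2 : ∃ a b, a ≠ b ∧ H.Adj x a ∧ H.Adj x b)
    (hr : Rich H v) : Rich H x := by
  by_contra hp
  rw [not_rich] at hp
  obtain ⟨a, b, hab, ha, hb'⟩ := h2
  have h3 := poor_two hH hB hb hx ⟨v, hv, hxv⟩ hp hab ha hb'
  obtain ⟨v', hv', hs⟩ := hr
  exact poor_of_poor hH hB hb hx hp hab h3 hv hxv v' hv' hs

theorem two_regular (hH : H.Connected) (hK : KFree H) (hB : ¬ Bad5 H)
    (hb : Bip H X) (hX : X.Nonempty) (hY : Xᶜ.Nonempty)
    (hnf : ∀ y ∉ X, ∃ x ∈ X, ¬ H.Adj y x) :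
    ∀ v, ∃ a b, a ≠ b ∧ ∀ u, H.Adj v u ↔ u = a ∨ u = b := by
  obtain ⟨c, hc, hcu⟩ := exists_single hH hB hb hY hnf hK hX
  have hcX := hc.1
  have hnfc := incMin_nonfull hb hY hnf hc
  have h2X : ∀ x ∈ X, ∃ a b, a ≠ b ∧ H.Adj x a ∧ H.Adj x b := fun x hx =>
    two_nbrs hH hB hb hY hnf hx
  have hcp : ∀ z', z' ≠ c → ¬ H.neighborSet z' ⊆ H.neighborSet c := by
    intro z' hz' hs
    exact hz' (hcu z' (hc.2 z' (mem_X_of_sub hH hb hcX hz' hs) hs))
  obtain ⟨m, m', hmm', hm, hm'⟩ := h2X c hcX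
  have hcN := poor_two hH hB hb hcX hnfc hcp hmm' hm hm'
  have hmX : m ∉ X := not_mem_of_adj hb hcX hm
  have hm'X : m' ∉ X := not_mem_of_adj hb hcX hm'
  -- e1
  have e1 : ∀ y ∉ X, y ≠ m → y ≠ m' → ¬ Rich H y := by
    intro y hy h1 h2
    rw [not_rich]
    exact poor_of_poor hH hB hb hcX hcp hmm' hcN hy (fun h => by
      rcases (hcN y).1 h with h | h
      exacts [h1 h, h2 h])
  -- a vertex of X with nbrs inside {m, m'} is c
  have hcc : ∀ x ∈ X, (∀ v, H.Adj x v → v = m ∨ v = m') → x = c := by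
    intro x hx h
    apply hcu
    obtain ⟨a, b, hab, ha, hb'⟩ := h2X x hx
    have hmx : H.Adj x m ∧ H.Adj x m' := by
      rcases h a ha with rfl | rfl <;> rcases h b hb' with rfl | rfl
      · exact absurd rfl hab
      · exact ⟨ha, hb'⟩
      · exact ⟨hb', ha⟩
      · exact absurd rfl hab
    ext v
    show H.Adj x v ↔ H.Adj c v
    rw [hcN v]
    constructor
    · exact h v
    · rintro (rfl | rfl)
      exacts [hmx.1, hmx.2]
  -- e2
  have e2 : ∀ u ∉ X, ∃ a b, a ≠ b ∧ H.Adj u a ∧ H.Adj u b := by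
    intro u hu
    obtain ⟨z, huz⟩ := exists_adj hH (v := u) (u := c) (by rintro rfl; exact hu hcX)
    by_contra hno
    push Not at hno
    have hleaf : ∀ v, H.Adj u v ↔ v = z := by
      intro v
      constructor
      · intro hv
        by_contra hne
        exact hno v z hne hv huz
      · rintro rfl; exact huz
    have hzX : z ∈ X := mem_of_adj hb hu huz
    have hzf := full_of_leaf hH hB hb hzX hleaf
    have hzc : z ≠ c := by
      rintro rfl
      obtain ⟨v, hv, hv'⟩ := hnfc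
      exact hv' (hzf v hv)
    have hum : u ≠ m := by
      rintro rfl; exact hzc ((hleaf c).1 hm.symm).symm
    have hum' : u ≠ m' := by
      rintro rfl; exact hzc ((hleaf c).1 hm'.symm).symm
    have hYs : ∀ y ∉ X, y = m ∨ y = m' ∨ y = u := by
      intro y hy
      by_contra hno'
      push Not at hno'
      apply e1 y hy hno'.1 hno'.2.1
      refine ⟨u, hno'.2.2.symm, ?_⟩
      intro v hv
      have : v = z := (hleaf v).1 hv
      subst this
      exact (hzf y hy).symm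
    have hXs : ∀ x ∈ X, x = z ∨ x = c := by
      intro x hx
      by_cases hxz : x = z
      · exact Or.inl hxz
      · refine Or.inr (hcc x hx ?_)
        intro v hv
        rcases hYs v (not_mem_of_adj hb hx hv) with h | h | h
        · exact Or.inl h
        · exact Or.inr h
        · subst h
          exact absurd ((hleaf x).1 hv.symm) hxz
    obtain ⟨x, hx, hmx⟩ := hnf m hmX
    rcases hXs x hx with rfl | rfl
    · exact hmx (hzf m hmX).symm
    · exact hmx hm.symm
  have hrXY : ∀ x ∈ X, ∀ v ∉ X, ¬ H.Adj x v → (Rich H x ↔ Rich H v) := by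
    intro x hx v hv hxv
    constructor
    · intro h
      exact rich_of_rich hH hB hb.compl (x := v) (v := x) hv (by simpa using hx)
        (fun h => hxv h.symm) (e2 v hv) h
    · exact rich_of_rich hH hB hb hx hv hxv (h2X x hx)
  -- poor vertices have exactly two neighbours
  have hpX : ∀ x ∈ X, (∃ v, v ∉ X ∧ ¬ H.Adj x v) → ¬ Rich H x →
      ∃ a b, a ≠ b ∧ ∀ u, H.Adj x u ↔ u = a ∨ u = b := by
    intro x hx h1 h2
    rw [not_rich] at h2
    obtain ⟨a, b, hab, ha, hb'⟩ := h2X x hx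
    exact ⟨a, b, hab, poor_two hH hB hb hx h1 h2 hab ha hb'⟩
  have hnfY : ∀ y ∉ X, ∃ v, v ∉ Xᶜ ∧ ¬ H.Adj y v := by
    intro y hy
    obtain ⟨x, hx, h⟩ := hnf y hy
    exact ⟨x, by simpa using hx, h⟩
  have hpY : ∀ y ∉ X, ¬ Rich H y → ∃ a b, a ≠ b ∧ ∀ u, H.Adj y u ↔ u = a ∨ u = b := by
    intro y hy h2
    rw [not_rich] at h2
    obtain ⟨a, b, hab, ha, hb'⟩ := e2 y hy
    exact ⟨a, b, hab, poor_two hH hB hb.compl hy (hnfY y hy) h2 hab ha hb'⟩
  -- there is y1 outside {m, m'}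
  obtain ⟨y1, hy1, hcy1⟩ := hnfc
  have hy1m : y1 ≠ m := by rintro rfl; exact hcy1 hm
  have hy1m' : y1 ≠ m' := by rintro rfl; exact hcy1 hm'
  -- e4
  have e4 : ∀ x ∈ X, (∃ v, v ∉ X ∧ ¬ H.Adj x v) → ¬ Rich H x := by
    rintro x hx ⟨v, hv, hxv⟩ hrx
    have hrv : Rich H v := (hrXY x hx v hv hxv).1 hrx
    obtain ⟨x', hx'x, hs'⟩ := hrx
    have hx'X := mem_X_of_sub hH hb hx hx'x hs'
    have hx'v : ¬ H.Adj x' v := fun h => hxv (hs' h)
    have hrx' : Rich H x' := (hrXY x' hx'X v hv hx'v).2 hrv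
    obtain ⟨x'', hx''x', hs''⟩ := hrx'
    have hx''X := mem_X_of_sub hH hb hx'X hx''x' hs''
    have hx''v : ¬ H.Adj x'' v := fun h => hx'v (hs'' h)
    have hrx'' : Rich H x'' := (hrXY x'' hx''X v hv hx''v).2 hrv
    have hadj : ∀ z ∈ X, Rich H z → ∀ y ∉ X, y ≠ m → y ≠ m' → H.Adj z y := by
      intro z hz hr y hy h1 h2
      by_contra h
      exact e1 y hy h1 h2 ((hrXY z hz y hy h).1 hr)
    have hrx : Rich H x := ⟨x', hx'x, hs'⟩
    have hrx' : Rich H x' := ⟨x'', hx''x', hs''⟩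
    have hle : ∀ y ∉ X, y ≠ m → y ≠ m' → ∀ u, H.Adj y u → u = x ∨ u = x' := by
      intro y hy h1 h2
      obtain ⟨a, b, hab, h⟩ := hpY y hy (e1 y hy h1 h2)
      have k1 := (h x).1 (hadj x hx hrx y hy h1 h2).symm
      have k2 := (h x').1 (hadj x' hx'X hrx' y hy h1 h2).symm
      intro u hu
      rcases (h u).1 hu with rfl | rfl
      · rcases k1 with rfl | rfl
        · exact Or.inl rfl
        · rcases k2 with rfl | rfl
          · exact Or.inr rfl
          · exact absurd rfl hx'x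
      · rcases k1 with rfl | rfl
        · rcases k2 with rfl | rfl
          · exact absurd rfl hx'x
          · exact Or.inr rfl
        · exact Or.inl rfl
    have hx''eq : x'' = x := by
      rcases hle y1 hy1 hy1m hy1m' x'' (hadj x'' hx''X hrx'' y1 hy1 hy1m hy1m').symm with h | h
      · exact h
      · exact absurd h hx''x'
    subst hx''eq
    have hy1u : ∀ y ∉ X, y ≠ m → y ≠ m' → y = y1 := by
      intro y hy h1 h2
      by_contra hne
      apply e1 y1 hy1 hy1m hy1m'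
      refine ⟨y, hne, ?_⟩
      intro u hu
      rcases hle y hy h1 h2 u hu with rfl | rfl
      · exact (hadj _ hx hrx y1 hy1 hy1m hy1m').symm
      · exact (hadj _ hx'X hrx' y1 hy1 hy1m hy1m').symm
    have hvm : v = m ∨ v = m' := by
      by_contra hno
      push Not at hno
      exact e1 v hv hno.1 hno.2 hrv
    have hcv : H.Adj c v := (hcN v).2 hvm
    obtain ⟨a, b, hab, ha, hb'⟩ := e2 v hv
    have hkey : ∀ u, H.Adj v u → u = c := by
      intro u hu
      have huX := mem_of_adj hb hv hu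
      apply hcc u huX
      intro w hw
      by_contra hno
      push Not at hno
      have hwX := not_mem_of_adj hb huX hw
      rcases hle w hwX hno.1 hno.2 u hw.symm with rfl | rfl
      · exact hxv hu.symm
      · exact hx'v hu.symm
    exact hab ((hkey a ha).trans (hkey b hb').symm)
  have e4Y : ∀ y ∉ X, (∃ x ∈ X, ¬ H.Adj y x ∧ ∃ v, v ∉ X ∧ ¬ H.Adj x v) → ¬ Rich H y := by
    rintro y hy ⟨x, hx, hyx, hxn⟩ hr
    exact e4 x hx hxn ((hrXY x hx y hy (fun h => hyx h.symm)).2 hr)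
  have hpoorY : ∀ y ∉ X, ¬ Rich H y := by
    intro y hy
    obtain ⟨x, hx, hyx⟩ := hnf y hy
    exact e4Y y hy ⟨x, hx, hyx, y, hy, fun h => hyx h.symm⟩
  by_cases hfull : ∃ z ∈ X, ∀ v, v ∉ X → H.Adj z v
  · exfalso
    obtain ⟨z, hz, hzf⟩ := hfull
    have hzc : z ≠ c := by
      rintro rfl; exact hcy1 (hzf y1 hy1)
    have hN : ∀ y ∉ X, H.Adj c y → ∀ u, H.Adj y u ↔ u = z ∨ u = c := by
      intro y hy hcy
      have := hpoorY y hy
      rw [not_rich] at this
      exact poor_two hH hB hb.compl hy (hnfY y hy) this hzc (hzf y hy).symm hcy.symm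
    apply hpoorY m hmX
    refine ⟨m', hmm'.symm, ?_⟩
    intro u hu
    exact (hN m hmX hm u).2 ((hN m' hm'X hm' u).1 hu)
  · push Not at hfull
    intro v
    by_cases hv : v ∈ X
    · obtain ⟨u, hu, hu'⟩ := hfull v hv
      exact hpX v hv ⟨u, hu, hu'⟩ (e4 v hv ⟨u, hu, hu'⟩)
    · exact hpY v hv (hpoorY v hv)

end final

end EStruct

/-- (E1) structure: if no vertex outside `X` is adjacent to all of `X`, then `H` is 2-regular -/
theorem two_regular_of_no_full [Fintype V] (hH : H.Connected) (hK : KFree H) (hB : ¬ Bad5 H)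
    {X : Set V} (hb : Bip H X) (hX : X.Nonempty) (hY : Xᶜ.Nonempty)
    (hnf : ∀ y ∉ X, ∃ x ∈ X, ¬ H.Adj y x) :
    ∀ v, (H.neighborSet v).ncard = 2 := by
  intro v
  obtain ⟨a, b, hab, h⟩ := EStruct.two_regular hH hK hB hb hX hY hnf v
  have : H.neighborSet v = {a, b} := by
    ext u
    simpa using h u
  rw [this, Set.ncard_pair hab]

end W_MP_9f10ef_co

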