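import Pool.Agent.W_MP_9f10ef_co.EDefs

/-!
# MP_9f10ef_co, part (E2): connected 2-regular bipartite graphs (even cycles)
-/

namespace W_MP_9f10ef_co

open Classical

universe u

namespace ETwoRegAux

variable {V : Type u} [Fintype V] {H : SimpleGraph V}

/-- An enumeration of the vertices of a connected 2-regular graph along its cycle. -/
theorem exists_enum (hH : H.Connected) (h2 : ∀ v, (H.neighborSet v).ncard = 2) :
    ∃ (n : ℕ) (a : ℕ → V), 3 ≤ n ∧ (∀ i, a (i + n) = a i) ∧ (∀ i, H.Adj (a i) (a (i + 1))) ∧
      (∀ i < n, ∀ j < n, a i = a j → i = j) ∧ (∀ v, ∃ i < n, a i = v) := by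
  obtain ⟨v⟩ := hH.nonempty
  have hc : H.IsCycles := fun v _ => h2 v
  have hn : (H.neighborSet v).Nonempty := Set.nonempty_of_ncard_ne_zero (by rw [h2 v]; norm_num)
  obtain ⟨p, hp, hpv⟩ := hc.exists_cycle_toSubgraph_verts_eq_connectedComponentSupp
    (c := H.connectedComponentMk v) (v := v) (by simp) hn
  have hl : 3 ≤ p.length := hp.three_le_length
  have hmod : ∀ i, i % p.length < p.length := fun i => Nat.mod_lt _ (by omega)
  refine ⟨p.length, fun i => p.getVert (i % p.length), hl, ?_, ?_, ?_, ?_⟩
  · intro i
    simp only [Nat.add_mod_right]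
  · intro i
    have h1 := p.adj_getVert_succ (hmod i)
    show H.Adj (p.getVert (i % p.length)) (p.getVert ((i + 1) % p.length))
    by_cases h : i % p.length + 1 < p.length
    · rwa [Nat.add_mod, Nat.mod_eq_of_lt (by omega : 1 < p.length), Nat.mod_eq_of_lt h]
    · have h3 : i % p.length + 1 = p.length := by
        have := hmod i
        omega
      rw [h3, p.getVert_length] at h1
      rwa [Nat.add_mod, Nat.mod_eq_of_lt (by omega : 1 < p.length), h3, Nat.mod_self,
        p.getVert_zero]
  · intro i hi j hj hij
    have hij' : p.getVert i = p.getVert j := by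
      have h1 : p.getVert (i % p.length) = p.getVert (j % p.length) := hij
      rwa [Nat.mod_eq_of_lt hi, Nat.mod_eq_of_lt hj] at h1
    exact hp.getVert_injOn' (by simp; omega) (by simp; omega) hij'
  · intro u
    have hu : u ∈ p.toSubgraph.verts := by
      rw [hpv]
      rw [SimpleGraph.ConnectedComponent.mem_supp_iff]
      exact SimpleGraph.ConnectedComponent.sound (hH.preconnected u v)
    rw [SimpleGraph.Walk.mem_verts_toSubgraph, SimpleGraph.Walk.mem_support_iff_exists_getVert] at hu
    obtain ⟨m, hm, hml⟩ := hu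
    rcases Nat.lt_or_ge m p.length with h | h
    · exact ⟨m, h, by show p.getVert (m % p.length) = u; rw [Nat.mod_eq_of_lt h, hm]⟩
    · refine ⟨0, by omega, ?_⟩
      show p.getVert (0 % p.length) = u
      have h3 : m = p.length := le_antisymm hml h
      rw [h3, p.getVert_length] at hm
      rw [Nat.zero_mod, p.getVert_zero, hm]

/-- `m` consecutive vertices from index `i`. -/
def arc (a : ℕ → V) (i m : ℕ) : Set V := {v | ∃ j < m, a (i + j) = v}

omit [Fintype V] in
theorem conn_arc {a : ℕ → V} (ha : ∀ i, H.Adj (a i) (a (i + 1))) (i m : ℕ) (hm : 1 ≤ m) :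
    Conn H (arc a i m) := by
  induction m, hm using Nat.le_induction with
  | base =>
    have : arc a i 1 = {a i} := by
      ext v
      constructor
      · rintro ⟨j, hj, rfl⟩
        have : j = 0 := by omega
        subst this
        rfl
      · rintro rfl
        exact ⟨0, by omega, rfl⟩
    rw [this]
    exact conn_singleton _
  | succ m hm ih =>
    have : arc a i (m + 1) = insert (a (i + m)) (arc a i m) := by
      ext v
      constructor
      · rintro ⟨j, hj, rfl⟩
        rcases Nat.lt_or_ge j m with h | h
        · exact Or.inr ⟨j, h, rfl⟩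
        · have : j = m := by omega
          subst this
          exact Or.inl rfl
      · rintro (rfl | ⟨j, hj, rfl⟩)
        · exact ⟨m, by omega, rfl⟩
        · exact ⟨j, by omega, rfl⟩
    rw [this]
    refine ih.insert ⟨a (i + (m - 1)), ⟨m - 1, by omega, rfl⟩, ?_⟩
    have := ha (i + (m - 1))
    rwa [show i + (m - 1) + 1 = i + m by omega] at this

section enum

variable {n : ℕ} {a : ℕ → V} (hn : 3 ≤ n) (hper : ∀ i, a (i + n) = a i)
  (hinj : ∀ i < n, ∀ j < n, a i = a j → i = j) (hsurj : ∀ v, ∃ i < n, a i = v)

include hper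

omit [Fintype V] in
theorem per_mul (i m : ℕ) : a (i + m * n) = a i := by
  induction m with
  | zero => simp
  | succ m ih => rw [Nat.succ_mul, ← add_assoc, hper, ih]

omit [Fintype V] in
theorem a_mod (i : ℕ) : a i = a (i % n) := by
  conv_lhs => rw [← Nat.mod_add_div i n, mul_comm]
  exact per_mul hper _ _

include hinj hn

omit [Fintype V] in
theorem shift_inj (i : ℕ) : ∀ j < n, ∀ j' < n, a (i + j) = a (i + j') → j = j' := by
  intro j hj j' hj' h
  rw [a_mod hper (i + j), a_mod hper (i + j')] at h
  have h1 := hinj _ (Nat.mod_lt _ (by omega)) _ (Nat.mod_lt _ (by omega)) h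
  have h2 : j ≡ j' [MOD n] := Nat.ModEq.add_left_cancel' i h1
  exact Nat.ModEq.eq_of_lt_of_lt h2 hj hj'

include hsurj

omit [Fintype V] hinj in
theorem shift_surj (i : ℕ) (v : V) : ∃ j < n, a (i + j) = v := by
  obtain ⟨m, hm, rfl⟩ := hsurj v
  refine ⟨(m + (n - i % n)) % n, Nat.mod_lt _ (by omega), ?_⟩
  rw [a_mod hper]
  congr 1
  have h1 : i % n < n := Nat.mod_lt _ (by omega)
  have h2 : (i + (m + (n - i % n)) % n) % n = (i % n + (m + (n - i % n))) % n :=
    (Nat.ModEq.add (Nat.mod_modEq i n).symm (Nat.mod_modEq _ n))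
  rw [h2, show i % n + (m + (n - i % n)) = m + n by omega, Nat.add_mod_right,
    Nat.mod_eq_of_lt hm]

omit [Fintype V] in
theorem compl_arc {k : ℕ} (hk : n = k + k) (i : ℕ) : (arc a i k)ᶜ = arc a (i + k) k := by
  ext v
  constructor
  · intro hv
    obtain ⟨j, hj, rfl⟩ := shift_surj hn hper hsurj i v
    rcases Nat.lt_or_ge j k with h | h
    · exact absurd ⟨j, h, rfl⟩ hv
    · exact ⟨j - k, by omega, by rw [show i + k + (j - k) = i + j by omega]⟩
  · rintro ⟨j, hj, rfl⟩ ⟨j', hj', h⟩
    rw [show i + k + j = i + (k + j) by omega] at h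
    have := shift_inj hn hper hinj i _ (by omega) _ (by omega) h
    omega

omit hsurj in
theorem wt_arc {k : ℕ} (hk : k ≤ n) (f : V → ℝ) (i : ℕ) :
    wt f (arc a i k) = ∑ j ∈ Finset.range k, f (a (i + j)) := by
  rw [wt_eq_sum]
  have h1 : (arc a i k).toFinset = (Finset.range k).image fun j => a (i + j) := by
    ext v
    simp only [Set.mem_toFinset, Finset.mem_image, Finset.mem_range]
    rfl
  rw [h1, Finset.sum_image]
  intro j hj j' hj' h
  simp only [Finset.coe_range, Set.mem_Iio] at hj hj'
  exact shift_inj hn hper hinj i _ (by omega) _ (by omega) h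

end enum

end ETwoRegAux

open ETwoRegAux

theorem exists_connSafe_of_two_regular {V : Type u} [Fintype V] {H : SimpleGraph V}
    (hH : H.Connected) {X : Set V} (hb : Bip H X)
    (h2 : ∀ v, (H.neighborSet v).ncard = 2) {w : V → ℝ} (hw : ∀ v, 0 ≤ w v)
    (hs : ∀ x ∈ X, ∀ y ∉ X, H.Adj x y → w y ≤ w x) :
    ∃ T, IsConnSafe H w T ∧ wt w T ≤ wt w X := by
  obtain ⟨n, a, hn, hper, hadj, hinj, hsurj⟩ := exists_enum hH h2
  -- n is even
  have hpar : ∀ i, (a i ∈ X ↔ (a 0 ∈ X ↔ Even i)) := by
    intro i
    induction i with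
    | zero => simp
    | succ i ih =>
      have h1 := hb _ _ (hadj i)
      rw [Nat.even_add_one]
      tauto
  have hev : Even n := by
    have h1 := hpar n
    have h3 := hper 0
    rw [zero_add] at h3
    rw [h3] at h1
    tauto
  obtain ⟨k, hk⟩ := hev
  by_contra hno
  push Not at hno
  let g : ℕ → ℝ := fun i => ∑ j ∈ Finset.range k, X.indicator w (a (i + j))
  let h : ℕ → ℝ := fun i => ∑ j ∈ Finset.range k, Xᶜ.indicator w (a (i + j))
  have hwP : ∀ i, wt w (arc a i k) = g i + h i := by
    intro i
    rw [wt_arc hn hper hinj (by omega) w i, ← Finset.sum_add_distrib]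
    refine Finset.sum_congr rfl fun j _ => ?_
    by_cases hj : a (i + j) ∈ X
    · simp [hj]
    · simp [hj]
  have hwX : ∀ i, wt w X = g i + g (i + k) := by
    intro i
    have e1 : wt w X = wt (X.indicator w) Set.univ := by
      unfold wt
      refine Finset.sum_congr rfl fun v _ => ?_
      simp
    rw [e1, ← wt_compl (X.indicator w) (arc a i k),
      compl_arc hn hper hinj hsurj hk i,
      wt_arc hn hper hinj (by omega) _ i, wt_arc hn hper hinj (by omega) _ (i + k)]
  have s1 : ∀ i, h (i + 1) ≤ g i := by
    intro i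
    refine Finset.sum_le_sum fun j _ => ?_
    have hadj' := hadj (i + j)
    have hb' := hb _ _ hadj'
    rw [show i + 1 + j = i + j + 1 by omega]
    by_cases hj : a (i + j) ∈ X
    · have hj' := hb'.1 hj
      rw [Set.indicator_of_mem hj, Set.indicator_of_mem (show a (i + j + 1) ∈ Xᶜ from hj')]
      exact hs _ hj _ hj' hadj'
    · have hj' : a (i + j + 1) ∈ X := by tauto
      rw [Set.indicator_of_notMem hj, Set.indicator_of_notMem (Set.notMem_compl_iff.2 hj')]
  have s2 : ∀ i, h i ≤ g (i + 1) := by
    intro i
    refine Finset.sum_le_sum fun j _ => ?_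
    have hadj' := hadj (i + j)
    have hb' := hb _ _ hadj'
    rw [show i + 1 + j = i + j + 1 by omega]
    by_cases hj : a (i + j) ∈ X
    · have hj' := hb'.1 hj
      rw [Set.indicator_of_notMem (Set.notMem_compl_iff.2 hj), Set.indicator_of_notMem hj']
    · have hj' : a (i + j + 1) ∈ X := by tauto
      rw [Set.indicator_of_mem (show a (i + j) ∈ Xᶜ from hj), Set.indicator_of_mem hj']
      exact hs _ hj' _ hj hadj'.symm
  have hgper : ∀ i, g (i + n) = g i := by
    intro i
    refine Finset.sum_congr rfl fun j _ => ?_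
    rw [show i + n + j = i + j + n by omega, hper]
  have hhper : ∀ i, h (i + n) = h i := by
    intro i
    refine Finset.sum_congr rfl fun j _ => ?_
    rw [show i + n + j = i + j + n by omega, hper]
  -- one of the two arcs is big
  have big : ∀ i, g (i + k) < h i ∨ g i < h (i + k) := by
    intro i
    by_contra hcon
    push Not at hcon
    have c1 : Conn H (arc a i k) := conn_arc hadj i k (by omega)
    have c2 : Conn H (arc a (i + k) k) := conn_arc hadj (i + k) k (by omega)
    have e1 := compl_arc hn hper hinj hsurj hk i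
    have e2 : (arc a (i + k) k)ᶜ = arc a i k := by rw [← e1, compl_compl]
    have w1 := hwP i
    have w2 := hwP (i + k)
    have w3 := hwX i
    rcases le_total (wt w (arc a i k)) (wt w (arc a (i + k) k)) with hle | hle
    · have hT : IsConnSafe H w (arc a (i + k) k) := by
        refine isConnSafe_of c2 ?_
        intro D hD
        rw [e2] at hD
        exact (wt_mono hw hD.1).trans hle
      have := hno _ hT
      linarith
    · have hT : IsConnSafe H w (arc a i k) := by
        refine isConnSafe_of c1 ?_
        intro D hD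
        rw [e1] at hD
        exact (wt_mono hw hD.1).trans hle
      have := hno _ hT
      linarith
  -- never P_{i+k} and P_{i+1} both big
  have no1 : ∀ i, ¬ (g i < h (i + k) ∧ g (i + k + 1) < h (i + 1)) := by
    rintro i ⟨b1, b2⟩
    have := s1 i
    have := s2 (i + k)
    linarith
  have step : ∀ i, g (i + k + 1) < h (i + 1) → g (i + k) < h i := by
    intro i hi
    rcases big i with hb1 | hb1
    · exact hb1
    · exact absurd ⟨hb1, hi⟩ (no1 i)
  -- descend
  have desc : ∀ m, g (m + k) < h m → ∀ i ≤ m, g (i + k) < h i := by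
    intro m
    induction m with
    | zero =>
      intro hm i hi
      have : i = 0 := by omega
      subst this
      exact hm
    | succ m ih =>
      intro hm i hi
      rcases Nat.lt_or_ge i (m + 1) with hlt | hge
      · refine ih (step m ?_) i (by omega)
        rwa [show m + k + 1 = m + 1 + k by omega]
      · have : i = m + 1 := by omega
        subst this
        exact hm
  have ex : ∃ m, g (m + k) < h m := by
    rcases big 0 with h0 | h0
    · exact ⟨0, h0⟩
    · refine ⟨0 + k, ?_⟩
      have := hgper 0
      rw [show 0 + k + k = 0 + n by omega, this]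
      exact h0
  have big0 : g (0 + k) < h 0 := by
    obtain ⟨m, hm⟩ := ex
    exact desc m hm 0 (Nat.zero_le _)
  have bign : g (n + k) < h n := by
    have e1 := hgper (0 + k)
    have e2 := hhper 0
    rw [show 0 + k + n = n + k by omega] at e1
    rw [zero_add] at e2
    rw [e1, e2]
    exact big0
  have all := desc n bign
  have a1 := all k (by omega)
  have a2 := all 1 (by omega)
  have e1 := hgper 0
  rw [show k + k = 0 + n by omega, e1] at a1
  refine no1 0 ⟨?_, ?_⟩
  · rwa [zero_add]
  · rw [show 0 + k + 1 = 1 + k by omega]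
    exact a2

end W_MP_9f10ef_co
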