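import Pool.Agent.W_MP_9f10ef_co.EDefs
import Pool.Agent.W_MP_9f10ef_co.ECount
import Pool.Agent.W_MP_9f10ef_co.EDom
import Pool.Agent.W_MP_9f10ef_co.EQuot
import Pool.Agent.W_MP_9f10ef_co.ETwoReg
import Pool.Agent.W_MP_9f10ef_co.EStruct

/-!
# Part (E): graphs with no bad cut and no complete bipartite contraction are in `G^cs`

Final assembly: quotient of `(G, w, S)` by the components of `S` and of its complement, then
either some vertex on each side sees the whole other side (`EDom`), or the quotient is an even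
cycle (`EStruct`, `ETwoReg`).
-/

namespace W_MP_9f10ef_co
open Classical
universe u v
variable {V : Type u} [Fintype V] {H : SimpleGraph V}

/-- (E) A connected finite graph without a bad 2-cut (in the form `Bad5`) and with no contraction
onto `K_{m,n}`, `2 ≤ m < n`, belongs to `G^cs`. -/
theorem inGcs_of_free {G : SimpleGraph V} (hG : G.Connected) (hB : ¬ Bad5 G) (hK : KFree G) :
    InGcs G := by
  rw [inGcs_iff]
  refine ⟨hG, fun w hw S hS => ?_⟩
  obtain ⟨V', _, H, w', X, hH, hw', hX, hb, hs, hwt, hlift, hBad, hKF⟩ := exists_quotient hG hw hS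
  suffices h : ∃ T, IsConnSafe H w' T ∧ wt w' T ≤ wt w' X by
    obtain ⟨T, hT, hle⟩ := h
    obtain ⟨T', hT', hwT'⟩ := hlift T hT
    exact ⟨T', hT', by rw [hwT', ← hwt]; exact hle⟩
  have hHB : ¬ Bad5 H := fun h => hB (hBad h)
  have hHK := hKF hK
  by_cases hY : Xᶜ.Nonempty
  · by_cases h1 : ∃ y ∉ X, ∀ x ∈ X, H.Adj y x
    · by_cases h2 : ∃ x ∈ X, ∀ y ∉ X, H.Adj x y
      · obtain ⟨y, hy, hyf⟩ := h1
        obtain ⟨x, hx, hxf⟩ := h2
        exact exists_connSafe_of_dominating hH hHK hHB hb hx hy hxf hyf hw' hs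
      · push Not at h2
        refine exists_connSafe_of_two_regular hH hb ?_ hw' hs
        refine two_regular_of_no_full hH hHK hHB hb.compl hY ?_ ?_
        · rw [compl_compl]; exact hX
        · intro y hy
          rw [Set.mem_compl_iff, not_not] at hy
          obtain ⟨z, hz, hz'⟩ := h2 y hy
          exact ⟨z, hz, hz'⟩
    · push Not at h1
      refine exists_connSafe_of_two_regular hH hb ?_ hw' hs
      exact two_regular_of_no_full hH hHK hHB hb hX hY h1
  · refine ⟨X, ?_, le_rfl⟩
    have : X = Set.univ := by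
      rw [Set.not_nonempty_iff_eq_empty] at hY
      rw [← compl_compl X, hY, Set.compl_empty]
    rw [this]
    exact univ_isConnSafe hH

end W_MP_9f10ef_co
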