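import Pool.Agent.W_MP_9f10ef_co.Contract2
import Pool.Agent.W_MP_9f10ef_co.EMain
import Pool.Agent.W_MP_9f10ef_co.EBridge

/-!
# MP_9f10ef_co : from `Bad5` to bad 2-cuts, and the final partial characterisation
-/

namespace W_MP_9f10ef_co

open Classical

universe u v

variable {V : Type u} {G : SimpleGraph V}

/-- In a connected graph a cut has a component touching both sides. -/
theorem Cut.exists_common [Finite V] (hG : G.Connected) {A B : Set V} (hC : Cut G A B) :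
    ∃ K, IsComp G (A ∪ B)ᶜ K ∧ Touch G A K ∧ Touch G B K := by
  by_contra hno
  push Not at hno
  set W : Set V := {x | x ∈ A ∨ ∃ C, IsComp G (A ∪ B)ᶜ C ∧ Touch G A C ∧ x ∈ C} with hW
  have h1 : W.Nonempty := by
    obtain ⟨a, ha⟩ := hC.conn1.nonempty
    exact ⟨a, Or.inl ha⟩
  have h2 : Wᶜ.Nonempty := by
    obtain ⟨b, hb⟩ := hC.conn2.nonempty
    refine ⟨b, ?_⟩
    rintro (h | ⟨C, hCc, _, h⟩)
    · exact Set.disjoint_left.1 hC.disj h hb
    · exact hCc.1 h (Or.inr hb)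
  obtain ⟨w, hw, z, hz, hwz⟩ := touch_compl hG h1 h2
  have hzA : z ∉ A := fun h => hz (Or.inl h)
  rcases hw with hw | ⟨C, hCc, hCt, hw⟩
  · by_cases hzB : z ∈ B
    · exact hC.nt ⟨w, hw, z, hzB, hwz⟩
    · obtain ⟨C, hCc, hzC⟩ := exists_comp_mem (G := G) (X := (A ∪ B)ᶜ) (v := z) (by
        rintro (h | h)
        · exact hzA h
        · exact hzB h)
      exact hz (Or.inr ⟨C, hCc, ⟨w, hw, z, hzC, hwz⟩, hzC⟩)
  · by_cases hzB : z ∈ B
    · exact hno C hCc hCt ⟨z, hzB, w, hw, hwz.symm⟩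
    · have hzC : z ∈ C := by
        refine hCc.mem_of_adj hw ?_ hwz
        rintro (h | h)
        · exact hzA h
        · exact hzB h
      exact hz (Or.inr ⟨C, hCc, hCt, hzC⟩)

theorem Bad5.exists_badCut [Finite V] (hG : G.Connected) (h : Bad5 G) :
    ∃ X1 X2, BadCut G X1 X2 := by
  obtain ⟨A, B, D2, D3, hA, hB, hAB, hABD, h23, hnt, hN2, hN3, hT2, hT3, hT1A, hT1B⟩ := h
  have hcut : Cut G A B := ⟨hA, hB, hAB, hnt⟩
  have hd2 : Disjoint (A ∪ B) D2 := hABD.mono_right Set.subset_union_left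
  have hd3 : Disjoint (A ∪ B) D3 := hABD.mono_right Set.subset_union_right
  have hd1 : Disjoint (A ∪ B) (A ∪ B ∪ D2 ∪ D3)ᶜ :=
    Set.disjoint_left.2 fun v hv hv' => hv' (Or.inl (Or.inl hv))
  have hN1 : ∀ d ∈ (A ∪ B ∪ D2 ∪ D3)ᶜ, ∀ v, G.Adj d v → v ∈ A ∪ B ∪ (A ∪ B ∪ D2 ∪ D3)ᶜ := by
    intro d hd v hdv
    by_contra hv
    have hv1 : v ∉ A ∪ B := fun h => hv (Or.inl h)
    have hv2 : v ∈ A ∪ B ∪ D2 ∪ D3 := by
      by_contra h
      exact hv (Or.inr h)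
    have hd' : ∀ Z, d ∈ A ∪ B ∪ Z → Z ⊆ A ∪ B ∪ D2 ∪ D3 → False := by
      rintro Z (h | h) hZ
      · exact hd (Or.inl (Or.inl h))
      · exact hd (hZ h)
    rcases hv2 with (h | h) | h
    · exact hv1 h
    · exact hd' D2 (hN2 v h d hdv.symm) (fun x hx => Or.inl (Or.inr hx))
    · exact hd' D3 (hN3 v h d hdv.symm) (fun x hx => Or.inr hx)
  obtain ⟨R2, hR2, hR2s, hR2t⟩ := exists_comp_in_class hN2 hd2 hT2
  obtain ⟨R3, hR3, hR3s, hR3t⟩ := exists_comp_in_class hN3 hd3 hT3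
  obtain ⟨R1, hR1, hR1s, hR1t⟩ := exists_comp_in_class hN1 hd1 hT1A
  obtain ⟨R1', hR1', hR1s', hR1t'⟩ := exists_comp_in_class hN1 hd1 hT1B
  have hne : ∀ {P Q R S : Set V}, IsComp G (A ∪ B)ᶜ P → P ⊆ R → Q ⊆ S → Disjoint R S → P ≠ Q := by
    intro P Q R S hP hPR hQS hRS hPQ
    obtain ⟨x, hx⟩ := hP.nonempty
    exact Set.disjoint_left.1 hRS (hPR hx) (hQS (hPQ ▸ hx))
  have h12 : Disjoint (A ∪ B ∪ D2 ∪ D3)ᶜ D2 :=
    Set.disjoint_left.2 fun v hv hv' => hv (Or.inl (Or.inr hv'))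
  have h13 : Disjoint (A ∪ B ∪ D2 ∪ D3)ᶜ D3 :=
    Set.disjoint_left.2 fun v hv hv' => hv (Or.inr hv')
  obtain ⟨K, hK, hKA, hKB⟩ := hcut.exists_common hG
  have n23 : R2 ≠ R3 := hne hR2 hR2s hR3s h23
  by_cases hK2 : K = R2
  · subst hK2
    exact ⟨A, B, hcut, K, R1, R3, hK, hR1, hR3, (hne hR1 hR1s hR2s h12).symm, n23,
      hne hR1 hR1s hR3s h13, hKA, hKB, hR1t, hR3t⟩
  by_cases hK3 : K = R3
  · subst hK3
    exact ⟨A, B, hcut, K, R2, R1', hK, hR2, hR1', n23.symm, (hne hR1' hR1s' hR3s h13).symm,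
      (hne hR1' hR1s' hR2s h12).symm, hKA, hKB, hR2t, hR1t'⟩
  exact ⟨A, B, hcut, K, R2, R3, hK, hR2, hR3, hK2, hK3, n23, hKA, hKB, hR2t, hR3t⟩

/-- Necessity: members of `𝒢^cs` are not contractible to `P5`, the banner or `K_{2,n}`, `n ≥ 3`. -/
theorem not_inGcs_of_contractible [Fintype V] (hG : G.Connected)
    (h : ContractibleTo G (SimpleGraph.pathGraph 5) ∨ ContractibleTo G banner ∨
      ∃ n, 3 ≤ n ∧ ContractibleTo G (completeBipartiteGraph (Fin 2) (Fin n))) : ¬ InGcs G := by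
  have : ∃ X1 X2, BadCut G X1 X2 := by
    rcases h with h | h | ⟨n, hn, h⟩
    · exact badCut_of_P5 h
    · exact badCut_of_banner h
    · exact badCut_of_K2n hn h
  obtain ⟨X1, X2, hB⟩ := this
  exact hB.not_inGcs hG

/-- Sufficiency. -/
theorem inGcs_of_not_contractible [Fintype V] (hG : G.Connected)
    (h1 : ¬ ContractibleTo G (SimpleGraph.pathGraph 5)) (h2 : ¬ ContractibleTo G banner)
    (h3 : ∀ m n : ℕ, 2 ≤ m → m < n →
      ¬ ContractibleTo G (completeBipartiteGraph (Fin m) (Fin n))) : InGcs G := by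
  refine inGcs_of_free hG ?_ h3
  intro hB
  obtain ⟨X1, X2, hX⟩ := hB.exists_badCut hG
  rcases hX.contractible hG with h | h | ⟨n, hn, h⟩
  · exact h1 h
  · exact h2 h
  · exact h3 2 n le_rfl (by omega) h

end W_MP_9f10ef_co
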