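import Pool.Agent.W_MP_9f10ef_co.Hier
import Pool.Agent.W_MP_9f10ef_co.PCut

/-!
# Theorem A, Case F(2): crossing atoms
-/

namespace W_MP_9f10ef_co

open Classical

universe u

variable {V : Type u} {G : SimpleGraph V}

/-- **Case F(2).** `X1`, `X2` disjoint nonadjacent connected sets, all components of
`G - X1 - X2` touch both; `r ∈ X1` has neighbours in two components `Y1`, `Y3`, `c ∈ X2` in `Y2`,
`Y4`, where `Y1 ≠ Y2` and `Y3, Y4 ∉ {Y1, Y2}`.  Then `G ∉ 𝒢^cs`. -/
theorem not_inGcs_of_crossing [Fintype V] (hG : G.Connected) {X1 X2 : Set V} (hC : Cut G X1 X2)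
    (hfull : ∀ Y, IsComp G (X1 ∪ X2)ᶜ Y → Touch G X1 Y ∧ Touch G X2 Y) {r c : V}
    (hr : r ∈ X1) (hc : c ∈ X2) {Y1 Y2 Y3 Y4 : Set V}
    (hY1 : IsComp G (X1 ∪ X2)ᶜ Y1) (hY2 : IsComp G (X1 ∪ X2)ᶜ Y2)
    (hY3 : IsComp G (X1 ∪ X2)ᶜ Y3) (hY4 : IsComp G (X1 ∪ X2)ᶜ Y4)
    (h12 : Y1 ≠ Y2) (h31 : Y3 ≠ Y1) (h32 : Y3 ≠ Y2) (h41 : Y4 ≠ Y1) (h42 : Y4 ≠ Y2)
    (a1 : ∃ y ∈ Y1, G.Adj r y) (a3 : ∃ y ∈ Y3, G.Adj r y)
    (a2 : ∃ y ∈ Y2, G.Adj c y) (a4 : ∃ y ∈ Y4, G.Adj c y) : ¬ InGcs G := by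
  obtain ⟨y1, hy1, ry1⟩ := a1
  obtain ⟨y2, hy2, cy2⟩ := a2
  obtain ⟨y3, hy3, ry3⟩ := a3
  obtain ⟨y4, hy4, cy4⟩ := a4
  have hX12 : X1 ≠ X2 := by
    rintro rfl
    exact Set.disjoint_left.1 hC.disj hr hr
  have hX1Y : ∀ Y, IsComp G (X1 ∪ X2)ᶜ Y → Disjoint X1 Y := by
    intro Y hY
    rw [Set.disjoint_right]
    intro y hy hyX
    exact hY.1 hy (Or.inl hyX)
  have hX2Y : ∀ Y, IsComp G (X1 ∪ X2)ᶜ Y → Disjoint X2 Y := by
    intro Y hY
    rw [Set.disjoint_right]
    intro y hy hyX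
    exact hY.1 hy (Or.inr hyX)
  have hX1ne : ∀ Y, IsComp G (X1 ∪ X2)ᶜ Y → Y ≠ X1 := by
    rintro Y hY rfl
    exact Set.disjoint_left.1 (hX1Y _ hY) hr hr
  have hX2ne : ∀ Y, IsComp G (X1 ∪ X2)ᶜ Y → Y ≠ X2 := by
    rintro Y hY rfl
    exact Set.disjoint_left.1 (hX2Y _ hY) hc hc
  let ι := {Z : Set V // Z = X1 ∨ Z = X2 ∨ IsComp G (X1 ∪ X2)ᶜ Z}
  have hne : ∀ Z : ι, Z.1.Nonempty := by
    rintro ⟨Z, rfl | rfl | h⟩
    · exact ⟨r, hr⟩
    · exact ⟨c, hc⟩
    · exact h.nonempty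
  let B : ι → Set V := Subtype.val
  let a : ι → V := fun Z => if Z.1 = X1 then r else if Z.1 = X2 then c else
    if Z.1 = Y1 then y1 else if Z.1 = Y2 then y2 else (hne Z).choose
  let ℓ : ι → ℕ := fun Z => if Z.1 = X1 ∨ Z.1 = X2 then 0 else
    if Z.1 = Y1 ∨ Z.1 = Y2 then 1 else 2
  let iX1 : ι := ⟨X1, Or.inl rfl⟩
  let iX2 : ι := ⟨X2, Or.inr (Or.inl rfl)⟩
  have aX1 : a iX1 = r := by simp [a, iX1]
  have aX2 : a iX2 = c := by simp [a, iX2, hX12.symm]
  let iY : ∀ Y, IsComp G (X1 ∪ X2)ᶜ Y → ι := fun Y hY => ⟨Y, Or.inr (Or.inr hY)⟩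
  have aY1 : a (iY Y1 hY1) = y1 := by
    simp [a, iY, hX1ne _ hY1, hX2ne _ hY1]
  have aY2 : a (iY Y2 hY2) = y2 := by
    simp [a, iY, hX1ne _ hY2, hX2ne _ hY2, h12.symm]
  have hB : IsBlocks G B a := by
    refine ⟨?_, ?_, ?_, ?_⟩
    · rintro ⟨Z, rfl | rfl | h⟩
      · exact hC.conn1
      · exact hC.conn2
      · exact h.conn
    · rintro ⟨Z, hZ⟩ ⟨W, hW⟩ hZW
      have hZW' : Z ≠ W := fun h => hZW (Subtype.ext h)
      show Disjoint Z W
      rcases hZ with rfl | rfl | hZ <;> rcases hW with rfl | rfl | hW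
      · exact absurd rfl hZW'
      · exact hC.disj
      · exact hX1Y _ hW
      · exact hC.disj.symm
      · exact absurd rfl hZW'
      · exact hX2Y _ hW
      · exact (hX1Y _ hZ).symm
      · exact (hX2Y _ hZ).symm
      · rcases hZ.eq_or_disjoint hW with h | h
        · exact absurd h hZW'
        · exact h
    · intro x
      by_cases h1 : x ∈ X1
      · exact ⟨iX1, h1⟩
      by_cases h2 : x ∈ X2
      · exact ⟨iX2, h2⟩
      obtain ⟨D, hD, hxD⟩ := exists_comp_mem (G := G) (X := (X1 ∪ X2)ᶜ) (v := x)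
        (by rintro (h | h); exacts [h1 h, h2 h])
      exact ⟨iY D hD, hxD⟩
    · intro Z
      show a Z ∈ Z.1
      simp only [a]
      split_ifs with h1 h2 h3 h4
      · rw [h1]; exact hr
      · rw [h2]; exact hc
      · rw [h3]; exact hy1
      · rw [h4]; exact hy2
      · exact (hne Z).choose_spec
  have hainj : ∀ i j, a i = a j → i = j := by
    intro i j hij
    by_contra hne'
    exact Set.disjoint_left.1 (hB.disj _ _ hne') (hB.mem i) (by rw [hij]; exact hB.mem j)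
  obtain ⟨w, M, τ, hw0, hτ0, hτM, hbd, hBM, hsM, hH⟩ := exists_hier hB ℓ
  have hMpos : 0 < M := by linarith
  -- the safe set
  have hcompX1 : IsComp G (X1 ∪ X2) X1 := by
    refine isComp_of_closed hC.conn1 Set.subset_union_left ?_
    rintro x hx v (hv | hv) hxv
    · exact hv
    · exact absurd ⟨x, hx, v, hv, hxv⟩ hC.nt
  have hcompX2 : IsComp G (X1 ∪ X2) X2 := by
    refine isComp_of_closed hC.conn2 Set.subset_union_right ?_
    rintro x hx v (hv | hv) hxv
    · exact absurd ⟨v, hv, x, hx, hxv.symm⟩ hC.nt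
    · exact hv
  have hS : IsSafe G w (X1 ∪ X2) := by
    refine ⟨⟨r, Or.inl hr⟩, ?_⟩
    intro C D hCc hD _
    have h1 : wt w D = M := hBM (iY D hD)
    have h2 : wt w C = M := by
      obtain ⟨x, hx⟩ := hCc.nonempty
      rcases hCc.1 hx with h | h
      · rw [hCc.eq_of_mem hcompX1 hx h]; exact hBM iX1
      · rw [hCc.eq_of_mem hcompX2 hx h]; exact hBM iX2
    rw [h1, h2]
  have hSw : wt w (X1 ∪ X2) = 2 * M := by
    rw [wt_union hC.disj]
    have h1 : wt w X1 = M := hBM iX1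
    have h2 : wt w X2 = M := hBM iX2
    rw [h1, h2]; ring
  refine not_inGcs w hw0 hS ?_
  intro T hT
  by_contra hcon
  push Not at hcon
  rw [hSw] at hcon
  -- H2: connected sets avoiding T have at most `nAt a T` atoms
  have H2 : ∀ D : Set V, Conn G D → Disjoint D T → nAt a D ≤ nAt a T := by
    intro D hD hDT
    have h1 := hT.wt_le hG hw0 hD hDT
    have h2 := (hbd D).1
    have h3 := (hbd T).2
    by_contra hlt
    push Not at hlt
    have h4 : ((nAt a T : ℝ) + 1) * M ≤ nAt a D * M := by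
      apply mul_le_mul_of_nonneg_right _ hMpos.le
      exact_mod_cast hlt
    linarith
  have hk : nAt a T ≤ 2 := by
    by_contra hlt
    push Not at hlt
    have h1 := (hbd T).1
    have h4 : ((2 : ℝ) + 1) * M ≤ nAt a T * M := by
      apply mul_le_mul_of_nonneg_right _ hMpos.le
      exact_mod_cast hlt
    linarith
  -- counting atoms
  have nle : ∀ (s : Finset ι) (X : Set V), (∀ i ∈ s, a i ∈ X) → s.card ≤ nAt a X := by
    intro s X hs
    unfold nAt
    apply Finset.card_le_card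
    intro i hi
    simp only [Finset.mem_filter, Finset.mem_univ, true_and]
    exact hs i hi
  have hD1 : Conn G {r, y1} := by
    have := (conn_singleton (G := G) y1).insert (v := r) ⟨y1, rfl, ry1.symm⟩
    exact this
  have hD2 : Conn G {c, y2} := by
    have := (conn_singleton (G := G) y2).insert (v := c) ⟨y2, rfl, cy2.symm⟩
    exact this
  have hiXY : ∀ Y (hY : IsComp G (X1 ∪ X2)ᶜ Y), iX1 ≠ iY Y hY := by
    intro Y hY h
    exact hX1ne Y hY (congrArg Subtype.val h).symm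
  have hiXY2 : ∀ Y (hY : IsComp G (X1 ∪ X2)ᶜ Y), iX2 ≠ iY Y hY := by
    intro Y hY h
    exact hX2ne Y hY (congrArg Subtype.val h).symm
  have hiX : iX1 ≠ iX2 := fun h => hX12 (congrArg Subtype.val h)
  have hiYY : ∀ Y (hY : IsComp G (X1 ∪ X2)ᶜ Y) Y' (hY' : IsComp G (X1 ∪ X2)ᶜ Y'), Y ≠ Y' →
      iY Y hY ≠ iY Y' hY' := by
    intro Y hY Y' hY' hne' h
    exact hne' (congrArg Subtype.val h)
  have c2 : ∀ (i j : ι) (X : Set V), i ≠ j → a i ∈ X → a j ∈ X → 2 ≤ nAt a X := by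
    intro i j X hij hi hj
    have := nle {i, j} X (by
      intro k hk
      simp only [Finset.mem_insert, Finset.mem_singleton] at hk
      rcases hk with rfl | rfl
      · exact hi
      · exact hj)
    rwa [Finset.card_pair hij] at this
  have c3 : ∀ (i j k : ι) (X : Set V), i ≠ j → i ≠ k → j ≠ k → a i ∈ X → a j ∈ X → a k ∈ X →
      3 ≤ nAt a X := by
    intro i j k X hij hik hjk hi hj hk
    have := nle {i, j, k} X (by
      intro l hl
      simp only [Finset.mem_insert, Finset.mem_singleton] at hl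
      rcases hl with rfl | rfl | rfl
      · exact hi
      · exact hj
      · exact hk)
    rwa [Finset.card_eq_three.2 ⟨i, j, k, hij, hik, hjk, rfl⟩] at this
  have nD1 : 2 ≤ nAt a {r, y1} :=
    c2 iX1 (iY Y1 hY1) _ (hiXY Y1 hY1) (by rw [aX1]; simp) (by rw [aY1]; simp)
  have nD2 : 2 ≤ nAt a {c, y2} :=
    c2 iX2 (iY Y2 hY2) _ (hiXY2 Y2 hY2) (by rw [aX2]; simp) (by rw [aY2]; simp)
  have hk2 : nAt a T = 2 := by
    by_contra hne'
    have hlt : nAt a T < 2 := by omega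
    have m1 : ¬ Disjoint ({r, y1} : Set V) T := fun h => by
      have := H2 _ hD1 h; omega
    have m2 : ¬ Disjoint ({c, y2} : Set V) T := fun h => by
      have := H2 _ hD2 h; omega
    rw [Set.not_disjoint_iff] at m1 m2
    obtain ⟨u, hu, huT⟩ := m1
    obtain ⟨v, hv, hvT⟩ := m2
    have h1 : ∃ i, a i = u ∧ (i = iX1 ∨ i = iY Y1 hY1) := by
      rcases hu with rfl | rfl
      · exact ⟨iX1, aX1, Or.inl rfl⟩
      · exact ⟨iY Y1 hY1, aY1, Or.inr rfl⟩
    have h2 : ∃ i, a i = v ∧ (i = iX2 ∨ i = iY Y2 hY2) := by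
      rcases hv with rfl | rfl
      · exact ⟨iX2, aX2, Or.inl rfl⟩
      · exact ⟨iY Y2 hY2, aY2, Or.inr rfl⟩
    obtain ⟨i, rfl, hi⟩ := h1
    obtain ⟨j, rfl, hj⟩ := h2
    have hij : i ≠ j := by
      rcases hi with rfl | rfl <;> rcases hj with rfl | rfl
      · exact hiX
      · exact hiXY Y2 hY2
      · exact (hiXY2 Y1 hY1).symm
      · exact hiYY Y1 hY1 Y2 hY2 h12
    have := c2 i j T hij huT hvT
    omega
  rcases hH T hT (by rw [hk2]; exact_mod_cast hcon) hG with h | ⟨h, j, hj, _, hjl⟩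
  · -- T is a union of blocks
    have key : ∀ (P Q : Set V) (iP iQ : ι), iP.1 = P → iQ.1 = Q → iP ≠ iQ → P ⊆ T → Disjoint Q T →
        (∀ Y, IsComp G (X1 ∪ X2)ᶜ Y → Touch G Q Y) → Conn G Q →
        (∀ Y (hY : IsComp G (X1 ∪ X2)ᶜ Y), iP ≠ iY Y hY) →
        (∀ Y (hY : IsComp G (X1 ∪ X2)ᶜ Y), iQ ≠ iY Y hY) → False := by
      intro P Q iP iQ hiP hiQ hPQ hPT hQT hQY hQ hPn hQn
      have haP : a iP ∈ T := hPT (by rw [← hiP]; exact hB.mem iP)
      -- two of Y1, Y2, Y3 are disjoint from T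
      have hone : ∀ Y (hY : IsComp G (X1 ∪ X2)ᶜ Y) Y' (hY' : IsComp G (X1 ∪ X2)ᶜ Y'), Y ≠ Y' →
          Disjoint Y T ∨ Disjoint Y' T := by
        intro Y hY Y' hY' hne'
        rcases h (iY Y hY) with h1 | h1
        · rcases h (iY Y' hY') with h2 | h2
          · exfalso
            have := c3 iP (iY Y hY) (iY Y' hY') T (hPn Y hY) (hPn Y' hY') (hiYY Y hY Y' hY' hne') haP
              (h1 (hB.mem _)) (h2 (hB.mem _))
            omega
          · exact Or.inr h2
        · exact Or.inl h1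
      have hfin : ∀ Y (hY : IsComp G (X1 ∪ X2)ᶜ Y) Y' (hY' : IsComp G (X1 ∪ X2)ᶜ Y'), Y ≠ Y' →
          Disjoint Y T → Disjoint Y' T → False := by
        intro Y hY Y' hY' hne' h1 h2
        have hc1 : Conn G ((Q ∪ Y) ∪ Y') :=
          (hQ.union_touch hY.conn (hQY Y hY)).union_touch hY'.conn
            ((hQY Y' hY').mono Set.subset_union_left subset_rfl)
        have hd : Disjoint ((Q ∪ Y) ∪ Y') T := by
          rw [Set.disjoint_union_left, Set.disjoint_union_left]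
          exact ⟨⟨hQT, h1⟩, h2⟩
        have h3 := H2 _ hc1 hd
        have h4 := c3 iQ (iY Y hY) (iY Y' hY') ((Q ∪ Y) ∪ Y') (hQn Y hY) (hQn Y' hY')
          (hiYY Y hY Y' hY' hne') (Or.inl (Or.inl (by rw [← hiQ]; exact hB.mem iQ)))
          (Or.inl (Or.inr (hB.mem (iY Y hY)))) (Or.inr (hB.mem (iY Y' hY')))
        omega
      rcases hone Y1 hY1 Y2 hY2 h12 with h1 | h1
      · rcases hone Y2 hY2 Y3 hY3 h32.symm with h2 | h2
        · exact hfin Y1 hY1 Y2 hY2 h12 h1 h2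
        · exact hfin Y1 hY1 Y3 hY3 h31.symm h1 h2
      · rcases hone Y1 hY1 Y3 hY3 h31.symm with h2 | h2
        · exact hfin Y1 hY1 Y2 hY2 h12 h2 h1
        · exact hfin Y2 hY2 Y3 hY3 h32.symm h1 h2
    rcases h iX1 with h1 | h1 <;> rcases h iX2 with h2 | h2
    · -- both in T
      have hTsub : T ⊆ X1 ∪ X2 := by
        intro x hx
        obtain ⟨i, hi⟩ := hB.cover x
        by_contra hxn
        have hi1 : iX1 ≠ i := by
          rintro rfl; exact hxn (Or.inl hi)
        have hi2 : iX2 ≠ i := by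
          rintro rfl; exact hxn (Or.inr hi)
        rcases h i with h3 | h3
        · have := c3 iX1 iX2 i T hiX hi1 hi2 (h1 (hB.mem _)) (h2 (hB.mem _)) (h3 (hB.mem _))
          omega
        · exact Set.disjoint_left.1 h3 hi hx
      have hTX : T ⊆ X1 := hcompX1.subset_of_inter hT.2 hTsub ⟨r, hr, h1 hr⟩
      exact Set.disjoint_left.1 hC.disj (hTX (h2 hc)) hc
    · exact key X1 X2 iX1 iX2 rfl rfl hiX h1 h2 (fun Y hY => (hfull Y hY).2) hC.conn2 hiXY hiXY2
    · exact key X2 X1 iX2 iX1 rfl rfl hiX.symm h2 h1 (fun Y hY => (hfull Y hY).1) hC.conn1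
        hiXY2 hiXY
    · -- neither
      have hTsub : T ⊆ (X1 ∪ X2)ᶜ := by
        rintro x hx (hx1 | hx2)
        · exact Set.disjoint_left.1 h1 hx1 hx
        · exact Set.disjoint_left.1 h2 hx2 hx
      obtain ⟨D, hD, hTD⟩ := exists_comp hT.2 hTsub
      -- all atoms in T equal the atom of D
      have : nAt a T ≤ 1 := by
        unfold nAt
        rw [Finset.card_le_one]
        intro i hi j hj
        simp only [Finset.mem_filter, Finset.mem_univ, true_and] at hi hj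
        have hi' : i = iY D hD := by
          by_contra hne'
          exact Set.disjoint_left.1 (hB.disj _ _ hne') (hB.mem i) (hTD hi)
        have hj' : j = iY D hD := by
          by_contra hne'
          exact Set.disjoint_left.1 (hB.disj _ _ hne') (hB.mem j) (hTD hj)
        rw [hi', hj']
      omega
  · rw [hk2] at h
    have m1 : ¬ Disjoint ({r, y1} : Set V) T := fun hd => by
      have := h _ hD1 hd; omega
    have m2 : ¬ Disjoint ({c, y2} : Set V) T := fun hd => by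
      have := h _ hD2 hd; omega
    rw [Set.not_disjoint_iff] at m1 m2
    obtain ⟨u, hu, huT⟩ := m1
    obtain ⟨v, hv, hvT⟩ := m2
    have h1 : ∃ i, a i = u ∧ (i = iX1 ∨ i = iY Y1 hY1) := by
      rcases hu with rfl | rfl
      · exact ⟨iX1, aX1, Or.inl rfl⟩
      · exact ⟨iY Y1 hY1, aY1, Or.inr rfl⟩
    have h2 : ∃ i, a i = v ∧ (i = iX2 ∨ i = iY Y2 hY2) := by
      rcases hv with rfl | rfl
      · exact ⟨iX2, aX2, Or.inl rfl⟩
      · exact ⟨iY Y2 hY2, aY2, Or.inr rfl⟩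
    obtain ⟨i, rfl, hi⟩ := h1
    obtain ⟨k, rfl, hk'⟩ := h2
    have hik : i ≠ k := by
      rcases hi with rfl | rfl <;> rcases hk' with rfl | rfl
      · exact hiX
      · exact hiXY Y2 hY2
      · exact (hiXY2 Y1 hY1).symm
      · exact hiYY Y1 hY1 Y2 hY2 h12
    -- the atoms of T are exactly those of i, k
    have honly : ∀ l, a l ∈ T → l = i ∨ l = k := by
      intro l hl
      by_contra hne'
      push Not at hne'
      have := c3 i k l T hik (Ne.symm hne'.1) (Ne.symm hne'.2) huT hvT hl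
      omega
    have hjlev : ℓ j ≤ 1 := by
      have : j = iX1 ∨ j = iY Y1 hY1 ∨ j = iX2 ∨ j = iY Y2 hY2 := by
        rcases honly j hj with rfl | rfl
        · rcases hi with h | h
          · exact Or.inl h
          · exact Or.inr (Or.inl h)
        · rcases hk' with h | h
          · exact Or.inr (Or.inr (Or.inl h))
          · exact Or.inr (Or.inr (Or.inr h))
      rcases this with rfl | rfl | rfl | rfl
      · simp [ℓ, iX1]
      · simp only [ℓ, iY]; split_ifs <;> simp_all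
      · simp [ℓ, iX2]
      · simp only [ℓ, iY]; split_ifs <;> simp_all
    have hlev2 : ∀ Y (hY : IsComp G (X1 ∪ X2)ᶜ Y), Y ≠ Y1 → Y ≠ Y2 → ℓ (iY Y hY) = 2 := by
      intro Y hY hn1 hn2
      simp [ℓ, iY, hX1ne _ hY, hX2ne _ hY, hn1, hn2]
    have hdis : ∀ Y (hY : IsComp G (X1 ∪ X2)ᶜ Y), Y ≠ Y1 → Y ≠ Y2 → Disjoint Y T := by
      intro Y hY hn1 hn2
      rcases hjl (iY Y hY) (by rw [hlev2 Y hY hn1 hn2]; omega) with h3 | h3
      · exfalso
        have h4 : a (iY Y hY) ∈ T := h3 (hB.mem _)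
        rcases honly _ h4 with h5 | h5
        · rcases hi with h6 | h6
          · exact hiXY Y hY (h6.symm.trans h5.symm)
          · exact hn1 (congrArg Subtype.val (h5.trans h6))
        · rcases hk' with h6 | h6
          · exact hiXY2 Y hY (h6.symm.trans h5.symm)
          · exact hn2 (congrArg Subtype.val (h5.trans h6))
      · exact h3
    have hrT : r ∈ T := by
      by_contra hrT
      have hd3 := hdis Y3 hY3 h31 h32
      have hcon3 : Conn G (insert r Y3) := hY3.conn.insert ⟨y3, hy3, ry3.symm⟩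
      have hd : Disjoint (insert r Y3) T := by
        rw [Set.disjoint_insert_left]; exact ⟨hrT, hd3⟩
      have h3 := h _ hcon3 hd
      have h4 := c2 iX1 (iY Y3 hY3) (insert r Y3) (hiXY Y3 hY3) (by rw [aX1]; simp)
        (Or.inr (hB.mem (iY Y3 hY3)))
      omega
    have hcT : c ∈ T := by
      by_contra hcT
      have hd3 := hdis Y4 hY4 h41 h42
      have hcon3 : Conn G (insert c Y4) := hY4.conn.insert ⟨y4, hy4, cy4.symm⟩
      have hd : Disjoint (insert c Y4) T := by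
        rw [Set.disjoint_insert_left]; exact ⟨hcT, hd3⟩
      have h3 := h _ hcon3 hd
      have h4 := c2 iX2 (iY Y4 hY4) (insert c Y4) (hiXY2 Y4 hY4) (by rw [aX2]; simp)
        (Or.inr (hB.mem (iY Y4 hY4)))
      omega
    have hX1at : iX1 = i ∨ iX1 = k := honly iX1 (by rw [aX1]; exact hrT)
    have hX2at : iX2 = i ∨ iX2 = k := honly iX2 (by rw [aX2]; exact hcT)
    have honly' : ∀ l, a l ∈ T → l = iX1 ∨ l = iX2 := by
      intro l hl
      by_contra hne'
      push Not at hne'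
      have := c3 iX1 iX2 l T hiX (Ne.symm hne'.1) (Ne.symm hne'.2) (by rw [aX1]; exact hrT)
        (by rw [aX2]; exact hcT) hl
      omega
    have hjlev0 : ℓ j = 0 := by
      rcases honly' j hj with rfl | rfl
      · simp [ℓ, iX1]
      · simp [ℓ, iX2]
    have hTsub : T ⊆ X1 ∪ X2 := by
      intro x hx
      by_contra hxn
      obtain ⟨D, hD, hxD⟩ := exists_comp_mem (G := G) (X := (X1 ∪ X2)ᶜ) (v := x) hxn
      have hlD : 0 < ℓ (iY D hD) := by
        simp only [ℓ, iY, hX1ne _ hD, hX2ne _ hD, or_self, if_false]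
        split_ifs <;> omega
      rcases hjl (iY D hD) (by rw [hjlev0]; exact hlD) with h3 | h3
      · rcases honly' _ (h3 (hB.mem _)) with h4 | h4
        · exact hiXY D hD h4.symm
        · exact hiXY2 D hD h4.symm
      · exact Set.disjoint_left.1 h3 hxD hx
    have hTX : T ⊆ X1 := hcompX1.subset_of_inter hT.2 hTsub ⟨r, hr, hrT⟩
    exact Set.disjoint_left.1 hC.disj (hTX hcT) hc

end W_MP_9f10ef_co
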