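import Pool.Agent.W_MP_9f10ef_co.BadCut
import Pool.Agent.W_MP_9f10ef_co.CrossF

/-!
# MP_9f10ef_co : Theorem A, the case without pendants
-/

namespace W_MP_9f10ef_co

open Classical

universe u

variable {V : Type u} {G : SimpleGraph V}

/-- If no crossing configuration exists, the component sets seen by `r` and `c` coincide and have
exactly two elements. -/
theorem noncrossing {α : Type*} {A B : Set α}
    (h : ∀ i ∈ A, ∀ j ∈ B, i ≠ j → ∀ k ∈ A, k ≠ i → k ≠ j → ∀ l ∈ B, l ≠ i → l ≠ j → False)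
    {a a' b b' : α} (ha : a ∈ A) (ha' : a' ∈ A) (haa : a ≠ a') (hb : b ∈ B) (hb' : b' ∈ B)
    (hbb : b ≠ b') : A = B ∧ ∀ i ∈ A, ∀ j ∈ A, i ≠ j → ∀ k ∈ A, k = i ∨ k = j := by
  -- reformulation
  have h' : ∀ i ∈ A, ∀ j ∈ B, i ≠ j → (∀ k ∈ A, k = i ∨ k = j) ∨ (∀ l ∈ B, l = i ∨ l = j) := by
    intro i hi j hj hij
    by_contra hcon
    push Not at hcon
    obtain ⟨⟨k, hk, hk1, hk2⟩, l, hl, hl1, hl2⟩ := hcon
    exact h i hi j hj hij k hk hk1 hk2 l hl hl1 hl2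
  have hAB : A ⊆ B := by
    intro x hx
    by_contra hxB
    have hne : ∀ y ∈ B, x ≠ y := fun y hy h => hxB (h ▸ hy)
    have hA1 : ∀ k ∈ A, k = x ∨ k = b := by
      rcases h' x hx b hb (hne b hb) with h1 | h1
      · exact h1
      · rcases h1 b' hb' with h2 | h2
        · exact absurd h2.symm (hne b' hb')
        · exact absurd h2.symm hbb
    have hA2 : ∀ k ∈ A, k = x ∨ k = b' := by
      rcases h' x hx b' hb' (hne b' hb') with h1 | h1
      · exact h1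
      · rcases h1 b hb with h2 | h2
        · exact absurd h2.symm (hne b hb)
        · exact absurd h2 hbb
    have hA3 : ∀ k ∈ A, k = x := by
      intro k hk
      rcases hA1 k hk with h1 | h1
      · exact h1
      · rcases hA2 k hk with h2 | h2
        · exact h2
        · exact absurd (h1.symm.trans h2) hbb
    exact haa ((hA3 a ha).trans (hA3 a' ha').symm)
  have hBA : B ⊆ A := by
    intro x hx
    by_contra hxA
    have hne : ∀ y ∈ A, y ≠ x := fun y hy h => hxA (h ▸ hy)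
    have hB1 : ∀ k ∈ B, k = a ∨ k = x := by
      rcases h' a ha x hx (hne a ha) with h1 | h1
      · rcases h1 a' ha' with h2 | h2
        · exact absurd h2.symm haa
        · exact absurd h2 (hne a' ha')
      · exact h1
    have hB2 : ∀ k ∈ B, k = a' ∨ k = x := by
      rcases h' a' ha' x hx (hne a' ha') with h1 | h1
      · rcases h1 a ha with h2 | h2
        · exact absurd h2 haa
        · exact absurd h2 (hne a ha)
      · exact h1
    have hB3 : ∀ k ∈ B, k = x := by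
      intro k hk
      rcases hB1 k hk with h1 | h1
      · rcases hB2 k hk with h2 | h2
        · exact absurd (h1.symm.trans h2) haa
        · exact h2
      · exact h1
    exact hbb ((hB3 b hb).trans (hB3 b' hb').symm)
  have hEq : A = B := le_antisymm hAB hBA
  refine ⟨hEq, ?_⟩
  intro i hi j hj hij k hk
  rcases h' i hi j (hAB hj) hij with h1 | h1
  · exact h1 k hk
  · exact h1 k (hAB hk)

/-- **Theorem A.** A connected graph with a bad 2-cut is not in `𝒢^cs`. -/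
theorem BadCut.not_inGcs [Fintype V] (hG : G.Connected) {X1 X2 : Set V} (h : BadCut G X1 X2) :
    ¬ InGcs G := by
  intro hIn
  have noP : ∀ X1 X2 : Set V, ¬ PCut G X1 X2 := fun X1 X2 hP => hP.not_inGcs hIn
  -- every bad cut is full
  have hfull' : ∀ X1 X2 : Set V, BadCut G X1 X2 → ∀ Y, IsComp G (X1 ∪ X2)ᶜ Y → Touch G X1 Y := by
    intro X1 X2 hB Y hY
    by_contra hno
    obtain ⟨hC, Y1, Y2, Y3, h1, h2, h3, h12, h13, h23, t1, t2, t3, t4⟩ := hB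
    apply noP X2 X1
    have ht : Touch G (X1 ∪ X2) Y := by
      apply hY.touch_of_connected hG
      exact hC.conn1.nonempty.inl
    obtain ⟨x, hx, y, hy, hxy⟩ := ht
    have hx2 : x ∈ X2 := by
      rcases hx with hx | hx
      · exact absurd ⟨x, hx, y, hy, hxy⟩ hno
      · exact hx
    rw [Set.union_comm] at hY h1 h2
    exact ⟨hC.symm, Y, hY, ⟨x, hx2, y, hy, hxy⟩, hno, Y1, Y2, h1, h2, h12, t1, t3⟩
  have hfull : ∀ X1 X2 : Set V, BadCut G X1 X2 → ∀ Y, IsComp G (X1 ∪ X2)ᶜ Y →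
      Touch G X1 Y ∧ Touch G X2 Y := by
    intro X1 X2 hB Y hY
    refine ⟨hfull' X1 X2 hB Y hY, hfull' X2 X1 hB.symm Y ?_⟩
    rwa [Set.union_comm]
  -- a minimal bad cut
  have hfin : {p : Set V × Set V | BadCut G p.1 p.2}.Finite := Set.toFinite _
  obtain ⟨⟨X1, X2⟩, hB, hmin⟩ := Set.exists_min_image _
    (fun p : Set V × Set V => p.1.ncard + p.2.ncard) hfin ⟨(X1, X2), h⟩
  have hB : BadCut G X1 X2 := hB
  simp only [Set.mem_ofPred_eq] at hmin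
  have hmin1 : ∀ X1', X1' ⊆ X1 → X1' ≠ X1 → ¬ BadCut G X1' X2 := by
    intro X1' hs hne hB'
    have := hmin (X1', X2) hB'
    have hlt : X1'.ncard < X1.ncard := Set.ncard_lt_ncard
      ⟨hs, fun h => hne (le_antisymm hs h)⟩ (Set.toFinite _)
    simp only at this
    omega
  have hmin2 : ∀ X2', X2' ⊆ X2 → X2' ≠ X2 → ¬ BadCut G X2' X1 := by
    intro X2' hs hne hB'
    have := hmin (X1, X2') hB'.symm
    have hlt : X2'.ncard < X2.ncard := Set.ncard_lt_ncard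
      ⟨hs, fun h => hne (le_antisymm hs h)⟩ (Set.toFinite _)
    simp only at this
    omega
  have hF := hfull X1 X2 hB
  have hF2 : ∀ Y, IsComp G (X2 ∪ X1)ᶜ Y → Touch G X2 Y ∧ Touch G X1 Y := by
    intro Y hY
    rw [Set.union_comm] at hY
    exact (hF Y hY).symm
  obtain ⟨hC, Z1, Z2, Z3, hZ1, hZ2, hZ3, n12, n13, n23, -⟩ := id hB
  have end1 : ∀ v ∈ X1, (X1 = {v} ∨ Conn G (X1 \ {v})) → ∀ Y Y', IsComp G (X1 ∪ X2)ᶜ Y →
      IsComp G (X1 ∪ X2)ᶜ Y' → Y ≠ Y' → VT G v Y ∨ VT G v Y' := by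
    intro v hv hend Y Y' hY hY' hne
    exact end_touch hC hF hmin1 hv hend hY hY' hne
  have end2 : ∀ v ∈ X2, (X2 = {v} ∨ Conn G (X2 \ {v})) → ∀ Y Y', IsComp G (X1 ∪ X2)ᶜ Y →
      IsComp G (X1 ∪ X2)ᶜ Y' → Y ≠ Y' → VT G v Y ∨ VT G v Y' := by
    intro v hv hend Y Y' hY hY' hne
    rw [Set.union_comm] at hY hY'
    exact end_touch hC.symm hF2 hmin2 hv hend hY hY' hne
  -- J(v)
  set J : V → Set (Set V) := fun v => {Y | IsComp G (X1 ∪ X2)ᶜ Y ∧ VT G v Y} with hJ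
  -- end vertices see two components
  have two : ∀ v, (∀ Y Y', IsComp G (X1 ∪ X2)ᶜ Y → IsComp G (X1 ∪ X2)ᶜ Y' → Y ≠ Y' →
      VT G v Y ∨ VT G v Y') → ∃ Y Y', Y ∈ J v ∧ Y' ∈ J v ∧ Y ≠ Y' := by
    intro v hv
    rcases hv Z1 Z2 hZ1 hZ2 n12 with h1 | h1
    · rcases hv Z2 Z3 hZ2 hZ3 n23 with h2 | h2
      · exact ⟨Z1, Z2, ⟨hZ1, h1⟩, ⟨hZ2, h2⟩, n12⟩
      · exact ⟨Z1, Z3, ⟨hZ1, h1⟩, ⟨hZ3, h2⟩, n13⟩
    · rcases hv Z1 Z3 hZ1 hZ3 n13 with h2 | h2
      · exact ⟨Z1, Z2, ⟨hZ1, h2⟩, ⟨hZ2, h1⟩, n12⟩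
      · exact ⟨Z2, Z3, ⟨hZ2, h1⟩, ⟨hZ3, h2⟩, n23⟩
  -- no crossing
  have ncr : ∀ r ∈ X1, ∀ c ∈ X2, (∃ Y Y', Y ∈ J r ∧ Y' ∈ J r ∧ Y ≠ Y') →
      (∃ Y Y', Y ∈ J c ∧ Y' ∈ J c ∧ Y ≠ Y') →
      J r = J c ∧ ∀ i ∈ J r, ∀ j ∈ J r, i ≠ j → ∀ k ∈ J r, k = i ∨ k = j := by
    rintro r hr c hc ⟨a, a', ha, ha', haa⟩ ⟨b, b', hb, hb', hbb⟩
    refine noncrossing ?_ ha ha' haa hb hb' hbb
    intro i hi j hj hij k hk hki hkj l hl hli hlj
    exact not_inGcs_of_crossing hG hC hF hr hc hi.1 hj.1 hk.1 hl.1 hij hki hkj hli hlj hi.2 hk.2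
      hj.2 hl.2 hIn
  obtain ⟨r0, hr0, hr0e⟩ := exists_end hC.conn1
  obtain ⟨c0, hc0, hc0e⟩ := exists_end hC.conn2
  obtain ⟨A, B, hA, hB', hAB⟩ := two r0 (end1 r0 hr0 hr0e)
  have hc02 := two c0 (end2 c0 hc0 hc0e)
  obtain ⟨hJ0, hJ1⟩ := ncr r0 hr0 c0 hc0 ⟨A, B, hA, hB', hAB⟩ hc02
  have hJA : ∀ k ∈ J r0, k = A ∨ k = B := hJ1 A hA B hB' hAB
  -- the third component
  have h3ex : ∃ D, IsComp G (X1 ∪ X2)ᶜ D ∧ D ≠ A ∧ D ≠ B := by
    by_contra hno
    push Not at hno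
    have e1 := hno Z1 hZ1
    have e2 := hno Z2 hZ2
    have e3 := hno Z3 hZ3
    by_cases h1 : Z1 = A
    · have h2 : Z2 = B := e2 (fun h => n12 (h1.trans h.symm))
      have h3 : Z3 = B := e3 (fun h => n13 (h1.trans h.symm))
      exact n23 (h2.trans h3.symm)
    · have h1' := e1 h1
      by_cases h2 : Z2 = A
      · have h3 : Z3 = B := e3 (fun h => n23 (h2.trans h.symm))
        exact n13 (h1'.trans h3.symm)
      · exact n12 (h1'.trans (e2 h2).symm)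
  obtain ⟨D, hD, hDA, hDB⟩ := h3ex
  have hr0D : ¬ VT G r0 D := fun h => by
    rcases hJA D ⟨hD, h⟩ with h | h
    · exact hDA h
    · exact hDB h
  have honly : ∀ Y, IsComp G (X1 ∪ X2)ᶜ Y → Y = A ∨ Y = B ∨ Y = D := by
    intro Y hY
    by_cases h : Y = D
    · exact Or.inr (Or.inr h)
    · rcases end1 r0 hr0 hr0e Y D hY hD h with h1 | h1
      · rcases hJA Y ⟨hY, h1⟩ with h2 | h2
        · exact Or.inl h2
        · exact Or.inr (Or.inl h2)
      · exact absurd h1 hr0D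
  -- every vertex seeing two components sees exactly A and B
  have see1 : ∀ v ∈ X1, (∃ Y Y', Y ∈ J v ∧ Y' ∈ J v ∧ Y ≠ Y') → J v = {A, B} := by
    intro v hv h2
    have h3 := (ncr v hv c0 hc0 h2 hc02).1
    rw [h3, ← hJ0]
    ext k
    constructor
    · intro hk; exact hJA k hk
    · rintro (rfl | rfl)
      · exact hA
      · exact hB'
  have see2 : ∀ v ∈ X2, (∃ Y Y', Y ∈ J v ∧ Y' ∈ J v ∧ Y ≠ Y') → J v = {A, B} := by
    intro v hv h2
    have h3 := (ncr r0 hr0 v hv ⟨A, B, hA, hB', hAB⟩ h2).1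
    rw [← h3]
    ext k
    constructor
    · intro hk; exact hJA k hk
    · rintro (rfl | rfl)
      · exact hA
      · exact hB'
  -- extreme data on both sides
  have hside : ∀ X : Set V, Conn G X → Touch G X D →
      (∀ v ∈ X, (∃ Y Y', Y ∈ J v ∧ Y' ∈ J v ∧ Y ≠ Y') → J v = {A, B}) →
      (∀ v ∈ X, (X = {v} ∨ Conn G (X \ {v})) → ∃ Y Y', Y ∈ J v ∧ Y' ∈ J v ∧ Y ≠ Y') →
      ∃ m ∈ X, VT G m D ∧ ¬ VT G m A ∧ ¬ VT G m B ∧ ∃ M, IsComp G (X \ {m}) M ∧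
        (∀ v ∈ M, ¬ VT G v D) ∧ Conn G (X \ M) ∧ Touch G {m} M ∧
        (∃ v ∈ M, VT G v A ∧ VT G v B) ∧ (∃ v ∈ X \ M, VT G v A ∧ VT G v B) := by
    intro X hX ht hsee hend
    have hseeD : ∀ v ∈ X, VT G v D → ¬ ∃ Y Y', Y ∈ J v ∧ Y' ∈ J v ∧ Y ≠ Y' := by
      intro v hv hvD h2
      have h3 := hsee v hv h2
      have h4 : D ∈ J v := ⟨hD, hvD⟩
      rw [h3] at h4
      rcases h4 with h4 | h4
      · exact hDA h4
      · exact hDB h4
    obtain ⟨m, hm, M, hM, hMT, hXM, hmM, ⟨v, hv, hvc⟩, v', hv', hvc'⟩ :=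
      exists_extreme (X := X) (T := {v | v ∈ X ∧ VT G v D}) hX (fun v hv => hv.1)
        (by obtain ⟨x, hx, hxD⟩ := ht; exact ⟨x, hx, hxD⟩)
        (by
          rintro v ⟨hv, hvD⟩ hconn
          exact hseeD v hv hvD (hend v hv (Or.inr hconn)))
        (by
          rintro v ⟨hv, hvD⟩ hs
          exact hseeD v hv hvD (hend v hv (Or.inl hs)))
    have hMX : M ⊆ X := hM.1.trans Set.sdiff_subset
    have hend' : ∀ u ∈ X, Conn G (X \ {u}) → VT G u A ∧ VT G u B := by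
      intro u hu huc
      have h2 := hend u hu (Or.inr huc)
      have h3 := hsee u hu h2
      have h4 : A ∈ J u := by rw [h3]; exact Or.inl rfl
      have h5 : B ∈ J u := by rw [h3]; exact Or.inr rfl
      exact ⟨h4.2, h5.2⟩
    refine ⟨m, hm.1, hm.2, ?_, ?_, M, hM, ?_, hXM, hmM, ?_, ?_⟩
    · intro h
      exact hseeD m hm.1 hm.2 ⟨D, A, ⟨hD, hm.2⟩, ⟨hA.1, h⟩, hDA⟩
    · intro h
      exact hseeD m hm.1 hm.2 ⟨D, B, ⟨hD, hm.2⟩, ⟨hB'.1, h⟩, hDB⟩
    · intro u hu huD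
      exact hMT u hu ⟨hMX hu, huD⟩
    · exact ⟨v, hv, hend' v (hMX hv) hvc⟩
    · exact ⟨v', hv', hend' v' hv'.1 hvc'⟩
  obtain ⟨m, hm, hmD, hmA, hmB, M, hM, hMD, hXM, hmM, ⟨v, hv, hvA, hvB⟩, u, hu, huA, huB⟩ :=
    hside X1 hC.conn1 (hF D hD).1 see1 (fun v hv he => two v (end1 v hv he))
  obtain ⟨m', hm', hmD', hmA', hmB', M', hM', hMD', hXM', hmM', ⟨v', hv', hvA', hvB'⟩, -⟩ :=
    hside X2 hC.conn2 (hF D hD).2 see2 (fun v hv he => two v (end2 v hv he))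
  have hMX : M ⊆ X1 := hM.1.trans Set.sdiff_subset
  have hMX' : M' ⊆ X2 := hM'.1.trans Set.sdiff_subset
  -- membership facts
  have hnX : ∀ Y, IsComp G (X1 ∪ X2)ᶜ Y → ∀ y ∈ Y, y ∉ X1 ∧ y ∉ X2 := fun Y hY y hy =>
    ⟨fun h => hY.1 hy (Or.inl h), fun h => hY.1 hy (Or.inr h)⟩
  have h12 : ∀ x ∈ X1, x ∉ X2 := fun x hx => Set.disjoint_left.1 hC.disj hx
  set W : Set V := (A ∪ B) ∪ (X1 \ M) with hW
  have hWc : Conn G W := by
    have h1 : Conn G ((X1 \ M) ∪ A) := hXM.union_touch hA.1.conn ⟨u, hu, huA⟩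
    have h2 : Conn G (((X1 \ M) ∪ A) ∪ B) := h1.union_touch hB'.1.conn ⟨u, Or.inl hu, huB⟩
    have : W = ((X1 \ M) ∪ A) ∪ B := by
      rw [hW]; ext x; simp only [Set.mem_union]; tauto
    rw [this]; exact h2
  have hWX2 : ∀ x ∈ W, x ∉ X2 := by
    rintro x ((hx | hx) | hx)
    · exact (hnX A hA.1 x hx).2
    · exact (hnX B hB'.1 x hx).2
    · exact h12 x hx.1
  have hcut : Cut G W {m'} := by
    refine ⟨hWc, conn_singleton m', ?_, ?_⟩
    · rw [Set.disjoint_right]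
      rintro x hx hxW
      have hx : x = m' := hx
      subst hx
      exact hWX2 x hxW hm'
    · rintro ⟨x, hx, y, hy, hxy⟩
      have hy : y = m' := hy
      subst hy
      rcases hx with (hx | hx) | hx
      · exact hmA' ⟨x, hx, hxy.symm⟩
      · exact hmB' ⟨x, hx, hxy.symm⟩
      · exact hC.nt ⟨x, hx.1, y, hm', hxy⟩
  -- the rest
  have hclass : ∀ x, x ∈ (W ∪ {m'})ᶜ → x ∈ M ∨ x ∈ D ∨ (x ∈ X2 ∧ x ≠ m') := by
    intro x hx
    have hxW : x ∉ W := fun h => hx (Or.inl h)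
    have hxm : x ≠ m' := fun h => hx (Or.inr h)
    by_cases hx1 : x ∈ X1
    · left
      by_contra hxM
      exact hxW (Or.inr ⟨hx1, hxM⟩)
    · by_cases hx2 : x ∈ X2
      · exact Or.inr (Or.inr ⟨hx2, hxm⟩)
      · obtain ⟨Y, hY, hxY⟩ := exists_comp_mem (G := G) (X := (X1 ∪ X2)ᶜ) (v := x) (by
          rintro (h | h)
          · exact hx1 h
          · exact hx2 h)
        rcases honly Y hY with rfl | rfl | rfl
        · exact absurd (Or.inl (Or.inl hxY)) hxW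
        · exact absurd (Or.inl (Or.inr hxY)) hxW
        · exact Or.inr (Or.inl hxY)
  have hMcomp : IsComp G (W ∪ {m'})ᶜ M := by
    refine isComp_of_closed hM.conn ?_ ?_
    · rintro x hx (h | h)
      · rcases h with (h | h) | h
        · exact (hnX A hA.1 x h).1 (hMX hx)
        · exact (hnX B hB'.1 x h).1 (hMX hx)
        · exact h.2 hx
      · have h : x = m' := h
        subst h
        exact h12 x (hMX hx) hm'
    · intro c hc x hx hcx
      rcases hclass x hx with h | h | h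
      · exact h
      · exact absurd ⟨x, h, hcx⟩ (hMD c hc)
      · exact absurd ⟨c, hMX hc, x, h.1, hcx⟩ hC.nt
  have hM'comp : IsComp G (W ∪ {m'})ᶜ M' := by
    refine isComp_of_closed hM'.conn ?_ ?_
    · rintro x hx (h | h)
      · exact hWX2 x h (hMX' hx)
      · exact (hM'.1 hx).2 h
    · intro c hc x hx hcx
      rcases hclass x hx with h | h | h
      · exact absurd ⟨x, hMX h, c, hMX' hc, hcx.symm⟩ hC.nt
      · exact absurd ⟨x, h, hcx⟩ (hMD' c hc)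
      · exact hM'.mem_of_adj hc ⟨h.1, h.2⟩ hcx
  have hDsub : D ⊆ (W ∪ {m'})ᶜ := by
    rintro x hx (h | h)
    · rcases h with (h | h) | h
      · exact hDA (hD.eq_of_mem hA.1 hx h)
      · exact hDB (hD.eq_of_mem hB'.1 hx h)
      · exact (hnX D hD x hx).1 h.1
    · have h : x = m' := h
      subst h
      exact (hnX D hD x hx).2 hm'
  obtain ⟨E, hE, hDE⟩ := exists_comp hD.conn hDsub
  apply noP W {m'}
  refine ⟨hcut, M, hMcomp, ?_, ?_, M', E, hM'comp, hE, ?_, hmM', ?_⟩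
  · -- W touches M through m
    obtain ⟨x, hx, y, hy, hxy⟩ := hmM
    have hx : x = m := hx
    subst hx
    exact ⟨x, Or.inr ⟨hm, fun h => (hM.1 h).2 rfl⟩, y, hy, hxy⟩
  · rintro ⟨x, hx, y, hy, hxy⟩
    have hx : x = m' := hx
    subst hx
    exact hC.nt ⟨y, hMX hy, x, hm', hxy.symm⟩
  · rintro rfl
    obtain ⟨d, hd⟩ := hD.nonempty
    exact (hnX D hD d hd).2 (hMX' (hDE hd))
  · obtain ⟨y, hy, hmy⟩ := hmD'
    exact ⟨m', rfl, y, hDE hy, hmy⟩

end W_MP_9f10ef_co
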