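import Pool.Agent.W_MP_9f10ef_co.CaseF

/-!
# MP_9f10ef_co : bad 2-cuts and contractions to `P5`, the banner and `K_{2,n}`
-/

namespace W_MP_9f10ef_co

open Classical

universe u v

variable {V : Type u} {G : SimpleGraph V}

/-- The banner: the 4-cycle `0123` together with a vertex `4` adjacent to `0` only. -/
def banner : SimpleGraph (Fin 5) :=
  SimpleGraph.fromRel fun a b => (a = 0 ∧ b = 1) ∨ (a = 1 ∧ b = 2) ∨ (a = 2 ∧ b = 3) ∨
    (a = 3 ∧ b = 0) ∨ (a = 0 ∧ b = 4)

/-- Contractibility from a partition into connected parts. -/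
theorem contractibleTo_of_parts {W : Type v} {H : SimpleGraph W} (part : W → Set V)
    (hconn : ∀ b, Conn G (part b)) (hdisj : ∀ a b, a ≠ b → Disjoint (part a) (part b))
    (hcover : ∀ x, ∃ b, x ∈ part b) (hadj : ∀ a b, a ≠ b → (H.Adj a b ↔ Touch G (part a) (part b))) :
    ContractibleTo G H := by
  choose f hf using hcover
  have huniq : ∀ x b, x ∈ part b → f x = b := by
    intro x b hx
    by_contra hne
    exact Set.disjoint_left.1 (hdisj _ _ hne) (hf x) hx
  have hpre : ∀ b, f ⁻¹' {b} = part b := by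
    intro b
    ext x
    constructor
    · intro h
      have h : f x = b := h
      rw [← h]; exact hf x
    · intro h; exact huniq x b h
  refine ⟨f, ?_, ?_⟩
  · intro b
    rw [hpre b]; exact hconn b
  · intro a b hab
    rw [hadj a b hab]
    constructor
    · rintro ⟨x, hx, y, hy, hxy⟩
      exact ⟨x, y, huniq x a hx, huniq y b hy, hxy⟩
    · rintro ⟨x, y, rfl, rfl, hxy⟩
      exact ⟨x, hf x, y, hf y, hxy⟩

theorem contractibleTo_of_parts' {W : Type v} [LinearOrder W] {H : SimpleGraph W} (part : W → Set V)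
    (hconn : ∀ b, Conn G (part b)) (hdisj : ∀ a b, a < b → Disjoint (part a) (part b))
    (hcover : ∀ x, ∃ b, x ∈ part b) (hadj : ∀ a b, a < b → (H.Adj a b ↔ Touch G (part a) (part b))) :
    ContractibleTo G H := by
  refine contractibleTo_of_parts part hconn ?_ hcover ?_
  · intro a b hab
    rcases lt_or_gt_of_ne hab with h | h
    · exact hdisj a b h
    · exact (hdisj b a h).symm
  · intro a b hab
    rcases lt_or_gt_of_ne hab with h | h
    · exact hadj a b h
    · rw [SimpleGraph.adj_comm, hadj b a h]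
      exact ⟨Touch.symm, Touch.symm⟩

/-- A contraction to a graph with a suitable pattern gives a bad 2-cut. -/
theorem badCut_of_contractible {W : Type v} {H : SimpleGraph W} (h : ContractibleTo G H)
    {a b c1 c2 c3 : W} (hab : a ≠ b) (hnab : ¬ H.Adj a b)
    (h1a : c1 ≠ a) (h1b : c1 ≠ b) (h2a : c2 ≠ a) (h2b : c2 ≠ b) (h3a : c3 ≠ a) (h3b : c3 ≠ b)
    (h12 : c1 ≠ c2) (h13 : c1 ≠ c3) (h23 : c2 ≠ c3)
    (N1 : ∀ x, H.Adj c1 x → x = a ∨ x = b) (N2 : ∀ x, H.Adj c2 x → x = a ∨ x = b)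
    (N3 : ∀ x, H.Adj c3 x → x = a ∨ x = b)
    (a1 : H.Adj a c1) (a2 : H.Adj b c1) (a3 : H.Adj a c2) (a4 : H.Adj b c3) :
    ∃ X1 X2, BadCut G X1 X2 := by
  obtain ⟨f, hf, hadj⟩ := h
  have ht : ∀ x y, x ≠ y → (Touch G (f ⁻¹' {x}) (f ⁻¹' {y}) ↔ H.Adj x y) := by
    intro x y hxy
    rw [hadj x y hxy]
    constructor
    · rintro ⟨u, hu, v, hv, huv⟩
      exact ⟨u, v, hu, hv, huv⟩
    · rintro ⟨u, v, hu, hv, huv⟩
      exact ⟨u, hu, v, hv, huv⟩
  have hcomp : ∀ c, c ≠ a → c ≠ b → (∀ x, H.Adj c x → x = a ∨ x = b) →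
      IsComp G (f ⁻¹' {a} ∪ f ⁻¹' {b})ᶜ (f ⁻¹' {c}) := by
    intro c hca hcb hN
    refine isComp_of_closed (hf c) ?_ ?_
    · rintro x hx (h | h)
      · exact hca (hx.symm.trans h)
      · exact hcb (hx.symm.trans h)
    · intro x hx v hv hxv
      by_contra hne
      have hne' : c ≠ f v := fun h => hne h.symm
      have := (ht c (f v) hne').1 ⟨x, hx, v, rfl, hxv⟩
      rcases hN _ this with h | h
      · exact hv (Or.inl h)
      · exact hv (Or.inr h)
  have hne : ∀ x y, x ≠ y → f ⁻¹' {x} ≠ f ⁻¹' {y} := by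
    intro x y hxy h
    obtain ⟨u, hu⟩ := Conn.nonempty (hf x)
    have hu' : u ∈ f ⁻¹' {y} := h ▸ hu
    have e1 : f u = x := hu
    have e2 : f u = y := hu'
    exact hxy (e1.symm.trans e2)
  refine ⟨f ⁻¹' {a}, f ⁻¹' {b}, ⟨hf a, hf b, ?_, ?_⟩, f ⁻¹' {c1}, f ⁻¹' {c2}, f ⁻¹' {c3},
    hcomp c1 h1a h1b N1, hcomp c2 h2a h2b N2, hcomp c3 h3a h3b N3, hne _ _ h12, hne _ _ h13,
    hne _ _ h23, (ht _ _ h1a.symm).2 a1, (ht _ _ h1b.symm).2 a2, (ht _ _ h2a.symm).2 a3,
    (ht _ _ h3b.symm).2 a4⟩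
  · rw [Set.disjoint_left]
    intro x hx hx'
    have e1 : f x = a := hx
    have e2 : f x = b := hx'
    exact hab (e1.symm.trans e2)
  · intro h
    exact hnab ((ht a b hab).1 h)

theorem badCut_of_P5 (h : ContractibleTo G (SimpleGraph.pathGraph 5)) :
    ∃ X1 X2, BadCut G X1 X2 := by
  have key : ∀ x y : Fin 5, (SimpleGraph.pathGraph 5).Adj x y ↔ (x.1 + 1 = y.1 ∨ y.1 + 1 = x.1) := by
    intro x y
    exact SimpleGraph.pathGraph_adj
  refine badCut_of_contractible h (a := 1) (b := 3) (c1 := 2) (c2 := 0) (c3 := 4)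
    (by decide) ?_ (by decide) (by decide) (by decide) (by decide) (by decide) (by decide)
    (by decide) (by decide) (by decide) ?_ ?_ ?_ ?_ ?_ ?_ ?_
  all_goals simp only [key]
  all_goals decide

theorem badCut_of_banner (h : ContractibleTo G banner) : ∃ X1 X2, BadCut G X1 X2 := by
  refine badCut_of_contractible h (a := 0) (b := 2) (c1 := 1) (c2 := 4) (c3 := 3)
    (by decide) ?_ (by decide) (by decide) (by decide) (by decide) (by decide) (by decide)
    (by decide) (by decide) (by decide) ?_ ?_ ?_ ?_ ?_ ?_ ?_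
  all_goals simp only [banner, SimpleGraph.fromRel_adj]
  all_goals decide

theorem badCut_of_K2n {n : ℕ} (hn : 3 ≤ n)
    (h : ContractibleTo G (completeBipartiteGraph (Fin 2) (Fin n))) : ∃ X1 X2, BadCut G X1 X2 := by
  have hN : ∀ (c : Fin n) (x : Fin 2 ⊕ Fin n),
      (completeBipartiteGraph (Fin 2) (Fin n)).Adj (Sum.inr c) x → x = Sum.inl 0 ∨ x = Sum.inl 1 := by
    intro c x hx
    rcases x with x | x
    · fin_cases x
      · left; rfl
      · right; rfl
    · simp at hx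
  refine badCut_of_contractible h (a := Sum.inl 0) (b := Sum.inl 1) (c1 := Sum.inr ⟨0, by omega⟩)
    (c2 := Sum.inr ⟨1, by omega⟩) (c3 := Sum.inr ⟨2, by omega⟩)
    (by simp) (by simp) (by simp) (by simp) (by simp) (by simp) (by simp) (by simp)
    (by simp) (by simp) (by simp) (hN _) (hN _) (hN _) (by simp) (by simp) (by simp) (by simp)

end W_MP_9f10ef_co
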