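import Pool.Agent.W_MP_9f10ef_co.Contract

/-!
# MP_9f10ef_co : a bad 2-cut gives a contraction to `P5`, the banner or `K_{2,n}`
-/

namespace W_MP_9f10ef_co

open Classical

universe u v

variable {V : Type u} {G : SimpleGraph V}

/-- data of the absorbed cut -/
theorem Cut.absorb [Finite V] (hG : G.Connected) {X1 X2 : Set V} (hC : Cut G X1 X2)
    (S : Set (Set V)) (hS : ∀ C ∈ S, IsComp G (X1 ∪ X2)ᶜ C)
    (hcom : ∀ C, IsComp G (X1 ∪ X2)ᶜ C → Touch G X1 C → Touch G X2 C → C ∈ S) :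
    ∃ A B : Set V, Conn G A ∧ Conn G B ∧ Disjoint A B ∧ ¬ Touch G A B ∧
      (∀ C ∈ S, Disjoint A C) ∧ (∀ C ∈ S, Disjoint B C) ∧
      (∀ C ∈ S, Touch G A C ↔ Touch G X1 C) ∧ (∀ C ∈ S, Touch G B C ↔ Touch G X2 C) ∧
      (∀ x, x ∈ A ∨ x ∈ B ∨ ∃ C ∈ S, x ∈ C) := by
  -- each component touches one of the two
  have htouch : ∀ C, IsComp G (X1 ∪ X2)ᶜ C → Touch G X1 C ∨ Touch G X2 C := by
    intro C hCc
    obtain ⟨x, hx, y, hy, hxy⟩ := hCc.touch_of_connected hG
      (T := X1 ∪ X2) hC.conn1.nonempty.inl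
    rcases hx with hx | hx
    · exact Or.inl ⟨x, hx, y, hy, hxy⟩
    · exact Or.inr ⟨x, hx, y, hy, hxy⟩
  have hout : ∀ C, IsComp G (X1 ∪ X2)ᶜ C → ∀ x ∈ C, x ∉ X1 ∧ x ∉ X2 := fun C hCc x hx =>
    ⟨fun h => hCc.1 hx (Or.inl h), fun h => hCc.1 hx (Or.inr h)⟩
  have hd12 := Set.disjoint_left.1 hC.disj
  let IA := {C : Set V // IsComp G (X1 ∪ X2)ᶜ C ∧ C ∉ S ∧ ¬ Touch G X2 C}
  let IB := {C : Set V // IsComp G (X1 ∪ X2)ᶜ C ∧ C ∉ S ∧ Touch G X2 C}
  have hA1 : ∀ C : IA, Touch G X1 C.1 := fun C => by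
    rcases htouch C.1 C.2.1 with h | h
    · exact h
    · exact absurd h C.2.2.2
  have hB1 : ∀ C : IB, ¬ Touch G X1 C.1 := fun C h => C.2.2.1 (hcom C.1 C.2.1 h C.2.2.2)
  refine ⟨X1 ∪ ⋃ C : IA, C.1, X2 ∪ ⋃ C : IB, C.1,
    hC.conn1.iUnion_of_touch (fun C => C.2.1.conn) (fun C => Or.inr (hA1 C)),
    hC.conn2.iUnion_of_touch (fun C => C.2.1.conn) (fun C => Or.inr C.2.2.2), ?_, ?_, ?_, ?_, ?_,
    ?_, ?_⟩
  · rw [Set.disjoint_left]
    rintro x (hx | hx) (hx' | hx')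
    · exact hd12 hx hx'
    · obtain ⟨C, hC'⟩ := Set.mem_iUnion.1 hx'
      exact (hout C.1 C.2.1 x hC').1 hx
    · obtain ⟨C, hC'⟩ := Set.mem_iUnion.1 hx
      exact (hout C.1 C.2.1 x hC').2 hx'
    · obtain ⟨C, hC'⟩ := Set.mem_iUnion.1 hx
      obtain ⟨D, hD'⟩ := Set.mem_iUnion.1 hx'
      have := C.2.1.eq_of_mem D.2.1 hC' hD'
      exact C.2.2.2 (this ▸ D.2.2.2)
  · rintro ⟨x, hx | hx, y, hy | hy, hxy⟩
    · exact hC.nt ⟨x, hx, y, hy, hxy⟩
    · obtain ⟨C, hC'⟩ := Set.mem_iUnion.1 hy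
      exact hB1 C ⟨x, hx, y, hC', hxy⟩
    · obtain ⟨C, hC'⟩ := Set.mem_iUnion.1 hx
      exact C.2.2.2 ⟨y, hy, x, hC', hxy.symm⟩
    · obtain ⟨C, hC'⟩ := Set.mem_iUnion.1 hx
      obtain ⟨D, hD'⟩ := Set.mem_iUnion.1 hy
      by_cases hCD : C.1 = D.1
      · exact C.2.2.2 (hCD ▸ D.2.2.2)
      · exact C.2.1.not_touch D.2.1 hCD ⟨x, hC', y, hD', hxy⟩
  · intro D hD
    rw [Set.disjoint_left]
    rintro x (hx | hx) hxD
    · exact (hout D (hS D hD) x hxD).1 hx
    · obtain ⟨C, hC'⟩ := Set.mem_iUnion.1 hx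
      exact C.2.2.1 ((C.2.1.eq_of_mem (hS D hD) hC' hxD) ▸ hD)
  · intro D hD
    rw [Set.disjoint_left]
    rintro x (hx | hx) hxD
    · exact (hout D (hS D hD) x hxD).2 hx
    · obtain ⟨C, hC'⟩ := Set.mem_iUnion.1 hx
      exact C.2.2.1 ((C.2.1.eq_of_mem (hS D hD) hC' hxD) ▸ hD)
  · intro D hD
    constructor
    · rintro ⟨x, hx | hx, y, hy, hxy⟩
      · exact ⟨x, hx, y, hy, hxy⟩
      · obtain ⟨C, hC'⟩ := Set.mem_iUnion.1 hx
        by_cases hCD : C.1 = D
        · exact absurd (hCD ▸ hD) C.2.2.1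
        · exact absurd ⟨x, hC', y, hy, hxy⟩ (C.2.1.not_touch (hS D hD) hCD)
    · intro h
      exact h.mono Set.subset_union_left subset_rfl
  · intro D hD
    constructor
    · rintro ⟨x, hx | hx, y, hy, hxy⟩
      · exact ⟨x, hx, y, hy, hxy⟩
      · obtain ⟨C, hC'⟩ := Set.mem_iUnion.1 hx
        by_cases hCD : C.1 = D
        · exact absurd (hCD ▸ hD) C.2.2.1
        · exact absurd ⟨x, hC', y, hy, hxy⟩ (C.2.1.not_touch (hS D hD) hCD)
    · intro h
      exact h.mono Set.subset_union_left subset_rfl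
  · intro x
    by_cases h1 : x ∈ X1
    · exact Or.inl (Or.inl h1)
    by_cases h2 : x ∈ X2
    · exact Or.inr (Or.inl (Or.inl h2))
    obtain ⟨C, hCc, hxC⟩ := exists_comp_mem (G := G) (X := (X1 ∪ X2)ᶜ) (v := x) (by
      rintro (h | h)
      · exact h1 h
      · exact h2 h)
    by_cases hCS : C ∈ S
    · exact Or.inr (Or.inr ⟨C, hCS, hxC⟩)
    · by_cases ht : Touch G X2 C
      · exact Or.inr (Or.inl (Or.inr (Set.mem_iUnion.2 ⟨⟨C, hCc, hCS, ht⟩, hxC⟩)))
      · exact Or.inl (Or.inr (Set.mem_iUnion.2 ⟨⟨C, hCc, hCS, ht⟩, hxC⟩))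

/-- A bad cut with exactly the common component `Y1`. -/
theorem contractible_P5 [Finite V] (hG : G.Connected) {X1 X2 Y1 P Q : Set V} (hC : Cut G X1 X2)
    (h1 : IsComp G (X1 ∪ X2)ᶜ Y1) (hP : IsComp G (X1 ∪ X2)ᶜ P) (hQ : IsComp G (X1 ∪ X2)ᶜ Q)
    (hcom : ∀ C, IsComp G (X1 ∪ X2)ᶜ C → Touch G X1 C → Touch G X2 C → C = Y1)
    (t1 : Touch G X1 Y1) (t2 : Touch G X2 Y1) (t3 : Touch G X1 P) (t4 : Touch G X2 Q)
    (n1 : P ≠ Y1) (n2 : Q ≠ Y1) : ContractibleTo G (SimpleGraph.pathGraph 5) := by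
  have t5 : ¬ Touch G X2 P := fun h => n1 (hcom P hP t3 h)
  have t6 : ¬ Touch G X1 Q := fun h => n2 (hcom Q hQ h t4)
  have n3 : P ≠ Q := by rintro rfl; exact t5 t4
  obtain ⟨A, B, cA, cB, dAB, nAB, dA, dB, tA, tB, hcov⟩ := hC.absorb hG {Y1, P, Q}
    (by rintro C (rfl | rfl | rfl); exacts [h1, hP, hQ])
    (fun C hCc ha hb => Or.inl (hcom C hCc ha hb))
  have m1 : Y1 ∈ ({Y1, P, Q} : Set (Set V)) := Or.inl rfl
  have m2 : P ∈ ({Y1, P, Q} : Set (Set V)) := Or.inr (Or.inl rfl)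
  have m3 : Q ∈ ({Y1, P, Q} : Set (Set V)) := Or.inr (Or.inr rfl)
  have hdis : ∀ C D, IsComp G (X1 ∪ X2)ᶜ C → IsComp G (X1 ∪ X2)ᶜ D → C ≠ D → Disjoint C D := by
    intro C D hC' hD' hne
    exact (hC'.eq_or_disjoint hD').resolve_left hne
  refine contractibleTo_of_parts' (W := Fin 5) ![P, A, Y1, B, Q] ?_ ?_ ?_ ?_
  · intro b
    fin_cases b
    exacts [hP.conn, cA, h1.conn, cB, hQ.conn]
  · intro a b hab
    fin_cases a <;> fin_cases b <;> first
      | exact absurd hab (by decide)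
      | exact (dA _ m2).symm
      | exact hdis P Y1 hP h1 n1
      | exact (dB _ m2).symm
      | exact hdis P Q hP hQ n3
      | exact dA _ m1
      | exact dAB
      | exact dA _ m3
      | exact (dB _ m1).symm
      | exact hdis Y1 Q h1 hQ n2.symm
      | exact dB _ m3
  · intro x
    rcases hcov x with h | h | ⟨C, rfl | rfl | rfl, h⟩
    · exact ⟨1, h⟩
    · exact ⟨3, h⟩
    · exact ⟨2, h⟩
    · exact ⟨0, h⟩
    · exact ⟨4, h⟩
  · have key : ∀ x y : Fin 5, (SimpleGraph.pathGraph 5).Adj x y ↔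
        (x.1 + 1 = y.1 ∨ y.1 + 1 = x.1) := fun x y => SimpleGraph.pathGraph_adj
    have adjT : ∀ {x y : Fin 5} {C D : Set V}, (x.1 + 1 = y.1 ∨ y.1 + 1 = x.1) → Touch G C D →
        ((SimpleGraph.pathGraph 5).Adj x y ↔ Touch G C D) := fun h1 h2 =>
      ⟨fun _ => h2, fun _ => (key _ _).2 h1⟩
    have adjF : ∀ {x y : Fin 5} {C D : Set V}, ¬ (x.1 + 1 = y.1 ∨ y.1 + 1 = x.1) → ¬ Touch G C D →
        ((SimpleGraph.pathGraph 5).Adj x y ↔ Touch G C D) := fun h1 h2 =>
      ⟨fun h => absurd ((key _ _).1 h) h1, fun h => absurd h h2⟩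
    intro a b hab
    fin_cases a <;> fin_cases b <;> try exact absurd hab (by decide)
    · exact adjT (by decide) ((tA _ m2).2 t3).symm
    · exact adjF (by decide) (hP.not_touch h1 n1)
    · exact adjF (by decide) (fun h => t5 ((tB _ m2).1 h.symm))
    · exact adjF (by decide) (hP.not_touch hQ n3)
    · exact adjT (by decide) ((tA _ m1).2 t1)
    · exact adjF (by decide) nAB
    · exact adjF (by decide) (fun h => t6 ((tA _ m3).1 h))
    · exact adjT (by decide) ((tB _ m1).2 t2).symm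
    · exact adjF (by decide) (h1.not_touch hQ n2.symm)
    · exact adjT (by decide) ((tB _ m3).2 t4)

/-- exactly two common components and a pendant one at `X1` -/
theorem contractible_banner [Finite V] (hG : G.Connected) {X1 X2 Y1 Y2 P : Set V}
    (hC : Cut G X1 X2)
    (h1 : IsComp G (X1 ∪ X2)ᶜ Y1) (h2 : IsComp G (X1 ∪ X2)ᶜ Y2) (hP : IsComp G (X1 ∪ X2)ᶜ P)
    (hcom : ∀ C, IsComp G (X1 ∪ X2)ᶜ C → Touch G X1 C → Touch G X2 C → C = Y1 ∨ C = Y2)
    (t1 : Touch G X1 Y1) (t2 : Touch G X2 Y1) (t3 : Touch G X1 Y2) (t4 : Touch G X2 Y2)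
    (t5 : Touch G X1 P) (t6 : ¬ Touch G X2 P) (n1 : Y1 ≠ Y2) : ContractibleTo G banner := by
  have n2 : P ≠ Y1 := by rintro rfl; exact t6 t2
  have n3 : P ≠ Y2 := by rintro rfl; exact t6 t4
  obtain ⟨A, B, cA, cB, dAB, nAB, dA, dB, tA, tB, hcov⟩ := hC.absorb hG {Y1, Y2, P}
    (by rintro C (rfl | rfl | rfl); exacts [h1, h2, hP])
    (fun C hCc ha hb => by
      rcases hcom C hCc ha hb with h | h
      · exact Or.inl h
      · exact Or.inr (Or.inl h))
  have m1 : Y1 ∈ ({Y1, Y2, P} : Set (Set V)) := Or.inl rfl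
  have m2 : Y2 ∈ ({Y1, Y2, P} : Set (Set V)) := Or.inr (Or.inl rfl)
  have m3 : P ∈ ({Y1, Y2, P} : Set (Set V)) := Or.inr (Or.inr rfl)
  have hdis : ∀ C D, IsComp G (X1 ∪ X2)ᶜ C → IsComp G (X1 ∪ X2)ᶜ D → C ≠ D → Disjoint C D := by
    intro C D hC' hD' hne
    exact (hC'.eq_or_disjoint hD').resolve_left hne
  refine contractibleTo_of_parts' (W := Fin 5) ![A, Y1, B, Y2, P] ?_ ?_ ?_ ?_
  · intro b
    fin_cases b
    exacts [cA, h1.conn, cB, h2.conn, hP.conn]
  · intro a b hab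
    fin_cases a <;> fin_cases b <;> first
      | exact absurd hab (by decide)
      | exact dA _ m1
      | exact dAB
      | exact dA _ m2
      | exact dA _ m3
      | exact (dB _ m1).symm
      | exact hdis Y1 Y2 h1 h2 n1
      | exact hdis Y1 P h1 hP n2.symm
      | exact dB _ m2
      | exact dB _ m3
      | exact hdis Y2 P h2 hP n3.symm
  · intro x
    rcases hcov x with h | h | ⟨C, rfl | rfl | rfl, h⟩
    · exact ⟨0, h⟩
    · exact ⟨2, h⟩
    · exact ⟨1, h⟩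
    · exact ⟨3, h⟩
    · exact ⟨4, h⟩
  · have adjT : ∀ {x y : Fin 5} {C D : Set V}, banner.Adj x y → Touch G C D →
        (banner.Adj x y ↔ Touch G C D) := fun h1 h2 => ⟨fun _ => h2, fun _ => h1⟩
    have adjF : ∀ {x y : Fin 5} {C D : Set V}, ¬ banner.Adj x y → ¬ Touch G C D →
        (banner.Adj x y ↔ Touch G C D) := fun h1 h2 => ⟨fun h => absurd h h1, fun h => absurd h h2⟩
    have b01 : banner.Adj 0 1 := by simp only [banner, SimpleGraph.fromRel_adj]; decide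
    have b02 : ¬ banner.Adj 0 2 := by simp only [banner, SimpleGraph.fromRel_adj]; decide
    have b03 : banner.Adj 0 3 := by simp only [banner, SimpleGraph.fromRel_adj]; decide
    have b04 : banner.Adj 0 4 := by simp only [banner, SimpleGraph.fromRel_adj]; decide
    have b12 : banner.Adj 1 2 := by simp only [banner, SimpleGraph.fromRel_adj]; decide
    have b13 : ¬ banner.Adj 1 3 := by simp only [banner, SimpleGraph.fromRel_adj]; decide
    have b14 : ¬ banner.Adj 1 4 := by simp only [banner, SimpleGraph.fromRel_adj]; decide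
    have b23 : banner.Adj 2 3 := by simp only [banner, SimpleGraph.fromRel_adj]; decide
    have b24 : ¬ banner.Adj 2 4 := by simp only [banner, SimpleGraph.fromRel_adj]; decide
    have b34 : ¬ banner.Adj 3 4 := by simp only [banner, SimpleGraph.fromRel_adj]; decide
    intro a b hab
    fin_cases a <;> fin_cases b <;> try exact absurd hab (by decide)
    · exact adjT b01 ((tA _ m1).2 t1)
    · exact adjF b02 nAB
    · exact adjT b03 ((tA _ m2).2 t3)
    · exact adjT b04 ((tA _ m3).2 t5)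
    · exact adjT b12 ((tB _ m1).2 t2).symm
    · exact adjF b13 (h1.not_touch h2 n1)
    · exact adjF b14 (h1.not_touch hP n2.symm)
    · exact adjT b23 ((tB _ m2).2 t4)
    · exact adjF b24 (fun h => t6 ((tB _ m3).1 h))
    · exact adjF b34 (h2.not_touch hP n3.symm)

theorem contractible_K2n [Finite V] (hG : G.Connected) {X1 X2 Y1 Y2 Y3 : Set V}
    (hC : Cut G X1 X2)
    (h1 : IsComp G (X1 ∪ X2)ᶜ Y1) (h2 : IsComp G (X1 ∪ X2)ᶜ Y2) (h3 : IsComp G (X1 ∪ X2)ᶜ Y3)
    (t1 : Touch G X1 Y1) (t2 : Touch G X2 Y1) (t3 : Touch G X1 Y2) (t4 : Touch G X2 Y2)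
    (t5 : Touch G X1 Y3) (t6 : Touch G X2 Y3) (n12 : Y1 ≠ Y2) (n13 : Y1 ≠ Y3) (n23 : Y2 ≠ Y3) :
    ∃ n, 3 ≤ n ∧ ContractibleTo G (completeBipartiteGraph (Fin 2) (Fin n)) := by
  set S : Set (Set V) := {C | IsComp G (X1 ∪ X2)ᶜ C ∧ Touch G X1 C ∧ Touch G X2 C} with hS
  obtain ⟨A, B, cA, cB, dAB, nAB, dA, dB, tA, tB, hcov⟩ := hC.absorb hG S (fun C hC' => hC'.1)
    (fun C hCc ha hb => ⟨hCc, ha, hb⟩)
  have hSf : Finite S := inferInstance
  refine ⟨Nat.card S, ?_, ?_⟩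
  · have hsub : ({Y1, Y2, Y3} : Set (Set V)) ⊆ S := by
      rintro C (rfl | rfl | rfl)
      exacts [⟨h1, t1, t2⟩, ⟨h2, t3, t4⟩, ⟨h3, t5, t6⟩]
    have h3' : ({Y1, Y2, Y3} : Set (Set V)).ncard = 3 := by
      rw [Set.ncard_eq_three]
      exact ⟨Y1, Y2, Y3, n12, n13, n23, rfl⟩
    have := Set.ncard_le_ncard hsub (Set.toFinite S)
    rw [h3'] at this
    exact this
  · let e : S ≃ Fin (Nat.card S) := Finite.equivFin S
    refine contractibleTo_of_parts (W := Fin 2 ⊕ Fin (Nat.card S))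
      (Sum.elim ![A, B] (fun i => (e.symm i).1)) ?_ ?_ ?_ ?_
    · rintro (b | b)
      · fin_cases b
        exacts [cA, cB]
      · exact (e.symm b).2.1.conn
    · have hij : ∀ i j : Fin (Nat.card S), i ≠ j → (e.symm i).1 ≠ (e.symm j).1 := by
        intro i j hne h
        exact hne (e.symm.injective (Subtype.ext h))
      rintro (a | a) (b | b) hab
      · fin_cases a <;> fin_cases b
        · exact absurd rfl hab
        · exact dAB
        · exact dAB.symm
        · exact absurd rfl hab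
      · fin_cases a
        · exact dA _ (e.symm b).2
        · exact dB _ (e.symm b).2
      · fin_cases b
        · exact (dA _ (e.symm a).2).symm
        · exact (dB _ (e.symm a).2).symm
      · have hne : a ≠ b := fun h => hab (by rw [h])
        exact ((e.symm a).2.1.eq_or_disjoint (e.symm b).2.1).resolve_left (hij a b hne)
    · intro x
      rcases hcov x with h | h | ⟨C, hCS, h⟩
      · exact ⟨Sum.inl 0, h⟩
      · exact ⟨Sum.inl 1, h⟩
      · refine ⟨Sum.inr (e ⟨C, hCS⟩), ?_⟩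
        simp only [Sum.elim_inr, Equiv.symm_apply_apply]
        exact h
    · rintro (a | a) (b | b) hab
      · have hn : ¬ (completeBipartiteGraph (Fin 2) (Fin (Nat.card S))).Adj (Sum.inl a) (Sum.inl b) := by
          rintro (⟨_, h⟩ | ⟨h, _⟩) <;> exact Bool.noConfusion h
        refine ⟨fun h => absurd h hn, fun h => ?_⟩
        exfalso
        fin_cases a <;> fin_cases b
        · exact hab rfl
        · exact nAB h
        · exact nAB h.symm
        · exact hab rfl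
      · have hy : (completeBipartiteGraph (Fin 2) (Fin (Nat.card S))).Adj (Sum.inl a) (Sum.inr b) :=
          Or.inl ⟨rfl, rfl⟩
        refine ⟨fun _ => ?_, fun _ => hy⟩
        fin_cases a
        · exact (tA _ (e.symm b).2).2 (e.symm b).2.2.1
        · exact (tB _ (e.symm b).2).2 (e.symm b).2.2.2
      · have hy : (completeBipartiteGraph (Fin 2) (Fin (Nat.card S))).Adj (Sum.inr a) (Sum.inl b) :=
          Or.inr ⟨rfl, rfl⟩
        refine ⟨fun _ => ?_, fun _ => hy⟩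
        fin_cases b
        · exact ((tA _ (e.symm a).2).2 (e.symm a).2.2.1).symm
        · exact ((tB _ (e.symm a).2).2 (e.symm a).2.2.2).symm
      · have hn : ¬ (completeBipartiteGraph (Fin 2) (Fin (Nat.card S))).Adj (Sum.inr a) (Sum.inr b) := by
          rintro (⟨h, _⟩ | ⟨_, h⟩) <;> exact Bool.noConfusion h
        refine ⟨fun h => absurd h hn, fun h => ?_⟩
        exfalso
        have hne : a ≠ b := fun h => hab (by rw [h])
        have hne' : (e.symm a).1 ≠ (e.symm b).1 := fun h => hne (e.symm.injective (Subtype.ext h))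
        exact (e.symm a).2.1.not_touch (e.symm b).2.1 hne' h

/-- A bad 2-cut yields a contraction to `P5`, the banner or some `K_{2,n}` with `n ≥ 3`. -/
theorem BadCut.contractible [Finite V] (hG : G.Connected) {X1 X2 : Set V} (h : BadCut G X1 X2) :
    ContractibleTo G (SimpleGraph.pathGraph 5) ∨ ContractibleTo G banner ∨
      ∃ n, 3 ≤ n ∧ ContractibleTo G (completeBipartiteGraph (Fin 2) (Fin n)) := by
  obtain ⟨hC, Y1, Y2, Y3, h1, h2, h3, n12, n13, n23, t1, t2, t3, t4⟩ := id h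
  -- is there a third common component?
  by_cases hY2 : Touch G X2 Y2
  · -- Y1, Y2 common
    by_cases h3c : ∃ C, IsComp G (X1 ∪ X2)ᶜ C ∧ Touch G X1 C ∧ Touch G X2 C ∧ C ≠ Y1 ∧ C ≠ Y2
    · obtain ⟨C, hCc, c1, c2, c3, c4⟩ := h3c
      right; right
      exact contractible_K2n hG hC h1 h2 hCc t1 t2 t3 hY2 c1 c2 n12 c3.symm c4.symm
    · push Not at h3c
      have hY3 : ¬ Touch G X1 Y3 := fun h => n23 (h3c Y3 h3 h t4 n13.symm).symm
      right; left
      have hC' := hC.symm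
      rw [Set.union_comm] at h1 h2 h3
      refine contractible_banner hG hC' h1 h2 h3 ?_ t2 t1 hY2 t3 t4 hY3 n12
      intro C hCc c1 c2
      by_contra hno
      push Not at hno
      rw [Set.union_comm] at hCc
      exact hno.2 (h3c C hCc c2 c1 hno.1)
  · by_cases hY3 : Touch G X1 Y3
    · -- Y1, Y3 common
      by_cases h3c : ∃ C, IsComp G (X1 ∪ X2)ᶜ C ∧ Touch G X1 C ∧ Touch G X2 C ∧ C ≠ Y1 ∧ C ≠ Y3
      · obtain ⟨C, hCc, c1, c2, c3, c4⟩ := h3c
        right; right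
        exact contractible_K2n hG hC h1 h3 hCc t1 t2 hY3 t4 c1 c2 n13 c3.symm c4.symm
      · push Not at h3c
        right; left
        refine contractible_banner hG hC h1 h3 h2 ?_ t1 t2 hY3 t4 t3 hY2 n13
        intro C hCc c1 c2
        by_contra hno
        push Not at hno
        exact hno.2 (h3c C hCc c1 c2 hno.1)
    · -- Y2 only at X1, Y3 only at X2
      by_cases h2c : ∃ C, IsComp G (X1 ∪ X2)ᶜ C ∧ Touch G X1 C ∧ Touch G X2 C ∧ C ≠ Y1
      · obtain ⟨C, hCc, c1, c2, c3⟩ := h2c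
        have hCY2 : C ≠ Y2 := by rintro rfl; exact hY2 c2
        by_cases h3c : ∃ D, IsComp G (X1 ∪ X2)ᶜ D ∧ Touch G X1 D ∧ Touch G X2 D ∧ D ≠ Y1 ∧ D ≠ C
        · obtain ⟨D, hDc, d1, d2, d3, d4⟩ := h3c
          right; right
          exact contractible_K2n hG hC h1 hCc hDc t1 t2 c1 c2 d1 d2 c3.symm d3.symm d4.symm
        · push Not at h3c
          right; left
          refine contractible_banner hG hC h1 hCc h2 ?_ t1 t2 c1 c2 t3 hY2 c3.symm
          intro D hDc d1 d2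
          by_contra hno
          push Not at hno
          exact hno.2 (h3c D hDc d1 d2 hno.1)
      · push Not at h2c
        left
        exact contractible_P5 hG hC h1 h2 h3 (fun C hCc c1 c2 => h2c C hCc c1 c2) t1 t2 t3 t4
          n12.symm n13.symm

end W_MP_9f10ef_co
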