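import Mathlib

/-!
# MP_9f10ef_co : weighted safe sets, definitions and basic facts

`V` is a finite vertex set, `G` a simple graph, `w : V → ℝ` the weights.
Vertex sets are `Set V`.
-/

namespace W_MP_9f10ef_co

open Classical

universe u

variable {V : Type u} [Fintype V]

/-- `w(X)`: the sum of the weights of the vertices in `X`. -/
noncomputable def wt (w : V → ℝ) (X : Set V) : ℝ := ∑ v, X.indicator w v

omit [Fintype V] in
/-- `C` induces a connected (in particular nonempty) subgraph of `G`. -/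
def Conn (G : SimpleGraph V) (C : Set V) : Prop := (G.induce C).Connected

omit [Fintype V] in
/-- some edge of `G` joins `C` and `D`. -/
def Touch (G : SimpleGraph V) (C D : Set V) : Prop := ∃ c ∈ C, ∃ d ∈ D, G.Adj c d

omit [Fintype V] in
/-- `C` is (the vertex set of) a component of `G[X]`: a maximal subset of `X` inducing a
connected subgraph. -/
def IsComp (G : SimpleGraph V) (X C : Set V) : Prop :=
  C ⊆ X ∧ Conn G C ∧ ∀ D : Set V, C ⊆ D → D ⊆ X → Conn G D → D = C

/-- `S` is a weighted safe set of `(G, w)`. -/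
def IsSafe (G : SimpleGraph V) (w : V → ℝ) (S : Set V) : Prop :=
  S.Nonempty ∧ ∀ C D : Set V, IsComp G S C → IsComp G Sᶜ D → Touch G C D → wt w D ≤ wt w C

/-- `S` is a connected weighted safe set of `(G, w)`. -/
def IsConnSafe (G : SimpleGraph V) (w : V → ℝ) (S : Set V) : Prop :=
  IsSafe G w S ∧ Conn G S

/-- `s(G, w)`, the weighted safe number. -/
noncomputable def sNum (G : SimpleGraph V) (w : V → ℝ) : ℝ :=
  sInf {x | ∃ S : Set V, IsSafe G w S ∧ wt w S = x}

/-- `cs(G, w)`, the connected weighted safe number. -/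
noncomputable def csNum (G : SimpleGraph V) (w : V → ℝ) : ℝ :=
  sInf {x | ∃ S : Set V, IsConnSafe G w S ∧ wt w S = x}

/-- `G` belongs to the class `𝒢^cs`. -/
def InGcs (G : SimpleGraph V) : Prop :=
  G.Connected ∧ ∀ w : V → ℝ, (∀ v, 0 ≤ w v) → sNum G w = csNum G w

/-- `G` is contractible to `H`: `H` arises from a partition of the vertices of `G` into connected
sets (the fibres of `f`), two distinct parts being adjacent in `H` iff some edge of `G` joins
them. -/
def ContractibleTo {V : Type*} {W : Type*} (G : SimpleGraph V) (H : SimpleGraph W) : Prop :=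
  ∃ f : V → W, (∀ b, (G.induce (f ⁻¹' {b})).Connected) ∧
    ∀ a b, a ≠ b → (H.Adj a b ↔ ∃ u v, f u = a ∧ f v = b ∧ G.Adj u v)

/-! ### weights -/

theorem wt_nonneg {w : V → ℝ} (hw : ∀ v, 0 ≤ w v) (X : Set V) : 0 ≤ wt w X := by
  unfold wt
  exact Finset.sum_nonneg fun v _ => Set.indicator_nonneg (fun x _ => hw x) v

theorem wt_mono {w : V → ℝ} (hw : ∀ v, 0 ≤ w v) {X Y : Set V} (h : X ⊆ Y) : wt w X ≤ wt w Y := by
  unfold wt
  exact Finset.sum_le_sum fun v _ => Set.indicator_le_indicator_of_subset h (fun x => hw x) v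

theorem wt_empty (w : V → ℝ) : wt w ∅ = 0 := by simp [wt]

theorem wt_union {w : V → ℝ} {X Y : Set V} (h : Disjoint X Y) :
    wt w (X ∪ Y) = wt w X + wt w Y := by
  unfold wt
  rw [← Finset.sum_add_distrib]
  refine Finset.sum_congr rfl fun v _ => ?_
  rw [Set.indicator_union_of_disjoint h]

theorem wt_singleton (w : V → ℝ) (v : V) : wt w {v} = w v := by
  unfold wt
  simp [Set.indicator_apply]

theorem wt_compl (w : V → ℝ) (X : Set V) : wt w X + wt w Xᶜ = wt w Set.univ := by
  rw [← wt_union disjoint_compl_right, Set.union_compl_self]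

theorem wt_univ (w : V → ℝ) : wt w Set.univ = ∑ v, w v := by
  simp [wt]

theorem wt_insert {w : V → ℝ} {X : Set V} {v : V} (h : v ∉ X) :
    wt w (insert v X) = w v + wt w X := by
  rw [Set.insert_eq, wt_union (by simpa using h), wt_singleton]

theorem le_wt_of_mem {w : V → ℝ} (hw : ∀ v, 0 ≤ w v) {X : Set V} {v : V} (h : v ∈ X) :
    w v ≤ wt w X := by
  rw [← wt_singleton w v]
  exact wt_mono hw (by simpa using h)

theorem wt_eq_sum (w : V → ℝ) (X : Set V) : wt w X = ∑ v ∈ X.toFinset, w v := by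
  unfold wt
  rw [Finset.sum_indicator_eq_sum_filter]
  refine Finset.sum_congr ?_ fun _ _ => rfl
  ext v
  simp

/-! ### connected sets -/

section conn

omit [Fintype V]

variable {G : SimpleGraph V}

theorem Conn.nonempty {C : Set V} (h : Conn G C) : C.Nonempty := by
  obtain ⟨x⟩ := SimpleGraph.Connected.nonempty h
  exact ⟨x.1, x.2⟩

theorem conn_iff {C : Set V} : Conn G C ↔ C.Nonempty ∧
    ∀ A : Set V, A ⊆ C → A.Nonempty → (C \ A).Nonempty → Touch G A (C \ A) := by
  constructor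
  · intro h
    refine ⟨h.nonempty, ?_⟩
    rintro A hAC ⟨a, ha⟩ ⟨b, hb⟩
    by_contra hno
    -- reachability stays in A
    have key : ∀ x : C, (G.induce C).Reachable ⟨a, hAC ha⟩ x → x.1 ∈ A := by
      intro x hx
      obtain ⟨p⟩ := hx
      suffices H : ∀ (y z : C) (_ : (G.induce C).Walk y z), y.1 ∈ A → z.1 ∈ A from H _ _ p ha
      intro y z q
      induction q with
      | nil => exact id
      | @cons u v t huv _ ih =>
        intro hu
        apply ih
        by_contra hv
        exact hno ⟨u.1, hu, v.1, ⟨v.2, hv⟩, huv⟩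
    exact hb.2 (key ⟨b, hb.1⟩ (h.preconnected _ _))
  · rintro ⟨⟨x, hx⟩, h⟩
    have : Nonempty C := ⟨⟨x, hx⟩⟩
    refine (SimpleGraph.connected_iff _).2 ⟨?_, this⟩
    intro y z
    by_contra hyz
    set A : Set V := {v | ∃ hv : v ∈ C, (G.induce C).Reachable y ⟨v, hv⟩} with hA
    have hAC : A ⊆ C := fun v hv => hv.1
    obtain ⟨c, hc, d, hd, hcd⟩ := h A hAC ⟨y.1, y.2, SimpleGraph.Reachable.refl _⟩
      ⟨z.1, z.2, fun hz => hyz hz.2⟩
    refine hd.2 ⟨hd.1, hc.2.trans ?_⟩
    exact SimpleGraph.Adj.reachable (by simpa using hcd)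

theorem conn_singleton (v : V) : Conn G {v} := by
  rw [conn_iff]
  refine ⟨⟨v, rfl⟩, ?_⟩
  rintro A hA ⟨a, ha⟩ ⟨b, hb⟩
  have h1 : a = v := hA ha
  have h2 : b = v := hb.1
  subst h1; subst h2
  exact absurd ha hb.2

theorem Touch.symm {A B : Set V} (h : Touch G A B) : Touch G B A := by
  obtain ⟨a, ha, b, hb, hab⟩ := h
  exact ⟨b, hb, a, ha, hab.symm⟩

theorem Touch.mono {A B A' B' : Set V} (h : Touch G A B) (hA : A ⊆ A') (hB : B ⊆ B') :
    Touch G A' B' := by
  obtain ⟨a, ha, b, hb, hab⟩ := h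
  exact ⟨a, hA ha, b, hB hb, hab⟩

theorem Conn.union_touch {A B : Set V} (hA : Conn G A) (hB : Conn G B) (h : Touch G A B) :
    Conn G (A ∪ B) := by
  rw [conn_iff] at *
  refine ⟨hA.1.inl, ?_⟩
  intro E hE hEne hEc
  by_cases h1 : (E ∩ A).Nonempty
  · by_cases h2 : (A \ E).Nonempty
    · refine (hA.2 (E ∩ A) Set.inter_subset_right h1 ?_).mono Set.inter_subset_left ?_
      · rwa [Set.sdiff_inter_self_eq_sdiff]
      · rw [Set.sdiff_inter_self_eq_sdiff]
        exact Set.sdiff_subset_sdiff_left Set.subset_union_left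
    · have hAE : A ⊆ E := by
        intro x hx; by_contra hx'; exact h2 ⟨x, hx, hx'⟩
      by_cases h3 : (E ∩ B).Nonempty
      · refine (hB.2 (E ∩ B) Set.inter_subset_right h3 ?_).mono Set.inter_subset_left ?_
        · rw [Set.sdiff_inter_self_eq_sdiff]
          obtain ⟨x, hx, hx'⟩ := hEc
          rcases hx with hx | hx
          · exact absurd (hAE hx) hx'
          · exact ⟨x, hx, hx'⟩
        · rw [Set.sdiff_inter_self_eq_sdiff]
          exact Set.sdiff_subset_sdiff_left Set.subset_union_right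
      · obtain ⟨a, ha, b, hb, hab⟩ := h
        refine ⟨a, hAE ha, b, ⟨Or.inr hb, fun hbE => h3 ⟨b, hbE, hb⟩⟩, hab⟩
  · have hBE : (E ∩ B).Nonempty := by
      obtain ⟨x, hx⟩ := hEne
      rcases hE hx with hxA | hxB
      · exact absurd ⟨x, hx, hxA⟩ h1
      · exact ⟨x, hx, hxB⟩
    by_cases h2 : (B \ E).Nonempty
    · refine (hB.2 (E ∩ B) Set.inter_subset_right hBE ?_).mono Set.inter_subset_left ?_
      · rwa [Set.sdiff_inter_self_eq_sdiff]
      · rw [Set.sdiff_inter_self_eq_sdiff]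
        exact Set.sdiff_subset_sdiff_left Set.subset_union_right
    · obtain ⟨a, ha, b, hb, hab⟩ := h
      have hb' : b ∈ E := by
        by_contra hb'; exact h2 ⟨b, hb, hb'⟩
      exact ⟨b, hb', a, ⟨Or.inl ha, fun haE => h1 ⟨a, haE, ha⟩⟩, hab.symm⟩

theorem Conn.union_inter {A B : Set V} (hA : Conn G A) (hB : Conn G B) (h : (A ∩ B).Nonempty) :
    Conn G (A ∪ B) := by
  by_cases hAB : A ⊆ B
  · rw [Set.union_eq_self_of_subset_left hAB]; exact hB
  by_cases hBA : B ⊆ A
  · rw [Set.union_eq_self_of_subset_right hBA]; exact hA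
  have hB2 := conn_iff.1 hB
  -- touch between A ∩ B and B \ A
  have ht : Touch G (A ∩ B) (B \ A) := by
    have := hB2.2 (A ∩ B) Set.inter_subset_right h ?_
    · rwa [Set.sdiff_inter_self_eq_sdiff] at this
    · rw [Set.sdiff_inter_self_eq_sdiff]
      obtain ⟨x, hx, hx'⟩ := Set.not_subset.1 hBA
      exact ⟨x, hx, hx'⟩
  exact hA.union_touch hB (ht.mono Set.inter_subset_left Set.sdiff_subset)

theorem Conn.insert {A : Set V} (hA : Conn G A) {v : V} (h : ∃ a ∈ A, G.Adj a v) :
    Conn G (insert v A) := by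
  rw [Set.insert_eq, Set.union_comm]
  obtain ⟨a, ha, hav⟩ := h
  exact hA.union_touch (conn_singleton v) ⟨a, ha, v, rfl, hav⟩

/-- A union of connected sets all containing (or touching) a common connected set. -/
theorem Conn.iUnion_of_touch {ι : Type*} {A : Set V} (hA : Conn G A) {B : ι → Set V}
    (hB : ∀ i, Conn G (B i)) (h : ∀ i, (A ∩ B i).Nonempty ∨ Touch G A (B i)) :
    Conn G (A ∪ ⋃ i, B i) := by
  rw [conn_iff]
  refine ⟨hA.nonempty.inl, ?_⟩
  intro E hE hEne hEc
  by_contra hno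
  -- each connected set contained in the union lies in E or in the complement
  have key : ∀ C : Set V, Conn G C → C ⊆ A ∪ ⋃ i, B i → (C ⊆ E ∨ C ∩ E = ∅) := by
    intro C hC hCs
    by_contra hcon
    push Not at hcon
    obtain ⟨h1, h2⟩ := hcon
    obtain ⟨x, hx, hx'⟩ := Set.not_subset.1 h1
    have := (conn_iff.1 hC).2 (C ∩ E) Set.inter_subset_left h2 ⟨x, hx, fun h => hx' h.2⟩
    refine hno (this.mono Set.inter_subset_right ?_)
    intro y hy
    exact ⟨hCs hy.1, fun hyE => hy.2 ⟨hy.1, hyE⟩⟩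
  have hAB : ∀ i, Conn G (A ∪ B i) := by
    intro i
    rcases h i with h | h
    · exact hA.union_inter (hB i) h
    · exact hA.union_touch (hB i) h
  have hsub : ∀ i, A ∪ B i ⊆ A ∪ ⋃ i, B i := fun i =>
    Set.union_subset_union_right _ (Set.subset_iUnion B i)
  rcases key A hA Set.subset_union_left with hAE | hAE
  · -- everything in E
    obtain ⟨x, hx, hx'⟩ := hEc
    rcases hx with hx | hx
    · exact hx' (hAE hx)
    · obtain ⟨i, hi⟩ := Set.mem_iUnion.1 hx
      rcases key _ (hAB i) (hsub i) with h1 | h1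
      · exact hx' (h1 (Or.inr hi))
      · obtain ⟨a, ha⟩ := hA.nonempty
        have : a ∈ (A ∪ B i) ∩ E := ⟨Or.inl ha, hAE ha⟩
        rw [h1] at this
        exact this
  · obtain ⟨x, hx⟩ := hEne
    rcases hE hx with hx' | hx'
    · have : x ∈ A ∩ E := ⟨hx', hx⟩
      rw [hAE] at this; exact this
    · obtain ⟨i, hi⟩ := Set.mem_iUnion.1 hx'
      rcases key _ (hAB i) (hsub i) with h1 | h1
      · obtain ⟨a, ha⟩ := hA.nonempty
        have : a ∈ A ∩ E := ⟨ha, h1 (Or.inl ha)⟩
        rw [hAE] at this; exact this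
      · have : x ∈ (A ∪ B i) ∩ E := ⟨Or.inr hi, hx⟩
        rw [h1] at this; exact this

/-- every connected subset of `X` is contained in a component of `G[X]`. -/
theorem exists_comp [Finite V] {X C : Set V} (hC : Conn G C) (hCX : C ⊆ X) :
    ∃ D, IsComp G X D ∧ C ⊆ D := by
  classical
  have hfin : {D : Set V | C ⊆ D ∧ D ⊆ X ∧ Conn G D}.Finite := Set.toFinite _
  obtain ⟨D, hD⟩ := hfin.exists_maximal ⟨C, subset_rfl, hCX, hC⟩
  refine ⟨D, ⟨hD.prop.2.1, hD.prop.2.2, ?_⟩, hD.prop.1⟩
  intro E hDE hEX hE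
  exact le_antisymm (hD.le_of_ge ⟨hD.prop.1.trans hDE, hEX, hE⟩ hDE) hDE

theorem exists_comp_mem [Finite V] {X : Set V} {v : V} (hv : v ∈ X) :
    ∃ D, IsComp G X D ∧ v ∈ D := by
  obtain ⟨D, hD, h⟩ := exists_comp (G := G) (conn_singleton v) (X := X) (by simpa using hv)
  exact ⟨D, hD, h rfl⟩

theorem IsComp.subset {X C : Set V} (h : IsComp G X C) : C ⊆ X := h.1

theorem IsComp.conn {X C : Set V} (h : IsComp G X C) : Conn G C := h.2.1

theorem IsComp.nonempty {X C : Set V} (h : IsComp G X C) : C.Nonempty := h.2.1.nonempty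

/-- a connected subset of `X` meeting a component is contained in it. -/
theorem IsComp.subset_of_inter {X C D : Set V} (h : IsComp G X C) (hD : Conn G D) (hDX : D ⊆ X)
    (hne : (C ∩ D).Nonempty) : D ⊆ C := by
  have := h.2.2 (C ∪ D) Set.subset_union_left (Set.union_subset h.1 hDX)
    (h.2.1.union_inter hD hne)
  rw [← this]; exact Set.subset_union_right

theorem IsComp.subset_of_touch {X C D : Set V} (h : IsComp G X C) (hD : Conn G D) (hDX : D ⊆ X)
    (ht : Touch G C D) : D ⊆ C := by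
  have := h.2.2 (C ∪ D) Set.subset_union_left (Set.union_subset h.1 hDX)
    (h.2.1.union_touch hD ht)
  rw [← this]; exact Set.subset_union_right

theorem IsComp.mem_of_adj {X C : Set V} (h : IsComp G X C) {c v : V} (hc : c ∈ C) (hv : v ∈ X)
    (hcv : G.Adj c v) : v ∈ C :=
  h.subset_of_touch (conn_singleton v) (by simpa using hv) ⟨c, hc, v, rfl, hcv⟩ rfl

theorem IsComp.eq_or_disjoint {X C D : Set V} (h : IsComp G X C) (h' : IsComp G X D) :
    C = D ∨ Disjoint C D := by
  by_cases hne : (C ∩ D).Nonempty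
  · left
    apply le_antisymm
    · exact h'.subset_of_inter h.conn h.1 (by rwa [Set.inter_comm])
    · exact h.subset_of_inter h'.conn h'.1 hne
  · right
    rw [Set.disjoint_iff_inter_eq_empty]
    exact Set.not_nonempty_iff_eq_empty.1 hne

theorem IsComp.eq_of_mem {X C D : Set V} (h : IsComp G X C) (h' : IsComp G X D) {v : V}
    (h1 : v ∈ C) (h2 : v ∈ D) : C = D := by
  rcases h.eq_or_disjoint h' with h | h
  · exact h
  · exact absurd h2 (Set.disjoint_left.1 h h1)

theorem IsComp.not_touch {X C D : Set V} (h : IsComp G X C) (h' : IsComp G X D) (hne : C ≠ D) :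
    ¬ Touch G C D := by
  intro ht
  have := h.subset_of_touch h'.conn h'.1 ht
  obtain ⟨x, hx⟩ := h'.nonempty
  exact hne (h.eq_of_mem h' (this hx) hx)

theorem Conn.isComp_self {X : Set V} (h : Conn G X) : IsComp G X X :=
  ⟨subset_rfl, h, fun _ h1 h2 _ => le_antisymm h2 h1⟩

theorem Conn.isComp_eq {X C : Set V} (h : Conn G X) (hC : IsComp G X C) : C = X :=
  (hC.2.2 X hC.1 subset_rfl h).symm

/-- criterion for being a component: connected, contained, closed under adjacency. -/
theorem isComp_of_closed {X C : Set V} (hC : Conn G C) (hCX : C ⊆ X)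
    (h : ∀ c ∈ C, ∀ v ∈ X, G.Adj c v → v ∈ C) : IsComp G X C := by
  refine ⟨hCX, hC, ?_⟩
  intro D hCD hDX hD
  by_contra hne
  have hnon : (D \ C).Nonempty := by
    rw [Set.nonempty_iff_ne_empty]
    intro h0
    exact hne (le_antisymm (Set.sdiff_eq_empty.1 h0) hCD)
  obtain ⟨c, hc, d, hd, hcd⟩ := (conn_iff.1 hD).2 C hCD hC.nonempty hnon
  exact hd.2 (h c hc d (hDX hd.1) hcd)

/-- `G` connected: a proper nonempty set touches its complement. -/
theorem touch_compl (hG : G.Connected) {A : Set V} (hA : A.Nonempty) (hA' : Aᶜ.Nonempty) :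
    Touch G A Aᶜ := by
  have h : Conn G (Set.univ : Set V) := by
    unfold Conn
    exact (SimpleGraph.Iso.connected_iff (SimpleGraph.induceUnivIso G)).2 hG
  have := (conn_iff.1 h).2 A (Set.subset_univ _) hA (by simpa [Set.compl_eq_univ_sdiff] using hA')
  simpa [Set.compl_eq_univ_sdiff] using this

theorem conn_univ (hG : G.Connected) : Conn G (Set.univ : Set V) :=
  (SimpleGraph.Iso.connected_iff (SimpleGraph.induceUnivIso G)).2 hG

/-- In a connected graph every component of `G - T` touches `T` (if `T` is nonempty). -/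
theorem IsComp.touch_of_connected (hG : G.Connected) {T D : Set V} (hT : T.Nonempty)
    (hD : IsComp G Tᶜ D) : Touch G T D := by
  obtain ⟨t, ht⟩ := hT
  have h1 : Dᶜ.Nonempty := ⟨t, fun h => hD.1 h ht⟩
  obtain ⟨d, hd, x, hx, hdx⟩ := touch_compl hG hD.nonempty h1
  have hxT : x ∈ T := by
    by_contra hxT
    exact hx (hD.mem_of_adj hd hxT hdx)
  exact ⟨x, hxT, d, hd, hdx.symm⟩

end conn

/-! ### connected safe sets -/

section safe

variable {G : SimpleGraph V} {w : V → ℝ}

/-- For a connected safe set `T` of a connected graph, every connected set avoiding `T` weighs at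
most `w(T)`. -/
theorem IsConnSafe.wt_le (hG : G.Connected) (hw : ∀ v, 0 ≤ w v) {T D : Set V}
    (hT : IsConnSafe G w T) (hD : Conn G D) (hDT : Disjoint D T) : wt w D ≤ wt w T := by
  obtain ⟨D', hD', hDD'⟩ := exists_comp (X := Tᶜ) hD (Set.subset_compl_iff_disjoint_right.2 hDT)
  exact (wt_mono hw hDD').trans
    (hT.1.2 T D' hT.2.isComp_self hD' (hD'.touch_of_connected hG hT.1.1))

/-- Sufficient condition for being a connected safe set. -/
theorem isConnSafe_of {T : Set V} (hT : Conn G T)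
    (h : ∀ D, IsComp G Tᶜ D → wt w D ≤ wt w T) : IsConnSafe G w T := by
  refine ⟨⟨hT.nonempty, ?_⟩, hT⟩
  intro C D hC hD _
  rw [hT.isComp_eq hC]
  exact h D hD

theorem univ_isConnSafe (hG : G.Connected) : IsConnSafe G w Set.univ := by
  refine isConnSafe_of (conn_univ hG) ?_
  intro D hD
  obtain ⟨x, hx⟩ := hD.nonempty
  exact absurd trivial (hD.1 hx)

theorem csSet_finite : {x | ∃ S : Set V, IsConnSafe G w S ∧ wt w S = x}.Finite :=
  (Set.toFinite (Set.range fun S : Set V => wt w S)).subset (by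
    rintro x ⟨S, _, rfl⟩; exact ⟨S, rfl⟩)

theorem sSet_finite : {x | ∃ S : Set V, IsSafe G w S ∧ wt w S = x}.Finite :=
  (Set.toFinite (Set.range fun S : Set V => wt w S)).subset (by
    rintro x ⟨S, _, rfl⟩; exact ⟨S, rfl⟩)

theorem sNum_le {S : Set V} (hS : IsSafe G w S) : sNum G w ≤ wt w S :=
  csInf_le sSet_finite.bddBelow ⟨S, hS, rfl⟩

theorem csNum_le {S : Set V} (hS : IsConnSafe G w S) : csNum G w ≤ wt w S :=
  csInf_le csSet_finite.bddBelow ⟨S, hS, rfl⟩

theorem exists_csNum (hG : G.Connected) (w : V → ℝ) :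
    ∃ S : Set V, IsConnSafe G w S ∧ wt w S = csNum G w := by
  have h : {x | ∃ S : Set V, IsConnSafe G w S ∧ wt w S = x}.Nonempty :=
    ⟨wt w Set.univ, Set.univ, univ_isConnSafe hG, rfl⟩
  exact h.csInf_mem csSet_finite

theorem exists_sNum (hG : G.Connected) (w : V → ℝ) :
    ∃ S : Set V, IsSafe G w S ∧ wt w S = sNum G w := by
  have h : {x | ∃ S : Set V, IsSafe G w S ∧ wt w S = x}.Nonempty :=
    ⟨wt w Set.univ, Set.univ, (univ_isConnSafe hG).1, rfl⟩
  exact h.csInf_mem sSet_finite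

theorem sNum_le_csNum (hG : G.Connected) (w : V → ℝ) : sNum G w ≤ csNum G w := by
  obtain ⟨S, hS, h⟩ := exists_csNum hG w
  rw [← h]
  exact sNum_le hS.1

/-- `G ∉ 𝒢^cs` as soon as some safe set is lighter than all connected safe sets. -/
theorem not_inGcs (w : V → ℝ) (hw : ∀ v, 0 ≤ w v) {S : Set V} (hS : IsSafe G w S)
    (h : ∀ T, IsConnSafe G w T → wt w S < wt w T) : ¬ InGcs G := by
  rintro ⟨hG, hall⟩
  obtain ⟨T, hT, hTc⟩ := exists_csNum hG w
  have h1 := h T hT
  have h2 := sNum_le hS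
  rw [hall w hw, ← hTc] at h2
  linarith

/-- `G ∈ 𝒢^cs` iff `G` is connected and every safe set is at least as heavy as some connected
safe set. -/
theorem inGcs_iff : InGcs G ↔ G.Connected ∧ ∀ w : V → ℝ, (∀ v, 0 ≤ w v) →
    ∀ S, IsSafe G w S → ∃ T, IsConnSafe G w T ∧ wt w T ≤ wt w S := by
  constructor
  · rintro ⟨hG, h⟩
    refine ⟨hG, fun w hw S hS => ?_⟩
    obtain ⟨T, hT, hTc⟩ := exists_csNum hG w
    refine ⟨T, hT, ?_⟩
    rw [hTc, ← h w hw]
    exact sNum_le hS
  · rintro ⟨hG, h⟩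
    refine ⟨hG, fun w hw => le_antisymm (sNum_le_csNum hG w) ?_⟩
    obtain ⟨S, hS, hSc⟩ := exists_sNum hG w
    obtain ⟨T, hT, hTS⟩ := h w hw S hS
    rw [← hSc]
    exact (csNum_le hT).trans hTS

end safe

end W_MP_9f10ef_co
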