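import Pool.Agent.W_MP_9f10ef_co.Defs

/-!
# MP_9f10ef_co, part (E): common definitions of the positive direction
-/

namespace W_MP_9f10ef_co

open Classical

universe u v

/-- Five class form of a bad 2-cut: `A`, `B` connected and nonadjacent, the rest falls into three
pairwise nonadjacent classes `D2`, `D3` and `D1` (the complement of the others) with
`D2 ~ A`, `D3 ~ B`, `D1 ~ A`, `D1 ~ B`. -/
def Bad5 {V : Type u} (G : SimpleGraph V) : Prop :=
  ∃ A B D2 D3 : Set V, Conn G A ∧ Conn G B ∧ Disjoint A B ∧ Disjoint (A ∪ B) (D2 ∪ D3) ∧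
    Disjoint D2 D3 ∧ ¬ Touch G A B ∧
    (∀ d ∈ D2, ∀ v, G.Adj d v → v ∈ A ∪ B ∪ D2) ∧ (∀ d ∈ D3, ∀ v, G.Adj d v → v ∈ A ∪ B ∪ D3) ∧
    Touch G D2 A ∧ Touch G D3 B ∧
    Touch G (A ∪ B ∪ D2 ∪ D3)ᶜ A ∧ Touch G (A ∪ B ∪ D2 ∪ D3)ᶜ B

/-- `G` has no `K_{m,n}` contraction with `2 ≤ m < n`. -/
def KFree {V : Type u} (G : SimpleGraph V) : Prop :=
  ∀ m n : ℕ, 2 ≤ m → m < n → ¬ ContractibleTo G (completeBipartiteGraph (Fin m) (Fin n))

/-- `X`, `Xᶜ` is a bipartition of `G`. -/
def Bip {V : Type u} (G : SimpleGraph V) (X : Set V) : Prop := ∀ u v, G.Adj u v → (u ∈ X ↔ v ∉ X)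

theorem Bip.compl {V : Type u} {G : SimpleGraph V} {X : Set V} (h : Bip G X) : Bip G Xᶜ := by
  intro u v huv
  have := h u v huv
  simp only [Set.mem_compl_iff, not_not]
  tauto

/-- A model of a complete bipartite graph, indexed by arbitrary finite types. -/
theorem KFree.card {V : Type u} {G : SimpleGraph V} (hK : KFree G) {α β : Type v} [Fintype α]
    [Fintype β] (f : V → α ⊕ β) (hf : ∀ i, Conn G (f ⁻¹' {i}))
    (h1 : ∀ a a' : α, a ≠ a' → ¬ Touch G (f ⁻¹' {Sum.inl a}) (f ⁻¹' {Sum.inl a'}))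
    (h2 : ∀ b b' : β, b ≠ b' → ¬ Touch G (f ⁻¹' {Sum.inr b}) (f ⁻¹' {Sum.inr b'}))
    (h3 : ∀ (a : α) (b : β), Touch G (f ⁻¹' {Sum.inl a}) (f ⁻¹' {Sum.inr b}))
    (ha : 2 ≤ Fintype.card α) (hb : 2 ≤ Fintype.card β) : Fintype.card α = Fintype.card β := by
  have key : ∀ {γ δ : Type v} [Fintype γ] [Fintype δ] (g : V → γ ⊕ δ)
      (_ : ∀ i, Conn G (g ⁻¹' {i}))
      (_ : ∀ a a' : γ, a ≠ a' → ¬ Touch G (g ⁻¹' {Sum.inl a}) (g ⁻¹' {Sum.inl a'}))
      (_ : ∀ b b' : δ, b ≠ b' → ¬ Touch G (g ⁻¹' {Sum.inr b}) (g ⁻¹' {Sum.inr b'}))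
      (_ : ∀ (a : γ) (b : δ), Touch G (g ⁻¹' {Sum.inl a}) (g ⁻¹' {Sum.inr b})),
      2 ≤ Fintype.card γ → ¬ Fintype.card γ < Fintype.card δ := by
    intro γ δ _ _ g hg g1 g2 g3 hγ hlt
    refine hK _ _ hγ hlt ?_
    set e : γ ⊕ δ ≃ Fin (Fintype.card γ) ⊕ Fin (Fintype.card δ) :=
      Equiv.sumCongr (Fintype.equivFin γ) (Fintype.equivFin δ) with he
    refine ⟨fun v => e (g v), ?_, ?_⟩
    · intro b
      have : (fun v => e (g v)) ⁻¹' {b} = g ⁻¹' {e.symm b} := by
        ext v
        simp [Equiv.eq_symm_apply]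
      rw [this]
      exact hg _
    · have hsplit : ∀ a b : γ ⊕ δ, a ≠ b →
          ((completeBipartiteGraph (Fin (Fintype.card γ)) (Fin (Fintype.card δ))).Adj (e a) (e b) ↔
            ∃ u v, g u = a ∧ g v = b ∧ G.Adj u v) := by
        intro a b hab
        rcases a with a | a <;> rcases b with b | b
        · constructor
          · intro h; simp [he] at h
          · rintro ⟨u, v, hu, hv, huv⟩
            exact absurd ⟨u, hu, v, hv, huv⟩ (g1 a b (fun h => hab (by rw [h])))
        · constructor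
          · intro _
            obtain ⟨u, hu, v, hv, huv⟩ := g3 a b
            exact ⟨u, v, hu, hv, huv⟩
          · intro _; simp [he]
        · constructor
          · intro _
            obtain ⟨u, hu, v, hv, huv⟩ := g3 b a
            exact ⟨v, u, hv, hu, huv.symm⟩
          · intro _; simp [he]
        · constructor
          · intro h; simp [he] at h
          · rintro ⟨u, v, hu, hv, huv⟩
            exact absurd ⟨u, hu, v, hv, huv⟩ (g2 a b (fun h => hab (by rw [h])))
      intro a b hab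
      have := hsplit (e.symm a) (e.symm b) (fun h => hab (e.symm.injective h))
      simp only [Equiv.apply_symm_apply] at this
      rw [this]
      simp only [Equiv.eq_symm_apply]
  apply le_antisymm
  · have := key (fun v => (f v).swap) ?_ ?_ ?_ ?_ hb
    · omega
    · intro i
      have : (fun v => (f v).swap) ⁻¹' {i} = f ⁻¹' {i.swap} := by
        ext v
        simp only [Set.mem_preimage, Set.mem_singleton_iff]
        constructor
        · intro h; rw [← h, Sum.swap_swap]
        · intro h; rw [h, Sum.swap_swap]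
      rw [this]; exact hf _
    · intro a a' hne ht
      apply h2 a a' hne
      obtain ⟨u, hu, v, hv, huv⟩ := ht
      refine ⟨u, ?_, v, ?_, huv⟩
      · have : (f u).swap = Sum.inl a := hu
        show f u = Sum.inr a
        rw [← Sum.swap_swap (f u), this]; rfl
      · have : (f v).swap = Sum.inl a' := hv
        show f v = Sum.inr a'
        rw [← Sum.swap_swap (f v), this]; rfl
    · intro a a' hne ht
      apply h1 a a' hne
      obtain ⟨u, hu, v, hv, huv⟩ := ht
      refine ⟨u, ?_, v, ?_, huv⟩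
      · have : (f u).swap = Sum.inr a := hu
        show f u = Sum.inl a
        rw [← Sum.swap_swap (f u), this]; rfl
      · have : (f v).swap = Sum.inr a' := hv
        show f v = Sum.inl a'
        rw [← Sum.swap_swap (f v), this]; rfl
    · intro a b
      obtain ⟨u, hu, v, hv, huv⟩ := h3 b a
      refine ⟨v, ?_, u, ?_, huv.symm⟩
      · show (f v).swap = Sum.inl a
        have : f v = Sum.inr a := hv
        rw [this]; rfl
      · show (f u).swap = Sum.inr b
        have : f u = Sum.inl b := hu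
        rw [this]; rfl
  · have := key f hf h1 h2 h3 ha
    omega

end W_MP_9f10ef_co
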