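import Pool.Agent.W_MP_9f10ef_co.Hier

/-!
# Theorem B1: good atoms in a `K_{m,n}` block structure exclude membership in `𝒢^cs`
-/

namespace W_MP_9f10ef_co

open Classical

universe u v

variable {V : Type u} [Fintype V] {G : SimpleGraph V} {ι : Type v} [Fintype ι]

omit [Fintype V] [Fintype ι] in
/-- In a block structure a family of pairwise non-touching blocks are the components of their
union. -/
theorem isComp_block {B : ι → Set V} {a : ι → V} (hB : IsBlocks G B a) {s : Finset ι}
    (hs : ∀ i ∈ s, ∀ j ∈ s, i ≠ j → ¬ Touch G (B i) (B j)) {i : ι} (hi : i ∈ s) :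
    IsComp G (⋃ j ∈ s, B j) (B i) := by
  refine isComp_of_closed (hB.conn i) (Set.subset_biUnion_of_mem (u := B) hi) ?_
  intro c hc x hx hcx
  simp only [Set.mem_iUnion] at hx
  obtain ⟨j, hj, hx⟩ := hx
  by_cases hij : i = j
  · rw [hij]; exact hx
  · exact absurd ⟨c, hc, x, hx, hcx⟩ (hs i hi j hj hij)

omit [Fintype V] [Fintype ι] in
theorem isComp_block_eq {B : ι → Set V} {a : ι → V} (hB : IsBlocks G B a) {s : Finset ι}
    (hs : ∀ i ∈ s, ∀ j ∈ s, i ≠ j → ¬ Touch G (B i) (B j)) {C : Set V}
    (hC : IsComp G (⋃ j ∈ s, B j) C) : ∃ i ∈ s, C = B i := by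
  obtain ⟨x, hx⟩ := hC.nonempty
  have hx' := hC.1 hx
  simp only [Set.mem_iUnion] at hx'
  obtain ⟨i, hi, hxi⟩ := hx'
  exact ⟨i, hi, hC.eq_of_mem (isComp_block hB hs hi) hx hxi⟩

omit [Fintype V] in
theorem compl_blocks {B : ι → Set V} {a : ι → V} (hB : IsBlocks G B a) (s : Finset ι) :
    (⋃ j ∈ s, B j)ᶜ = ⋃ j ∈ sᶜ, B j := by
  ext x
  obtain ⟨i, hi⟩ := hB.cover x
  simp only [Set.mem_compl_iff, Set.mem_iUnion, not_exists, Finset.mem_compl]
  constructor
  · intro h; exact ⟨i, fun hs => h i hs hi, hi⟩
  · rintro ⟨j, hj, hxj⟩ k hk hxk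
    have : j = k := by
      by_contra hne
      exact Set.disjoint_left.1 (hB.disj _ _ hne) hxj hxk
    exact hj (this ▸ hk)

/-- **Theorem B1.** Suppose the connected graph `G` is partitioned into connected blocks
`B i` (`i ∈ X`) and `B j` (`j ∉ X`), which form a `K_{m,n}` with `2 ≤ m = |X| < n`, and suppose
there are atoms `a i ∈ B i` such that for every set `C ≠ X` of at most `m` blocks the atoms outside
`C` contain a connected set with more than `min |C| (m - 1)` atoms.  Then `G ∉ 𝒢^cs`. -/
theorem not_inGcs_of_goodAtoms (hG : G.Connected) {B : ι → Set V} {a : ι → V}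
    (hB : IsBlocks G B a) (X : Finset ι) (hX : 2 ≤ X.card) (hXY : X.card < Xᶜ.card)
    (hXX : ∀ i ∈ X, ∀ j ∈ X, i ≠ j → ¬ Touch G (B i) (B j))
    (hYY : ∀ i ∉ X, ∀ j ∉ X, i ≠ j → ¬ Touch G (B i) (B j))
    (hT : ∀ i ∈ X, ∀ j ∉ X, Touch G (B i) (B j))
    (good : ∀ C : Finset ι, C.card ≤ X.card → C ≠ X →
      ∃ E : Finset ι, Disjoint E C ∧ min C.card (X.card - 1) < E.card ∧ Conn G (a '' (E : Set ι))) :
    ¬ InGcs G := by
  classical
  obtain ⟨w, M, τ, hw0, hτ0, hτM, hbd, hBM, hsM, hH⟩ :=
    exists_hier hB (fun i => if i ∈ X then 0 else 1)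
  have hMpos : 0 < M := by linarith
  -- the safe set
  set S : Set V := ⋃ i ∈ X, B i with hS
  have hSw : wt w S = X.card * M := hsM X
  have hYY' : ∀ i ∈ Xᶜ, ∀ j ∈ Xᶜ, i ≠ j → ¬ Touch G (B i) (B j) := by
    intro i hi j hj
    exact hYY i (Finset.mem_compl.1 hi) j (Finset.mem_compl.1 hj)
  have hXne : X.Nonempty := Finset.card_pos.1 (by omega)
  have hSsafe : IsSafe G w S := by
    refine ⟨?_, ?_⟩
    · obtain ⟨i, hi⟩ := hXne
      obtain ⟨x, hx⟩ := (hB.conn i).nonempty
      exact ⟨x, Set.mem_biUnion (x := i) hi hx⟩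
    · intro C D hC hD _
      obtain ⟨i, _, rfl⟩ := isComp_block_eq hB hXX hC
      rw [hS, compl_blocks hB] at hD
      obtain ⟨j, _, rfl⟩ := isComp_block_eq hB hYY' hD
      rw [hBM, hBM]
  refine not_inGcs w hw0 hSsafe ?_
  intro T hTs
  by_contra hcon
  push Not at hcon
  rw [hSw] at hcon
  set C : Finset ι := Finset.univ.filter fun i => a i ∈ T with hC
  have hCk : C.card = nAt a T := rfl
  -- H2: connected sets avoiding T have at most `nAt a T` atoms
  have H2 : ∀ D : Set V, Conn G D → Disjoint D T → nAt a D ≤ nAt a T := by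
    intro D hD hDT
    have h1 := hTs.wt_le hG hw0 hD hDT
    have h2 := (hbd D).1
    have h3 := (hbd T).2
    by_contra hlt
    push Not at hlt
    have h4 : ((nAt a T : ℝ) + 1) * M ≤ nAt a D * M := by
      apply mul_le_mul_of_nonneg_right _ hMpos.le
      exact_mod_cast hlt
    linarith
  have hk : C.card ≤ X.card := by
    by_contra hlt
    push Not at hlt
    have h1 := (hbd T).1
    have h4 : ((X.card : ℝ) + 1) * M ≤ nAt a T * M := by
      apply mul_le_mul_of_nonneg_right _ hMpos.le
      rw [← hCk]
      exact_mod_cast hlt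
    linarith
  have hainj : ∀ i j, a i = a j → i = j := by
    intro i j hij
    by_contra hne
    exact Set.disjoint_left.1 (hB.disj _ _ hne) (hB.mem i) (by rw [hij]; exact hB.mem j)
  by_cases hCX : C = X
  · -- all atoms of the X side lie in T
    have hkX : nAt a T = X.card := by rw [← hCk, hCX]
    have hTS : T ⊆ S := by
      have hYd : ∀ i, i ∉ X → (B i ⊆ T ∨ Disjoint (B i) T) := by
        rcases hH T hTs (by rw [hkX]; exact hcon) hG with h | ⟨_, j, hj, _, h⟩
        · intro i _; exact h i
        · intro i hi
          apply h i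
          have hjX : j ∈ X := by
            rw [← hCX, hC]; simpa using hj
          simp [hi, hjX]
      intro x hx
      obtain ⟨i, hi⟩ := hB.cover x
      by_cases hiX : i ∈ X
      · exact Set.mem_biUnion (x := i) hiX hi
      · exfalso
        rcases hYd i hiX with h | h
        · have : i ∈ C := by
            rw [hC]; simpa using h (hB.mem i)
          rw [hCX] at this
          exact hiX this
        · exact Set.disjoint_left.1 h hi hx
    obtain ⟨i, hi, j, hj, hij⟩ := Finset.one_lt_card.1 (show 1 < X.card by omega)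
    have hiT : a i ∈ T := by
      have : i ∈ C := by rw [hCX]; exact hi
      simpa [hC] using this
    have hjT : a j ∈ T := by
      have : j ∈ C := by rw [hCX]; exact hj
      simpa [hC] using this
    have hTB : T ⊆ B i :=
      (isComp_block hB hXX hi).subset_of_inter hTs.2 hTS ⟨a i, hB.mem i, hiT⟩
    exact Set.disjoint_left.1 (hB.disj _ _ hij) (hTB hjT) (hB.mem j)
  · obtain ⟨E, hEC, hEcard, hEconn⟩ := good C hk hCX
    have hET : Disjoint (a '' (E : Set ι)) T := by
      rw [Set.disjoint_left]
      rintro _ ⟨i, hi, rfl⟩ hiT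
      exact Finset.disjoint_left.1 hEC hi (by rw [hC]; simpa using hiT)
    have hEn : E.card ≤ nAt a (a '' (E : Set ι)) := by
      unfold nAt
      apply Finset.card_le_card
      intro i hi
      simp only [Finset.mem_filter, Finset.mem_univ, true_and]
      exact ⟨i, hi, rfl⟩
    have h2 := H2 _ hEconn hET
    by_cases hkm : C.card = X.card
    · have hkX : nAt a T = X.card := by rw [← hCk, hkm]
      rcases hH T hTs (by rw [hkX]; exact hcon) hG with h | ⟨h, _⟩
      · -- T is a union of blocks
        have hTc : Tᶜ = ⋃ i ∈ Cᶜ, B i := by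
          have : T = ⋃ i ∈ C, B i := by
            ext x
            simp only [Set.mem_iUnion]
            constructor
            · intro hx
              obtain ⟨i, hi⟩ := hB.cover x
              refine ⟨i, ?_, hi⟩
              rcases h i with h' | h'
              · rw [hC]; simpa using h' (hB.mem i)
              · exact absurd hx (Set.disjoint_left.1 h' hi)
            · rintro ⟨i, hi, hx⟩
              rcases h i with h' | h'
              · exact h' hx
              · exfalso
                have : a i ∈ T := by simpa [hC] using hi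
                exact Set.disjoint_left.1 h' (hB.mem i) this
          rw [this, compl_blocks hB]
        -- the complement is connected
        obtain ⟨x0, hx0, hx0C⟩ : ∃ i ∈ X, i ∉ C := by
          by_contra hno
          push Not at hno
          exact hCX (Finset.eq_of_subset_of_card_le hno hkm.le).symm
        obtain ⟨y0, hy0, hy0C⟩ : ∃ i ∈ Xᶜ, i ∉ C := by
          by_contra hno
          push Not at hno
          have := Finset.card_le_card (show Xᶜ ⊆ C from hno)
          omega
        have hy0' : y0 ∉ X := Finset.mem_compl.1 hy0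
        have hcon0 : Conn G (B x0 ∪ B y0) :=
          (hB.conn x0).union_touch (hB.conn y0) (hT x0 hx0 y0 hy0')
        have hconn : Conn G ((B x0 ∪ B y0) ∪ ⋃ i : {i // i ∉ C}, B i.1) := by
          refine hcon0.iUnion_of_touch (B := fun i : {i // i ∉ C} => B i.1)
            (fun i => hB.conn i.1) ?_
          intro i
          right
          by_cases hiX : i.1 ∈ X
          · exact ((hT i.1 hiX y0 hy0').symm).mono Set.subset_union_right subset_rfl
          · exact (hT x0 hx0 i.1 hiX).mono Set.subset_union_left subset_rfl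
        have hsub : ((B x0 ∪ B y0) ∪ ⋃ i : {i // i ∉ C}, B i.1) = Tᶜ := by
          rw [hTc]
          ext x
          simp only [Set.mem_union, Set.mem_iUnion, Finset.mem_compl, Subtype.exists,
            exists_prop]
          constructor
          · rintro ((h | h) | ⟨i, hi, hx⟩)
            · exact ⟨x0, hx0C, h⟩
            · exact ⟨y0, hy0C, h⟩
            · exact ⟨i, hi, hx⟩
          · rintro ⟨i, hi, hx⟩
            exact Or.inr ⟨i, hi, hx⟩
        rw [hsub] at hconn
        have h5 := H2 Tᶜ hconn disjoint_compl_left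
        have h6 : nAt a Tᶜ = Cᶜ.card := by
          unfold nAt
          congr 1
          ext i
          simp [hC]
        have h7 : Cᶜ.card + C.card = Xᶜ.card + X.card := by
          rw [Finset.card_compl_add_card, Finset.card_compl_add_card]
        omega
      · have h3 := h _ hEconn hET
        omega
    · have : C.card ≤ X.card - 1 := by omega
      rw [min_eq_left this] at hEcard
      omega

end W_MP_9f10ef_co
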