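import Pool.Agent.W_MP_9f10ef_co.Defs

/-!
# Hierarchical uniform weights

`V` is partitioned into connected blocks `B i` with atoms `a i ∈ B i`.  Every block gets total
weight `M`, the atoms are heavy, and the other vertices get weights `3 ^ rank`.
-/

namespace W_MP_9f10ef_co

open Classical

universe u v

variable {V : Type u} [Fintype V] {G : SimpleGraph V} {ι : Type v} [Fintype ι]

/-- A partition of the vertex set into connected blocks with a chosen atom in each block. -/
structure IsBlocks (G : SimpleGraph V) (B : ι → Set V) (a : ι → V) : Prop where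
  conn : ∀ i, Conn G (B i)
  disj : ∀ i j, i ≠ j → Disjoint (B i) (B j)
  cover : ∀ x, ∃ i, x ∈ B i
  mem : ∀ i, a i ∈ B i

/-- number of atoms in `X`. -/
noncomputable def nAt (a : ι → V) (X : Set V) : ℕ := (Finset.univ.filter fun i => a i ∈ X).card

omit [Fintype V] in
theorem nAt_mono (a : ι → V) {X Y : Set V} (h : X ⊆ Y) : nAt a X ≤ nAt a Y := by
  unfold nAt
  apply Finset.card_le_card
  intro i hi
  simp only [Finset.mem_filter, Finset.mem_univ, true_and] at hi ⊢
  exact h hi

/-! ### distance functions -/

omit [Fintype V] [Fintype ι] in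
theorem exists_dist {C : Set V} (hC : Conn G C) {a : V} (ha : a ∈ C) :
    ∃ d : V → ℕ, ∀ x ∈ C, x ≠ a → ∃ p ∈ C, G.Adj x p ∧ d p < d x := by
  classical
  refine ⟨fun x => if hx : x ∈ C then (G.induce C).dist ⟨x, hx⟩ ⟨a, ha⟩ else 0, ?_⟩
  intro x hx hxa
  obtain ⟨q, hq⟩ := hC.exists_walk_length_eq_dist ⟨x, hx⟩ ⟨a, ha⟩
  cases q with
  | nil => exact absurd rfl hxa
  | @cons _ p _ hxp q' =>
    refine ⟨p.1, p.2, hxp, ?_⟩
    simp only [dif_pos p.2, dif_pos hx]
    have h1 := SimpleGraph.dist_le q'
    simp only [SimpleGraph.Walk.length_cons] at hq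
    have h2 : (G.induce C).dist ⟨p.1, p.2⟩ ⟨a, ha⟩ ≤ q'.length := h1
    omega

/-! ### ranks -/

omit [Fintype ι] in
/-- ranks: injective, parents have higher rank, blocks of higher level have higher ranks. -/
theorem exists_rank {B : ι → Set V} {a : ι → V} (hB : IsBlocks G B a) (β : V → ι)
    (hβ : ∀ x, x ∈ B (β x)) (hβu : ∀ x i, x ∈ B i → β x = i) (ℓ : ι → ℕ) :
    ∃ r : V → ℕ, Function.Injective r ∧
      (∀ x, x ≠ a (β x) → ∃ p ∈ B (β x), G.Adj x p ∧ r x < r p) ∧
      (∀ x y, ℓ (β x) < ℓ (β y) → r x < r y) := by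
  classical
  choose d hd using fun i => exists_dist (hB.conn i) (hB.mem i)
  set D : V → ℕ := fun x => d (β x) x with hD
  set Dm : ℕ := Finset.univ.sup D with hDm
  have hDle : ∀ x, D x ≤ Dm := fun x => Finset.le_sup (f := D) (Finset.mem_univ x)
  set N : ℕ := Fintype.card V with hN
  set e := Fintype.equivFin V with he
  have hlt : ∀ x, (e x : ℕ) < N := fun x => (e x).2
  -- basic comparison
  have cmp : ∀ (p q : ℕ) (x y : V), p < q → p * N + (e x : ℕ) < q * N + (e y : ℕ) := by
    intro p q x y h
    have h1 : (p + 1) * N ≤ q * N := Nat.mul_le_mul_right N h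
    have h2 := hlt x
    have h3 : (p + 1) * N = p * N + N := by ring
    omega
  refine ⟨fun x => (ℓ (β x) * (Dm + 1) + (Dm - D x)) * N + (e x : ℕ), ?_, ?_, ?_⟩
  · intro x y hxy
    have hxy' : (ℓ (β x) * (Dm + 1) + (Dm - D x)) * N + (e x : ℕ) =
        (ℓ (β y) * (Dm + 1) + (Dm - D y)) * N + (e y : ℕ) := hxy
    have h1 : (e x : ℕ) = (e y : ℕ) := by
      have := congrArg (· % N) hxy'
      simpa [Nat.mul_comm, Nat.mul_add_mod, Nat.mod_eq_of_lt (hlt x), Nat.mod_eq_of_lt (hlt y)]
        using this
    exact e.injective (Fin.ext h1)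
  · intro x hx
    obtain ⟨p, hp, hxp, hdp⟩ := hd (β x) x (hβ x) hx
    refine ⟨p, hp, hxp, ?_⟩
    have hbp : β p = β x := hβu p _ hp
    apply cmp
    have h1 : D p < D x := by simp only [hD, hbp]; exact hdp
    have h2 := hDle x
    rw [hbp]
    omega
  · intro x y hxy
    apply cmp
    have h1 : (ℓ (β x) + 1) * (Dm + 1) ≤ ℓ (β y) * (Dm + 1) := Nat.mul_le_mul_right _ hxy
    have h2 : (ℓ (β x) + 1) * (Dm + 1) = ℓ (β x) * (Dm + 1) + (Dm + 1) := by ring
    omega

/-! ### sums of powers of three -/

theorem wt_pow_le {r : V → ℕ} (hr : Function.Injective r) {L : V → ℝ}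
    (hL : ∀ x, L x ≤ 3 ^ r x) (U : Set V) (n : ℕ) (hU : ∀ x ∈ U, r x < n) :
    wt L U ≤ ((3 : ℝ) ^ n - 1) / 2 := by
  rw [wt_eq_sum]
  calc ∑ x ∈ U.toFinset, L x ≤ ∑ x ∈ U.toFinset, (3 : ℝ) ^ r x :=
        Finset.sum_le_sum fun x _ => hL x
    _ = ∑ s ∈ U.toFinset.image r, (3 : ℝ) ^ s := by
        rw [Finset.sum_image fun x _ y _ h => hr h]
    _ ≤ ∑ s ∈ Finset.range n, (3 : ℝ) ^ s := by
        apply Finset.sum_le_sum_of_subset_of_nonneg
        · intro s hs
          simp only [Finset.mem_image, Set.mem_toFinset] at hs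
          obtain ⟨x, hx, rfl⟩ := hs
          exact Finset.mem_range.2 (hU x hx)
        · intro s _ _; positivity
    _ = ((3 : ℝ) ^ n - 1) / 2 := by
        rw [geom_sum_eq (by norm_num)]; norm_num

theorem wt_fun_add (f g : V → ℝ) (X : Set V) : wt (fun x => f x + g x) X = wt f X + wt g X := by
  unfold wt
  rw [← Finset.sum_add_distrib]
  refine Finset.sum_congr rfl fun x _ => ?_
  by_cases hx : x ∈ X <;> simp [hx]

/-! ### the main lemma -/

/-- **Hierarchical uniform weights.** -/
theorem exists_hier {B : ι → Set V} {a : ι → V} (hB : IsBlocks G B a) (ℓ : ι → ℕ) :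
    ∃ (w : V → ℝ) (M τ : ℝ), (∀ x, 0 ≤ w x) ∧ 0 ≤ τ ∧ 2 * τ < M ∧
      (∀ X : Set V, nAt a X * M - τ ≤ wt w X ∧ wt w X ≤ nAt a X * M + τ) ∧
      (∀ i, wt w (B i) = M) ∧
      (∀ s : Finset ι, wt w (⋃ i ∈ s, B i) = s.card * M) ∧
      (∀ T : Set V, IsConnSafe G w T → wt w T ≤ nAt a T * M →
        G.Connected →
        (∀ i, B i ⊆ T ∨ Disjoint (B i) T) ∨
        ((∀ D : Set V, Conn G D → Disjoint D T → nAt a D < nAt a T) ∧
          ∃ j, a j ∈ T ∧ ¬ B j ⊆ T ∧ ∀ i, ℓ j < ℓ i → (B i ⊆ T ∨ Disjoint (B i) T))) := by
  classical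
  choose β hβ using hB.cover
  have hβu : ∀ x i, x ∈ B i → β x = i := by
    intro x i hx
    by_contra hne
    exact Set.disjoint_left.1 (hB.disj _ _ hne) (hβ x) hx
  have hβa : ∀ i, β (a i) = i := fun i => hβu _ _ (hB.mem i)
  have hainj : Function.Injective a := fun i j h => by
    have := congrArg β h
    rwa [hβa, hβa] at this
  obtain ⟨r, hrinj, hrpar, hrlev⟩ := exists_rank hB β hβ hβu ℓ
  -- light weights
  set L : V → ℝ := fun x => if x = a (β x) then 0 else 3 ^ r x with hL
  have hL0 : ∀ x, 0 ≤ L x := by
    intro x; simp only [hL]; split_ifs <;> positivity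
  have hLle : ∀ x, L x ≤ 3 ^ r x := by
    intro x; simp only [hL]; split_ifs
    · positivity
    · exact le_rfl
  have hLeq : ∀ x, x ≠ a (β x) → L x = 3 ^ r x := by
    intro x hx; simp only [hL]; rw [if_neg hx]
  have hLa : ∀ i, L (a i) = 0 := by
    intro i; simp only [hL]; rw [if_pos (by rw [hβa])]
  set τ : ℝ := wt L Set.univ with hτ
  have hτ0 : 0 ≤ τ := wt_nonneg hL0 _
  have hLτ : ∀ X : Set V, wt L X ≤ τ := fun X => wt_mono hL0 (Set.subset_univ _)
  set M : ℝ := 2 * τ + 1 with hM
  set H : V → ℝ := fun x => if x = a (β x) then M - wt L (B (β x)) else 0 with hH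
  set w : V → ℝ := fun x => L x + H x with hw
  have hH0 : ∀ x, 0 ≤ H x := by
    intro x; simp only [hH]; split_ifs
    · have := hLτ (B (β x)); linarith
    · exact le_rfl
  have hw0 : ∀ x, 0 ≤ w x := fun x => add_nonneg (hL0 x) (hH0 x)
  -- positive and negative sets
  set pos : Set V → Set V := fun X => {x | x ∈ X ∧ a (β x) ∉ X} with hpos
  set neg : Set V → Set V := fun X => {x | x ∉ X ∧ a (β x) ∈ X} with hneg
  have hHsum : ∀ X : Set V, wt H X = nAt a X * M - wt L {x | a (β x) ∈ X} := by
    intro X
    have h1 : wt H X = ∑ i ∈ Finset.univ.filter (fun i => a i ∈ X), (M - wt L (B i)) := by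
      rw [wt_eq_sum]
      have h2 : ∀ x ∈ X.toFinset, x ∉ (Finset.univ.filter (fun i => a i ∈ X)).image a →
          H x = 0 := by
        intro x hx hx'
        simp only [hH]
        rw [if_neg]
        intro hxa
        apply hx'
        simp only [Finset.mem_image, Finset.mem_filter, Finset.mem_univ, true_and]
        refine ⟨β x, ?_, hxa.symm⟩
        rw [← hxa]; simpa using hx
      have h3 : (Finset.univ.filter (fun i => a i ∈ X)).image a ⊆ X.toFinset := by
        intro x hx
        simp only [Finset.mem_image, Finset.mem_filter, Finset.mem_univ, true_and] at hx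
        obtain ⟨i, hi, rfl⟩ := hx
        simpa using hi
      rw [← Finset.sum_subset h3 h2, Finset.sum_image fun i _ j _ h => hainj h]
      refine Finset.sum_congr rfl fun i _ => ?_
      simp only [hH]
      rw [if_pos (by rw [hβa]), hβa]
    rw [h1, Finset.sum_sub_distrib, Finset.sum_const, nsmul_eq_mul]
    congr 1
    rw [wt_eq_sum]
    have h4 : ∀ x ∈ ({x | a (β x) ∈ X} : Set V).toFinset,
        β x ∈ Finset.univ.filter (fun i => a i ∈ X) := by
      intro x hx
      simpa using hx
    rw [← Finset.sum_fiberwise_of_maps_to h4]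
    refine Finset.sum_congr rfl fun i hi => ?_
    rw [wt_eq_sum]
    apply Finset.sum_congr _ fun _ _ => rfl
    ext x
    simp only [Finset.mem_filter, Finset.mem_univ, true_and] at hi
    simp only [Finset.mem_filter, Set.mem_toFinset, Set.mem_ofPred_eq]
    constructor
    · intro hx
      have := hβu x i hx
      exact ⟨by rw [this]; exact hi, this⟩
    · rintro ⟨_, rfl⟩
      exact hβ x
  have hform : ∀ X : Set V, wt w X = nAt a X * M + wt L (pos X) - wt L (neg X) := by
    intro X
    have h1 : wt w X = wt L X + wt H X := wt_fun_add L H X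
    have h2 : wt L X = wt L (X ∩ {x | a (β x) ∈ X}) + wt L (pos X) := by
      rw [← wt_union]
      · congr 1
        ext x
        by_cases hx : x ∈ X <;> by_cases hy : a (β x) ∈ X <;> simp [hpos, hx, hy]
      · rw [Set.disjoint_left]
        rintro x ⟨_, hx⟩ ⟨_, hx'⟩
        exact hx' hx
    have h3 : wt L {x | a (β x) ∈ X} = wt L (X ∩ {x | a (β x) ∈ X}) + wt L (neg X) := by
      rw [← wt_union]
      · congr 1
        ext x
        by_cases hx : x ∈ X <;> by_cases hy : a (β x) ∈ X <;> simp [hneg, hx, hy]
      · rw [Set.disjoint_left]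
        rintro x ⟨hx, _⟩ ⟨hx', _⟩
        exact hx' hx
    rw [h1, hHsum, h2, h3]
    ring
  refine ⟨w, M, τ, hw0, hτ0, by linarith, ?_, ?_, ?_, ?_⟩
  · intro X
    rw [hform X]
    have h1 := hLτ (pos X)
    have h2 := hLτ (neg X)
    have h3 : 0 ≤ wt L (pos X) := wt_nonneg hL0 _
    have h4 : 0 ≤ wt L (neg X) := wt_nonneg hL0 _
    constructor <;> linarith
  · intro i
    rw [hform]
    have h1 : pos (B i) = ∅ := by
      ext x
      simp only [hpos, Set.mem_ofPred_eq, Set.mem_empty_iff_false, iff_false, not_and, not_not]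
      intro hx
      rw [hβu x i hx]; exact hB.mem i
    have h2 : neg (B i) = ∅ := by
      ext x
      simp only [hneg, Set.mem_ofPred_eq, Set.mem_empty_iff_false, iff_false, not_and]
      intro hx hx'
      apply hx
      have := hβu _ _ hx'
      rw [hβa] at this
      rw [← this]; exact hβ x
    have h3 : nAt a (B i) = 1 := by
      unfold nAt
      rw [Finset.card_eq_one]
      refine ⟨i, ?_⟩
      ext j
      simp only [Finset.mem_filter, Finset.mem_univ, true_and, Finset.mem_singleton]
      constructor
      · intro hj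
        have := hβu _ _ hj
        rwa [hβa] at this
      · rintro rfl; exact hB.mem _
    rw [h1, h2, h3, wt_empty]; simp
  · intro s
    rw [hform]
    have h1 : pos (⋃ i ∈ s, B i) = ∅ := by
      ext x
      simp only [hpos, Set.mem_ofPred_eq, Set.mem_empty_iff_false, iff_false, not_and, not_not]
      intro hx
      simp only [Set.mem_iUnion] at hx ⊢
      obtain ⟨i, hi, hx⟩ := hx
      refine ⟨i, hi, ?_⟩
      rw [hβu x i hx]; exact hB.mem i
    have h2 : neg (⋃ i ∈ s, B i) = ∅ := by
      ext x
      simp only [hneg, Set.mem_ofPred_eq, Set.mem_empty_iff_false, iff_false, not_and]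
      intro hx hx'
      apply hx
      simp only [Set.mem_iUnion] at hx' ⊢
      obtain ⟨i, hi, hx'⟩ := hx'
      refine ⟨i, hi, ?_⟩
      have := hβu _ _ hx'
      rw [hβa] at this
      rw [← this]; exact hβ x
    have h3 : nAt a (⋃ i ∈ s, B i) = s.card := by
      unfold nAt
      congr 1
      ext j
      simp only [Finset.mem_filter, Finset.mem_univ, true_and, Set.mem_iUnion]
      constructor
      · rintro ⟨i, hi, hj⟩
        have := hβu _ _ hj
        rw [hβa] at this
        rwa [this]
      · intro hj; exact ⟨j, hj, hB.mem _⟩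
    rw [h1, h2, h3, wt_empty]; simp
  · intro T hT hTw hG
    by_cases hsep : (pos T ∪ neg T).Nonempty
    · right
      -- the highest separated vertex
      obtain ⟨z, hz, hzmax⟩ := Set.exists_max_image (pos T ∪ neg T) r (Set.toFinite _) hsep
      have hT1 := hform T
      have hlow : ∀ x ∈ pos T ∪ neg T, x ≠ z → r x < r z := by
        intro x hx hne
        exact lt_of_le_of_ne (hzmax x hx) fun h => hne (hrinj h)
      have hzL : L z = 3 ^ r z := by
        apply hLeq
        intro h
        rcases hz with hz | hz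
        · exact hz.2 (by rw [← h]; exact hz.1)
        · exact hz.1 (by rw [h]; exact hz.2)
      have hzneg : z ∈ neg T := by
        rcases hz with hz | hz
        · exfalso
          have h1 : (3 : ℝ) ^ r z ≤ wt L (pos T) := by
            rw [← hzL]; exact le_wt_of_mem hL0 hz
          have h2 : wt L (neg T) ≤ ((3 : ℝ) ^ r z - 1) / 2 := by
            apply wt_pow_le hrinj hLle
            intro x hx
            apply hlow x (Or.inr hx)
            rintro rfl
            exact hx.1 hz.1
          have h3 : (0 : ℝ) < 3 ^ r z := by positivity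
          linarith
        · exact hz
      have h1 : (3 : ℝ) ^ r z ≤ wt L (neg T) := by
        rw [← hzL]; exact le_wt_of_mem hL0 hzneg
      have h2 : wt L (pos T) ≤ ((3 : ℝ) ^ r z - 1) / 2 := by
        apply wt_pow_le hrinj hLle
        intro x hx
        apply hlow x (Or.inl hx)
        rintro rfl
        exact hzneg.1 hx.1
      refine ⟨?_, β z, hzneg.2, fun h => hzneg.1 (h (hβ z)), ?_⟩
      · intro D hD hDT
        obtain ⟨D', hD', hDD'⟩ := exists_comp (X := Tᶜ) hD
          (Set.subset_compl_iff_disjoint_right.2 hDT)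
        refine lt_of_le_of_lt (nAt_mono a hDD') ?_
        by_contra hcon
        push Not at hcon
        -- non-atoms missing from D' but whose atom is in D' have low rank
        have key : ∀ n : ℕ, ∀ x, (∀ y, r y ≤ r x + n) → a (β x) ∈ D' →
            x ∈ D' ∨ ∃ u ∈ pos T, r x ≤ r u := by
          intro n
          induction n with
          | zero =>
            intro x hmax hx
            by_cases hxa : x = a (β x)
            · left; rw [hxa]; exact hx
            · obtain ⟨p, _, _, hp⟩ := hrpar x hxa
              have := hmax p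
              omega
          | succ n ih =>
            intro x hmax hx
            by_cases hxa : x = a (β x)
            · left; rw [hxa]; exact hx
            · obtain ⟨p, hpB, hxp, hp⟩ := hrpar x hxa
              have hbp : β p = β x := hβu _ _ hpB
              rcases ih p (fun y => by have := hmax y; omega) (by rw [hbp]; exact hx) with h | h
              · by_cases hxT : x ∈ T
                · right
                  exact ⟨x, ⟨hxT, fun h' => hD'.1 hx h'⟩, le_rfl⟩
                · left
                  exact hD'.mem_of_adj h hxT hxp.symm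
              · obtain ⟨u, hu, hur⟩ := h
                right
                exact ⟨u, hu, by omega⟩
        have h3 : wt L (neg D') ≤ ((3 : ℝ) ^ r z - 1) / 2 := by
          apply wt_pow_le hrinj hLle
          intro x hx
          rcases key (Finset.univ.sup r) x
            (fun y => (Finset.le_sup (f := r) (Finset.mem_univ y)).trans (Nat.le_add_left _ _))
            hx.2 with h | ⟨u, hu, hur⟩
          · exact absurd h hx.1
          · have : r u < r z := hlow u (Or.inl hu) (by
              rintro rfl
              exact hzneg.1 hu.1)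
            omega
        have h4 : wt w D' ≤ wt w T :=
          hT.1.2 T D' hT.2.isComp_self hD' (hD'.touch_of_connected hG hT.1.1)
        have h5 := hform D'
        have h6 : 0 ≤ wt L (pos D') := wt_nonneg hL0 _
        have h7 : (nAt a T : ℝ) * M ≤ nAt a D' * M := by
          apply mul_le_mul_of_nonneg_right _ (by linarith)
          exact_mod_cast hcon
        have h8 : (0 : ℝ) < 3 ^ r z := by positivity
        linarith
      · intro i hi
        by_cases hai : a i ∈ T
        · left
          intro x hx
          by_contra hxT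
          have hxi := hβu x i hx
          have h9 : x ∈ neg T := ⟨hxT, by rw [hxi]; exact hai⟩
          have h10 := hzmax x (Or.inr h9)
          have h11 := hrlev z x (by rw [hxi]; exact hi)
          omega
        · right
          rw [Set.disjoint_left]
          intro x hx hxT
          have hxi := hβu x i hx
          have h9 : x ∈ pos T := ⟨hxT, by rw [hxi]; exact hai⟩
          have h10 := hzmax x (Or.inl h9)
          have h11 := hrlev z x (by rw [hxi]; exact hi)
          omega
    · left
      rw [Set.not_nonempty_iff_eq_empty] at hsep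
      intro i
      by_cases hai : a i ∈ T
      · left
        intro x hx
        by_contra hxT
        have : x ∈ pos T ∪ neg T := Or.inr ⟨hxT, by rw [hβu x i hx]; exact hai⟩
        rw [hsep] at this
        exact this
      · right
        rw [Set.disjoint_left]
        intro x hx hxT
        have : x ∈ pos T ∪ neg T := Or.inl ⟨hxT, by rw [hβu x i hx]; exact hai⟩
        rw [hsep] at this
        exact this

end W_MP_9f10ef_co
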